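import Pool.Agent.Work.MP_b30479_gt.VC.GaussND

/-!
# Laplace method on a set in `ℝ^N`, and quadratic forms

`laplace_nd`: dominated convergence on the scale `1/√ν`.
`IsQ`: quadratic forms; `IsQ.integral_ne_zero`.
-/

namespace Pool.Agent.Work.MP_b30479_gt.VC

open Filter Topology MeasureTheory Matrix

variable {ι : Type*} [Fintype ι]

theorem laplace_nd {S : Set (ι → ℝ)} (hS : MeasurableSet S) {x0 : ι → ℝ} (hx : S ∈ 𝓝 x0)
    {ν : ℕ → ℝ} (hν : Tendsto ν atTop atTop) {F : ℕ → (ι → ℝ) → ℂ} (hm : ∀ s, Measurable (F s))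
    {C c : ℝ} (hc : 0 < c)
    (hb : ∀ᶠ s in atTop, ∀ x ∈ S, ‖F s x‖ ≤ C * Real.exp (-(ν s * (c * ∑ i, (x i - x0 i) ^ 2))))
    {G : (ι → ℝ) → ℂ}
    (hG : ∀ X, Tendsto (fun s => F s (fun i => x0 i + X i / √(ν s))) atTop (𝓝 (G X))) :
    Tendsto (fun s => ((ν s ^ ((Fintype.card ι : ℝ) / 2) : ℝ) : ℂ) * ∫ x in S, F s x) atTop
      (𝓝 (∫ X, G X)) := by
  have hsq : Tendsto (fun s => √(ν s)) atTop atTop := Real.tendsto_sqrt_atTop.comp hν
  have hpt : ∀ X : ι → ℝ, Tendsto (fun s => (fun i => x0 i + X i / √(ν s) : ι → ℝ)) atTop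
      (𝓝 x0) := by
    intro X
    rw [tendsto_pi_nhds]
    intro i
    have h1 : Tendsto (fun s => X i / √(ν s)) atTop (𝓝 0) := tendsto_const_nhds.div_atTop hsq
    simpa using h1.const_add (x0 i)
  have hkey : ∀ᶠ s in atTop, ((ν s ^ ((Fintype.card ι : ℝ) / 2) : ℝ) : ℂ) * ∫ x in S, F s x =
      ∫ X : ι → ℝ, S.indicator (F s) (fun i => x0 i + X i / √(ν s)) := by
    filter_upwards [hν.eventually_gt_atTop 0] with s hs
    have hr : 0 < √(ν s) := Real.sqrt_pos.mpr hs
    rw [← integral_indicator hS]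
    have h1 := Measure.integral_comp_inv_smul_of_nonneg (volume : Measure (ι → ℝ))
      (fun X => S.indicator (F s) (x0 + X)) hr.le
    have h2 : (fun X : ι → ℝ => S.indicator (F s) (fun i => x0 i + X i / √(ν s))) =
        fun X => S.indicator (F s) (x0 + (√(ν s))⁻¹ • X) := by
      funext X
      congr 1
      funext i
      simp [div_eq_inv_mul]
    rw [h2]
    refine Eq.trans ?_ h1.symm
    rw [integral_add_left_eq_self, Module.finrank_fintype_fun_eq_card, Complex.real_smul]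
    congr 2
    rw [Real.sqrt_eq_rpow, ← Real.rpow_natCast, ← Real.rpow_mul hs.le]
    congr 1
    ring
  refine Tendsto.congr' (EventuallyEq.symm hkey) ?_
  refine tendsto_integral_filter_of_dominated_convergence
    (fun X => |C| * Real.exp (-c * ∑ i, X i ^ 2)) ?_ ?_ ?_ ?_
  · refine Eventually.of_forall fun s => ?_
    refine Measurable.aestronglyMeasurable ?_
    refine ((hm s).indicator hS).comp ?_
    fun_prop
  · filter_upwards [hb, hν.eventually_gt_atTop 0] with s h hs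
    refine Eventually.of_forall fun X => ?_
    by_cases hX : (fun i => x0 i + X i / √(ν s)) ∈ S
    · rw [Set.indicator_of_mem hX]
      refine (h _ hX).trans ?_
      have h3 : -(ν s * (c * ∑ i, (x0 i + X i / √(ν s) - x0 i) ^ 2)) = -c * ∑ i, X i ^ 2 := by
        have h4 : ∑ i, (x0 i + X i / √(ν s) - x0 i) ^ 2 = (∑ i, X i ^ 2) / ν s := by
          rw [Finset.sum_div]
          refine Finset.sum_congr rfl fun i _ => ?_
          rw [add_sub_cancel_left, div_pow, Real.sq_sqrt hs.le]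
        rw [h4]
        field_simp
      rw [h3]
      exact mul_le_mul_of_nonneg_right (le_abs_self C) (Real.exp_pos _).le
    · rw [Set.indicator_of_notMem hX, norm_zero]
      positivity
  · exact (integrable_rexp_neg_sum hc).const_mul _
  · refine Eventually.of_forall fun X => ?_
    refine (hG X).congr' ?_
    filter_upwards [(hpt X).eventually_mem hx] with s hs
    rw [Set.indicator_of_mem hs]

/-- the limit function satisfies the Gaussian bound -/
theorem laplace_nd_bound {S : Set (ι → ℝ)} {x0 : ι → ℝ} (hx : S ∈ 𝓝 x0)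
    {ν : ℕ → ℝ} (hν : Tendsto ν atTop atTop) {F : ℕ → (ι → ℝ) → ℂ} {C c : ℝ}
    (hb : ∀ᶠ s in atTop, ∀ x ∈ S, ‖F s x‖ ≤ C * Real.exp (-(ν s * (c * ∑ i, (x i - x0 i) ^ 2))))
    {G : (ι → ℝ) → ℂ}
    (hG : ∀ X, Tendsto (fun s => F s (fun i => x0 i + X i / √(ν s))) atTop (𝓝 (G X)))
    (X : ι → ℝ) : ‖G X‖ ≤ C * Real.exp (-(c * ∑ i, X i ^ 2)) := by
  have hsq : Tendsto (fun s => √(ν s)) atTop atTop := Real.tendsto_sqrt_atTop.comp hν
  have hpt : Tendsto (fun s => (fun i => x0 i + X i / √(ν s) : ι → ℝ)) atTop (𝓝 x0) := by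
    rw [tendsto_pi_nhds]
    intro i
    have h1 : Tendsto (fun s => X i / √(ν s)) atTop (𝓝 0) := tendsto_const_nhds.div_atTop hsq
    simpa using h1.const_add (x0 i)
  refine le_of_tendsto (hG X).norm ?_
  filter_upwards [hb, hν.eventually_gt_atTop 0, hpt.eventually_mem hx] with s h hs hX
  refine (h _ hX).trans (le_of_eq ?_)
  congr 2
  have h4 : ∑ i, (x0 i + X i / √(ν s) - x0 i) ^ 2 = (∑ i, X i ^ 2) / ν s := by
    rw [Finset.sum_div]
    refine Finset.sum_congr rfl fun i _ => ?_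
    rw [add_sub_cancel_left, div_pow, Real.sq_sqrt hs.le]
  rw [h4]
  field_simp

/-- quadratic forms with complex coefficients -/
def IsQ (Q : (ι → ℝ) → ℂ) : Prop := ∃ A : Matrix ι ι ℂ, A.IsSymm ∧ ∀ X, Q X = qform A X

theorem qform_add (A B : Matrix ι ι ℂ) (X : ι → ℝ) :
    qform (A + B) X = qform A X + qform B X := by
  unfold qform
  rw [← Finset.sum_add_distrib]
  refine Finset.sum_congr rfl fun i _ => ?_
  rw [← Finset.sum_add_distrib]
  refine Finset.sum_congr rfl fun j _ => ?_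
  rw [Matrix.add_apply]
  ring

theorem qform_smul (a : ℂ) (A : Matrix ι ι ℂ) (X : ι → ℝ) :
    qform (a • A) X = a * qform A X := by
  unfold qform
  rw [Finset.mul_sum]
  refine Finset.sum_congr rfl fun i _ => ?_
  rw [Finset.mul_sum]
  refine Finset.sum_congr rfl fun j _ => ?_
  rw [Matrix.smul_apply, smul_eq_mul]
  ring

theorem IsQ.zero : IsQ (fun _ : ι → ℝ => (0 : ℂ)) :=
  ⟨0, Matrix.transpose_zero, fun X => by simp [qform]⟩

theorem IsQ.add {Q R : (ι → ℝ) → ℂ} (hQ : IsQ Q) (hR : IsQ R) : IsQ fun X => Q X + R X := by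
  obtain ⟨A, hA, h1⟩ := hQ
  obtain ⟨B, hB, h2⟩ := hR
  exact ⟨A + B, hA.add hB, fun X => by simp only [qform_add, h1, h2]⟩

theorem IsQ.const_mul {Q : (ι → ℝ) → ℂ} (hQ : IsQ Q) (a : ℂ) : IsQ fun X => a * Q X := by
  obtain ⟨A, hA, h1⟩ := hQ
  exact ⟨a • A, hA.smul a, fun X => by simp only [qform_smul, h1]⟩

theorem IsQ.neg {Q : (ι → ℝ) → ℂ} (hQ : IsQ Q) : IsQ fun X => -Q X := by
  have := hQ.const_mul (-1)
  simpa using this

theorem IsQ.sub {Q R : (ι → ℝ) → ℂ} (hQ : IsQ Q) (hR : IsQ R) : IsQ fun X => Q X - R X := by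
  have := hQ.add hR.neg
  simpa [sub_eq_add_neg] using this

theorem IsQ.sum {κ : Type*} (s : Finset κ) {Q : κ → (ι → ℝ) → ℂ} (hQ : ∀ k ∈ s, IsQ (Q k)) :
    IsQ fun X => ∑ k ∈ s, Q k X := by
  classical
  induction s using Finset.induction_on with
  | empty => simpa using IsQ.zero
  | insert a s ha ih =>
    simp only [Finset.sum_insert ha]
    exact (hQ a (Finset.mem_insert_self a s)).add
      (ih fun k hk => hQ k (Finset.mem_insert_of_mem hk))

/-- the square of a linear form -/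
theorem IsQ.sq (u : ι → ℂ) : IsQ fun X => (∑ i, u i * X i) ^ 2 := by
  refine ⟨Matrix.of fun i j => u i * u j, ?_, fun X => ?_⟩
  · ext i j
    simp only [Matrix.transpose_apply, Matrix.of_apply]
    exact mul_comm _ _
  · simp only [qform, Matrix.of_apply]
    rw [_root_.sq, Finset.sum_mul_sum]
    refine Finset.sum_congr rfl fun i _ => Finset.sum_congr rfl fun j _ => by ring

theorem IsQ.apply_sq [DecidableEq ι] (i : ι) : IsQ fun X => (X i : ℂ) ^ 2 := by
  have := IsQ.sq (ι := ι) (fun j => if j = i then 1 else 0)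
  simpa using this

theorem IsQ.lin_sq [DecidableEq ι] (i j : ι) (a b : ℂ) :
    IsQ fun X => (a * X i + b * X j) ^ 2 := by
  have := IsQ.sq (ι := ι) (fun k => (if k = i then a else 0) + (if k = j then b else 0))
  simpa [add_mul, Finset.sum_add_distrib] using this

theorem IsQ.homog {Q : (ι → ℝ) → ℂ} (hQ : IsQ Q) (t : ℝ) (X : ι → ℝ) :
    Q (fun i => t * X i) = t ^ 2 * Q X := by
  obtain ⟨A, -, h⟩ := hQ
  rw [h, h]
  unfold qform
  rw [Finset.mul_sum]
  refine Finset.sum_congr rfl fun i _ => ?_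
  rw [Finset.mul_sum]
  refine Finset.sum_congr rfl fun j _ => ?_
  push_cast
  ring

theorem IsQ.continuous {Q : (ι → ℝ) → ℂ} (hQ : IsQ Q) : Continuous Q := by
  classical
  obtain ⟨A, -, h⟩ := hQ
  rw [show Q = qform A from funext h]
  exact continuous_qform A

/-- from an exponential bound to a bound of the real part -/
theorem IsQ.re_le {Q : (ι → ℝ) → ℂ} (hQ : IsQ Q) {C c : ℝ}
    (h : ∀ X, Real.exp (Q X).re ≤ C * Real.exp (-(c * ∑ i, X i ^ 2))) (X : ι → ℝ) :
    (Q X).re ≤ -(c * ∑ i, X i ^ 2) := by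
  have hC : 0 < C := by
    have h0 := h 0
    have h1 := (Real.exp_pos (Q 0).re).trans_le h0
    exact pos_of_mul_pos_left h1 (Real.exp_pos _).le
  have h1 : ∀ t : ℝ, t ^ 2 * (Q X).re ≤ Real.log C + -(t ^ 2 * (c * ∑ i, X i ^ 2)) := by
    intro t
    have h2 := h (fun i => t * X i)
    rw [hQ.homog] at h2
    have h3 := Real.log_le_log (Real.exp_pos _) h2
    rw [Real.log_exp, Real.log_mul hC.ne' (Real.exp_pos _).ne', Real.log_exp] at h3
    have h4 : ∑ i, (t * X i) ^ 2 = t ^ 2 * ∑ i, X i ^ 2 := by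
      rw [Finset.mul_sum]
      exact Finset.sum_congr rfl fun i _ => by ring
    rw [h4] at h3
    have h5 : ((t : ℂ) ^ 2 * Q X).re = t ^ 2 * (Q X).re := by
      rw [← Complex.ofReal_pow, Complex.re_ofReal_mul]
    rw [h5] at h3
    linarith
  by_contra hcon
  push_neg at hcon
  set d := (Q X).re + c * ∑ i, X i ^ 2 with hd
  have hd0 : 0 < d := by linarith
  have h6 := h1 (√((|Real.log C| + 1) / d))
  rw [Real.sq_sqrt (by positivity)] at h6
  have h7 : (|Real.log C| + 1) / d * d = |Real.log C| + 1 := by field_simp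
  have h8 : (|Real.log C| + 1) / d * (Q X).re + (|Real.log C| + 1) / d * (c * ∑ i, X i ^ 2) =
      |Real.log C| + 1 := by rw [← mul_add, ← hd, h7]
  have := le_abs_self (Real.log C)
  linarith

theorem IsQ.integral_ne_zero {Q : (ι → ℝ) → ℂ} (hQ : IsQ Q) {C c : ℝ} (hc : 0 < c)
    (h : ∀ X, Real.exp (Q X).re ≤ C * Real.exp (-(c * ∑ i, X i ^ 2))) :
    ∫ X, Complex.exp (Q X) ≠ 0 := by
  classical
  have hre := hQ.re_le h
  obtain ⟨A, hA, h1⟩ := hQ.neg
  have h2 : ∀ X, Q X = -qform A X := fun X => by rw [← h1, neg_neg]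
  simp_rw [h2]
  refine integral_gauss_ne_zero hA ?_
  refine Matrix.PosDef.of_dotProduct_mulVec_pos ?_ fun x hx => ?_
  · ext i j
    simp only [Matrix.conjTranspose_apply, Matrix.map_apply, star_trivial]
    rw [← hA.apply]
  · have h3 : star x ⬝ᵥ (A.map Complex.re *ᵥ x) = (qform A x).re := by
      unfold qform
      rw [Complex.re_sum]
      simp only [dotProduct, mulVec, Finset.mul_sum, Pi.star_apply, star_trivial]
      refine Finset.sum_congr rfl fun i _ => ?_
      rw [Complex.re_sum]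
      refine Finset.sum_congr rfl fun j _ => ?_
      rw [Matrix.map_apply, Complex.re_mul_ofReal, Complex.re_mul_ofReal]
      ring
    rw [h3]
    have h4 := hre x
    rw [h2, Complex.neg_re] at h4
    obtain ⟨i, hi⟩ : ∃ i, x i ≠ 0 := by
      by_contra hcon
      push_neg at hcon
      exact hx (funext hcon)
    have h5 : 0 < ∑ i, x i ^ 2 :=
      Finset.sum_pos' (fun i _ => sq_nonneg _) ⟨i, Finset.mem_univ i, by positivity⟩
    have : 0 < c * ∑ i, x i ^ 2 := mul_pos hc h5
    linarith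

end Pool.Agent.Work.MP_b30479_gt.VC
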