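import Mathlib

/-!
# The midpoint Abel-Plana formula for finite sums

For `g` continuous on a closed vertical strip `a - 1/2 ≤ Re z ≤ b + 1/2`, holomorphic inside and
of growth `O(exp (c |Im z|))`, `c < 2 π`, the finite sum of `g k`, `a ≤ k ≤ b`, equals an integral
over a horizontal segment at any height `τ` plus two integrals over the vertical sides of the strip
with the explicit weight `kap τ`.
-/

namespace Pool.Agent.Work.MP_b30479_gt.VC

open MeasureTheory Complex Set Filter Topology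

variable {E : Type*} [NormedAddCommGroup E] [NormedSpace ℂ E]

/-- The closed vertical strip. -/
def strip (a b : ℝ) : Set ℂ := {z | a ≤ z.re ∧ z.re ≤ b}

/-- The open vertical strip. -/
def ostrip (a b : ℝ) : Set ℂ := {z | a < z.re ∧ z.re < b}

theorem isOpen_ostrip (a b : ℝ) : IsOpen (ostrip a b) := by
  have h1 : IsOpen {z : ℂ | a < z.re} := isOpen_lt continuous_const continuous_re
  have h2 : IsOpen {z : ℂ | z.re < b} := isOpen_lt continuous_re continuous_const
  exact h1.inter h2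

theorem ostrip_subset_strip (a b : ℝ) : ostrip a b ⊆ strip a b := fun _ h => ⟨h.1.le, h.2.le⟩

theorem strip_mono {a b a' b' : ℝ} (ha : a ≤ a') (hb : b' ≤ b) : strip a' b' ⊆ strip a b :=
  fun _ h => ⟨ha.trans h.1, h.2.trans hb⟩

theorem ostrip_mono {a b a' b' : ℝ} (ha : a ≤ a') (hb : b' ≤ b) : ostrip a' b' ⊆ ostrip a b :=
  fun _ h => ⟨ha.trans_lt h.1, h.2.trans_le hb⟩

/-- **Rectangle shift.** -/
theorem rect_shift [CompleteSpace E] {g : ℂ → E} {a b : ℝ} (hab : a ≤ b)
    (hc : ContinuousOn g (strip a b)) (hd : DifferentiableOn ℂ g (ostrip a b)) (s t : ℝ) :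
    (∫ x : ℝ in a..b, g (x + s * I)) = (∫ x : ℝ in a..b, g (x + t * I)) +
      I • (∫ y : ℝ in s..t, g (a + y * I)) - I • (∫ y : ℝ in s..t, g (b + y * I)) := by
  have h := Complex.integral_boundary_rect_eq_zero_of_continuousOn_of_differentiableOn g
    (⟨a, s⟩ : ℂ) (⟨b, t⟩ : ℂ)
    (hc.mono (by
      rintro z ⟨hz, -⟩
      simp only [mem_preimage, uIcc_of_le hab, mem_Icc] at hz
      exact hz))
    (hd.mono (by
      rintro z ⟨hz, -⟩
      simp only [mem_preimage, min_eq_left hab, max_eq_right hab, mem_Ioo] at hz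
      exact hz))
  simp only at h
  have h' := h
  rw [sub_eq_zero] at h'
  rw [← sub_eq_zero, ← h]
  abel

/-- The closed upper half strip. -/
def hstrip (a b : ℝ) : Set ℂ := {z | a ≤ z.re ∧ z.re ≤ b ∧ 0 ≤ z.im}

/-- The open upper half strip. -/
def ohstrip (a b : ℝ) : Set ℂ := {z | a < z.re ∧ z.re < b ∧ 0 < z.im}

theorem rect_half [CompleteSpace E] {F : ℂ → E} {a b : ℝ} (hab : a ≤ b)
    (hc : ContinuousOn F (hstrip a b)) (hd : DifferentiableOn ℂ F (ohstrip a b)) {T : ℝ}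
    (hT : 0 ≤ T) :
    (∫ x : ℝ in a..b, F x) = (∫ x : ℝ in a..b, F (x + T * I)) +
      I • (∫ y : ℝ in (0 : ℝ)..T, F (a + y * I)) - I • (∫ y : ℝ in (0 : ℝ)..T, F (b + y * I)) := by
  have h := Complex.integral_boundary_rect_eq_zero_of_continuousOn_of_differentiableOn F
    (⟨a, 0⟩ : ℂ) (⟨b, T⟩ : ℂ)
    (hc.mono (by
      rintro z ⟨hz, hz'⟩
      simp only [mem_preimage, uIcc_of_le hab, mem_Icc] at hz
      simp only [mem_preimage, uIcc_of_le hT, mem_Icc] at hz'
      exact ⟨hz.1, hz.2, hz'.1⟩))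
    (hd.mono (by
      rintro z ⟨hz, hz'⟩
      simp only [mem_preimage, min_eq_left hab, max_eq_right hab, mem_Ioo] at hz
      simp only [mem_preimage, min_eq_left hT, max_eq_right hT, mem_Ioo] at hz'
      exact ⟨hz.1, hz.2, hz'.1⟩))
  simp only [ofReal_zero, zero_mul, add_zero] at h
  rw [← sub_eq_zero, ← h]
  abel

omit [NormedSpace ℂ E] in
theorem integrableOn_vert {F : ℂ → E} {a b : ℝ} (hc : ContinuousOn F (hstrip a b))
    {B δ : ℝ} (hδ : 0 < δ) (hB : ∀ z ∈ hstrip a b, ‖F z‖ ≤ B * Real.exp (-δ * z.im))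
    {ξ : ℝ} (h1 : a ≤ ξ) (h2 : ξ ≤ b) :
    IntegrableOn (fun y : ℝ => F (ξ + y * I)) (Ioi 0) := by
  have hmem : ∀ y : ℝ, 0 ≤ y → ((ξ : ℂ) + y * I) ∈ hstrip a b := by
    intro y hy
    refine ⟨?_, ?_, ?_⟩ <;> simp [h1, h2, hy]
  have hcont : ContinuousOn (fun y : ℝ => F (ξ + y * I)) (Ioi 0) := by
    refine hc.comp (by fun_prop) ?_
    intro y hy
    exact hmem y (le_of_lt hy)
  refine Integrable.mono' (g := fun y => B * Real.exp (-δ * y))
    ((exp_neg_integrableOn_Ioi 0 hδ).const_mul B)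
    (hcont.aestronglyMeasurable measurableSet_Ioi) ?_
  refine (ae_restrict_mem measurableSet_Ioi).mono fun y hy => ?_
  have := hB _ (hmem y (le_of_lt hy))
  simpa using this

/-- **Cauchy's theorem on a half strip.** -/
theorem half_strip_up [CompleteSpace E] {F : ℂ → E} {a b : ℝ} (hab : a ≤ b)
    (hc : ContinuousOn F (hstrip a b)) (hd : DifferentiableOn ℂ F (ohstrip a b))
    {B δ : ℝ} (hδ : 0 < δ) (hB : ∀ z ∈ hstrip a b, ‖F z‖ ≤ B * Real.exp (-δ * z.im)) :
    (∫ x : ℝ in a..b, F x) =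
      I • ((∫ y : ℝ in Ioi 0, F (a + y * I)) - ∫ y : ℝ in Ioi 0, F (b + y * I)) := by
  have hia := integrableOn_vert hc hδ hB le_rfl hab
  have hib := integrableOn_vert hc hδ hB hab le_rfl
  have t1 := intervalIntegral_tendsto_integral_Ioi 0 hia tendsto_id
  have t2 := intervalIntegral_tendsto_integral_Ioi 0 hib tendsto_id
  have t3 : Tendsto (fun T : ℝ => ∫ x : ℝ in a..b, F (x + T * I)) atTop (𝓝 0) := by
    have h0 : Tendsto (fun T : ℝ => B * Real.exp (-δ * T) * |b - a|) atTop (𝓝 0) := by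
      have : Tendsto (fun T : ℝ => Real.exp (-δ * T)) atTop (𝓝 0) := by
        refine Real.tendsto_exp_atBot.comp ?_
        exact Tendsto.const_mul_atTop_of_neg (by linarith only [hδ]) tendsto_id
      simpa using (this.const_mul B).mul_const |b - a|
    refine squeeze_zero_norm' ?_ h0
    filter_upwards [eventually_ge_atTop (0 : ℝ)] with T hT
    refine intervalIntegral.norm_integral_le_of_norm_le_const fun x hx => ?_
    rw [uIoc_of_le hab] at hx
    have := hB (x + T * I) ⟨by simpa using hx.1.le, by simpa using hx.2, by simpa using hT⟩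
    simpa using this
  have t4 : Tendsto (fun T : ℝ => (∫ x : ℝ in a..b, F (x + T * I)) +
      I • (∫ y : ℝ in (0 : ℝ)..T, F (a + y * I)) - I • (∫ y : ℝ in (0 : ℝ)..T, F (b + y * I)))
      atTop (𝓝 (0 + I • (∫ y : ℝ in Ioi 0, F (a + y * I)) -
        I • ∫ y : ℝ in Ioi 0, F (b + y * I))) :=
    (t3.add (t1.const_smul I)).sub (t2.const_smul I)
  have t5 : Tendsto (fun _ : ℝ => ∫ x : ℝ in a..b, F x) atTop (𝓝 (∫ x : ℝ in a..b, F x)) :=
    tendsto_const_nhds
  have h6 := tendsto_nhds_unique (t5.congr' ?_) t4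
  · rw [h6, zero_add, smul_sub]
  · filter_upwards [eventually_ge_atTop (0 : ℝ)] with T hT
    exact rect_half hab hc hd hT

/-! ### One cell -/

/-- `exp (2 π i z)` -/
noncomputable def e1 (z : ℂ) : ℂ := cexp (2 * Real.pi * I * z)

theorem e1_zero : e1 0 = 1 := by simp [e1]

theorem e1_ne_zero (z : ℂ) : e1 z ≠ 0 := exp_ne_zero _

theorem e1_neg (z : ℂ) : e1 (-z) = (e1 z)⁻¹ := by
  simp [e1, exp_neg]

theorem differentiable_e1 : Differentiable ℂ e1 := by
  unfold e1
  fun_prop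

theorem hasDerivAt_e1 (z : ℂ) : HasDerivAt e1 (e1 z * (2 * Real.pi * I)) z := by
  unfold e1
  simpa using ((hasDerivAt_id z).const_mul (2 * (Real.pi : ℂ) * I)).cexp

theorem norm_e1 (z : ℂ) : ‖e1 z‖ = Real.exp (-(2 * Real.pi) * z.im) := by
  rw [e1, norm_exp]
  congr 1
  simp

theorem e1_add_int (z : ℂ) (k : ℤ) : e1 (z + k) = e1 z := by
  unfold e1
  rw [mul_add, exp_add]
  have : cexp (2 * Real.pi * I * k) = 1 := by
    rw [exp_eq_one_iff]
    exact ⟨k, by ring⟩
  rw [this, mul_one]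

theorem e1_half (y : ℝ) : e1 ((1 / 2 : ℝ) + y * I) = -(Real.exp (-(2 * Real.pi) * y) : ℝ) := by
  unfold e1
  rw [show 2 * (Real.pi : ℂ) * I * ((1 / 2 : ℝ) + y * I) = Real.pi * I + (-(2 * Real.pi) * y : ℝ) by
    push_cast
    linear_combination (2 * (Real.pi : ℂ) * y) * I_sq]
  rw [exp_add, exp_pi_mul_I, ofReal_exp]
  ring

theorem e1_neg_half (y : ℝ) :
    e1 ((-(1 / 2) : ℝ) + y * I) = -(Real.exp (-(2 * Real.pi) * y) : ℝ) := by
  rw [← e1_half y, ← e1_add_int ((-(1 / 2) : ℝ) + y * I) 1]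
  congr 1
  push_cast
  ring

theorem e1_eq_one {z : ℂ} (hz : z ∈ strip (-(1 / 2)) (1 / 2)) (h : e1 z = 1) : z = 0 := by
  unfold e1 at h
  rw [exp_eq_one_iff] at h
  obtain ⟨n, hn⟩ := h
  have hz2 : z = n := by
    have h2 : (2 * (Real.pi : ℂ) * I) ≠ 0 := two_pi_I_ne_zero
    apply mul_left_cancel₀ h2
    rw [hn]
    ring
  have h3 : z.re = n := by rw [hz2]; simp
  have h4 : (-(1 / 2) : ℝ) ≤ n := by rw [← h3]; exact hz.1
  have h5 : (n : ℝ) ≤ 1 / 2 := by rw [← h3]; exact hz.2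
  have h6 : n = 0 := by
    have h7 : -1 < n := by
      have : ((-1 : ℤ) : ℝ) < n := by push_cast; linarith only [h4]
      exact_mod_cast this
    have h8 : n < 1 := by
      have : (n : ℝ) < ((1 : ℤ) : ℝ) := by push_cast; linarith only [h5]
      exact_mod_cast this
    omega
  rw [hz2, h6]
  simp

/-- the auxiliary function `e1 / (1 - e1) * (g - g 0)`, extended at `0` -/
noncomputable def auxF (g : ℂ → E) (z : ℂ) : E :=
  (e1 z * (-dslope e1 0 z)⁻¹) • dslope g 0 z

theorem auxF_of_ne (g : ℂ → E) {z : ℂ} (hz : z ≠ 0) :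
    auxF g z = (e1 z / (1 - e1 z)) • (g z - g 0) := by
  unfold auxF
  rw [dslope_of_ne _ hz, dslope_of_ne _ hz, slope_def_module, slope_def_module, smul_smul,
    e1_zero, sub_zero]
  congr 1
  simp only [smul_eq_mul]
  by_cases h : e1 z = 1
  · rw [h]
    simp
  · have h1 : e1 z - 1 ≠ 0 := sub_ne_zero.mpr h
    have h2 : 1 - e1 z ≠ 0 := sub_ne_zero.mpr (Ne.symm h)
    field_simp
    ring

theorem dslope_e1_ne {z : ℂ} (hz : z ∈ strip (-(1 / 2)) (1 / 2)) : dslope e1 0 z ≠ 0 := by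
  by_cases h : z = 0
  · rw [h, dslope_same, (hasDerivAt_e1 0).deriv, e1_zero, one_mul]
    exact two_pi_I_ne_zero
  · rw [dslope_of_ne _ h, slope_def_module, sub_zero, e1_zero]
    refine smul_ne_zero (inv_ne_zero h) (sub_ne_zero.mpr fun h1 => h (e1_eq_one hz h1))

theorem strip_mem_nhds_zero : strip (-(1 / 2)) (1 / 2) ∈ 𝓝 (0 : ℂ) := by
  refine mem_of_superset ((isOpen_ostrip (-(1 / 2)) (1 / 2)).mem_nhds ?_)
    (ostrip_subset_strip _ _)
  constructor <;> norm_num

theorem hstrip_subset (a b : ℝ) : hstrip a b ⊆ strip a b := fun _ h => ⟨h.1, h.2.1⟩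

theorem continuousOn_auxF {g : ℂ → E} (hc : ContinuousOn g (strip (-(1 / 2)) (1 / 2)))
    (hd : DifferentiableAt ℂ g 0) : ContinuousOn (auxF g) (strip (-(1 / 2)) (1 / 2)) := by
  have h1 : ContinuousOn (dslope g 0) (strip (-(1 / 2)) (1 / 2)) :=
    (continuousOn_dslope strip_mem_nhds_zero).mpr ⟨hc, hd⟩
  have h2 : ContinuousOn (dslope e1 0) (strip (-(1 / 2)) (1 / 2)) :=
    (continuousOn_dslope strip_mem_nhds_zero).mpr
      ⟨differentiable_e1.continuous.continuousOn, differentiable_e1 0⟩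
  unfold auxF
  refine ContinuousOn.smul (differentiable_e1.continuous.continuousOn.mul
    (h2.neg.inv₀ fun z hz => neg_ne_zero.mpr (dslope_e1_ne hz))) h1

theorem differentiableOn_auxF {g : ℂ → E} (hd : DifferentiableOn ℂ g (ostrip (-(1 / 2)) (1 / 2))) :
    DifferentiableOn ℂ (auxF g) (ohstrip (-(1 / 2)) (1 / 2)) := by
  intro z hz
  have hz0 : z ≠ 0 := by
    rintro rfl
    exact absurd hz.2.2 (by simp)
  have hzs : z ∈ ostrip (-(1 / 2)) (1 / 2) := ⟨hz.1, hz.2.1⟩
  have hg : DifferentiableAt ℂ g z := hd.differentiableAt ((isOpen_ostrip _ _).mem_nhds hzs)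
  have h1 : DifferentiableAt ℂ (dslope g 0) z := (differentiableAt_dslope_of_ne hz0).mpr hg
  have h2 : DifferentiableAt ℂ (dslope e1 0) z :=
    (differentiableAt_dslope_of_ne hz0).mpr (differentiable_e1 z)
  unfold auxF
  exact (((differentiable_e1 z).mul (h2.neg.inv
    (neg_ne_zero.mpr (dslope_e1_ne (ostrip_subset_strip _ _ hzs))))).smul h1).differentiableWithinAt

theorem isCompact_box (a b T : ℝ) : IsCompact {z : ℂ | a ≤ z.re ∧ z.re ≤ b ∧ 0 ≤ z.im ∧ z.im ≤ T} := by
  have h := (isCompact_Icc (a := a) (b := b)).reProdIm (isCompact_Icc (a := (0 : ℝ)) (b := T))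
  convert h using 1
  ext z
  simp only [Set.mem_ofPred_eq, mem_reProdIm, mem_Icc]
  tauto

theorem auxF_bound {g : ℂ → E} (hc : ContinuousOn g (strip (-(1 / 2)) (1 / 2)))
    (hd : DifferentiableAt ℂ g 0) {C c : ℝ} (hc0 : 0 ≤ c)
    (hC : ∀ z ∈ strip (-(1 / 2)) (1 / 2), ‖g z‖ ≤ C * Real.exp (c * |z.im|)) :
    ∃ B : ℝ, ∀ z ∈ hstrip (-(1 / 2)) (1 / 2),
      ‖auxF g z‖ ≤ B * Real.exp (-(2 * Real.pi - c) * z.im) := by
  have hcont := continuousOn_auxF hc hd
  obtain ⟨B1, hB1⟩ := (isCompact_box (-(1 / 2)) (1 / 2) 1).exists_bound_of_continuousOn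
    (f := auxF g) (hcont.mono fun z hz => ⟨hz.1, hz.2.1⟩)
  have hC0 : 0 ≤ C := by
    have := hC 0 ⟨by norm_num, by norm_num⟩
    simp only [zero_im, abs_zero, mul_zero, Real.exp_zero, mul_one] at this
    exact (norm_nonneg _).trans this
  have h2pi : Real.exp (-(2 * Real.pi)) < 1 := by
    rw [Real.exp_lt_one_iff]
    linarith only [Real.pi_pos]
  set δ := 2 * Real.pi - c with hδ
  refine ⟨|B1| * Real.exp |δ| + 2 * C / (1 - Real.exp (-(2 * Real.pi))), fun z hz => ?_⟩
  have hD : 0 ≤ 2 * C / (1 - Real.exp (-(2 * Real.pi))) :=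
    div_nonneg (by linarith only [hC0]) (by linarith only [h2pi])
  by_cases h1 : z.im ≤ 1
  · have h2 := hB1 z ⟨hz.1, hz.2.1, hz.2.2, h1⟩
    have h3 : 1 ≤ Real.exp |δ| * Real.exp (-δ * z.im) := by
      rw [← Real.exp_add]
      apply Real.one_le_exp
      have : δ * z.im ≤ |δ| := by
        calc δ * z.im ≤ |δ| * z.im := mul_le_mul_of_nonneg_right (le_abs_self _) hz.2.2
          _ ≤ |δ| * 1 := mul_le_mul_of_nonneg_left h1 (abs_nonneg _)
          _ = |δ| := mul_one _
      linarith only [this]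
    calc ‖auxF g z‖ ≤ |B1| := h2.trans (le_abs_self _)
      _ ≤ |B1| * (Real.exp |δ| * Real.exp (-δ * z.im)) :=
          le_mul_of_one_le_right (abs_nonneg _) h3
      _ ≤ _ := by
          rw [add_mul, mul_assoc]
          have : 0 ≤ 2 * C / (1 - Real.exp (-(2 * Real.pi))) * Real.exp (-δ * z.im) :=
            mul_nonneg hD (Real.exp_pos _).le
          linarith only [this]
  · push Not at h1
    have hz0 : z ≠ 0 := by
      rintro rfl
      simp at h1
      linarith only [h1]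
    have him : 0 ≤ z.im := by linarith only [h1]
    rw [auxF_of_ne g hz0, norm_smul, norm_div, norm_e1]
    have h4 : ‖g z - g 0‖ ≤ 2 * C * Real.exp (c * z.im) := by
      have h5 := hC z ⟨hz.1, hz.2.1⟩
      have h6 := hC 0 ⟨by norm_num, by norm_num⟩
      rw [abs_of_nonneg him] at h5
      simp only [zero_im, abs_zero, mul_zero, Real.exp_zero, mul_one] at h6
      have h7 : 1 ≤ Real.exp (c * z.im) := Real.one_le_exp (mul_nonneg hc0 him)
      have h8 : C ≤ C * Real.exp (c * z.im) := le_mul_of_one_le_right hC0 h7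
      calc ‖g z - g 0‖ ≤ ‖g z‖ + ‖g 0‖ := norm_sub_le _ _
        _ ≤ _ := by linarith only [h5, h6, h8]
    have h9 : 1 - Real.exp (-(2 * Real.pi)) ≤ ‖1 - e1 z‖ := by
      have h10 : ‖e1 z‖ ≤ Real.exp (-(2 * Real.pi)) := by
        rw [norm_e1]
        apply Real.exp_le_exp.mpr
        nlinarith only [h1, Real.pi_pos]
      have h11 := norm_sub_norm_le (1 : ℂ) (e1 z)
      rw [norm_one] at h11
      linarith only [h10, h11]
    have h12 : 0 < 1 - Real.exp (-(2 * Real.pi)) := by linarith only [h2pi]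
    have h13 : Real.exp (-(2 * Real.pi) * z.im) / ‖1 - e1 z‖ ≤
        Real.exp (-(2 * Real.pi) * z.im) / (1 - Real.exp (-(2 * Real.pi))) :=
      div_le_div_of_nonneg_left (Real.exp_pos _).le h12 h9
    calc Real.exp (-(2 * Real.pi) * z.im) / ‖1 - e1 z‖ * ‖g z - g 0‖
        ≤ Real.exp (-(2 * Real.pi) * z.im) / (1 - Real.exp (-(2 * Real.pi))) *
          (2 * C * Real.exp (c * z.im)) :=
          mul_le_mul h13 h4 (norm_nonneg _) (div_nonneg (Real.exp_pos _).le h12.le)
      _ = 2 * C / (1 - Real.exp (-(2 * Real.pi))) * Real.exp (-δ * z.im) := by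
          rw [hδ, show -(2 * Real.pi - c) * z.im = -(2 * Real.pi) * z.im + c * z.im by ring,
            Real.exp_add]
          ring
      _ ≤ _ := by
          rw [add_mul]
          have : 0 ≤ |B1| * Real.exp |δ| * Real.exp (-δ * z.im) := by positivity
          linarith only [this]

/-- the weight `1 / (1 + exp (2 π y))` -/
noncomputable def rho (y : ℝ) : ℝ := 1 / (1 + Real.exp (2 * Real.pi * y))

theorem rho_pos (y : ℝ) : 0 < rho y := by unfold rho; positivity

theorem rho_le (y : ℝ) : rho y ≤ Real.exp (-(2 * Real.pi) * y) := by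
  unfold rho
  rw [show -(2 * Real.pi) * y = -(2 * Real.pi * y) by ring, Real.exp_neg, one_div]
  apply inv_anti₀ (Real.exp_pos _)
  linarith only []

theorem rho_le_one (y : ℝ) : rho y ≤ 1 := by
  unfold rho
  rw [div_le_one (by positivity)]
  linarith only [Real.exp_pos (2 * Real.pi * y)]

theorem continuous_rho : Continuous rho := by
  unfold rho
  exact continuous_const.div (by fun_prop) fun y => by positivity

theorem rho_add_neg (y : ℝ) : rho y + rho (-y) = 1 := by
  unfold rho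
  rw [show 2 * Real.pi * -y = -(2 * Real.pi * y) by ring, Real.exp_neg]
  have := Real.exp_pos (2 * Real.pi * y)
  field_simp
  ring

theorem e1_ratio (w : ℂ) (y : ℝ) (hw : w = -(Real.exp (-(2 * Real.pi) * y) : ℝ)) :
    w / (1 - w) = -(rho y : ℂ) := by
  have h := Real.exp_pos (2 * Real.pi * y)
  have h2 : w = -((Real.exp (2 * Real.pi * y))⁻¹ : ℝ) := by
    rw [hw, show -(2 * Real.pi) * y = -(2 * Real.pi * y) by ring, Real.exp_neg]
  rw [h2, ← ofReal_neg, ← ofReal_one, ← ofReal_sub, ← ofReal_div, ← ofReal_neg]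
  congr 1
  unfold rho
  generalize Real.exp (2 * Real.pi * y) = X at h ⊢
  have h3 : 1 + X ≠ 0 := by positivity
  have h4 : X ≠ 0 := h.ne'
  have h5 : 1 - -X⁻¹ ≠ 0 := by
    have : 0 < X⁻¹ := inv_pos.mpr h
    intro h6
    linarith only [this, h6]
  rw [div_eq_iff h5]
  field_simp
  ring

theorem auxF_half (g : ℂ → E) (y : ℝ) :
    auxF g ((1 / 2 : ℝ) + y * I) = -(rho y • (g ((1 / 2 : ℝ) + y * I) - g 0)) := by
  have h0 : ((1 / 2 : ℝ) : ℂ) + y * I ≠ 0 := by
    intro h
    have := congrArg Complex.re h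
    simp at this
  rw [auxF_of_ne g h0, e1_ratio _ y (e1_half y), neg_smul, coe_smul]

theorem auxF_neg_half (g : ℂ → E) (y : ℝ) :
    auxF g ((-(1 / 2) : ℝ) + y * I) = -(rho y • (g ((-(1 / 2) : ℝ) + y * I) - g 0)) := by
  have h0 : ((-(1 / 2) : ℝ) : ℂ) + y * I ≠ 0 := by
    intro h
    have := congrArg Complex.re h
    simp at this
  rw [auxF_of_ne g h0, e1_ratio _ y (e1_neg_half y), neg_smul, coe_smul]

/-- integrability of the weighted boundary values -/
theorem integrableOn_rho {f : ℝ → E} (hf : ContinuousOn f (Ici 0)) {C c : ℝ}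
    (hc : c < 2 * Real.pi) (hC : ∀ y, 0 ≤ y → ‖f y‖ ≤ C * Real.exp (c * y)) :
    IntegrableOn (fun y => rho y • f y) (Ioi 0) := by
  have hδ : 0 < 2 * Real.pi - c := by linarith only [hc]
  refine Integrable.mono' (g := fun y => C * Real.exp (-(2 * Real.pi - c) * y))
    ((exp_neg_integrableOn_Ioi 0 hδ).const_mul C) ?_ ?_
  · exact ((continuous_rho.continuousOn.smul hf).mono Ioi_subset_Ici_self).aestronglyMeasurable
      measurableSet_Ioi
  · refine (ae_restrict_mem measurableSet_Ioi).mono fun y hy => ?_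
    have hy0 : (0 : ℝ) ≤ y := le_of_lt hy
    rw [norm_smul, Real.norm_eq_abs, abs_of_pos (rho_pos y)]
    have h1 := hC y hy0
    have h2 : 0 ≤ C * Real.exp (c * y) := (norm_nonneg _).trans h1
    calc rho y * ‖f y‖ ≤ Real.exp (-(2 * Real.pi) * y) * (C * Real.exp (c * y)) :=
          mul_le_mul (rho_le y) h1 (norm_nonneg _) (Real.exp_pos _).le
      _ = C * Real.exp (-(2 * Real.pi - c) * y) := by
          rw [show -(2 * Real.pi - c) * y = -(2 * Real.pi) * y + c * y by ring, Real.exp_add]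
          ring

theorem cell_up [CompleteSpace E] {g : ℂ → E} (hc : ContinuousOn g (strip (-(1 / 2)) (1 / 2)))
    (hd : DifferentiableOn ℂ g (ostrip (-(1 / 2)) (1 / 2))) {C c : ℝ} (hc0 : 0 ≤ c)
    (hc1 : c < 2 * Real.pi)
    (hC : ∀ z ∈ strip (-(1 / 2)) (1 / 2), ‖g z‖ ≤ C * Real.exp (c * |z.im|)) :
    (∫ x : ℝ in (-(1 / 2) : ℝ)..(1 / 2), auxF g x) =
      I • ((∫ y : ℝ in Ioi 0, rho y • g ((1 / 2 : ℝ) + y * I)) -
        ∫ y : ℝ in Ioi 0, rho y • g ((-(1 / 2) : ℝ) + y * I)) := by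
  have hd0 : DifferentiableAt ℂ g 0 :=
    hd.differentiableAt ((isOpen_ostrip _ _).mem_nhds ⟨by norm_num, by norm_num⟩)
  obtain ⟨B, hB⟩ := auxF_bound hc hd0 hc0 hC
  have hδ : 0 < 2 * Real.pi - c := by linarith only [hc1]
  have h1 := half_strip_up (by norm_num : (-(1 / 2) : ℝ) ≤ 1 / 2)
    ((continuousOn_auxF hc hd0).mono (hstrip_subset _ _)) (differentiableOn_auxF hd) hδ hB
  rw [h1]
  congr 1
  have key : ∀ ξ : ℝ, -(1 / 2) ≤ ξ → ξ ≤ 1 / 2 →
      (∀ y : ℝ, auxF g (ξ + y * I) = -(rho y • (g (ξ + y * I) - g 0))) →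
      (∫ y : ℝ in Ioi 0, auxF g (ξ + y * I)) =
        (∫ y : ℝ in Ioi 0, rho y • g 0) - ∫ y : ℝ in Ioi 0, rho y • g (ξ + y * I) := by
    intro ξ hξ1 hξ2 hξ
    have i1 : IntegrableOn (fun y => rho y • g 0) (Ioi 0) := by
      refine integrableOn_rho (C := ‖g 0‖) (c := 0) continuousOn_const (by positivity) ?_
      intro y _
      simp
    have i2 : IntegrableOn (fun y : ℝ => rho y • g (ξ + y * I)) (Ioi 0) := by
      refine integrableOn_rho (C := C) (c := c) ?_ hc1 ?_
      · refine hc.comp (by fun_prop) fun y _ => ?_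
        constructor <;> simp <;> linarith only [hξ1, hξ2]
      · intro y hy
        have := hC (ξ + y * I) (by constructor <;> simp <;> linarith only [hξ1, hξ2])
        simpa [abs_of_nonneg hy] using this
    rw [← integral_sub i1 i2]
    refine integral_congr_ae (Eventually.of_forall fun y => ?_)
    simp only [hξ y, smul_sub]
    abel
  rw [key (-(1 / 2)) le_rfl (by norm_num) (auxF_neg_half g),
    key (1 / 2) (by norm_num) le_rfl (auxF_half g)]
  abel

/-- **Midpoint Abel-Plana on one cell.** -/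
theorem cell_zero [CompleteSpace E] {g : ℂ → E} (hc : ContinuousOn g (strip (-(1 / 2)) (1 / 2)))
    (hd : DifferentiableOn ℂ g (ostrip (-(1 / 2)) (1 / 2))) {C c : ℝ} (hc0 : 0 ≤ c)
    (hc1 : c < 2 * Real.pi)
    (hC : ∀ z ∈ strip (-(1 / 2)) (1 / 2), ‖g z‖ ≤ C * Real.exp (c * |z.im|)) :
    g 0 = (∫ x : ℝ in (-(1 / 2) : ℝ)..(1 / 2), g x) +
      I • (((∫ y : ℝ in Ioi 0, rho y • g ((1 / 2 : ℝ) + y * I)) -
        ∫ y : ℝ in Ioi 0, rho y • g ((1 / 2 : ℝ) - y * I)) -
        ((∫ y : ℝ in Ioi 0, rho y • g ((-(1 / 2) : ℝ) + y * I)) -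
        ∫ y : ℝ in Ioi 0, rho y • g ((-(1 / 2) : ℝ) - y * I))) := by
  have hmem : ∀ {z : ℂ}, z ∈ strip (-(1 / 2)) (1 / 2) → -z ∈ strip (-(1 / 2)) (1 / 2) := by
    intro z hz
    exact ⟨by simpa using hz.2, by simpa using neg_le_neg hz.1⟩
  have h1 := cell_up hc hd hc0 hc1 hC
  have h2 := cell_up (g := fun z => g (-z)) (hc.comp continuous_neg.continuousOn fun z hz => hmem hz)
    (hd.comp differentiable_neg.differentiableOn fun z hz =>
      ⟨by simpa using neg_lt_neg hz.2, by simpa using neg_lt_neg hz.1⟩) hc0 hc1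
    (fun z hz => by simpa using hC (-z) (hmem hz))
  have hd0 : DifferentiableAt ℂ g 0 :=
    hd.differentiableAt ((isOpen_ostrip _ _).mem_nhds ⟨by norm_num, by norm_num⟩)
  have hd0' : DifferentiableAt ℂ (fun z => g (-z)) 0 := by
    have : DifferentiableAt ℂ g (-0) := by simpa using hd0
    exact this.comp (0 : ℂ) differentiable_neg.differentiableAt
  have c1 := continuousOn_auxF hc hd0
  have c2 : ContinuousOn (auxF fun z => g (-z)) (strip (-(1 / 2)) (1 / 2)) :=
    continuousOn_auxF (hc.comp continuous_neg.continuousOn fun z hz => hmem hz) hd0'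
  have hre : ∀ x ∈ uIcc (-(1 / 2) : ℝ) (1 / 2), (x : ℂ) ∈ strip (-(1 / 2)) (1 / 2) := by
    intro x hx
    rw [uIcc_of_le (by norm_num)] at hx
    exact ⟨by simpa using hx.1, by simpa using hx.2⟩
  have i1 : IntervalIntegrable (fun x : ℝ => auxF g x) volume (-(1 / 2)) (1 / 2) :=
    (c1.comp continuous_ofReal.continuousOn hre).intervalIntegrable
  have i2 : IntervalIntegrable (fun x : ℝ => auxF (fun z => g (-z)) x) volume (-(1 / 2)) (1 / 2) :=
    (c2.comp continuous_ofReal.continuousOn hre).intervalIntegrable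
  have i3 : IntervalIntegrable (fun x : ℝ => auxF (fun z => g (-z)) ((-x : ℝ) : ℂ)) volume
      (-(1 / 2)) (1 / 2) := by
    refine (c2.comp (f := fun x : ℝ => ((-x : ℝ) : ℂ)) (by fun_prop) ?_).intervalIntegrable
    intro x hx
    have := hmem (hre x hx)
    simpa using this
  have i4 : IntervalIntegrable (fun x : ℝ => g x) volume (-(1 / 2)) (1 / 2) :=
    (hc.comp continuous_ofReal.continuousOn hre).intervalIntegrable
  have h3 : (∫ x : ℝ in (-(1 / 2) : ℝ)..(1 / 2), auxF (fun z => g (-z)) x) =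
      ∫ x : ℝ in (-(1 / 2) : ℝ)..(1 / 2), auxF (fun z => g (-z)) ((-x : ℝ) : ℂ) := by
    have := intervalIntegral.integral_comp_neg (a := (-(1 / 2) : ℝ)) (b := 1 / 2)
      (fun x : ℝ => auxF (fun z => g (-z)) (x : ℂ))
    rw [this, neg_neg]
  have h4 : (∫ x : ℝ in (-(1 / 2) : ℝ)..(1 / 2), auxF g x) +
      (∫ x : ℝ in (-(1 / 2) : ℝ)..(1 / 2), auxF (fun z => g (-z)) ((-x : ℝ) : ℂ)) =
      g 0 - ∫ x : ℝ in (-(1 / 2) : ℝ)..(1 / 2), g x := by
    rw [← intervalIntegral.integral_add i1 i3]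
    have h5 : (∫ x : ℝ in (-(1 / 2) : ℝ)..(1 / 2), (g 0 - g x)) =
        g 0 - ∫ x : ℝ in (-(1 / 2) : ℝ)..(1 / 2), g x := by
      rw [intervalIntegral.integral_sub (by simp) i4]
      simp
      norm_num
    rw [← h5]
    apply intervalIntegral.integral_congr_ae
    have h0 : ∀ᵐ x : ℝ, x ≠ 0 := by
      simp [ae_iff]
    filter_upwards [h0] with x hx hxI
    have hx0 : (x : ℂ) ≠ 0 := by exact_mod_cast hx
    have hx1 : ((-x : ℝ) : ℂ) ≠ 0 := by
      rw [ofReal_neg]
      exact neg_ne_zero.mpr hx0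
    rw [auxF_of_ne _ hx0, auxF_of_ne _ hx1]
    simp only [ofReal_neg, neg_neg, neg_zero, e1_neg]
    rw [← add_smul]
    have hxs : (x : ℂ) ∈ strip (-(1 / 2)) (1 / 2) := by
      rw [uIoc_of_le (by norm_num)] at hxI
      exact ⟨by simpa using hxI.1.le, by simpa using hxI.2⟩
    have h6 : e1 (x : ℂ) ≠ 1 := fun h => hx0 (e1_eq_one hxs h)
    have h7 := e1_ne_zero (x : ℂ)
    have h8 : e1 (x : ℂ) / (1 - e1 x) + (e1 (x : ℂ))⁻¹ / (1 - (e1 (x : ℂ))⁻¹) = -1 := by
      generalize e1 (x : ℂ) = w at h6 h7 ⊢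
      have h9 : 1 - w ≠ 0 := sub_ne_zero.mpr (Ne.symm h6)
      have h10 : w - 1 ≠ 0 := sub_ne_zero.mpr h6
      have h11 : w⁻¹ / (1 - w⁻¹) = 1 / (w - 1) := by
        rw [div_eq_div_iff]
        · field_simp
        · intro h12
          apply h10
          have : w * (1 - w⁻¹) = w - 1 := by field_simp
          rw [← this, h12, mul_zero]
        · exact h10
      rw [h11, div_add_div _ _ h9 h10, div_eq_iff (mul_ne_zero h9 h10)]
      ring
    rw [h8, neg_one_smul, neg_sub]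
  have h13 : g 0 = (∫ x : ℝ in (-(1 / 2) : ℝ)..(1 / 2), g x) +
      ((∫ x : ℝ in (-(1 / 2) : ℝ)..(1 / 2), auxF g x) +
      (∫ x : ℝ in (-(1 / 2) : ℝ)..(1 / 2), auxF (fun z => g (-z)) x)) := by
    rw [h3, h4]
    abel
  rw [h1, h2, ← smul_add] at h13
  rw [h13]
  congr 2
  have e1' : ∀ y : ℝ, -(((1 / 2 : ℝ) : ℂ) + y * I) = ((-(1 / 2) : ℝ) : ℂ) - y * I := by
    intro y
    push_cast
    ring
  have e2' : ∀ y : ℝ, -(((-(1 / 2) : ℝ) : ℂ) + y * I) = ((1 / 2 : ℝ) : ℂ) - y * I := by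
    intro y
    push_cast
    ring
  simp only [e1', e2']
  abel

/-! ### Vertical sides -/

omit [NormedSpace ℂ E] in
theorem integrableOn_Iic_comp_neg {f : ℝ → E} {c : ℝ} (h : IntegrableOn f (Ioi c)) :
    IntegrableOn (fun y => f (-y)) (Iic (-c)) := by
  rw [integrableOn_Iic_iff_integrableOn_Iio, ← integrable_indicator_iff measurableSet_Iio]
  rw [← integrable_indicator_iff measurableSet_Ioi] at h
  have h2 := h.comp_neg
  refine h2.congr (Eventually.of_forall fun y => ?_)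
  by_cases hy : y < -c
  · have h3 : -y ∈ Ioi c := by
      rw [mem_Ioi]
      linarith only [hy]
    simp only [indicator_of_mem h3, indicator_of_mem (mem_Iio.mpr hy)]
  · have h3 : -y ∉ Ioi c := by
      rw [mem_Ioi]
      intro h4
      exact hy (by linarith only [hy, h4])
    have h5 : y ∉ Iio (-c) := hy
    simp only [indicator_of_notMem h3, indicator_of_notMem h5]

theorem integrableOn_rho_Ioi {f : ℝ → E} (hf : Continuous f) {C c : ℝ}
    (hc : c < 2 * Real.pi) (hC : ∀ y, ‖f y‖ ≤ C * Real.exp (c * |y|)) (τ : ℝ) :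
    IntegrableOn (fun y => rho y • f y) (Ioi τ) := by
  have h1 : IntegrableOn (fun y => rho y • f y) (Ioi 0) :=
    integrableOn_rho hf.continuousOn hc fun y hy => by
      have := hC y
      rwa [abs_of_nonneg hy] at this
  have h2 : IntegrableOn (fun y => rho y • f y) (Icc τ 0) :=
    (continuous_rho.smul hf).continuousOn.integrableOn_Icc
  refine (h2.union h1).mono_set fun y hy => ?_
  rcases le_or_gt y 0 with h | h
  · exact Or.inl ⟨le_of_lt hy, h⟩
  · exact Or.inr h

theorem integrableOn_rho_Iic {f : ℝ → E} (hf : Continuous f) {C c : ℝ}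
    (hc : c < 2 * Real.pi) (hC : ∀ y, ‖f y‖ ≤ C * Real.exp (c * |y|)) (τ : ℝ) :
    IntegrableOn (fun y => rho (-y) • f y) (Iic τ) := by
  have h1 := integrableOn_rho_Ioi (f := fun y => f (-y)) (hf.comp continuous_neg) hc
    (fun y => by simpa using hC (-y)) (-τ)
  have h2 := integrableOn_Iic_comp_neg h1
  simpa using h2

/-- the contribution of the vertical line `Re z = ξ` to the midpoint Abel-Plana formula at
height `τ` -/
noncomputable def side (g : ℂ → E) (τ ξ : ℝ) : E :=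
  (∫ y : ℝ in Ioi τ, rho y • g (ξ + y * I)) - ∫ y : ℝ in Iic τ, rho (-y) • g (ξ + y * I)

theorem side_zero (g : ℂ → E) (ξ : ℝ) :
    side g 0 ξ = (∫ y : ℝ in Ioi 0, rho y • g (ξ + y * I)) -
      ∫ y : ℝ in Ioi 0, rho y • g (ξ - y * I) := by
  unfold side
  congr 1
  have := integral_comp_neg_Iic 0 (fun y : ℝ => rho y • g (ξ - y * I))
  rw [neg_zero] at this
  rw [← this]
  refine integral_congr_ae (Eventually.of_forall fun y => ?_)
  simp

theorem side_eq {g : ℂ → E} {ξ : ℝ} (hf : Continuous fun y : ℝ => g (ξ + y * I)) {C c : ℝ}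
    (hc : c < 2 * Real.pi) (hC : ∀ y : ℝ, ‖g (ξ + y * I)‖ ≤ C * Real.exp (c * |y|)) (τ : ℝ) :
    side g τ ξ = side g 0 ξ - ∫ y : ℝ in (0 : ℝ)..τ, g (ξ + y * I) := by
  have h1 := intervalIntegral.integral_Ioi_sub_Ioi' (integrableOn_rho_Ioi hf hc hC 0)
    (integrableOn_rho_Ioi hf hc hC τ)
  have h2 := intervalIntegral.integral_Iic_sub_Iic (integrableOn_rho_Iic hf hc hC 0)
    (integrableOn_rho_Iic hf hc hC τ)
  have h3 : (∫ y : ℝ in (0 : ℝ)..τ, g (ξ + y * I)) =
      (∫ y : ℝ in (0 : ℝ)..τ, rho y • g (ξ + y * I)) +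
      ∫ y : ℝ in (0 : ℝ)..τ, rho (-y) • g (ξ + y * I) := by
    rw [← intervalIntegral.integral_add]
    · refine intervalIntegral.integral_congr fun y _ => ?_
      rw [← add_smul, rho_add_neg, one_smul]
    · exact (continuous_rho.smul hf).intervalIntegrable _ _
    · exact ((continuous_rho.comp continuous_neg).smul hf).intervalIntegrable _ _
  unfold side
  rw [h3, ← h1, ← h2]
  abel

/-! ### The formula -/

/-- The hypotheses of the formula. -/
structure Adm (g : ℂ → E) (a b C c : ℝ) : Prop where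
  cont : ContinuousOn g (strip a b)
  diff : DifferentiableOn ℂ g (ostrip a b)
  c_nonneg : 0 ≤ c
  c_lt : c < 2 * Real.pi
  bound : ∀ z ∈ strip a b, ‖g z‖ ≤ C * Real.exp (c * |z.im|)

theorem Adm.mono {g : ℂ → E} {a b C c a' b' : ℝ} (h : Adm g a b C c) (ha : a ≤ a') (hb : b' ≤ b) :
    Adm g a' b' C c :=
  ⟨h.cont.mono (strip_mono ha hb), h.diff.mono (ostrip_mono ha hb), h.c_nonneg, h.c_lt,
    fun z hz => h.bound z (strip_mono ha hb hz)⟩

theorem Adm.continuous_vert {g : ℂ → E} {a b C c ξ : ℝ} (h : Adm g a b C c) (h1 : a ≤ ξ)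
    (h2 : ξ ≤ b) : Continuous fun y : ℝ => g (ξ + y * I) := by
  rw [← continuousOn_univ]
  refine h.cont.comp (by fun_prop) fun y _ => ?_
  exact ⟨by simpa using h1, by simpa using h2⟩

theorem Adm.bound_vert {g : ℂ → E} {a b C c ξ : ℝ} (h : Adm g a b C c) (h1 : a ≤ ξ)
    (h2 : ξ ≤ b) (y : ℝ) : ‖g (ξ + y * I)‖ ≤ C * Real.exp (c * |y|) := by
  have := h.bound (ξ + y * I) ⟨by simpa using h1, by simpa using h2⟩
  simpa using this

theorem cell_int [CompleteSpace E] {g : ℂ → E} {C c : ℝ} (k : ℤ)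
    (h : Adm g (k - 1 / 2) (k + 1 / 2) C c) :
    g k = (∫ x : ℝ in ((k : ℝ) - 1 / 2)..(k + 1 / 2), g x) +
      I • (side g 0 (k + 1 / 2) - side g 0 (k - 1 / 2)) := by
  have hm : ∀ {z : ℂ}, z ∈ strip (-(1 / 2)) (1 / 2) →
      (k : ℂ) + z ∈ strip ((k : ℝ) - 1 / 2) (k + 1 / 2) := by
    intro z hz
    constructor
    · simp only [add_re, intCast_re]
      linarith only [hz, hz.1]
    · simp only [add_re, intCast_re]
      linarith only [hz, hz.2]
  have hm' : ∀ {z : ℂ}, z ∈ ostrip (-(1 / 2)) (1 / 2) →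
      (k : ℂ) + z ∈ ostrip ((k : ℝ) - 1 / 2) (k + 1 / 2) := by
    intro z hz
    constructor
    · simp only [add_re, intCast_re]
      linarith only [hz, hz.1]
    · simp only [add_re, intCast_re]
      linarith only [hz, hz.2]
  have h1 := cell_zero (g := fun z => g (k + z))
    (h.cont.comp (by fun_prop) fun z hz => hm hz)
    (h.diff.comp (by fun_prop) fun z hz => hm' hz) h.c_nonneg h.c_lt
    (fun z hz => by simpa using h.bound _ (hm hz))
  simp only [add_zero] at h1
  rw [h1]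
  congr 1
  · have := intervalIntegral.integral_comp_add_left (a := (-(1 / 2) : ℝ)) (b := 1 / 2)
      (fun x : ℝ => g (x : ℂ)) (k : ℝ)
    rw [show (k : ℝ) - 1 / 2 = k + -(1 / 2) by ring, ← this]
    refine intervalIntegral.integral_congr fun x _ => ?_
    simp
  · rw [side_zero, side_zero]
    have hp : ∀ s y : ℝ, (k : ℂ) + ((s : ℂ) + y * I) = ((k + s : ℝ) : ℂ) + y * I := by
      intro s y
      push_cast
      ring
    have hm2 : ∀ s y : ℝ, (k : ℂ) + ((s : ℂ) - y * I) = ((k + s : ℝ) : ℂ) - y * I := by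
      intro s y
      push_cast
      ring
    simp only [hp, hm2]
    rfl

/-- **Midpoint Abel-Plana formula**, height `0`. -/
theorem abel_plana_zero [CompleteSpace E] {g : ℂ → E} {C c : ℝ} (a : ℤ) (N : ℕ)
    (h : Adm g (a - 1 / 2) (a + N - 1 / 2) C c) :
    ∑ j ∈ Finset.range N, g (a + j) = (∫ x : ℝ in ((a : ℝ) - 1 / 2)..(a + N - 1 / 2), g x) +
      I • (side g 0 (a + N - 1 / 2) - side g 0 (a - 1 / 2)) := by
  induction N with
  | zero => simp
  | succ N ih =>
    have hN : (0 : ℝ) ≤ N := Nat.cast_nonneg N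
    rw [Finset.sum_range_succ, ih (h.mono le_rfl (by push_cast; linarith only []))]
    have hcell := cell_int (g := g) (C := C) (c := c) (a + N)
      (h.mono (by push_cast; linarith only []) (by push_cast; linarith only []))
    push_cast at hcell
    rw [hcell]
    push_cast
    have hi : ∀ u v : ℝ, (a : ℝ) - 1 / 2 ≤ u → u ≤ a + N + 1 / 2 → (a : ℝ) - 1 / 2 ≤ v →
        v ≤ a + N + 1 / 2 → IntervalIntegrable (fun x : ℝ => g x) volume u v := by
      intro u v hu1 hu2 hv1 hv2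
      refine (h.cont.comp continuous_ofReal.continuousOn ?_).intervalIntegrable
      intro x hx
      have hx1 : min u v ≤ x := hx.1
      have hx2 : x ≤ max u v := hx.2
      constructor
      · simp only [ofReal_re]
        exact (le_min hu1 hv1).trans hx1
      · simp only [ofReal_re]
        push_cast
        have := hx2.trans (max_le hu2 hv2)
        linarith only [this]
    have hadd := intervalIntegral.integral_add_adjacent_intervals
      (hi (a - 1 / 2) (a + N - 1 / 2) le_rfl (by linarith only []) (by linarith only []) (by linarith only []))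
      (hi (a + N - 1 / 2) (a + N + 1 / 2) (by linarith only []) (by linarith only []) (by linarith only []) (by linarith only []))
    rw [show (a : ℝ) + (N + 1) - 1 / 2 = a + N + 1 / 2 by ring, ← hadd]
    simp only [smul_sub]
    abel

/-- **Midpoint Abel-Plana formula at height `τ`.** -/
theorem abel_plana [CompleteSpace E] {g : ℂ → E} {C c : ℝ} (a : ℤ) (N : ℕ)
    (h : Adm g (a - 1 / 2) (a + N - 1 / 2) C c) (τ : ℝ) :
    ∑ j ∈ Finset.range N, g (a + j) =
      (∫ x : ℝ in ((a : ℝ) - 1 / 2)..(a + N - 1 / 2), g (x + τ * I)) +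
      I • (side g τ (a + N - 1 / 2) - side g τ (a - 1 / 2)) := by
  have hN : (0 : ℝ) ≤ N := Nat.cast_nonneg N
  have hab : (a : ℝ) - 1 / 2 ≤ a + N - 1 / 2 := by linarith only []
  rw [abel_plana_zero a N h]
  have h1 := rect_shift hab h.cont h.diff 0 τ
  simp only [ofReal_zero, zero_mul, add_zero] at h1
  rw [h1, side_eq (h.continuous_vert hab le_rfl) h.c_lt (h.bound_vert hab le_rfl) τ,
    side_eq (h.continuous_vert le_rfl hab) h.c_lt (h.bound_vert le_rfl hab) τ]
  simp only [smul_sub]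
  abel

end Pool.Agent.Work.MP_b30479_gt.VC
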