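import Pool.Agent.Work.MP_b30479_gt.VC.AbelPlanaF

/-!
# The midpoint Abel-Plana formula along graphs

The sum over the integers of a window is a main integral along a graph over the window and two
integrals, along a graph above and a graph below the real axis, with the exponentially small
weights `ww (± z)`.  All graphs start and end at the (half integer) ends of the window; there are
no vertical sides.
-/

namespace Pool.Agent.Work.MP_b30479_gt.VC

open MeasureTheory Complex Set Filter Topology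

/-- primitive on a convex set -/
theorem exists_prim_convex {F : ℂ → ℂ} {S : Set ℂ} (hS : Convex ℝ S)
    (hF : ∀ z ∈ S, DifferentiableAt ℂ F z) :
    ∃ P : ℂ → ℂ, ∀ z ∈ S, HasDerivWithinAt P (F z) S z := by
  have h1 : ∀ z ∈ S, HasFDerivWithinAt (fun z : ℂ => ContinuousLinearMap.toSpanSingleton ℂ (F z))
      (((ContinuousLinearMap.toSpanSingletonCLE (𝕜 := ℂ) (E := ℂ)).toContinuousLinearMap.comp
        (ContinuousLinearMap.toSpanSingleton ℂ (deriv F z))).restrictScalars ℝ) S z := by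
    intro z hz
    have h2 := (hF z hz).hasDerivAt.hasFDerivAt
    have h3 := ((ContinuousLinearMap.toSpanSingletonCLE (𝕜 := ℂ)
      (E := ℂ)).toContinuousLinearMap.hasFDerivAt (x := F z)).comp z h2
    exact (h3.restrictScalars ℝ).hasFDerivWithinAt
  obtain ⟨P, hP⟩ := hS.exists_forall_hasFDerivWithinAt_of_hasFDerivWithinAt_symmetric h1 (by
    intro a _ x _ y _
    simp [mul_left_comm])
  refine ⟨P, fun z hz => ?_⟩
  have := (hP z hz).hasDerivWithinAt
  simpa using this

/-- the integral along a path in a set with a primitive -/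
theorem path_prim_set {F P : ℂ → ℂ} {S : Set ℂ} (hP : ∀ z ∈ S, HasDerivWithinAt P (F z) S z)
    {γ γ' : ℝ → ℂ} {u v : ℝ} (huv : u ≤ v) (hγ : ContinuousOn γ (Icc u v))
    (hγS : ∀ x ∈ Icc u v, γ x ∈ S) {s : Set ℝ} (hs : s.Countable)
    (hγ' : ∀ x ∈ Ioo u v \ s, HasDerivAt γ (γ' x) x)
    (hint : IntervalIntegrable (fun x => F (γ x) * γ' x) volume u v) :
    ∫ x in u..v, F (γ x) * γ' x = P (γ v) - P (γ u) := by
  have hPc : ContinuousOn P S := fun z hz => (hP z hz).continuousWithinAt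
  refine MeasureTheory.integral_eq_of_hasDerivAt_off_countable_of_le (fun x => P (γ x)) _ huv hs
    (hPc.comp hγ hγS) ?_ hint
  intro x hx
  have h1 : HasDerivWithinAt (fun x => P (γ x)) (F (γ x) * γ' x) (Ioo u v) x :=
    (hP (γ x) (hγS x (Ioo_subset_Icc_self hx.1))).comp x (hγ' x hx).hasDerivWithinAt
      fun y hy => hγS y (Ioo_subset_Icc_self hy)
  exact h1.hasDerivAt (Ioo_mem_nhds hx.1.1 hx.1.2)

/-- two paths with the same ends in a convex set of holomorphy have the same integral -/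
theorem path_indep {F : ℂ → ℂ} {S : Set ℂ} (hS : Convex ℝ S)
    (hF : ∀ z ∈ S, DifferentiableAt ℂ F z) {γ γ' δ δ' : ℝ → ℂ} {u v u₁ v₁ : ℝ} (huv : u ≤ v)
    (huv₁ : u₁ ≤ v₁) (hγ : ContinuousOn γ (Icc u v)) (hγS : ∀ x ∈ Icc u v, γ x ∈ S)
    (hδ : ContinuousOn δ (Icc u₁ v₁)) (hδS : ∀ x ∈ Icc u₁ v₁, δ x ∈ S)
    {s s₁ : Set ℝ} (hs : s.Countable) (hs₁ : s₁.Countable)
    (hγ' : ∀ x ∈ Ioo u v \ s, HasDerivAt γ (γ' x) x)
    (hδ' : ∀ x ∈ Ioo u₁ v₁ \ s₁, HasDerivAt δ (δ' x) x)
    (hi : IntervalIntegrable (fun x => F (γ x) * γ' x) volume u v)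
    (hi₁ : IntervalIntegrable (fun x => F (δ x) * δ' x) volume u₁ v₁)
    (he : γ u = δ u₁) (he' : γ v = δ v₁) :
    ∫ x in u..v, F (γ x) * γ' x = ∫ x in u₁..v₁, F (δ x) * δ' x := by
  obtain ⟨P, hP⟩ := exists_prim_convex hS hF
  rw [path_prim_set hP huv hγ hγS hs hγ' hi, path_prim_set hP huv₁ hδ hδS hs₁ hδ' hi₁, he, he']

theorem convex_strip (a b : ℝ) : Convex ℝ (strip a b) :=
  (convex_halfSpace_re_ge a).inter (convex_halfSpace_re_le b)

/-- the open upper half of a closed strip -/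
def ustrip (a b : ℝ) : Set ℂ := {z | a ≤ z.re ∧ z.re ≤ b ∧ 0 < z.im}

theorem convex_ustrip (a b : ℝ) : Convex ℝ (ustrip a b) := by
  have : ustrip a b = {z : ℂ | a ≤ z.re} ∩ ({z : ℂ | z.re ≤ b} ∩ {z : ℂ | 0 < z.im}) := rfl
  rw [this]
  exact (convex_halfSpace_re_ge a).inter ((convex_halfSpace_re_le b).inter
    (convex_halfSpace_im_gt 0))

/-- adding one real point of the closed strip keeps convexity -/
theorem convex_ustrip_pt {a b c : ℝ} (h1 : a ≤ c) (h2 : c ≤ b) :
    Convex ℝ (ustrip a b ∪ {(c : ℂ)}) := by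
  have key : ∀ {x : ℂ} {p q : ℝ}, x ∈ ustrip a b → 0 ≤ p → 0 ≤ q → p + q = 1 →
      p • x + q • (c : ℂ) ∈ ustrip a b ∪ {(c : ℂ)} := by
    intro x p q hx hp hq hpq
    rcases hp.eq_or_lt with h0 | h0
    · right
      rw [← h0, zero_add] at hpq
      rw [← h0, hpq, zero_smul, zero_add, one_smul]
      rfl
    · left
      have hre : (p • x + q • (c : ℂ)).re = p * x.re + q * c := by simp
      have him : (p • x + q • (c : ℂ)).im = p * x.im := by simp
      have hcc : q * c = c - p * c := by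
        have : q = 1 - p := by linarith only [hpq]
        rw [this]
        ring
      refine ⟨?_, ?_, ?_⟩
      · rw [hre]
        have e1 := mul_le_mul_of_nonneg_left hx.1 hp
        have e2 := mul_le_mul_of_nonneg_left h1 hq
        have : a = p * a + q * a := by rw [← add_mul, hpq, one_mul]
        linarith only [e1, e2, this]
      · rw [hre]
        have e1 := mul_le_mul_of_nonneg_left hx.2.1 hp
        have e2 := mul_le_mul_of_nonneg_left h2 hq
        have : b = p * b + q * b := by rw [← add_mul, hpq, one_mul]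
        linarith only [e1, e2, this]
      · rw [him]
        exact mul_pos h0 hx.2.2
  intro x hx y hy p q hp hq hpq
  rcases hx with hx | hx
  · rcases hy with hy | hy
    · left
      exact convex_ustrip a b hx hy hp hq hpq
    · rw [mem_singleton_iff] at hy
      rw [hy]
      exact key hx hp hq hpq
  · rw [mem_singleton_iff] at hx
    rcases hy with hy | hy
    · rw [hx, add_comm]
      exact key hy hq hp (by linarith only [hpq])
    · rw [mem_singleton_iff] at hy
      right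
      rw [hx, hy, ← add_smul, hpq, one_smul]
      rfl

theorem differentiableAt_ww {z : ℂ} (hz : 1 - e1 z ≠ 0) : DifferentiableAt ℂ ww z := by
  unfold ww
  exact (differentiable_e1 z).div ((differentiableAt_const _).sub (differentiable_e1 z)) hz

/-- on the vertical line over a half integer -/
theorem ww_vert {a : ℝ} (ha : e1 a = -1) (y : ℝ) : ww (a + y * I) = -(rho y : ℂ) := by
  have h1 : e1 (a + y * I) = -(Real.exp (-(2 * Real.pi * y)) : ℂ) := by
    have h2 : e1 (a + y * I) = e1 a * e1 (y * I) := by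
      unfold e1
      rw [← Complex.exp_add]
      congr 1
      ring
    rw [h2, ha]
    have h3 : e1 (y * I) = (Real.exp (-(2 * Real.pi * y)) : ℂ) := by
      unfold e1
      rw [Complex.ofReal_exp]
      congr 1
      push_cast
      ring_nf
      rw [Complex.I_sq]
      ring
    rw [h3]
    ring
  unfold ww rho
  rw [h1]
  have h4 : Real.exp (-(2 * Real.pi * y)) * Real.exp (2 * Real.pi * y) = 1 := by
    rw [← Real.exp_add]
    simp
  have h4' : (Real.exp (-(2 * Real.pi * y)) : ℂ) * (Real.exp (2 * Real.pi * y) : ℂ) = 1 := by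
    exact_mod_cast h4
  have h5 : (1 - -(Real.exp (-(2 * Real.pi * y)) : ℂ)) ≠ 0 := by
    have : (0 : ℝ) < 1 + Real.exp (-(2 * Real.pi * y)) := by positivity
    have h6 : ((1 + Real.exp (-(2 * Real.pi * y)) : ℝ) : ℂ) ≠ 0 := by exact_mod_cast this.ne'
    rw [sub_neg_eq_add]
    push_cast at h6 ⊢
    exact h6
  have h7 : (1 + (Real.exp (2 * Real.pi * y) : ℂ)) ≠ 0 := by
    have : (0 : ℝ) < 1 + Real.exp (2 * Real.pi * y) := by positivity
    have h6 : ((1 + Real.exp (2 * Real.pi * y) : ℝ) : ℂ) ≠ 0 := by exact_mod_cast this.ne'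
    push_cast at h6 ⊢
    exact h6
  have h8 : (((1 / (1 + Real.exp (2 * Real.pi * y)) : ℝ)) : ℂ) =
      1 / (1 + (Real.exp (2 * Real.pi * y) : ℂ)) := by push_cast; rfl
  rw [h8, div_eq_iff h5, eq_comm]
  field_simp
  linear_combination h4'

/-- the derivative data of a graph -/
structure GraphD (h h' : ℝ → ℝ) (a b : ℝ) (s : Set ℝ) : Prop where
  cont : ContinuousOn h (Icc a b)
  cnt : s.Countable
  der : ∀ x ∈ Ioo a b \ s, HasDerivAt h (h' x) x
  int : IntervalIntegrable h' volume a b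
  left : h a = 0
  right : h b = 0

/-- the point of the graph -/
noncomputable def gpt (h : ℝ → ℝ) (x : ℝ) : ℂ := x + h x * I

theorem gpt_re (h : ℝ → ℝ) (x : ℝ) : (gpt h x).re = x := by simp [gpt]

theorem gpt_im (h : ℝ → ℝ) (x : ℝ) : (gpt h x).im = h x := by simp [gpt]

theorem gpt_of_zero {h : ℝ → ℝ} {x : ℝ} (h0 : h x = 0) : gpt h x = x := by simp [gpt, h0]

theorem GraphD.contg {h h' : ℝ → ℝ} {a b : ℝ} {s : Set ℝ} (H : GraphD h h' a b s) :
    ContinuousOn (gpt h) (Icc a b) := by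
  unfold gpt
  have := H.cont
  fun_prop

theorem GraphD.derg {h h' : ℝ → ℝ} {a b : ℝ} {s : Set ℝ} (H : GraphD h h' a b s) :
    ∀ x ∈ Ioo a b \ s, HasDerivAt (gpt h) (1 + h' x * I) x := by
  intro x hx
  have h1 : HasDerivAt (fun x : ℝ => (x : ℂ)) 1 x := Complex.ofRealCLM.hasDerivAt (x := x)
  have h2 : HasDerivAt (fun x : ℝ => (h x : ℂ)) (h' x : ℂ) x := (H.der x hx).ofReal_comp
  exact h1.add (h2.mul_const I)

theorem GraphD.intg {h h' : ℝ → ℝ} {a b : ℝ} {s : Set ℝ} (H : GraphD h h' a b s) (hab : a ≤ b)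
    {f : ℝ → ℂ} (hf : ContinuousOn f (Icc a b)) :
    IntervalIntegrable (fun x => f x * (1 + h' x * I)) volume a b := by
  have h1 : IntervalIntegrable (fun x => (1 + h' x * I : ℂ)) volume a b := by
    refine IntervalIntegrable.add (by simp) ?_
    have h2 : IntervalIntegrable (fun x => ((h' x : ℝ) : ℂ)) volume a b := by
      constructor
      · exact H.int.1.ofReal
      · exact H.int.2.ofReal
    exact h2.mul_const I
  exact h1.continuousOn_mul (by rwa [uIcc_of_le hab])

theorem vertContG (a : ℝ) : Continuous fun y : ℝ => ((a : ℂ) + y * I) := by fun_prop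

theorem vert_der (a y : ℝ) : HasDerivAt (fun y : ℝ => ((a : ℂ) + y * I)) I y := by
  have h1 : HasDerivAt (fun x : ℝ => (x : ℂ)) 1 y := Complex.ofRealCLM.hasDerivAt (x := y)
  simpa using (h1.mul_const I).const_add (a : ℂ)

theorem horiz_der (T x : ℝ) : HasDerivAt (fun x : ℝ => ((x : ℂ) + T * I)) 1 x := by
  have h1 : HasDerivAt (fun x : ℝ => (x : ℂ)) 1 x := Complex.ofRealCLM.hasDerivAt (x := x)
  exact h1.add_const _

/-- **the upper mode along a graph** -/
theorem up_graph {g : ℂ → ℂ} {a b : ℝ} (hab : a < b) (ha : e1 a = -1) (hb : e1 b = -1)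
    (hg : ∀ z ∈ strip a b, DifferentiableAt ℂ g z) {h h' : ℝ → ℝ} {s : Set ℝ}
    (H : GraphD h h' a b s) (hpos : ∀ x ∈ Ioo a b, 0 < h x) {T : ℝ} (hT : T = h ((a + b) / 2)) :
    (∫ x : ℝ in a..b, ww (gpt h x) * g (gpt h x) * (1 + h' x * I)) =
      (∫ x : ℝ in a..b, ww (x + T * I) * g (x + T * I)) +
      I * ((∫ y : ℝ in (0 : ℝ)..T, rho y * g (b + y * I)) -
        ∫ y : ℝ in (0 : ℝ)..T, rho y * g (a + y * I)) := by
  set m := (a + b) / 2 with hm
  have ham : a < m := by rw [hm]; linarith only [hab]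
  have hmb : m < b := by rw [hm]; linarith only [hab]
  have hT0 : 0 < T := hT ▸ hpos m ⟨ham, hmb⟩
  have hda : 1 - e1 a ≠ 0 := by rw [ha]; norm_num
  have hdb : 1 - e1 b ≠ 0 := by rw [hb]; norm_num
  have hFU : ∀ z ∈ ustrip a b, DifferentiableAt ℂ (fun z => ww z * g z) z := fun z hz =>
    (differentiableAt_ww (one_sub_e1_neF hz.2.2)).mul (hg z ⟨hz.1, hz.2.1⟩)
  have hFa : DifferentiableAt ℂ (fun z => ww z * g z) (a : ℂ) :=
    (differentiableAt_ww hda).mul (hg _ ⟨by simp, by simpa using hab.le⟩)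
  have hFb : DifferentiableAt ℂ (fun z => ww z * g z) (b : ℂ) :=
    (differentiableAt_ww hdb).mul (hg _ ⟨by simpa using hab.le, by simp⟩)
  obtain ⟨P, hP⟩ := exists_prim_convex (F := fun z => ww z * g z)
    (convex_ustrip_pt le_rfl hab.le) (by
      rintro z (hz | hz)
      · exact hFU z hz
      · rw [mem_singleton_iff] at hz; rw [hz]; exact hFa)
  obtain ⟨Q, hQ⟩ := exists_prim_convex (F := fun z => ww z * g z)
    (convex_ustrip_pt hab.le le_rfl) (by
      rintro z (hz | hz)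
      · exact hFU z hz
      · rw [mem_singleton_iff] at hz; rw [hz]; exact hFb)
  have contF : ∀ z, z ∈ ustrip a b ∨ z = (a : ℂ) ∨ z = (b : ℂ) →
      ContinuousAt (fun z => ww z * g z) z := by
    rintro z (hz | hz | hz)
    · exact (hFU z hz).continuousAt
    · rw [hz]; exact hFa.continuousAt
    · rw [hz]; exact hFb.continuousAt
  have hcurve : ∀ x ∈ Icc a b, gpt h x ∈ ustrip a b ∨ gpt h x = (a : ℂ) ∨ gpt h x = (b : ℂ) := by
    intro x hx
    rcases hx.1.eq_or_lt with e | e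
    · right; left; rw [← e]; exact gpt_of_zero H.left
    rcases hx.2.eq_or_lt with e' | e'
    · right; right; rw [e']; exact gpt_of_zero H.right
    · left
      exact ⟨by rw [gpt_re]; exact hx.1, by rw [gpt_re]; exact hx.2,
        by rw [gpt_im]; exact hpos x ⟨e, e'⟩⟩
  have hcc : ContinuousOn (fun x => (fun z => ww z * g z) (gpt h x)) (Icc a b) := fun x hx =>
    (contF _ (hcurve x hx)).comp_continuousWithinAt (H.contg x hx)
  have hint := H.intg hab.le hcc
  have sub1 : uIcc a m ⊆ uIcc a b := by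
    rw [uIcc_of_le ham.le, uIcc_of_le hab.le]; exact Icc_subset_Icc le_rfl hmb.le
  have sub2 : uIcc m b ⊆ uIcc a b := by
    rw [uIcc_of_le hmb.le, uIcc_of_le hab.le]; exact Icc_subset_Icc ham.le le_rfl
  -- the graph
  have G1 : ∫ x : ℝ in a..m, ww (gpt h x) * g (gpt h x) * (1 + h' x * I) =
      P (m + T * I) - P a := by
    have := path_prim_set hP (γ := gpt h) (γ' := fun x => 1 + h' x * I) ham.le
      (H.contg.mono (Icc_subset_Icc le_rfl hmb.le)) (fun x hx => ?_) H.cnt
      (fun x hx => H.derg x ⟨⟨hx.1.1, hx.1.2.trans hmb⟩, hx.2⟩) (hint.mono_set sub1)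
    · rw [this, gpt_of_zero H.left]
      simp only [gpt, hT]
    · rcases hcurve x ⟨hx.1, hx.2.trans hmb.le⟩ with e | e | e
      · exact Or.inl e
      · exact Or.inr e
      · exfalso
        have := congrArg Complex.re e
        rw [gpt_re, ofReal_re] at this
        linarith only [hm, ham, this, hx, hx.2]
  have G2 : ∫ x : ℝ in m..b, ww (gpt h x) * g (gpt h x) * (1 + h' x * I) =
      Q b - Q (m + T * I) := by
    have := path_prim_set hQ (γ := gpt h) (γ' := fun x => 1 + h' x * I) hmb.le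
      (H.contg.mono (Icc_subset_Icc ham.le le_rfl)) (fun x hx => ?_) H.cnt
      (fun x hx => H.derg x ⟨⟨ham.trans hx.1.1, hx.1.2⟩, hx.2⟩) (hint.mono_set sub2)
    · rw [this, gpt_of_zero H.right]
      simp only [gpt, hT]
    · rcases hcurve x ⟨ham.le.trans hx.1, hx.2⟩ with e | e | e
      · exact Or.inl e
      · exfalso
        have := congrArg Complex.re e
        rw [gpt_re, ofReal_re] at this
        linarith only [ham, this, hx, hx.1]
      · exact Or.inr e
  -- the vertical sides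
  have V : ∀ c : ℝ, e1 c = -1 → (c = a ∨ c = b) →
      ∀ R : ℂ → ℂ, (∀ z ∈ ustrip a b ∪ {(c : ℂ)},
        HasDerivWithinAt R (ww z * g z) (ustrip a b ∪ {(c : ℂ)}) z) →
      I * (∫ y : ℝ in (0 : ℝ)..T, rho y * g (c + y * I)) = -(R (c + T * I) - R c) := by
    intro c hc hcab R hR
    have hcm : a ≤ c ∧ c ≤ b := by rcases hcab with e | e <;> subst e <;> constructor <;> linarith only [hab]
    have hSV : ∀ y ∈ Icc (0 : ℝ) T, ((c : ℂ) + y * I) ∈ ustrip a b ∪ {(c : ℂ)} := by
      intro y hy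
      rcases hy.1.eq_or_lt with e | e
      · right; rw [← e]; simp
      · left; exact ⟨by simpa using hcm.1, by simpa using hcm.2, by simpa using e⟩
    have hcV : ContinuousOn (fun y : ℝ => (fun z => ww z * g z) ((c : ℂ) + y * I)) (Icc 0 T) := by
      intro y hy
      refine (contF _ ?_).comp_continuousWithinAt (vertContG c).continuousWithinAt
      rcases hSV y hy with e | e
      · exact Or.inl e
      · rw [mem_singleton_iff] at e
        rcases hcab with e' | e' <;> rw [e, e'] <;> simp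
    have h1 := path_prim_set hR (γ := fun y : ℝ => (c : ℂ) + y * I) (γ' := fun _ => I) hT0.le
      (vertContG c).continuousOn hSV countable_empty (fun y _ => vert_der c y)
      ((hcV.mul continuousOn_const).intervalIntegrable_of_Icc hT0.le)
    have h2 : (∫ y : ℝ in (0 : ℝ)..T, (fun z => ww z * g z) ((c : ℂ) + y * I) * I) =
        -(I * ∫ y : ℝ in (0 : ℝ)..T, rho y * g (c + y * I)) := by
      rw [← intervalIntegral.integral_const_mul, ← intervalIntegral.integral_neg]
      refine intervalIntegral.integral_congr fun y _ => ?_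
      simp only [ww_vert hc]
      ring
    rw [h2] at h1
    rw [neg_eq_iff_eq_neg] at h1
    rw [h1]
    simp
  have hor : ∀ u v : ℝ, a ≤ u → u ≤ v → v ≤ b → ∀ R : ℂ → ℂ, ∀ S : Set ℂ, ustrip a b ⊆ S →
      (∀ z ∈ S, HasDerivWithinAt R (ww z * g z) S z) →
      (∫ x : ℝ in u..v, ww (x + T * I) * g (x + T * I)) = R (v + T * I) - R (u + T * I) := by
    intro u v hu huv hv R S hS hR
    have hmem : ∀ x ∈ Icc u v, ((x : ℂ) + T * I) ∈ ustrip a b := fun x hx =>
      ⟨by simpa using hu.trans hx.1, by simpa using hx.2.trans hv, by simpa using hT0⟩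
    have h1 := path_prim_set hR (γ := fun x : ℝ => (x : ℂ) + T * I) (γ' := fun _ => 1) huv
      (by fun_prop) (fun x hx => hS (hmem x hx)) countable_empty (fun x _ => horiz_der T x) (by
        refine (ContinuousOn.mul (fun x hx => ?_) continuousOn_const).intervalIntegrable_of_Icc huv
        exact ContinuousAt.comp_continuousWithinAt (g := fun z => ww z * g z)
          (f := fun x : ℝ => (x : ℂ) + T * I) (contF _ (Or.inl (hmem x hx)))
          (by fun_prop : Continuous fun x : ℝ => (x : ℂ) + T * I).continuousWithinAt)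
    simpa using h1
  have H1 := hor a m le_rfl ham.le hmb.le P _ subset_union_left hP
  have H2 := hor m b ham.le hmb.le le_rfl Q _ subset_union_left hQ
  have V1 := V a ha (Or.inl rfl) P hP
  have V2 := V b hb (Or.inr rfl) Q hQ
  rw [← intervalIntegral.integral_add_adjacent_intervals (hint.mono_set sub1) (hint.mono_set sub2),
    G1, G2]
  have hTc : ContinuousOn (fun x : ℝ => ww (x + T * I) * g (x + T * I)) (Icc a b) := by
    intro x hx
    exact ContinuousAt.comp_continuousWithinAt (g := fun z => ww z * g z)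
      (f := fun x : ℝ => (x : ℂ) + T * I) (contF _ (Or.inl ⟨by simpa using hx.1,
        by simpa using hx.2, by simpa using hT0⟩))
      (by fun_prop : Continuous fun x : ℝ => (x : ℂ) + T * I).continuousWithinAt
  have hTi := hTc.intervalIntegrable_of_Icc (μ := volume) hab.le
  rw [← intervalIntegral.integral_add_adjacent_intervals (hTi.mono_set sub1) (hTi.mono_set sub2),
    H1, H2, mul_sub, V1, V2]
  ring

theorem e1_half_int (k : ℤ) : e1 (((k : ℝ) - 1 / 2 : ℝ) : ℂ) = -1 := by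
  have h1 : (((k : ℝ) - 1 / 2 : ℝ) : ℂ) = -(1 / 2) + (k : ℤ) := by push_cast; ring
  rw [h1, e1_add_int]
  unfold e1
  rw [show 2 * Real.pi * I * -(1 / 2) = -(Real.pi * I) by ring, Complex.exp_neg, Complex.exp_pi_mul_I]
  norm_num

theorem GraphD.neg {h h' : ℝ → ℝ} {a b : ℝ} {s : Set ℝ} (H : GraphD h h' a b s) :
    GraphD (fun x => -h x) (fun x => -h' x) a b s where
  cont := H.cont.neg
  cnt := H.cnt
  der := fun x hx => (H.der x hx).neg
  int := H.int.neg
  left := by rw [H.left, neg_zero]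
  right := by rw [H.right, neg_zero]

theorem GraphD.reflect {h h' : ℝ → ℝ} {a b : ℝ} {s : Set ℝ} (H : GraphD h h' a b s) :
    GraphD (fun x => h (-x)) (fun x => -h' (-x)) (-b) (-a) ((fun x => -x) '' s) where
  cont := by
    refine H.cont.comp continuous_neg.continuousOn fun x hx => ?_
    exact ⟨by linarith only [hx, hx.2], by linarith only [hx, hx.1]⟩
  cnt := H.cnt.image _
  der := by
    intro x hx
    have h1 : HasDerivAt h (h' (-x)) (-x) := by
      refine H.der (-x) ⟨⟨by linarith only [hx, hx.1.2], by linarith only [hx, hx.1.1]⟩, fun hm => hx.2 ?_⟩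
      exact ⟨-x, hm, by simp⟩
    have h2 : HasDerivAt (fun x => h (-x)) (h' (-x) * -1) x := h1.comp x (hasDerivAt_neg x)
    exact h2.congr_deriv (by ring)
  int := by
    have h1 := (H.int.symm.comp_sub_left 0).neg
    simp only [zero_sub] at h1
    exact h1
  left := by
    show h (- -b) = 0
    rw [neg_neg, H.right]
  right := by
    show h (- -a) = 0
    rw [neg_neg, H.left]

/-- **the lower mode along a graph** -/
theorem down_graph {g : ℂ → ℂ} {a b : ℝ} (hab : a < b) (ha : e1 (-a : ℝ) = -1)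
    (hb : e1 (-b : ℝ) = -1)
    (hg : ∀ z ∈ strip a b, DifferentiableAt ℂ g z) {q q' : ℝ → ℝ} {s : Set ℝ}
    (H : GraphD q q' a b s) (hpos : ∀ x ∈ Ioo a b, 0 < q x) {T : ℝ} (hT : T = q ((a + b) / 2)) :
    (∫ x : ℝ in a..b, ww (-gpt (fun x => -q x) x) * g (gpt (fun x => -q x) x) *
        (1 + (-q' x : ℝ) * I)) =
      (∫ x : ℝ in a..b, ww (-(x - T * I)) * g (x - T * I)) +
      I * ((∫ y : ℝ in (0 : ℝ)..T, rho y * g (a - y * I)) -
        ∫ y : ℝ in (0 : ℝ)..T, rho y * g (b - y * I)) := by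
  have h1 := up_graph (g := fun z => g (-z)) (a := -b) (b := -a) (by linarith only [hab]) hb ha (by
    intro z hz
    have h2 : DifferentiableAt ℂ g (-z) := hg _ ⟨by simpa using neg_le_neg hz.2,
      by simpa using neg_le_neg hz.1⟩
    exact h2.comp z differentiableAt_id.neg) H.reflect (fun x hx => hpos (-x)
      ⟨by linarith only [hx, hx.2], by linarith only [hx, hx.1]⟩) (T := T) (by
      rw [hT]
      congr 1
      ring)
  have e1 : (∫ x : ℝ in a..b, ww (-gpt (fun x => -q x) x) * g (gpt (fun x => -q x) x) *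
        (1 + (-q' x : ℝ) * I)) =
      ∫ x : ℝ in (-b)..(-a), ww (gpt (fun x => q (-x)) x) * g (-gpt (fun x => q (-x)) x) *
        (1 + ((-q' (-x) : ℝ) : ℂ) * I) := by
    rw [← intervalIntegral.integral_comp_neg]
    refine intervalIntegral.integral_congr fun x _ => ?_
    have e2 : gpt (fun x => q (-x)) (-x) = -gpt (fun x => -q x) x := by
      show ((-x : ℝ) : ℂ) + (q (- -x) : ℂ) * I = -((x : ℂ) + ((-q x : ℝ) : ℂ) * I)
      rw [neg_neg]
      push_cast
      ring
    simp only [e2, neg_neg]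
  have e2 : (∫ x : ℝ in a..b, ww (-(x - T * I)) * g (x - T * I)) =
      ∫ x : ℝ in (-b)..(-a), ww (x + T * I) * g (-(x + T * I)) := by
    rw [← intervalIntegral.integral_comp_neg]
    refine intervalIntegral.integral_congr fun x _ => ?_
    have e3 : ((-x : ℝ) : ℂ) + T * I = -(x - T * I) := by
      push_cast
      ring
    simp only [e3, neg_neg]
  have e3 : ∀ (c y : ℝ), -(((-c : ℝ) : ℂ) + y * I) = (c : ℂ) - y * I := by
    intro c y
    push_cast
    ring
  rw [e1, e2, h1]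
  simp only [e3]

/-- **The midpoint Abel-Plana formula along graphs.** -/
theorem abel_graph {g : ℂ → ℂ} (a : ℤ) {N : ℕ} (hN : 0 < N)
    (hg : ∀ z ∈ strip (a - 1 / 2) (a + N - 1 / 2), DifferentiableAt ℂ g z)
    {h h' p p' q q' : ℝ → ℝ} {s s₁ s₂ : Set ℝ}
    (H : GraphD h h' (a - 1 / 2) (a + N - 1 / 2) s)
    (Hp : GraphD p p' (a - 1 / 2) (a + N - 1 / 2) s₁)
    (Hq : GraphD q q' (a - 1 / 2) (a + N - 1 / 2) s₂)
    (hp : ∀ x ∈ Ioo ((a : ℝ) - 1 / 2) (a + N - 1 / 2), 0 < p x)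
    (hq : ∀ x ∈ Ioo ((a : ℝ) - 1 / 2) (a + N - 1 / 2), 0 < q x) :
    ∑ j ∈ Finset.range N, g (a + j) =
      (∫ x : ℝ in ((a : ℝ) - 1 / 2)..(a + N - 1 / 2), g (gpt h x) * (1 + h' x * I)) +
      (∫ x : ℝ in ((a : ℝ) - 1 / 2)..(a + N - 1 / 2),
        ww (gpt p x) * g (gpt p x) * (1 + p' x * I)) +
      ∫ x : ℝ in ((a : ℝ) - 1 / 2)..(a + N - 1 / 2),
        ww (-gpt (fun x => -q x) x) * g (gpt (fun x => -q x) x) * (1 + (-q' x : ℝ) * I) := by
  have hN' : (1 : ℝ) ≤ N := by exact_mod_cast hN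
  have hab : (a : ℝ) - 1 / 2 < a + N - 1 / 2 := by linarith only [hN']
  have E1 : e1 (((a : ℝ) - 1 / 2 : ℝ) : ℂ) = -1 := e1_half_int a
  have E2 : e1 (((a : ℝ) + N - 1 / 2 : ℝ) : ℂ) = -1 := by
    have := e1_half_int (a + N)
    push_cast at this ⊢
    exact this
  have E3 : e1 ((-((a : ℝ) - 1 / 2) : ℝ) : ℂ) = -1 := by
    have := e1_half_int (1 - a)
    push_cast at this ⊢
    rw [← this]
    congr 1
    ring
  have E4 : e1 ((-((a : ℝ) + N - 1 / 2) : ℝ) : ℂ) = -1 := by
    have := e1_half_int (1 - a - N)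
    push_cast at this ⊢
    rw [← this]
    congr 1
    ring
  have hAdm : AdmF g ((a : ℝ) - 1 / 2) (a + N - 1 / 2) :=
    ⟨fun z hz => (hg z hz).continuousAt.continuousWithinAt,
      fun z hz => (hg z (ostrip_subset_strip _ _ hz)).differentiableWithinAt⟩
  have hmid : ((a : ℝ) - 1 / 2 + (a + N - 1 / 2)) / 2 ∈ Ioo ((a : ℝ) - 1 / 2) (a + N - 1 / 2) :=
    ⟨by linarith only [hN'], by linarith only [hN']⟩
  have hU := up_graph hab E1 E2 hg Hp hp rfl
  have hD := down_graph hab E3 E4 hg Hq hq rfl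
  have hR := abel_planaF_zero a N hAdm (hp _ hmid) (hq _ hmid)
  have hM : (∫ x : ℝ in ((a : ℝ) - 1 / 2)..(a + N - 1 / 2), g x) =
      ∫ x : ℝ in ((a : ℝ) - 1 / 2)..(a + N - 1 / 2), g (gpt h x) * (1 + h' x * I) := by
    have hgc : ContinuousOn (fun x => g (gpt h x)) (Icc ((a : ℝ) - 1 / 2) (a + N - 1 / 2)) :=
      fun x hx => (hg _ ⟨by rw [gpt_re]; exact hx.1, by
        rw [gpt_re]; exact hx.2⟩).continuousAt.comp_continuousWithinAt (H.contg x hx)
    have h1 := path_indep (convex_strip ((a : ℝ) - 1 / 2) (a + N - 1 / 2)) hg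
      (γ := fun x : ℝ => (x : ℂ)) (γ' := fun _ => 1) (δ := gpt h) (δ' := fun x => 1 + h' x * I)
      hab.le hab.le (by fun_prop) (fun x hx => ⟨by simpa using hx.1, by simpa using hx.2⟩)
      H.contg (fun x hx => ⟨by rw [gpt_re]; exact hx.1, by rw [gpt_re]; exact hx.2⟩)
      countable_empty H.cnt
      (fun x _ => Complex.ofRealCLM.hasDerivAt (x := x)) H.derg (by
        refine (ContinuousOn.mul (fun x hx => ?_)
          continuousOn_const).intervalIntegrable_of_Icc hab.le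
        exact ContinuousAt.comp_continuousWithinAt (g := g) (f := fun x : ℝ => (x : ℂ))
          (hg _ ⟨by simpa using hx.1, by simpa using hx.2⟩).continuousAt
          (Complex.continuous_ofReal.continuousWithinAt))
      (H.intg hab.le hgc) (gpt_of_zero H.left).symm (gpt_of_zero H.right).symm
    simpa using h1
  rw [hU, hD, ← hM, hR, sideF_zero, sideF_zero]
  unfold modeF
  simp only [smul_eq_mul, Complex.real_smul]
  ring

/-! ### Bounds of the weights -/

theorem e1_re (z : ℂ) : (e1 z).re = Real.exp (-(2 * Real.pi * z.im)) * Real.cos (2 * Real.pi * z.re) := by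
  unfold e1
  rw [Complex.exp_re]
  congr 2 <;> simp

theorem one_le_norm_one_sub {w : ℂ} (hw : w.re ≤ 0) : 1 ≤ ‖1 - w‖ := by
  have := Complex.re_le_norm (1 - w)
  rw [Complex.sub_re, Complex.one_re] at this
  linarith only [hw, this]

/-- the weight on a graph that leaves the half integers `a`, `b` with slope at least `κ` -/
theorem norm_ww_ramp {a b κ : ℝ} (ha : e1 a = -1) (hb : e1 b = -1) (hκ : 0 < κ) {x P : ℝ}
    (hP : κ * min (1 / 4) (min (x - a) (b - x)) ≤ P) (hxa : a ≤ x) (hxb : x ≤ b) :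
    ‖ww (x + P * I)‖ ≤ Real.exp (-(2 * Real.pi * P)) / (1 - Real.exp (-(Real.pi * κ / 2))) := by
  have hpi := Real.pi_pos
  have hden : 0 < 1 - Real.exp (-(Real.pi * κ / 2)) := by
    have : Real.exp (-(Real.pi * κ / 2)) < 1 := by
      rw [Real.exp_lt_one_iff]
      have : 0 < Real.pi * κ / 2 := by positivity
      linarith only [this]
    linarith only [this]
  have hden1 : 1 - Real.exp (-(Real.pi * κ / 2)) ≤ 1 := by
    have := Real.exp_pos (-(Real.pi * κ / 2))
    linarith only [this]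
  have hnum : ‖e1 ((x : ℂ) + P * I)‖ = Real.exp (-(2 * Real.pi * P)) := by
    rw [norm_e1]
    congr 1
    simp
  have hP0 : 0 ≤ P := by
    refine le_trans ?_ hP
    apply mul_nonneg hκ.le
    apply le_min (by norm_num)
    apply le_min <;> linarith only [hxa, hxb]
  unfold ww
  rw [norm_div, hnum]
  apply div_le_div_of_nonneg_left (Real.exp_pos _).le hden
  -- near the ends
  have near : ∀ c : ℝ, e1 c = -1 → |x - c| ≤ 1 / 4 →
      1 - Real.exp (-(Real.pi * κ / 2)) ≤ ‖1 - e1 ((x : ℂ) + P * I)‖ := by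
    intro c hc hx
    refine hden1.trans (one_le_norm_one_sub ?_)
    have h1 : e1 ((x : ℂ) + P * I) = -e1 (((x - c : ℝ) : ℂ) + P * I) := by
      have : e1 ((x : ℂ) + P * I) = e1 c * e1 (((x - c : ℝ) : ℂ) + P * I) := by
        unfold e1
        rw [← Complex.exp_add]
        congr 1
        push_cast
        ring
      rw [this, hc]
      ring
    rw [h1, Complex.neg_re, e1_re]
    have h2 : 0 ≤ Real.cos (2 * Real.pi * (((x - c : ℝ) : ℂ) + P * I).re) := by
      have h3 : (((x - c : ℝ) : ℂ) + P * I).re = x - c := by simp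
      rw [h3]
      obtain ⟨h4, h5⟩ := abs_le.mp hx
      apply Real.cos_nonneg_of_neg_pi_div_two_le_of_le
      · nlinarith only [hpi, h4]
      · nlinarith only [hpi, h5]
    have := mul_nonneg (Real.exp_pos (-(2 * Real.pi * (((x - c : ℝ) : ℂ) + P * I).im))).le h2
    linarith only [this]
  rcases le_total (x - a) (1 / 4) with h1 | h1
  · exact near a ha (abs_le.mpr ⟨by linarith only [hxa], h1⟩)
  rcases le_total (b - x) (1 / 4) with h2 | h2
  · exact near b hb (abs_le.mpr ⟨by linarith only [h2], by linarith only [hxb]⟩)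
  rw [min_eq_left (le_min h1 h2)] at hP
  have h3 : ‖e1 ((x : ℂ) + P * I)‖ ≤ Real.exp (-(Real.pi * κ / 2)) := by
    rw [hnum]
    apply Real.exp_le_exp.mpr
    nlinarith only [hP, hpi]
  have h4 := norm_sub_norm_le (1 : ℂ) (e1 ((x : ℂ) + P * I))
  rw [norm_one] at h4
  linarith only [h3, h4]

/-! ### The scaled formula -/

/-- scaling of a graph -/
theorem GraphD.scale {h h' : ℝ → ℝ} {a b : ℝ} {s : Set ℝ} {n : ℝ} (hn : 0 < n)
    (H : GraphD h h' (a / n) (b / n) s) :
    GraphD (fun x => n * h (x / n)) (fun x => h' (x / n)) a b ((fun x => n * x) '' s) where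
  cont := by
    refine continuousOn_const.mul (H.cont.comp (by fun_prop) fun x hx => ?_)
    exact ⟨div_le_div_of_nonneg_right hx.1 hn.le, div_le_div_of_nonneg_right hx.2 hn.le⟩
  cnt := H.cnt.image _
  der := by
    intro x hx
    have h1 : HasDerivAt h (h' (x / n)) (x / n) := by
      refine H.der (x / n) ⟨⟨div_lt_div_of_pos_right hx.1.1 hn,
        div_lt_div_of_pos_right hx.1.2 hn⟩, fun hm => hx.2 ⟨x / n, hm, ?_⟩⟩
      field_simp
    have h2 : HasDerivAt (fun x : ℝ => x / n) (1 / n) x := by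
      simpa using (hasDerivAt_id x).div_const n
    have h3 := (h1.comp x h2).const_mul n
    refine h3.congr_deriv ?_
    field_simp
  int := by
    have h1 := H.int.comp_mul_right (c := n⁻¹) 
    have h2 : (fun x => h' (x * n⁻¹)) = fun x => h' (x / n) := by
      funext x
      rw [div_eq_mul_inv]
    rw [h2] at h1
    convert h1 using 1
    · field_simp
    · field_simp
  left := by rw [H.left, mul_zero]
  right := by rw [H.right, mul_zero]

theorem gpt_scale {h : ℝ → ℝ} {n : ℝ} (hn : 0 < n) (x : ℝ) :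
    gpt (fun x => n * h (x / n)) x / n = gpt h (x / n) := by
  have hn' : (n : ℂ) ≠ 0 := by exact_mod_cast hn.ne'
  unfold gpt
  push_cast
  field_simp

theorem integral_scale {F : ℂ → ℂ} {h h' : ℝ → ℝ} {n : ℝ} (hn : 0 < n) (a b : ℝ) :
    (∫ x : ℝ in a..b, F (gpt (fun x => n * h (x / n)) x / n) * (1 + h' (x / n) * I)) =
      n * ∫ x : ℝ in (a / n)..(b / n), F (gpt h x) * (1 + h' x * I) := by
  have h1 := intervalIntegral.integral_comp_div (a := a) (b := b) (c := n)
    (fun x : ℝ => F (gpt h x) * (1 + h' x * I)) hn.ne'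
  rw [Complex.real_smul] at h1
  rw [← h1]
  refine intervalIntegral.integral_congr fun x _ => ?_
  simp only [gpt_scale hn]

/-- **Sum over a window = main integral along a graph + mode integrals**, scaled variables. -/
theorem sum_graph_eq {n : ℕ} (hn : 0 < n) (a : ℤ) {N : ℕ} (hN : 0 < N) {g : ℂ → ℂ}
    (hg : ∀ w ∈ strip (((a : ℝ) - 1 / 2) / n) (((a : ℝ) + N - 1 / 2) / n), DifferentiableAt ℂ g w)
    {h h' p p' q q' : ℝ → ℝ} {s s₁ s₂ : Set ℝ}
    (H : GraphD h h' (((a : ℝ) - 1 / 2) / n) (((a : ℝ) + N - 1 / 2) / n) s)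
    (Hp : GraphD p p' (((a : ℝ) - 1 / 2) / n) (((a : ℝ) + N - 1 / 2) / n) s₁)
    (Hq : GraphD q q' (((a : ℝ) - 1 / 2) / n) (((a : ℝ) + N - 1 / 2) / n) s₂)
    (hp : ∀ x ∈ Ioo (((a : ℝ) - 1 / 2) / n) (((a : ℝ) + N - 1 / 2) / n), 0 < p x)
    (hq : ∀ x ∈ Ioo (((a : ℝ) - 1 / 2) / n) (((a : ℝ) + N - 1 / 2) / n), 0 < q x) :
    ∑ j ∈ Finset.range N, g ((a + j) / n) =
      n * (∫ x : ℝ in (((a : ℝ) - 1 / 2) / n)..(((a : ℝ) + N - 1 / 2) / n),
        g (gpt h x) * (1 + h' x * I)) +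
      n * (∫ x : ℝ in (((a : ℝ) - 1 / 2) / n)..(((a : ℝ) + N - 1 / 2) / n),
        ww (n * gpt p x) * g (gpt p x) * (1 + p' x * I)) +
      n * ∫ x : ℝ in (((a : ℝ) - 1 / 2) / n)..(((a : ℝ) + N - 1 / 2) / n),
        ww (-(n * gpt (fun x => -q x) x)) * g (gpt (fun x => -q x) x) *
          (1 + (-q' x : ℝ) * I) := by
  have hn0 : (0 : ℝ) < n := by exact_mod_cast hn
  have hnc : (n : ℂ) ≠ 0 := by exact_mod_cast hn.ne'
  have hcast : ((n : ℝ) : ℂ) = (n : ℂ) := by push_cast; rfl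
  have h1 := abel_graph (g := fun z => g (z / n)) a hN (by
    intro z hz
    have h2 : DifferentiableAt ℂ g (z / n) := by
      apply hg
      have h3 : (z / (n : ℂ)).re = z.re / n := by
        rw [← hcast, Complex.div_ofReal_re]
      constructor
      · rw [h3]; exact div_le_div_of_nonneg_right hz.1 hn0.le
      · rw [h3]; exact div_le_div_of_nonneg_right hz.2 hn0.le
    exact h2.comp z (differentiableAt_id.div_const _)) (H.scale hn0) (Hp.scale hn0)
    (Hq.scale hn0) (fun x hx => mul_pos hn0 (hp _ ⟨div_lt_div_of_pos_right hx.1 hn0,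
      div_lt_div_of_pos_right hx.2 hn0⟩)) (fun x hx => mul_pos hn0 (hq _
      ⟨div_lt_div_of_pos_right hx.1 hn0, div_lt_div_of_pos_right hx.2 hn0⟩))
  have e1 := integral_scale (F := g) (h := h) (h' := h') hn0 ((a : ℝ) - 1 / 2)
    ((a : ℝ) + N - 1 / 2)
  have e2 := integral_scale (F := fun w => ww (n * w) * g w) (h := p) (h' := p') hn0
    ((a : ℝ) - 1 / 2) ((a : ℝ) + N - 1 / 2)
  have e3 := integral_scale (F := fun w => ww (-(n * w)) * g w) (h := fun x => -q x)
    (h' := fun x => -q' x) hn0 ((a : ℝ) - 1 / 2) ((a : ℝ) + N - 1 / 2)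
  have k2 : ∀ z : ℂ, (n : ℂ) * (z / ((n : ℝ) : ℂ)) = z := by
    intro z
    rw [hcast]
    field_simp
  have k3 : (fun x => -(n * q (x / n))) = fun x => n * -q (x / n) := by
    funext x
    ring
  simp only [k2] at e2 e3
  simp only [hcast] at e1 e2 e3
  rw [e1, e2] at h1
  simp only [k3] at h1
  rw [e3] at h1
  exact h1

/-- the error of the main integral -/
theorem norm_sum_sub_le {n : ℕ} (hn : 0 < n) (a : ℤ) {N : ℕ} (hN : 0 < N) {g : ℂ → ℂ}
    (hg : ∀ w ∈ strip (((a : ℝ) - 1 / 2) / n) (((a : ℝ) + N - 1 / 2) / n), DifferentiableAt ℂ g w)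
    {h h' p p' q q' : ℝ → ℝ} {s s₁ s₂ : Set ℝ}
    (H : GraphD h h' (((a : ℝ) - 1 / 2) / n) (((a : ℝ) + N - 1 / 2) / n) s)
    (Hp : GraphD p p' (((a : ℝ) - 1 / 2) / n) (((a : ℝ) + N - 1 / 2) / n) s₁)
    (Hq : GraphD q q' (((a : ℝ) - 1 / 2) / n) (((a : ℝ) + N - 1 / 2) / n) s₂)
    (hp : ∀ x ∈ Ioo (((a : ℝ) - 1 / 2) / n) (((a : ℝ) + N - 1 / 2) / n), 0 < p x)
    (hq : ∀ x ∈ Ioo (((a : ℝ) - 1 / 2) / n) (((a : ℝ) + N - 1 / 2) / n), 0 < q x)
    {κ : ℝ} (hκ : 0 < κ)
    (hpκ : ∀ x, κ * min (1 / (4 * (n : ℝ))) (min (x - ((a : ℝ) - 1 / 2) / n)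
      (((a : ℝ) + N - 1 / 2) / n - x)) ≤ p x)
    (hqκ : ∀ x, κ * min (1 / (4 * (n : ℝ))) (min (x - ((a : ℝ) - 1 / 2) / n)
      (((a : ℝ) + N - 1 / 2) / n - x)) ≤ q x)
    {L : ℝ} (hp' : ∀ x, |p' x| ≤ L) (hq' : ∀ x, |q' x| ≤ L) {M : ℝ}
    (hMp : ∀ x, ((a : ℝ) - 1 / 2) / n ≤ x → x ≤ ((a : ℝ) + N - 1 / 2) / n →
      Real.exp (-(2 * Real.pi * (n * p x))) * ‖g (gpt p x)‖ ≤ M)
    (hMq : ∀ x, ((a : ℝ) - 1 / 2) / n ≤ x → x ≤ ((a : ℝ) + N - 1 / 2) / n →
      Real.exp (-(2 * Real.pi * (n * q x))) * ‖g (gpt (fun x => -q x) x)‖ ≤ M) :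
    ‖∑ j ∈ Finset.range N, g ((a + j) / n) -
      n * (∫ x : ℝ in (((a : ℝ) - 1 / 2) / n)..(((a : ℝ) + N - 1 / 2) / n),
        g (gpt h x) * (1 + h' x * I))‖ ≤
      2 * N * (1 + L) / (1 - Real.exp (-(Real.pi * κ / 2))) * M := by
  have hn0 : (0 : ℝ) < n := by exact_mod_cast hn
  have hN0 : (0 : ℝ) < N := by exact_mod_cast hN
  have hnc : (n : ℂ) ≠ 0 := by exact_mod_cast hn.ne'
  set A : ℝ := ((a : ℝ) - 1 / 2) / n with hA
  set B : ℝ := ((a : ℝ) + N - 1 / 2) / n with hB
  have hAB : A ≤ B := by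
    rw [hA, hB]
    apply div_le_div_of_nonneg_right _ hn0.le
    linarith only [hN0]
  have hBA : B - A = N / n := by
    rw [hA, hB, ← sub_div]
    congr 1
    ring
  have hden : 0 < 1 - Real.exp (-(Real.pi * κ / 2)) := by
    have : Real.exp (-(Real.pi * κ / 2)) < 1 := by
      rw [Real.exp_lt_one_iff]
      have : 0 < Real.pi * κ / 2 := by positivity
      linarith only [this]
    linarith only [this]
  have hL0 : 0 ≤ L := (abs_nonneg _).trans (hp' 0)
  have hM0 : 0 ≤ M := le_trans (by positivity) (hMp A le_rfl hAB)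
  have hw1 : ∀ (c : ℝ) (k : ℤ), c = ((k : ℝ) - 1 / 2) → e1 (c : ℂ) = -1 := by
    intro c k hc
    rw [hc]
    exact e1_half_int k
  have nA : n * A = (a : ℝ) - 1 / 2 := by rw [hA]; field_simp
  have nB : n * B = (a : ℝ) + N - 1 / 2 := by rw [hB]; field_simp
  -- bound of one mode
  have key : ∀ (r r' : ℝ → ℝ) (σ : ℝ), (σ = 1 ∨ σ = -1) →
      (∀ x, κ * min (1 / (4 * (n : ℝ))) (min (x - A) (B - x)) ≤ r x) →
      (∀ x, |r' x| ≤ L) →
      (∀ x, A ≤ x → x ≤ B → Real.exp (-(2 * Real.pi * (n * r x))) *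
        ‖g (gpt (fun x => σ * r x) x)‖ ≤ M) →
      ‖∫ x : ℝ in A..B, ww (σ * (n * gpt (fun x => σ * r x) x)) *
        g (gpt (fun x => σ * r x) x) * (1 + ((σ * r' x : ℝ) : ℂ) * I)‖ ≤
        N / n * ((1 + L) / (1 - Real.exp (-(Real.pi * κ / 2))) * M) := by
    intro r r' σ hσ hr hr' hMr
    have h1 : ∀ x ∈ uIoc A B, ‖ww (σ * (n * gpt (fun x => σ * r x) x)) *
        g (gpt (fun x => σ * r x) x) * (1 + ((σ * r' x : ℝ) : ℂ) * I)‖ ≤
        (1 + L) / (1 - Real.exp (-(Real.pi * κ / 2))) * M := by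
      intro x hx
      rw [uIoc_of_le hAB] at hx
      have h2 : ‖ww (σ * (n * gpt (fun x => σ * r x) x))‖ ≤
          Real.exp (-(2 * Real.pi * (n * r x))) / (1 - Real.exp (-(Real.pi * κ / 2))) := by
        have hr2 : κ * min (1 / 4) (min (n * x - n * A) (n * B - n * x)) ≤ n * r x := by
          have e : min (1 / 4) (min (n * x - n * A) (n * B - n * x)) =
              n * min (1 / (4 * (n : ℝ))) (min (x - A) (B - x)) := by
            rw [mul_min_of_nonneg _ _ hn0.le, mul_min_of_nonneg _ _ hn0.le]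
            congr 1
            · field_simp
            · congr 1 <;> ring
          rw [e]
          have := mul_le_mul_of_nonneg_left (hr x) hn0.le
          linarith only [this]
        rcases hσ with e | e
        · have := norm_ww_ramp (a := n * A) (b := n * B) (x := n * x) (P := n * r x)
            (hw1 _ a nA) (hw1 _ (a + N) (by rw [nB]; push_cast; ring)) hκ hr2
            (mul_le_mul_of_nonneg_left hx.1.le hn0.le) (mul_le_mul_of_nonneg_left hx.2 hn0.le)
          convert this using 3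
          rw [e]
          unfold gpt
          push_cast
          ring
        · have := norm_ww_ramp (a := -(n * B)) (b := -(n * A)) (x := -(n * x)) (P := n * r x)
            (hw1 _ (1 - a - N) (by rw [nB]; push_cast; ring))
            (hw1 _ (1 - a) (by rw [nA]; push_cast; ring)) hκ (by
              convert hr2 using 2
              rw [min_comm (-(n * x) - -(n * B))]
              congr 2 <;> ring)
            (neg_le_neg (mul_le_mul_of_nonneg_left hx.2 hn0.le))
            (neg_le_neg (mul_le_mul_of_nonneg_left hx.1.le hn0.le))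
          convert this using 3
          rw [e]
          unfold gpt
          push_cast
          ring
      have h3 : ‖(1 + ((σ * r' x : ℝ) : ℂ) * I)‖ ≤ 1 + L := by
        refine (norm_add_le _ _).trans ?_
        rw [norm_one, norm_mul, norm_I, mul_one, Complex.norm_real, Real.norm_eq_abs, abs_mul]
        have : |σ| = 1 := by rcases hσ with e | e <;> rw [e] <;> norm_num
        rw [this, one_mul]
        linarith only [hr', hr' x]
      rw [norm_mul, norm_mul]
      calc ‖ww (σ * (n * gpt (fun x => σ * r x) x))‖ * ‖g (gpt (fun x => σ * r x) x)‖ *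
            ‖(1 + ((σ * r' x : ℝ) : ℂ) * I)‖
          ≤ (Real.exp (-(2 * Real.pi * (n * r x))) / (1 - Real.exp (-(Real.pi * κ / 2)))) *
            ‖g (gpt (fun x => σ * r x) x)‖ * (1 + L) := by
            gcongr
        _ = (Real.exp (-(2 * Real.pi * (n * r x))) * ‖g (gpt (fun x => σ * r x) x)‖) *
            ((1 + L) / (1 - Real.exp (-(Real.pi * κ / 2)))) := by ring
        _ ≤ M * ((1 + L) / (1 - Real.exp (-(Real.pi * κ / 2)))) :=
            mul_le_mul_of_nonneg_right (hMr x hx.1.le hx.2) (by positivity)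
        _ = _ := by ring
    have h4 := intervalIntegral.norm_integral_le_of_norm_le_const h1
    rw [abs_of_nonneg (by linarith only [hAB] : 0 ≤ B - A), hBA] at h4
    linarith only [h4]
  rw [sum_graph_eq hn a hN hg H Hp Hq hp hq]
  have h1 := key p p' 1 (Or.inl rfl) hpκ hp' (by simpa using hMp)
  have h2 := key q q' (-1) (Or.inr rfl) hqκ hq' (by simpa using hMq)
  have e1 : (∫ x : ℝ in A..B, ww (((1 : ℝ) : ℂ) * (n * gpt (fun x => 1 * p x) x)) *
        g (gpt (fun x => 1 * p x) x) * (1 + ((1 * p' x : ℝ) : ℂ) * I)) =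
      ∫ x : ℝ in A..B, ww (n * gpt p x) * g (gpt p x) * (1 + p' x * I) := by simp
  have e2 : (∫ x : ℝ in A..B, ww (((-1 : ℝ) : ℂ) * (n * gpt (fun x => -1 * q x) x)) *
        g (gpt (fun x => -1 * q x) x) * (1 + ((-1 * q' x : ℝ) : ℂ) * I)) =
      ∫ x : ℝ in A..B, ww (-(n * gpt (fun x => -q x) x)) * g (gpt (fun x => -q x) x) *
          (1 + (-q' x : ℝ) * I) := by simp
  rw [e1] at h1
  rw [e2] at h2
  have h5 : ∀ u v w : ℂ, u + v + w - u = v + w := fun u v w => by ring
  rw [h5]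
  refine (norm_add_le _ _).trans ?_
  rw [norm_mul, norm_mul, Complex.norm_natCast]
  have h6 := mul_le_mul_of_nonneg_left h1 hn0.le
  have h7 := mul_le_mul_of_nonneg_left h2 hn0.le
  have h8 : (n : ℝ) * (N / n * ((1 + L) / (1 - Real.exp (-(Real.pi * κ / 2))) * M)) =
      N * (1 + L) / (1 - Real.exp (-(Real.pi * κ / 2))) * M := by
    field_simp
  rw [h8] at h6 h7
  have h9 : 2 * N * (1 + L) / (1 - Real.exp (-(Real.pi * κ / 2))) * M =
      N * (1 + L) / (1 - Real.exp (-(Real.pi * κ / 2))) * M +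
      N * (1 + L) / (1 - Real.exp (-(Real.pi * κ / 2))) * M := by ring
  rw [h9]
  exact add_le_add h6 h7

/-! ### The standard heights -/

/-- trapezoidal height: `0` outside `(A,B)`, slopes `1/d₁` and `-1/d₂`, top `1` -/
noncomputable def trap (A B d₁ d₂ x : ℝ) : ℝ := max 0 (min 1 (min ((x - A) / d₁) ((B - x) / d₂)))

theorem trap_nonneg (A B d₁ d₂ x : ℝ) : 0 ≤ trap A B d₁ d₂ x := le_max_left _ _

theorem trap_le_one (A B d₁ d₂ x : ℝ) : trap A B d₁ d₂ x ≤ 1 :=
  max_le zero_le_one (min_le_left _ _)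

theorem trap_of_le {A B d₁ d₂ x : ℝ} (h1 : 0 < d₁) (hx : x ≤ A) : trap A B d₁ d₂ x = 0 := by
  unfold trap
  apply max_eq_left
  refine (min_le_right _ _).trans ((min_le_left _ _).trans ?_)
  exact div_nonpos_of_nonpos_of_nonneg (by linarith only [hx]) h1.le

theorem trap_of_ge {A B d₁ d₂ x : ℝ} (h2 : 0 < d₂) (hx : B ≤ x) : trap A B d₁ d₂ x = 0 := by
  unfold trap
  apply max_eq_left
  refine (min_le_right _ _).trans ((min_le_right _ _).trans ?_)
  exact div_nonpos_of_nonpos_of_nonneg (by linarith only [hx]) h2.le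

theorem trap_pos {A B d₁ d₂ x : ℝ} (h1 : 0 < d₁) (h2 : 0 < d₂) (hA : A < x) (hB : x < B) :
    0 < trap A B d₁ d₂ x := by
  unfold trap
  refine lt_max_of_lt_right (lt_min zero_lt_one (lt_min ?_ ?_))
  · exact div_pos (by linarith only [hA]) h1
  · exact div_pos (by linarith only [hB]) h2

theorem trap_eq_one {A B d₁ d₂ x : ℝ} (h1 : 0 < d₁) (h2 : 0 < d₂) (hA : A + d₁ ≤ x)
    (hB : x ≤ B - d₂) : trap A B d₁ d₂ x = 1 := by
  unfold trap
  have e1 : 1 ≤ (x - A) / d₁ := by rw [le_div_iff₀ h1]; linarith only [hA]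
  have e2 : 1 ≤ (B - x) / d₂ := by rw [le_div_iff₀ h2]; linarith only [hB]
  rw [min_eq_left (le_min e1 e2)]
  exact max_eq_right zero_le_one

theorem lip_min {f g : ℝ → ℝ} {K : ℝ} (hf : ∀ x y, |f x - f y| ≤ K * |x - y|)
    (hg : ∀ x y, |g x - g y| ≤ K * |x - y|) (x y : ℝ) :
    |min (f x) (g x) - min (f y) (g y)| ≤ K * |x - y| :=
  (abs_min_sub_min_le_max _ _ _ _).trans (max_le (hf x y) (hg x y))

theorem lip_max {f g : ℝ → ℝ} {K : ℝ} (hf : ∀ x y, |f x - f y| ≤ K * |x - y|)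
    (hg : ∀ x y, |g x - g y| ≤ K * |x - y|) (x y : ℝ) :
    |max (f x) (g x) - max (f y) (g y)| ≤ K * |x - y| :=
  (abs_max_sub_max_le_max _ _ _ _).trans (max_le (hf x y) (hg x y))

theorem trap_lip {A B d₁ d₂ K : ℝ} (h1 : 0 < d₁) (h2 : 0 < d₂) (hK1 : 1 / d₁ ≤ K)
    (hK2 : 1 / d₂ ≤ K) (x y : ℝ) :
    |trap A B d₁ d₂ x - trap A B d₁ d₂ y| ≤ K * |x - y| := by
  have hK : 0 ≤ K := le_trans (by positivity) hK1
  have c : ∀ c : ℝ, ∀ x y : ℝ, |c - c| ≤ K * |x - y| := by
    intro c x y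
    rw [sub_self, abs_zero]
    positivity
  have e1 : ∀ x y : ℝ, |(x - A) / d₁ - (y - A) / d₁| ≤ K * |x - y| := by
    intro x y
    have : (x - A) / d₁ - (y - A) / d₁ = 1 / d₁ * (x - y) := by field_simp; ring
    rw [this, abs_mul, abs_of_pos (by positivity : 0 < 1 / d₁)]
    exact mul_le_mul_of_nonneg_right hK1 (abs_nonneg _)
  have e2 : ∀ x y : ℝ, |(B - x) / d₂ - (B - y) / d₂| ≤ K * |x - y| := by
    intro x y
    have : (B - x) / d₂ - (B - y) / d₂ = -(1 / d₂ * (x - y)) := by field_simp; ring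
    rw [this, abs_neg, abs_mul, abs_of_pos (by positivity : 0 < 1 / d₂)]
    exact mul_le_mul_of_nonneg_right hK2 (abs_nonneg _)
  unfold trap
  exact lip_max (f := fun _ => 0) (g := fun x => min 1 (min ((x - A) / d₁) ((B - x) / d₂)))
    (c 0) (lip_min (f := fun _ => 1) (g := fun x => min ((x - A) / d₁) ((B - x) / d₂)) (c 1)
      (lip_min e1 e2)) x y

theorem continuous_of_lip {f : ℝ → ℝ} {K : ℝ} (hf : ∀ x y, |f x - f y| ≤ K * |x - y|) :
    Continuous f := by
  have hK : 0 ≤ K := by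
    have := (abs_nonneg _).trans (hf 0 1)
    simpa using this
  have h : LipschitzWith ⟨K, hK⟩ f := LipschitzWith.of_dist_le_mul fun x y => by
    rw [Real.dist_eq, Real.dist_eq]
    exact hf x y
  exact h.continuous

theorem abs_deriv_of_lip {f : ℝ → ℝ} {K : ℝ} (hf : ∀ x y, |f x - f y| ≤ K * |x - y|) (x : ℝ) :
    |deriv f x| ≤ K := by
  have hK : 0 ≤ K := by
    have := (abs_nonneg _).trans (hf 0 1)
    simpa using this
  have h : LipschitzWith ⟨K, hK⟩ f := LipschitzWith.of_dist_le_mul fun x y => by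
    rw [Real.dist_eq, Real.dist_eq]
    exact hf x y
  have := norm_deriv_le_of_lipschitz (x₀ := x) h
  rw [Real.norm_eq_abs] at this
  exact this

theorem diff_min {f g : ℝ → ℝ} {x : ℝ} (hf : DifferentiableAt ℝ f x)
    (hg : DifferentiableAt ℝ g x) (hne : f x ≠ g x) :
    DifferentiableAt ℝ (fun y => min (f y) (g y)) x := by
  rcases lt_or_gt_of_ne hne with h | h
  · refine hf.congr_of_eventuallyEq ?_
    filter_upwards [hf.continuousAt.eventually_lt hg.continuousAt h] with y hy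
    exact min_eq_left hy.le
  · refine hg.congr_of_eventuallyEq ?_
    filter_upwards [hg.continuousAt.eventually_lt hf.continuousAt h] with y hy
    exact min_eq_right hy.le

theorem diff_max {f g : ℝ → ℝ} {x : ℝ} (hf : DifferentiableAt ℝ f x)
    (hg : DifferentiableAt ℝ g x) (hne : f x ≠ g x) :
    DifferentiableAt ℝ (fun y => max (f y) (g y)) x := by
  rcases lt_or_gt_of_ne hne with h | h
  · refine hg.congr_of_eventuallyEq ?_
    filter_upwards [hf.continuousAt.eventually_lt hg.continuousAt h] with y hy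
    exact max_eq_right hy.le
  · refine hf.congr_of_eventuallyEq ?_
    filter_upwards [hg.continuousAt.eventually_lt hf.continuousAt h] with y hy
    exact max_eq_left hy.le

/-- the corners -/
noncomputable def trapS (A B d₁ d₂ : ℝ) : Set ℝ :=
  {A, A + d₁, B, B - d₂, (A * d₂ + B * d₁) / (d₁ + d₂)}

theorem trapS_countable (A B d₁ d₂ : ℝ) : (trapS A B d₁ d₂).Countable :=
  Set.Finite.countable (by unfold trapS; exact Set.toFinite _)

theorem trap_diff {A B d₁ d₂ : ℝ} (h1 : 0 < d₁) (h2 : 0 < d₂) {x : ℝ}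
    (hx : x ∉ trapS A B d₁ d₂) : DifferentiableAt ℝ (trap A B d₁ d₂) x := by
  unfold trapS at hx
  simp only [mem_insert_iff, mem_singleton_iff, not_or] at hx
  obtain ⟨x1, x2, x3, x4, x5⟩ := hx
  have d1 : DifferentiableAt ℝ (fun x : ℝ => (x - A) / d₁) x := by fun_prop
  have d2 : DifferentiableAt ℝ (fun x : ℝ => (B - x) / d₂) x := by fun_prop
  have ne12 : (x - A) / d₁ ≠ (B - x) / d₂ := by
    intro h
    apply x5
    rw [div_eq_div_iff h1.ne' h2.ne'] at h
    rw [eq_div_iff (by positivity)]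
    linarith only [h]
  have n1 : (x - A) / d₁ ≠ 1 := by
    intro h
    rw [div_eq_one_iff_eq h1.ne'] at h
    apply x2
    linarith only [h]
  have n2 : (B - x) / d₂ ≠ 1 := by
    intro h
    rw [div_eq_one_iff_eq h2.ne'] at h
    apply x4
    linarith only [h]
  have n3 : (x - A) / d₁ ≠ 0 := by
    intro h
    rw [div_eq_zero_iff] at h
    rcases h with h | h
    · apply x1; linarith only [h]
    · exact h1.ne' h
  have n4 : (B - x) / d₂ ≠ 0 := by
    intro h
    rw [div_eq_zero_iff] at h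
    rcases h with h | h
    · apply x3; linarith only [h]
    · exact h2.ne' h
  have m1 : min ((x - A) / d₁) ((B - x) / d₂) ≠ 1 := by
    rcases min_choice ((x - A) / d₁) ((B - x) / d₂) with h | h <;> rw [h] <;> assumption
  have m2 : min ((x - A) / d₁) ((B - x) / d₂) ≠ 0 := by
    rcases min_choice ((x - A) / d₁) ((B - x) / d₂) with h | h <;> rw [h] <;> assumption
  have m3 : min 1 (min ((x - A) / d₁) ((B - x) / d₂)) ≠ 0 := by
    rcases min_choice 1 (min ((x - A) / d₁) ((B - x) / d₂)) with h | h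
    · rw [h]; norm_num
    · rw [h]; exact m2
  unfold trap
  exact diff_max (f := fun _ => 0) (differentiableAt_const _)
    (diff_min (f := fun _ => 1) (differentiableAt_const _) (diff_min d1 d2 ne12) m1.symm) m3.symm

/-- a scaled trapezoid is the height of a graph over every interval containing its base -/
theorem graphD_trap {A B d₁ d₂ : ℝ} (h1 : 0 < d₁) (h2 : 0 < d₂) (t : ℝ) {a b : ℝ} (ha : a ≤ A)
    (hb : B ≤ b) :
    GraphD (fun x => t * trap A B d₁ d₂ x) (fun x => t * deriv (trap A B d₁ d₂) x) a b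
      (trapS A B d₁ d₂) where
  cont := (continuous_const.mul (continuous_of_lip (trap_lip h1 h2 (le_max_left _ _)
    (le_max_right _ _)))).continuousOn
  cnt := trapS_countable A B d₁ d₂
  der := fun x hx => (trap_diff h1 h2 hx.2).hasDerivAt.const_mul t
  int := by
    have hb : ∀ x, ‖t * deriv (trap A B d₁ d₂) x‖ ≤ |t| * max (1 / d₁) (1 / d₂) := by
      intro x
      rw [Real.norm_eq_abs, abs_mul]
      exact mul_le_mul_of_nonneg_left (abs_deriv_of_lip (trap_lip h1 h2 (le_max_left _ _)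
        (le_max_right _ _)) x) (abs_nonneg _)
    have hm : Measurable fun x => t * deriv (trap A B d₁ d₂) x :=
      (measurable_deriv _).const_mul t
    refine ⟨?_, ?_⟩
    · exact Measure.integrableOn_of_bounded (by simp) hm.aestronglyMeasurable
        (ae_of_all _ hb)
    · exact Measure.integrableOn_of_bounded (by simp) hm.aestronglyMeasurable
        (ae_of_all _ hb)
  left := by rw [trap_of_le h1 ha, mul_zero]
  right := by rw [trap_of_ge h2 hb, mul_zero]

theorem trap_ge {A B d κ t : ℝ} (hd : 0 < d) (ht : 0 ≤ t) (hκ : κ * d ≤ t) {u : ℝ} (hu : κ * u ≤ t)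
    (hκ0 : 0 ≤ κ) (x : ℝ) :
    κ * min u (min (x - A) (B - x)) ≤ t * trap A B d d x := by
  rcases le_total 0 (min (x - A) (B - x)) with h | h
  · have h1 : κ * min u (min (x - A) (B - x)) ≤
        t * min 1 (min ((x - A) / d) ((B - x) / d)) := by
      rw [mul_min_of_nonneg _ _ hκ0, mul_min_of_nonneg _ _ hκ0, mul_min_of_nonneg _ _ ht,
        mul_min_of_nonneg _ _ ht, mul_one]
      have h2 := le_min_iff.mp h
      refine le_min ((min_le_left _ _).trans hu) (le_min ?_ ?_)
      · refine (min_le_right _ _).trans ((min_le_left _ _).trans ?_)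
        rw [mul_div_assoc', le_div_iff₀ hd]
        nlinarith only [hκ, h2, mul_le_mul_of_nonneg_right hκ h2.1]
      · refine (min_le_right _ _).trans ((min_le_right _ _).trans ?_)
        rw [mul_div_assoc', le_div_iff₀ hd]
        nlinarith only [hκ, h2, mul_le_mul_of_nonneg_right hκ h2.2]
    exact h1.trans (mul_le_mul_of_nonneg_left (le_max_right _ _) ht)
  · have h1 : κ * min u (min (x - A) (B - x)) ≤ 0 :=
      mul_nonpos_of_nonneg_of_nonpos hκ0 ((min_le_right _ _).trans h)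
    exact h1.trans (mul_nonneg ht (trap_nonneg _ _ _ _ _))

/-! ### The one-variable lemma in the form used for sums over many variables -/

/-- the points over `[a,b]` at the trapezoidal height `s` -/
def pathE (a b s A B d₁ d₂ : ℝ) : Set ℂ :=
  {w | a ≤ w.re ∧ w.re ≤ b ∧ w.im = s * trap A B d₁ d₂ w.re}

/-- **One-variable lemma.** The sum over `0 ≤ k < n` of `g (k/n)` is the integral of `g` along the
trapezoidal path over `[-1/(2n), (N-1/2)/n]`, up to `C n` times the supremum of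
`e^{-2πn|Im w|} |g w|` over an upper mode path, a lower mode path and the tail `k ≥ N`. -/
theorem one_var {n N : ℕ} (hN : 0 < N) (hNn : N ≤ n) {g : ℂ → ℂ}
    (hg : ∀ w ∈ strip (-(1 / (2 * (n : ℝ)))) (((N : ℝ) - 1 / 2) / n), DifferentiableAt ℂ g w)
    {t A B d₁ d₂ : ℝ} (h1 : 0 < d₁) (h2 : 0 < d₂) (hA : -(1 / (2 * (n : ℝ))) ≤ A)
    (hB : B ≤ ((N : ℝ) - 1 / 2) / n)
    {s₁ s₂ d : ℝ} (hs₁ : 0 < s₁) (hs₂ : 0 < s₂) (hd : 0 < d) (hdn : 1 / (4 * (n : ℝ)) ≤ d)
    {κ : ℝ} (hκ : 0 < κ) (hκ₁ : κ * d ≤ s₁) (hκ₂ : κ * d ≤ s₂)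
    {L : ℝ} (hL₁ : s₁ / d ≤ L) (hL₂ : s₂ / d ≤ L) {M : ℝ}
    (hM₁ : ∀ w ∈ pathE (-(1 / (2 * (n : ℝ)))) (((N : ℝ) - 1 / 2) / n) s₁
      (-(1 / (2 * (n : ℝ)))) (((N : ℝ) - 1 / 2) / n) d d,
      Real.exp (-(2 * Real.pi * n * |w.im|)) * ‖g w‖ ≤ M)
    (hM₂ : ∀ w ∈ pathE (-(1 / (2 * (n : ℝ)))) (((N : ℝ) - 1 / 2) / n) (-s₂)
      (-(1 / (2 * (n : ℝ)))) (((N : ℝ) - 1 / 2) / n) d d,
      Real.exp (-(2 * Real.pi * n * |w.im|)) * ‖g w‖ ≤ M)
    (hM₃ : ∀ k : ℕ, N ≤ k → k < n → ‖g ((k : ℂ) / n)‖ ≤ M) :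
    ‖∑ k ∈ Finset.range n, g ((k : ℂ) / n) -
      n * (∫ x : ℝ in (-(1 / (2 * (n : ℝ))))..(((N : ℝ) - 1 / 2) / n),
        g (gpt (fun x => t * trap A B d₁ d₂ x) x) *
          (1 + ((t * deriv (trap A B d₁ d₂) x : ℝ) : ℂ) * I))‖ ≤
      (2 * (1 + L) / (1 - Real.exp (-(Real.pi * κ / 2))) + 1) * n * M := by
  have hn : 0 < n := hN.trans_le hNn
  have hn0 : (0 : ℝ) < n := by exact_mod_cast hn
  have hNn' : (N : ℝ) ≤ n := by exact_mod_cast hNn
  have hN0 : (0 : ℝ) < N := by exact_mod_cast hN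
  have hN1 : (1 : ℝ) ≤ N := by exact_mod_cast hN
  have eA : -(1 / (2 * (n : ℝ))) = (((0 : ℤ) : ℝ) - 1 / 2) / n := by
    push_cast
    field_simp
    ring
  have eB : ((N : ℝ) - 1 / 2) / n = (((0 : ℤ) : ℝ) + N - 1 / 2) / n := by
    push_cast
    ring
  set a' : ℝ := -(1 / (2 * (n : ℝ))) with ha'
  set b' : ℝ := ((N : ℝ) - 1 / 2) / n with hb'
  have hab : a' < b' := by
    rw [eA, eB]
    apply div_lt_div_of_pos_right _ hn0
    push_cast
    linarith only [hN0]
  have hM0 : 0 ≤ M := by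
    refine le_trans ?_ (hM₁ ((a' : ℝ) : ℂ) ⟨by simp, by simpa using hab.le, ?_⟩)
    · positivity
    · rw [ofReal_re, trap_of_le hd le_rfl, mul_zero, ofReal_im]
  have hden : 0 < 1 - Real.exp (-(Real.pi * κ / 2)) := by
    have : Real.exp (-(Real.pi * κ / 2)) < 1 := by
      rw [Real.exp_lt_one_iff]
      have := Real.pi_pos
      have : 0 < Real.pi * κ / 2 := by positivity
      linarith only [this]
    linarith only [this]
  have hL0 : 0 ≤ L := le_trans (by positivity) hL₁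
  have hlip : ∀ s : ℝ, 0 < s → s / d ≤ L → ∀ x, |s * deriv (trap a' b' d d) x| ≤ L := by
    intro s hs hsL x
    rw [abs_mul, abs_of_pos hs]
    have h3 := abs_deriv_of_lip (trap_lip (A := a') (B := b') hd hd le_rfl le_rfl) x
    have h4 := mul_le_mul_of_nonneg_left h3 hs.le
    have h5 : s * (1 / d) = s / d := by ring
    linarith only [hsL, h4, h5]
  have hge : ∀ s : ℝ, 0 < s → κ * d ≤ s → ∀ x,
      κ * min (1 / (4 * (n : ℝ))) (min (x - a') (b' - x)) ≤ s * trap a' b' d d x := by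
    intro s hs hsd x
    exact trap_ge hd hs.le hsd ((mul_le_mul_of_nonneg_left hdn hκ.le).trans hsd) hκ.le x
  have hE : ∀ s : ℝ, ∀ x : ℝ, a' ≤ x → x ≤ b' →
      gpt (fun x => s * trap a' b' d d x) x ∈ pathE a' b' s a' b' d d := by
    intro s x hx hx'
    exact ⟨by rw [gpt_re]; exact hx, by rw [gpt_re]; exact hx', by rw [gpt_im, gpt_re]⟩
  have hMp : ∀ x, a' ≤ x → x ≤ b' →
      Real.exp (-(2 * Real.pi * (n * (s₁ * trap a' b' d d x)))) *
        ‖g (gpt (fun x => s₁ * trap a' b' d d x) x)‖ ≤ M := by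
    intro x hx hx'
    have h3 := hM₁ _ (hE s₁ x hx hx')
    rw [gpt_im, abs_of_nonneg (mul_nonneg hs₁.le (trap_nonneg _ _ _ _ _))] at h3
    convert h3 using 3
    ring
  have hMq : ∀ x, a' ≤ x → x ≤ b' →
      Real.exp (-(2 * Real.pi * (n * (s₂ * trap a' b' d d x)))) *
        ‖g (gpt (fun x => -(s₂ * trap a' b' d d x)) x)‖ ≤ M := by
    intro x hx hx'
    have h3 := hM₂ _ (hE (-s₂) x hx hx')
    have h4 : (fun x => -s₂ * trap a' b' d d x) = fun x => -(s₂ * trap a' b' d d x) := by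
      funext x
      ring
    rw [h4, gpt_im, abs_neg, abs_of_nonneg (mul_nonneg hs₂.le (trap_nonneg _ _ _ _ _))] at h3
    convert h3 using 3
    ring
  have key := norm_sum_sub_le hn (0 : ℤ) hN (g := g) (by rw [← eA, ← eB]; exact hg)
    (h := fun x => t * trap A B d₁ d₂ x) (h' := fun x => t * deriv (trap A B d₁ d₂) x)
    (p := fun x => s₁ * trap a' b' d d x) (p' := fun x => s₁ * deriv (trap a' b' d d) x)
    (q := fun x => s₂ * trap a' b' d d x) (q' := fun x => s₂ * deriv (trap a' b' d d) x)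
    (by rw [← eA, ← eB]; exact graphD_trap h1 h2 t hA hB)
    (by rw [← eA, ← eB]; exact graphD_trap hd hd s₁ le_rfl le_rfl)
    (by rw [← eA, ← eB]; exact graphD_trap hd hd s₂ le_rfl le_rfl)
    (by rw [← eA, ← eB]; exact fun x hx => mul_pos hs₁ (trap_pos hd hd hx.1 hx.2))
    (by rw [← eA, ← eB]; exact fun x hx => mul_pos hs₂ (trap_pos hd hd hx.1 hx.2)) hκ
    (by rw [← eA, ← eB]; exact hge s₁ hs₁ hκ₁)
    (by rw [← eA, ← eB]; exact hge s₂ hs₂ hκ₂)
    (hlip s₁ hs₁ hL₁) (hlip s₂ hs₂ hL₂) (M := M)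
    (by rw [← eA, ← eB]; exact hMp) (by rw [← eA, ← eB]; exact hMq)
  rw [← eA, ← eB] at key
  have hsplit : ∑ k ∈ Finset.range n, g ((k : ℂ) / n) =
      ∑ j ∈ Finset.range N, g ((((0 : ℤ) : ℂ) + j) / n) +
      ∑ k ∈ Finset.Ico N n, g ((k : ℂ) / n) := by
    rw [Finset.range_eq_Ico, ← Finset.sum_Ico_consecutive _ (Nat.zero_le N) hNn,
      ← Finset.range_eq_Ico]
    congr 1
    refine Finset.sum_congr rfl fun k _ => ?_
    push_cast
    rw [zero_add]
  have htail : ‖∑ k ∈ Finset.Ico N n, g ((k : ℂ) / n)‖ ≤ ((n : ℝ) - N) * M := by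
    have h3 : ‖∑ k ∈ Finset.Ico N n, g ((k : ℂ) / n)‖ ≤ ∑ k ∈ Finset.Ico N n, M :=
      norm_sum_le_of_le _ fun k hk => hM₃ k (Finset.mem_Ico.mp hk).1 (Finset.mem_Ico.mp hk).2
    rw [Finset.sum_const, Nat.card_Ico, nsmul_eq_mul, Nat.cast_sub hNn] at h3
    exact h3
  rw [hsplit]
  have h5 : ∀ u v w : ℂ, u + v - w = (u - w) + v := fun u v w => by ring
  rw [h5]
  refine (norm_add_le _ _).trans ((add_le_add key htail).trans ?_)
  have h6 : (2 * (1 + L) / (1 - Real.exp (-(Real.pi * κ / 2))) + 1) * n * M -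
      (2 * N * (1 + L) / (1 - Real.exp (-(Real.pi * κ / 2))) * M + ((n : ℝ) - N) * M) =
      ((n : ℝ) - N) * (2 * (1 + L) / (1 - Real.exp (-(Real.pi * κ / 2))) * M) + N * M := by
    ring
  have h7 : 0 ≤ ((n : ℝ) - N) * (2 * (1 + L) / (1 - Real.exp (-(Real.pi * κ / 2))) * M) + N * M := by
    have : 0 ≤ (n : ℝ) - N := by linarith only [hNn']
    positivity
  linarith only [h6, h7]

/-- the bound of the main integral -/
theorem norm_main_le {n N : ℕ} (hN : 0 < N) (hNn : N ≤ n) {g : ℂ → ℂ}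
    {t A B d₁ d₂ : ℝ} (h1 : 0 < d₁) (h2 : 0 < d₂) {L : ℝ} (hL₁ : |t| / d₁ ≤ L)
    (hL₂ : |t| / d₂ ≤ L) {M : ℝ}
    (hM : ∀ w ∈ pathE (-(1 / (2 * (n : ℝ)))) (((N : ℝ) - 1 / 2) / n) t A B d₁ d₂, ‖g w‖ ≤ M) :
    ‖n * (∫ x : ℝ in (-(1 / (2 * (n : ℝ))))..(((N : ℝ) - 1 / 2) / n),
        g (gpt (fun x => t * trap A B d₁ d₂ x) x) *
          (1 + ((t * deriv (trap A B d₁ d₂) x : ℝ) : ℂ) * I))‖ ≤ (1 + L) * n * M := by
  have hn : 0 < n := hN.trans_le hNn
  have hn0 : (0 : ℝ) < n := by exact_mod_cast hn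
  have hNn' : (N : ℝ) ≤ n := by exact_mod_cast hNn
  have hN1 : (1 : ℝ) ≤ N := by exact_mod_cast hN
  set a' : ℝ := -(1 / (2 * (n : ℝ))) with ha'
  set b' : ℝ := ((N : ℝ) - 1 / 2) / n with hb'
  have hba : b' - a' = N / n := by
    rw [ha', hb']
    field_simp
    ring
  have hab : a' ≤ b' := by
    have : 0 ≤ (N : ℝ) / n := by positivity
    linarith only [hba, this]
  have hL0 : 0 ≤ L := le_trans (by positivity) hL₁
  have hM0 : 0 ≤ M := (norm_nonneg _).trans (hM (gpt (fun x => t * trap A B d₁ d₂ x) a')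
    ⟨by rw [gpt_re], by rw [gpt_re]; exact hab, by rw [gpt_im, gpt_re]⟩)
  have hl : ∀ x, |t * deriv (trap A B d₁ d₂) x| ≤ L := by
    intro x
    rw [abs_mul]
    have h3 := abs_deriv_of_lip (trap_lip (A := A) (B := B) h1 h2 (le_max_left (1 / d₁) (1 / d₂))
      (le_max_right _ _)) x
    refine (mul_le_mul_of_nonneg_left h3 (abs_nonneg t)).trans ?_
    rw [mul_max_of_nonneg _ _ (abs_nonneg t)]
    apply max_le
    · calc |t| * (1 / d₁) = |t| / d₁ := by ring
        _ ≤ L := hL₁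
    · calc |t| * (1 / d₂) = |t| / d₂ := by ring
        _ ≤ L := hL₂
  have h3 : ∀ x ∈ uIoc a' b', ‖g (gpt (fun x => t * trap A B d₁ d₂ x) x) *
      (1 + ((t * deriv (trap A B d₁ d₂) x : ℝ) : ℂ) * I)‖ ≤ M * (1 + L) := by
    intro x hx
    rw [uIoc_of_le hab] at hx
    rw [norm_mul]
    refine mul_le_mul (hM _ ⟨by rw [gpt_re]; exact hx.1.le, by rw [gpt_re]; exact hx.2,
      by rw [gpt_im, gpt_re]⟩) ?_ (norm_nonneg _) hM0
    refine (norm_add_le _ _).trans ?_
    rw [norm_one, norm_mul, norm_I, mul_one, Complex.norm_real, Real.norm_eq_abs]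
    linarith only [hl, hl x]
  have h4 := intervalIntegral.norm_integral_le_of_norm_le_const h3
  rw [abs_of_nonneg (by linarith only [hab] : 0 ≤ b' - a'), hba] at h4
  rw [norm_mul, Complex.norm_natCast]
  calc (n : ℝ) * _ ≤ n * (M * (1 + L) * (N / n)) := mul_le_mul_of_nonneg_left h4 hn0.le
    _ = M * (1 + L) * N := by field_simp
    _ ≤ M * (1 + L) * n := mul_le_mul_of_nonneg_left hNn' (by positivity)
    _ = (1 + L) * n * M := by ring

/-- **a continuous variable**: the integral over `[a,b]` along a trapezoidal path -/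
theorem integral_graph {g : ℂ → ℂ} {a b : ℝ} (hab : a ≤ b)
    (hg : ∀ w ∈ strip a b, DifferentiableAt ℂ g w) {h h' : ℝ → ℝ} {s : Set ℝ}
    (H : GraphD h h' a b s) :
    ∫ x : ℝ in a..b, g x = ∫ x : ℝ in a..b, g (gpt h x) * (1 + h' x * I) := by
  have hgc : ContinuousOn (fun x => g (gpt h x)) (Icc a b) :=
    fun x hx => (hg _ ⟨by rw [gpt_re]; exact hx.1, by
      rw [gpt_re]; exact hx.2⟩).continuousAt.comp_continuousWithinAt (H.contg x hx)
  have h1 := path_indep (convex_strip a b) hg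
    (γ := fun x : ℝ => (x : ℂ)) (γ' := fun _ => 1) (δ := gpt h) (δ' := fun x => 1 + h' x * I)
    hab hab (by fun_prop) (fun x hx => ⟨by simpa using hx.1, by simpa using hx.2⟩)
    H.contg (fun x hx => ⟨by rw [gpt_re]; exact hx.1, by rw [gpt_re]; exact hx.2⟩)
    countable_empty H.cnt
    (fun x _ => Complex.ofRealCLM.hasDerivAt (x := x)) H.derg (by
      refine (ContinuousOn.mul (fun x hx => ?_)
        continuousOn_const).intervalIntegrable_of_Icc hab
      exact ContinuousAt.comp_continuousWithinAt (g := g) (f := fun x : ℝ => (x : ℂ))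
        (hg _ ⟨by simpa using hx.1, by simpa using hx.2⟩).continuousAt
        (Complex.continuous_ofReal.continuousWithinAt))
    (H.intg hab hgc) (gpt_of_zero H.left).symm (gpt_of_zero H.right).symm
  simpa using h1

end Pool.Agent.Work.MP_b30479_gt.VC
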