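import Pool.Agent.Work.MP_b30479_gt.VC.AbelPlana

/-!
# The midpoint Abel-Plana formula at finite height

No growth condition: the vertical sides are cut at the heights `T` and `-T'`, and two horizontal
integrals with the exponentially small weights `e1 (± z) / (1 - e1 (± z))` are added.
-/

namespace Pool.Agent.Work.MP_b30479_gt.VC

open MeasureTheory Complex Set Filter Topology

variable {E : Type*} [NormedAddCommGroup E] [NormedSpace ℂ E]

/-- the weight `e^{2πiz}/(1 - e^{2πiz})` -/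
noncomputable def ww (z : ℂ) : ℂ := e1 z / (1 - e1 z)

theorem norm_e1_lt {z : ℂ} (hz : 0 < z.im) : ‖e1 z‖ < 1 := by
  rw [norm_e1, Real.exp_lt_one_iff]
  have := Real.pi_pos
  nlinarith only [hz, this]

theorem one_sub_e1_neF {z : ℂ} (hz : 0 < z.im) : 1 - e1 z ≠ 0 := by
  intro h
  have h1 : e1 z = 1 := (sub_eq_zero.mp h).symm
  have h2 := norm_e1_lt hz
  rw [h1, norm_one] at h2
  exact lt_irrefl _ h2

theorem one_sub_e1_slitF {z : ℂ} (hz : 0 < z.im) : 1 - e1 z ∈ slitPlane := by
  left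
  have h1 := norm_e1_lt hz
  have h2 := Complex.re_le_norm (e1 z)
  simp only [sub_re, one_re]
  linarith only [h1, h2]

theorem ww_add_int (z : ℂ) (k : ℤ) : ww (z + k) = ww z := by
  unfold ww
  rw [e1_add_int]

theorem continuousOn_ww : ContinuousOn ww {z : ℂ | 0 < z.im} := by
  unfold ww
  exact differentiable_e1.continuous.continuousOn.div
    (continuousOn_const.sub differentiable_e1.continuous.continuousOn)
    fun z hz => one_sub_e1_neF hz

theorem norm_ww_le {z : ℂ} (hz : 0 < z.im) :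
    ‖ww z‖ ≤ Real.exp (-(2 * Real.pi) * z.im) / (1 - Real.exp (-(2 * Real.pi) * z.im)) := by
  unfold ww
  have h1 := norm_e1_lt hz
  rw [norm_div, ← norm_e1 z]
  have h2 : 1 - ‖e1 z‖ ≤ ‖1 - e1 z‖ := by
    have := norm_sub_norm_le (1 : ℂ) (e1 z)
    rwa [norm_one] at this
  exact div_le_div_of_nonneg_left (norm_nonneg _) (by linarith only [h1]) h2

theorem integral_ww {T : ℝ} (hT : 0 < T) :
    ∫ x : ℝ in (-(1 / 2) : ℝ)..(1 / 2), ww (x + T * I) = 0 := by
  have him : ∀ x : ℝ, 0 < ((x : ℂ) + T * I).im := by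
    intro x
    simpa using hT
  have h1 : ∀ x ∈ uIcc (-(1 / 2) : ℝ) (1 / 2), HasDerivAt
      (fun x : ℝ => (-(2 * Real.pi * I))⁻¹ * Complex.log (1 - e1 (x + T * I)))
      (ww (x + T * I)) x := by
    intro x _
    have h2 : HasDerivAt (fun x : ℝ => (x : ℂ) + T * I) 1 x := by
      simpa using (Complex.ofRealCLM.hasDerivAt (x := x)).add_const (T * I : ℂ)
    have h3 := (hasDerivAt_e1 ((x : ℂ) + T * I)).comp x h2
    have h4 := ((h3.const_sub 1).clog_real (one_sub_e1_slitF (him x))).const_mul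
      ((-(2 * Real.pi * I : ℂ))⁻¹)
    refine h4.congr_deriv ?_
    unfold ww
    have h5 := one_sub_e1_neF (him x)
    have h6 : (2 * Real.pi * I : ℂ) ≠ 0 := two_pi_I_ne_zero
    simp only [Function.comp_apply]
    generalize e1 ((x : ℂ) + T * I) = w at h5 ⊢
    generalize (2 * Real.pi * I : ℂ) = p at h6 ⊢
    field_simp
  have hcont : ContinuousOn (fun x : ℝ => ww (x + T * I)) (uIcc (-(1 / 2) : ℝ) (1 / 2)) :=
    continuousOn_ww.comp (by fun_prop) fun x _ => him x
  rw [intervalIntegral.integral_eq_sub_of_hasDerivAt h1 hcont.intervalIntegrable]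
  have h7 : e1 (((1 / 2 : ℝ) : ℂ) + T * I) = e1 (((-(1 / 2) : ℝ) : ℂ) + T * I) := by
    rw [← e1_add_int (((-(1 / 2) : ℝ) : ℂ) + T * I) 1]
    congr 1
    push_cast
    ring
  rw [h7, sub_self]

theorem cell_upF [CompleteSpace E] {g : ℂ → E} (hc : ContinuousOn g (strip (-(1 / 2)) (1 / 2)))
    (hd : DifferentiableOn ℂ g (ostrip (-(1 / 2)) (1 / 2))) {T : ℝ} (hT : 0 < T) :
    (∫ x : ℝ in (-(1 / 2) : ℝ)..(1 / 2), auxF g x) =
      (∫ x : ℝ in (-(1 / 2) : ℝ)..(1 / 2), ww (x + T * I) • g (x + T * I)) +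
      I • ((∫ y : ℝ in (0 : ℝ)..T, rho y • g ((1 / 2 : ℝ) + y * I)) -
        ∫ y : ℝ in (0 : ℝ)..T, rho y • g ((-(1 / 2) : ℝ) + y * I)) := by
  have hd0 : DifferentiableAt ℂ g 0 :=
    hd.differentiableAt ((isOpen_ostrip _ _).mem_nhds ⟨by norm_num, by norm_num⟩)
  have him : ∀ x : ℝ, 0 < ((x : ℂ) + T * I).im := by
    intro x
    simpa using hT
  have h1 := rect_half (by norm_num : (-(1 / 2) : ℝ) ≤ 1 / 2)
    ((continuousOn_auxF hc hd0).mono (hstrip_subset _ _)) (differentiableOn_auxF hd) hT.le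
  rw [h1]
  have hmemx : ∀ x ∈ uIcc (-(1 / 2) : ℝ) (1 / 2), ((x : ℂ) + T * I) ∈ strip (-(1 / 2)) (1 / 2) := by
    intro x hx
    rw [uIcc_of_le (by norm_num)] at hx
    exact ⟨by simpa using hx.1, by simpa using hx.2⟩
  have hw : ContinuousOn (fun x : ℝ => ww (x + T * I)) (uIcc (-(1 / 2) : ℝ) (1 / 2)) :=
    continuousOn_ww.comp (by fun_prop) fun x _ => him x
  have h2 : (∫ x : ℝ in (-(1 / 2) : ℝ)..(1 / 2), auxF g (x + T * I)) =
      ∫ x : ℝ in (-(1 / 2) : ℝ)..(1 / 2), ww (x + T * I) • g (x + T * I) := by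
    have h3 : ∀ x : ℝ, auxF g (x + T * I) =
        ww (x + T * I) • g (x + T * I) - ww (x + T * I) • g 0 := by
      intro x
      have hx0 : (x : ℂ) + T * I ≠ 0 := by
        intro h
        have := him x
        rw [h] at this
        simp at this
      rw [auxF_of_ne g hx0, smul_sub]
      rfl
    simp only [h3]
    rw [intervalIntegral.integral_sub]
    · have h4 : (∫ x : ℝ in (-(1 / 2) : ℝ)..(1 / 2), ww (x + T * I) • g 0) = 0 := by
        rw [intervalIntegral.integral_smul_const, integral_ww hT, zero_smul]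
      rw [h4, sub_zero]
    · exact (hw.smul (hc.comp (by fun_prop) hmemx)).intervalIntegrable
    · exact (hw.smul continuousOn_const).intervalIntegrable
  have key : ∀ ξ : ℝ, -(1 / 2) ≤ ξ → ξ ≤ 1 / 2 →
      (∀ y : ℝ, auxF g (ξ + y * I) = -(rho y • (g (ξ + y * I) - g 0))) →
      (∫ y : ℝ in (0 : ℝ)..T, auxF g (ξ + y * I)) =
        (∫ y : ℝ in (0 : ℝ)..T, rho y • g 0) - ∫ y : ℝ in (0 : ℝ)..T, rho y • g (ξ + y * I) := by
    intro ξ hξ1 hξ2 hξ
    rw [← intervalIntegral.integral_sub]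
    · refine intervalIntegral.integral_congr fun y _ => ?_
      simp only [hξ y, smul_sub]
      abel
    · exact (continuous_rho.smul continuous_const).intervalIntegrable _ _
    · refine ContinuousOn.intervalIntegrable (continuous_rho.continuousOn.smul
        (hc.comp (by fun_prop) fun y _ => ?_))
      constructor <;> simp <;> linarith only [hξ1, hξ2]
  rw [h2, key (-(1 / 2)) le_rfl (by norm_num) (auxF_neg_half g),
    key (1 / 2) (by norm_num) le_rfl (auxF_half g)]
  simp only [smul_sub]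
  abel

/-- **Midpoint Abel-Plana on one cell, finite height.** -/
theorem cell_zeroF [CompleteSpace E] {g : ℂ → E} (hc : ContinuousOn g (strip (-(1 / 2)) (1 / 2)))
    (hd : DifferentiableOn ℂ g (ostrip (-(1 / 2)) (1 / 2))) {T T' : ℝ} (hT : 0 < T)
    (hT' : 0 < T') :
    g 0 = (∫ x : ℝ in (-(1 / 2) : ℝ)..(1 / 2), g x) +
      ((∫ x : ℝ in (-(1 / 2) : ℝ)..(1 / 2), ww (x + T * I) • g (x + T * I)) +
      ∫ x : ℝ in (-(1 / 2) : ℝ)..(1 / 2), ww (-(x - T' * I)) • g (x - T' * I)) +
      I • (((∫ y : ℝ in (0 : ℝ)..T, rho y • g ((1 / 2 : ℝ) + y * I)) -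
        ∫ y : ℝ in (0 : ℝ)..T', rho y • g ((1 / 2 : ℝ) - y * I)) -
        ((∫ y : ℝ in (0 : ℝ)..T, rho y • g ((-(1 / 2) : ℝ) + y * I)) -
        ∫ y : ℝ in (0 : ℝ)..T', rho y • g ((-(1 / 2) : ℝ) - y * I))) := by
  have hmem : ∀ {z : ℂ}, z ∈ strip (-(1 / 2)) (1 / 2) → -z ∈ strip (-(1 / 2)) (1 / 2) := by
    intro z hz
    exact ⟨by simpa using hz.2, by simpa using neg_le_neg hz.1⟩
  have h1 := cell_upF hc hd hT
  have h2 := cell_upF (g := fun z => g (-z)) (hc.comp continuous_neg.continuousOn fun z hz => hmem hz)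
    (hd.comp differentiable_neg.differentiableOn fun z hz =>
      ⟨by simpa using neg_lt_neg hz.2, by simpa using neg_lt_neg hz.1⟩) hT'
  have hd0 : DifferentiableAt ℂ g 0 :=
    hd.differentiableAt ((isOpen_ostrip _ _).mem_nhds ⟨by norm_num, by norm_num⟩)
  have hd0' : DifferentiableAt ℂ (fun z => g (-z)) 0 := by
    have : DifferentiableAt ℂ g (-0) := by simpa using hd0
    exact this.comp (0 : ℂ) differentiable_neg.differentiableAt
  have c1 := continuousOn_auxF hc hd0
  have c2 : ContinuousOn (auxF fun z => g (-z)) (strip (-(1 / 2)) (1 / 2)) :=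
    continuousOn_auxF (hc.comp continuous_neg.continuousOn fun z hz => hmem hz) hd0'
  have hre : ∀ x ∈ uIcc (-(1 / 2) : ℝ) (1 / 2), (x : ℂ) ∈ strip (-(1 / 2)) (1 / 2) := by
    intro x hx
    rw [uIcc_of_le (by norm_num)] at hx
    exact ⟨by simpa using hx.1, by simpa using hx.2⟩
  have i1 : IntervalIntegrable (fun x : ℝ => auxF g x) volume (-(1 / 2)) (1 / 2) :=
    (c1.comp continuous_ofReal.continuousOn hre).intervalIntegrable
  have i3 : IntervalIntegrable (fun x : ℝ => auxF (fun z => g (-z)) ((-x : ℝ) : ℂ)) volume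
      (-(1 / 2)) (1 / 2) := by
    refine (c2.comp (f := fun x : ℝ => ((-x : ℝ) : ℂ)) (by fun_prop) ?_).intervalIntegrable
    intro x hx
    have := hmem (hre x hx)
    simpa using this
  have i4 : IntervalIntegrable (fun x : ℝ => g x) volume (-(1 / 2)) (1 / 2) :=
    (hc.comp continuous_ofReal.continuousOn hre).intervalIntegrable
  have h3 : (∫ x : ℝ in (-(1 / 2) : ℝ)..(1 / 2), auxF (fun z => g (-z)) x) =
      ∫ x : ℝ in (-(1 / 2) : ℝ)..(1 / 2), auxF (fun z => g (-z)) ((-x : ℝ) : ℂ) := by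
    have := intervalIntegral.integral_comp_neg (a := (-(1 / 2) : ℝ)) (b := 1 / 2)
      (fun x : ℝ => auxF (fun z => g (-z)) (x : ℂ))
    rw [this, neg_neg]
  have h4 : (∫ x : ℝ in (-(1 / 2) : ℝ)..(1 / 2), auxF g x) +
      (∫ x : ℝ in (-(1 / 2) : ℝ)..(1 / 2), auxF (fun z => g (-z)) ((-x : ℝ) : ℂ)) =
      g 0 - ∫ x : ℝ in (-(1 / 2) : ℝ)..(1 / 2), g x := by
    rw [← intervalIntegral.integral_add i1 i3]
    have h5 : (∫ x : ℝ in (-(1 / 2) : ℝ)..(1 / 2), (g 0 - g x)) =
        g 0 - ∫ x : ℝ in (-(1 / 2) : ℝ)..(1 / 2), g x := by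
      rw [intervalIntegral.integral_sub (by simp) i4]
      simp
      norm_num
    rw [← h5]
    apply intervalIntegral.integral_congr_ae
    have h0 : ∀ᵐ x : ℝ, x ≠ 0 := by
      simp [ae_iff]
    filter_upwards [h0] with x hx hxI
    have hx0 : (x : ℂ) ≠ 0 := by exact_mod_cast hx
    have hx1 : ((-x : ℝ) : ℂ) ≠ 0 := by
      rw [ofReal_neg]
      exact neg_ne_zero.mpr hx0
    rw [auxF_of_ne _ hx0, auxF_of_ne _ hx1]
    simp only [ofReal_neg, neg_neg, neg_zero, e1_neg]
    rw [← add_smul]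
    have hxs : (x : ℂ) ∈ strip (-(1 / 2)) (1 / 2) := by
      rw [uIoc_of_le (by norm_num)] at hxI
      exact ⟨by simpa using hxI.1.le, by simpa using hxI.2⟩
    have h6 : e1 (x : ℂ) ≠ 1 := fun h => hx0 (e1_eq_one hxs h)
    have h7 := e1_ne_zero (x : ℂ)
    have h8 : e1 (x : ℂ) / (1 - e1 x) + (e1 (x : ℂ))⁻¹ / (1 - (e1 (x : ℂ))⁻¹) = -1 := by
      generalize e1 (x : ℂ) = w at h6 h7 ⊢
      have h9 : 1 - w ≠ 0 := sub_ne_zero.mpr (Ne.symm h6)
      have h10 : w - 1 ≠ 0 := sub_ne_zero.mpr h6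
      have h11 : w⁻¹ / (1 - w⁻¹) = 1 / (w - 1) := by
        rw [div_eq_div_iff]
        · field_simp
        · intro h12
          apply h10
          have : w * (1 - w⁻¹) = w - 1 := by field_simp
          rw [← this, h12, mul_zero]
        · exact h10
      rw [h11, div_add_div _ _ h9 h10, div_eq_iff (mul_ne_zero h9 h10)]
      ring
    rw [h8, neg_one_smul, neg_sub]
  have h13 : g 0 = (∫ x : ℝ in (-(1 / 2) : ℝ)..(1 / 2), g x) +
      ((∫ x : ℝ in (-(1 / 2) : ℝ)..(1 / 2), auxF g x) +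
      (∫ x : ℝ in (-(1 / 2) : ℝ)..(1 / 2), auxF (fun z => g (-z)) x)) := by
    rw [h3, h4]
    abel
  have h14 : (∫ x : ℝ in (-(1 / 2) : ℝ)..(1 / 2), ww (x + T' * I) • g (-(x + T' * I))) =
      ∫ x : ℝ in (-(1 / 2) : ℝ)..(1 / 2), ww (-(x - T' * I)) • g (x - T' * I) := by
    have := intervalIntegral.integral_comp_neg (a := (-(1 / 2) : ℝ)) (b := 1 / 2)
      (fun x : ℝ => ww (-(x - T' * I)) • g (x - T' * I))
    rw [neg_neg] at this
    rw [← this]
    refine intervalIntegral.integral_congr fun x _ => ?_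
    have e3 : ((-x : ℝ) : ℂ) - T' * I = -(x + T' * I) := by
      push_cast
      ring
    simp only [e3, neg_neg]
  have e1' : ∀ y : ℝ, -(((1 / 2 : ℝ) : ℂ) + y * I) = ((-(1 / 2) : ℝ) : ℂ) - y * I := by
    intro y
    push_cast
    ring
  have e2' : ∀ y : ℝ, -(((-(1 / 2) : ℝ) : ℂ) + y * I) = ((1 / 2 : ℝ) : ℂ) - y * I := by
    intro y
    push_cast
    ring
  rw [h1, h2, h14] at h13
  simp only [e1', e2'] at h13
  rw [h13]
  simp only [smul_sub]
  abel

/-! ### The formula -/

/-- the contribution of the vertical line `Re z = ξ`, cut at the heights `T` and `-T'`, to the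
midpoint Abel-Plana formula at height `τ` -/
noncomputable def sideF (g : ℂ → E) (T T' τ ξ : ℝ) : E :=
  (∫ y : ℝ in τ..T, rho y • g (ξ + y * I)) - ∫ y : ℝ in (-T')..τ, rho (-y) • g (ξ + y * I)

theorem sideF_zero (g : ℂ → E) (T T' ξ : ℝ) :
    sideF g T T' 0 ξ = (∫ y : ℝ in (0 : ℝ)..T, rho y • g (ξ + y * I)) -
      ∫ y : ℝ in (0 : ℝ)..T', rho y • g (ξ - y * I) := by
  unfold sideF
  congr 1
  have := intervalIntegral.integral_comp_neg (a := 0) (b := T')
    (fun y : ℝ => rho (-y) • g (ξ + y * I))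
  rw [neg_zero] at this
  rw [← this]
  refine intervalIntegral.integral_congr fun y _ => ?_
  simp only [neg_neg, ofReal_neg, neg_mul, sub_eq_add_neg]

theorem sideF_eq {g : ℂ → E} {ξ : ℝ} (hf : Continuous fun y : ℝ => g (ξ + y * I)) (T T' τ : ℝ) :
    sideF g T T' τ ξ = sideF g T T' 0 ξ - ∫ y : ℝ in (0 : ℝ)..τ, g (ξ + y * I) := by
  have c1 : Continuous fun y : ℝ => rho y • g (ξ + y * I) := continuous_rho.smul hf
  have c2 : Continuous fun y : ℝ => rho (-y) • g (ξ + y * I) :=
    (continuous_rho.comp continuous_neg).smul hf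
  have h1 := intervalIntegral.integral_add_adjacent_intervals
    (c1.intervalIntegrable (μ := volume) 0 τ) (c1.intervalIntegrable τ T)
  have h2 := intervalIntegral.integral_add_adjacent_intervals
    (c2.intervalIntegrable (μ := volume) (-T') 0) (c2.intervalIntegrable 0 τ)
  have h3 : (∫ y : ℝ in (0 : ℝ)..τ, g (ξ + y * I)) =
      (∫ y : ℝ in (0 : ℝ)..τ, rho y • g (ξ + y * I)) +
      ∫ y : ℝ in (0 : ℝ)..τ, rho (-y) • g (ξ + y * I) := by
    rw [← intervalIntegral.integral_add (c1.intervalIntegrable _ _) (c2.intervalIntegrable _ _)]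
    refine intervalIntegral.integral_congr fun y _ => ?_
    rw [← add_smul, rho_add_neg, one_smul]
  unfold sideF
  rw [h3, ← h1, ← h2]
  abel

/-- The hypotheses of the formula. -/
structure AdmF (g : ℂ → E) (a b : ℝ) : Prop where
  cont : ContinuousOn g (strip a b)
  diff : DifferentiableOn ℂ g (ostrip a b)

theorem AdmF.mono {g : ℂ → E} {a b a' b' : ℝ} (h : AdmF g a b) (ha : a ≤ a') (hb : b' ≤ b) :
    AdmF g a' b' :=
  ⟨h.cont.mono (strip_mono ha hb), h.diff.mono (ostrip_mono ha hb)⟩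

theorem AdmF.continuous_vert {g : ℂ → E} {a b ξ : ℝ} (h : AdmF g a b) (h1 : a ≤ ξ)
    (h2 : ξ ≤ b) : Continuous fun y : ℝ => g (ξ + y * I) := by
  rw [← continuousOn_univ]
  refine h.cont.comp (by fun_prop) fun y _ => ?_
  exact ⟨by simpa using h1, by simpa using h2⟩

theorem AdmF.continuousOn_horiz {g : ℂ → E} {a b u v : ℝ} (h : AdmF g a b) (h1 : a ≤ u)
    (h2 : u ≤ b) (h3 : a ≤ v) (h4 : v ≤ b) (τ : ℝ) :
    ContinuousOn (fun x : ℝ => g (x + τ * I)) (uIcc u v) := by
  refine h.cont.comp (by fun_prop) fun x hx => ?_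
  have hx1 : min u v ≤ x := hx.1
  have hx2 : x ≤ max u v := hx.2
  constructor
  · simpa using (le_min h1 h3).trans hx1
  · simpa using hx2.trans (max_le h2 h4)

/-- the two horizontal remainders -/
noncomputable def modeF (g : ℂ → E) (T T' a b : ℝ) : E :=
  (∫ x : ℝ in a..b, ww (x + T * I) • g (x + T * I)) +
    ∫ x : ℝ in a..b, ww (-(x - T' * I)) • g (x - T' * I)

theorem continuous_ww_up {T : ℝ} (hT : 0 < T) : Continuous fun x : ℝ => ww (x + T * I) := by
  rw [← continuousOn_univ]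
  exact continuousOn_ww.comp (by fun_prop) fun x _ => by simpa using hT

theorem continuous_ww_down {T : ℝ} (hT : 0 < T) : Continuous fun x : ℝ => ww (-(x - T * I)) := by
  rw [← continuousOn_univ]
  exact continuousOn_ww.comp (by fun_prop) fun x _ => by simpa using hT

theorem cell_intF [CompleteSpace E] {g : ℂ → E} (k : ℤ)
    (h : AdmF g (k - 1 / 2) (k + 1 / 2)) {T T' : ℝ} (hT : 0 < T) (hT' : 0 < T') :
    g k = (∫ x : ℝ in ((k : ℝ) - 1 / 2)..(k + 1 / 2), g x) +
      modeF g T T' (k - 1 / 2) (k + 1 / 2) +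
      I • (sideF g T T' 0 (k + 1 / 2) - sideF g T T' 0 (k - 1 / 2)) := by
  have hm : ∀ {z : ℂ}, z ∈ strip (-(1 / 2)) (1 / 2) →
      (k : ℂ) + z ∈ strip ((k : ℝ) - 1 / 2) (k + 1 / 2) := by
    intro z hz
    constructor
    · simp only [add_re, intCast_re]
      linarith only [hz, hz.1]
    · simp only [add_re, intCast_re]
      linarith only [hz, hz.2]
  have hm' : ∀ {z : ℂ}, z ∈ ostrip (-(1 / 2)) (1 / 2) →
      (k : ℂ) + z ∈ ostrip ((k : ℝ) - 1 / 2) (k + 1 / 2) := by
    intro z hz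
    constructor
    · simp only [add_re, intCast_re]
      linarith only [hz, hz.1]
    · simp only [add_re, intCast_re]
      linarith only [hz, hz.2]
  have h1 := cell_zeroF (g := fun z => g (k + z))
    (h.cont.comp (by fun_prop) fun z hz => hm hz)
    (h.diff.comp (by fun_prop) fun z hz => hm' hz) hT hT'
  simp only [add_zero] at h1
  rw [h1]
  have hp : ∀ s y : ℝ, (k : ℂ) + ((s : ℂ) + y * I) = ((k + s : ℝ) : ℂ) + y * I := by
    intro s y
    push_cast
    ring
  have hm2 : ∀ s y : ℝ, (k : ℂ) + ((s : ℂ) - y * I) = ((k + s : ℝ) : ℂ) - y * I := by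
    intro s y
    push_cast
    ring
  congr 1
  · congr 1
    · have := intervalIntegral.integral_comp_add_left (a := (-(1 / 2) : ℝ)) (b := 1 / 2)
        (fun x : ℝ => g (x : ℂ)) (k : ℝ)
      rw [show (k : ℝ) - 1 / 2 = k + -(1 / 2) by ring, ← this]
      refine intervalIntegral.integral_congr fun x _ => ?_
      simp
    · unfold modeF
      congr 1
      · have := intervalIntegral.integral_comp_add_left (a := (-(1 / 2) : ℝ)) (b := 1 / 2)
          (fun x : ℝ => ww (x + T * I) • g (x + T * I)) (k : ℝ)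
        rw [show (k : ℝ) - 1 / 2 = k + -(1 / 2) by ring, ← this]
        refine intervalIntegral.integral_congr fun x _ => ?_
        simp only [hp]
        congr 1
        rw [← ww_add_int _ k]
        congr 1
        push_cast
        ring
      · have := intervalIntegral.integral_comp_add_left (a := (-(1 / 2) : ℝ)) (b := 1 / 2)
          (fun x : ℝ => ww (-(x - T' * I)) • g (x - T' * I)) (k : ℝ)
        rw [show (k : ℝ) - 1 / 2 = k + -(1 / 2) by ring, ← this]
        refine intervalIntegral.integral_congr fun x _ => ?_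
        simp only [hm2]
        congr 1
        rw [← ww_add_int _ (-k)]
        congr 1
        push_cast
        ring
  · rw [sideF_zero, sideF_zero]
    simp only [hp, hm2]
    rfl

theorem modeF_add {g : ℂ → E} {a b c : ℝ} (hab : a ≤ b) (hbc : b ≤ c)
    (h : AdmF g a c) {T T' : ℝ} (hT : 0 < T) (hT' : 0 < T') :
    modeF g T T' a b + modeF g T T' b c = modeF g T T' a c := by
  have hac := hab.trans hbc
  have i1 : ∀ u v : ℝ, a ≤ u → u ≤ c → a ≤ v → v ≤ c →
      IntervalIntegrable (fun x : ℝ => ww (x + T * I) • g (x + T * I)) volume u v := by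
    intro u v h1 h2 h3 h4
    exact ((continuous_ww_up hT).continuousOn.smul
      (h.continuousOn_horiz h1 h2 h3 h4 T)).intervalIntegrable
  have i2 : ∀ u v : ℝ, a ≤ u → u ≤ c → a ≤ v → v ≤ c →
      IntervalIntegrable (fun x : ℝ => ww (-(x - T' * I)) • g (x - T' * I)) volume u v := by
    intro u v h1 h2 h3 h4
    refine ((continuous_ww_down hT').continuousOn.smul ?_).intervalIntegrable
    have := h.continuousOn_horiz h1 h2 h3 h4 (-T')
    simpa [sub_eq_add_neg] using this
  unfold modeF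
  rw [← intervalIntegral.integral_add_adjacent_intervals (i1 a b le_rfl hac hab hbc)
    (i1 b c hab hbc hac le_rfl),
    ← intervalIntegral.integral_add_adjacent_intervals (i2 a b le_rfl hac hab hbc)
    (i2 b c hab hbc hac le_rfl)]
  abel

/-- **Midpoint Abel-Plana formula with finite heights**, main integral on the real axis. -/
theorem abel_planaF_zero [CompleteSpace E] {g : ℂ → E} (a : ℤ) (N : ℕ)
    (h : AdmF g (a - 1 / 2) (a + N - 1 / 2)) {T T' : ℝ} (hT : 0 < T) (hT' : 0 < T') :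
    ∑ j ∈ Finset.range N, g (a + j) = (∫ x : ℝ in ((a : ℝ) - 1 / 2)..(a + N - 1 / 2), g x) +
      modeF g T T' (a - 1 / 2) (a + N - 1 / 2) +
      I • (sideF g T T' 0 (a + N - 1 / 2) - sideF g T T' 0 (a - 1 / 2)) := by
  induction N with
  | zero => simp [modeF]
  | succ N ih =>
    have hN : (0 : ℝ) ≤ N := Nat.cast_nonneg N
    rw [Finset.sum_range_succ, ih (h.mono le_rfl (by push_cast; linarith only []))]
    have hcell := cell_intF (g := g) (a + N)
      (h.mono (by push_cast; linarith only []) (by push_cast; linarith only [])) hT hT'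
    push_cast at hcell
    rw [hcell]
    have hmode := modeF_add (g := g) (a := (a : ℝ) - 1 / 2) (b := a + N - 1 / 2)
      (c := a + N + 1 / 2) (by linarith only []) (by linarith only [])
      (h.mono le_rfl (by push_cast; linarith only [])) hT hT'
    push_cast
    have hadd := intervalIntegral.integral_add_adjacent_intervals (μ := volume)
      (f := fun x : ℝ => g x)
      (a := (a : ℝ) - 1 / 2) (b := a + N - 1 / 2) (c := a + N + 1 / 2)
      (by
        have := h.continuousOn_horiz (u := a - 1 / 2) (v := a + N - 1 / 2) le_rfl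
          (by push_cast; linarith only []) (by linarith only []) (by push_cast; linarith only []) 0
        simpa using this.intervalIntegrable (μ := volume))
      (by
        have := h.continuousOn_horiz (u := a + N - 1 / 2) (v := a + N + 1 / 2) (by linarith only [])
          (by push_cast; linarith only []) (by linarith only []) (by push_cast; linarith only []) 0
        simpa using this.intervalIntegrable (μ := volume))
    rw [show (a : ℝ) + (N + 1) - 1 / 2 = a + N + 1 / 2 by ring, ← hadd, ← hmode]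
    simp only [smul_sub]
    abel

/-- **Midpoint Abel-Plana formula with finite heights `T`, `T'`**, main integral at height `τ`. -/
theorem abel_planaF [CompleteSpace E] {g : ℂ → E} (a : ℤ) (N : ℕ)
    (h : AdmF g (a - 1 / 2) (a + N - 1 / 2)) {T T' : ℝ} (hT : 0 < T) (hT' : 0 < T') (τ : ℝ) :
    ∑ j ∈ Finset.range N, g (a + j) =
      (∫ x : ℝ in ((a : ℝ) - 1 / 2)..(a + N - 1 / 2), g (x + τ * I)) +
      modeF g T T' (a - 1 / 2) (a + N - 1 / 2) +
      I • (sideF g T T' τ (a + N - 1 / 2) - sideF g T T' τ (a - 1 / 2)) := by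
  have hN : (0 : ℝ) ≤ N := Nat.cast_nonneg N
  have hab : (a : ℝ) - 1 / 2 ≤ a + N - 1 / 2 := by linarith only []
  rw [abel_planaF_zero a N h hT hT']
  have h1 := rect_shift hab h.cont h.diff 0 τ
  simp only [ofReal_zero, zero_mul, add_zero] at h1
  rw [h1, sideF_eq (h.continuous_vert hab le_rfl) T T' τ,
    sideF_eq (h.continuous_vert le_rfl hab) T T' τ]
  simp only [smul_sub]
  abel

/-! ### Bounds -/

theorem norm_modeF_le {g : ℂ → E} {a b T T' K K' : ℝ} (hab : a ≤ b) (hT : 0 < T) (hT' : 0 < T')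
    (hK : ∀ x, a ≤ x → x ≤ b → ‖g (x + T * I)‖ ≤ K)
    (hK' : ∀ x, a ≤ x → x ≤ b → ‖g (x - T' * I)‖ ≤ K') :
    ‖modeF g T T' a b‖ ≤
      (b - a) * (Real.exp (-(2 * Real.pi) * T) / (1 - Real.exp (-(2 * Real.pi) * T)) * K +
        Real.exp (-(2 * Real.pi) * T') / (1 - Real.exp (-(2 * Real.pi) * T')) * K') := by
  have hpi := Real.pi_pos
  have hpos : ∀ {t : ℝ}, 0 < t →
      0 ≤ Real.exp (-(2 * Real.pi) * t) / (1 - Real.exp (-(2 * Real.pi) * t)) := by
    intro t ht
    have : Real.exp (-(2 * Real.pi) * t) < 1 := by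
      rw [Real.exp_lt_one_iff]
      nlinarith only [hpi, ht]
    have h2 := Real.exp_pos (-(2 * Real.pi) * t)
    apply div_nonneg h2.le
    linarith only [this]
  unfold modeF
  refine (norm_add_le _ _).trans ?_
  rw [mul_add]
  apply add_le_add
  · have := intervalIntegral.norm_integral_le_of_norm_le_const (a := a) (b := b)
      (C := Real.exp (-(2 * Real.pi) * T) / (1 - Real.exp (-(2 * Real.pi) * T)) * K)
      (f := fun x : ℝ => ww (x + T * I) • g (x + T * I)) (by
        intro x hx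
        rw [uIoc_of_le hab] at hx
        rw [norm_smul]
        refine mul_le_mul ?_ (hK x hx.1.le hx.2) (norm_nonneg _) (hpos hT)
        have h3 := norm_ww_le (z := (x : ℂ) + T * I) (by simpa using hT)
        simpa using h3)
    rw [abs_of_nonneg (by linarith only [hab])] at this
    linarith only [this]
  · have := intervalIntegral.norm_integral_le_of_norm_le_const (a := a) (b := b)
      (C := Real.exp (-(2 * Real.pi) * T') / (1 - Real.exp (-(2 * Real.pi) * T')) * K')
      (f := fun x : ℝ => ww (-(x - T' * I)) • g (x - T' * I)) (by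
        intro x hx
        rw [uIoc_of_le hab] at hx
        rw [norm_smul]
        refine mul_le_mul ?_ (hK' x hx.1.le hx.2) (norm_nonneg _) (hpos hT')
        have h3 := norm_ww_le (z := -((x : ℂ) - T' * I)) (by simpa using hT')
        simpa using h3)
    rw [abs_of_nonneg (by linarith only [hab])] at this
    linarith only [this]

theorem norm_sideF_le {g : ℂ → E} {T T' τ ξ K : ℝ} (h1 : τ ≤ T) (h2 : -T' ≤ τ)
    (hK : ∀ y, τ ≤ y → y ≤ T → rho y * ‖g (ξ + y * I)‖ ≤ K)
    (hK' : ∀ y, -T' ≤ y → y ≤ τ → rho (-y) * ‖g (ξ + y * I)‖ ≤ K) :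
    ‖sideF g T T' τ ξ‖ ≤ (T + T') * K := by
  unfold sideF
  refine (norm_sub_le _ _).trans ?_
  have e1 := intervalIntegral.norm_integral_le_of_norm_le_const (a := τ) (b := T)
    (C := K) (f := fun y : ℝ => rho y • g (ξ + y * I)) (by
      intro y hy
      rw [uIoc_of_le h1] at hy
      rw [norm_smul, Real.norm_of_nonneg (rho_pos y).le]
      exact hK y hy.1.le hy.2)
  have e2 := intervalIntegral.norm_integral_le_of_norm_le_const (a := -T') (b := τ)
    (C := K) (f := fun y : ℝ => rho (-y) • g (ξ + y * I)) (by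
      intro y hy
      rw [uIoc_of_le h2] at hy
      rw [norm_smul, Real.norm_of_nonneg (rho_pos _).le]
      exact hK' y hy.1.le hy.2)
  rw [abs_of_nonneg (by linarith only [h1, h2])] at e1 e2
  calc _ ≤ K * (T - τ) + K * (τ - -T') := add_le_add e1 e2
    _ = (T + T') * K := by ring

end Pool.Agent.Work.MP_b30479_gt.VC
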