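import Pool.Agent.Work.MP_b30479_gt.VOL.Ph

/-!
# The real part of the complexified potential of one angle

`phr w = - Re Fh w`, `Fh w = ∫_{1/2}^w log (2 sin π t) dt`, on the strip `0 < Re w < 1`:
derivatives, slopes in the vertical direction, behaviour at large height.
-/

namespace Pool.Agent.Work.MP_b30479_gt.VC

open Complex Set VOL

/-- `- Re ∫_{1/2}^w log (2 sin π t) dt` -/
noncomputable def phr (w : ℂ) : ℝ := -(Fh w).re

theorem phr_one_sub (w : ℂ) : phr (1 - w) = -phr w := by
  unfold phr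
  rw [Fh_one_sub, neg_re]

theorem phr_half : phr (1 / 2) = 0 := by
  unfold phr
  rw [Fh_half, zero_re, neg_zero]

theorem mem_strip_xy {x : ℝ} (h0 : 0 < x) (h1 : x < 1) (y : ℝ) : (x + y * I : ℂ) ∈ VOL.strip := by
  refine ⟨?_, ?_⟩
  · simpa using h0
  · simpa using h1

theorem phr_conj {w : ℂ} (hw : w ∈ VOL.strip) : phr (starRingEnd ℂ w) = phr w := by
  unfold phr
  rw [Fh_conj hw, conj_re]

theorem phr_neg_im {x : ℝ} (h0 : 0 < x) (h1 : x < 1) (y : ℝ) :
    phr (x + (-y : ℝ) * I) = phr (x + y * I) := by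
  have h := phr_conj (mem_strip_xy h0 h1 y)
  rw [← h]
  congr 1
  simp

/-- the vertical slope -/
noncomputable def thr (w : ℂ) : ℝ := (2 * Complex.sin (Real.pi * w)).arg

theorem hasDerivAt_phr_im {x : ℝ} (h0 : 0 < x) (h1 : x < 1) (y : ℝ) :
    HasDerivAt (fun y : ℝ => phr (x + y * I)) (thr (x + y * I)) y := by
  have hw := mem_strip_xy h0 h1 y
  have h2 : HasDerivAt (fun y : ℝ => (x : ℂ) + y * I) I y := by
    simpa using ((Complex.ofRealCLM.hasDerivAt (x := y)).mul_const I).const_add (x : ℂ)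
  have h3 := (hasDerivAt_Fh hw).comp y h2
  have h4 := (Complex.reCLM.hasFDerivAt.comp_hasDerivAt y h3).neg
  unfold phr thr
  refine h4.congr_deriv ?_
  rw [Complex.reCLM_apply]
  unfold ph
  simp [Complex.mul_re, Complex.log_im]

theorem hasDerivAt_phr_re {x : ℝ} (h0 : 0 < x) (h1 : x < 1) (y : ℝ) :
    HasDerivAt (fun x : ℝ => phr (x + y * I))
      (-Real.log ‖2 * Complex.sin (Real.pi * (x + y * I))‖) x := by
  have hw := mem_strip_xy h0 h1 y
  have h2 : HasDerivAt (fun x : ℝ => (x : ℂ) + y * I) 1 x := by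
    simpa using (Complex.ofRealCLM.hasDerivAt (x := x)).add_const (y * I : ℂ)
  have h3 := (hasDerivAt_Fh hw).comp x h2
  have h4 := (Complex.reCLM.hasFDerivAt.comp_hasDerivAt x h3).neg
  unfold phr
  refine h4.congr_deriv ?_
  rw [Complex.reCLM_apply, mul_one]
  unfold ph
  rw [Complex.log_re]

theorem sin_xy_re (x y : ℝ) : (2 * Complex.sin (Real.pi * (x + y * I))).re =
    2 * (Real.sin (Real.pi * x) * Real.cosh (Real.pi * y)) := by
  have h := VOL.sin_pi_re (x + y * I)
  simp only [add_re, ofReal_re, mul_re, I_re, mul_zero, ofReal_im, I_im, mul_one, sub_self,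
    add_zero, add_im, mul_im, zero_add] at h
  rw [← h]
  simp

theorem sin_xy_im (x y : ℝ) : (2 * Complex.sin (Real.pi * (x + y * I))).im =
    2 * (Real.cos (Real.pi * x) * Real.sinh (Real.pi * y)) := by
  have h := VOL.sin_pi_im (x + y * I)
  simp only [add_re, ofReal_re, mul_re, I_re, mul_zero, ofReal_im, I_im, mul_one, sub_self,
    add_zero, add_im, mul_im, zero_add] at h
  rw [← h]
  simp

theorem thr_eq_arctan {x : ℝ} (h0 : 0 < x) (h1 : x < 1) (y : ℝ) :
    thr (x + y * I) = Real.arctan (Real.cos (Real.pi * x) / Real.sin (Real.pi * x) *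
      (Real.sinh (Real.pi * y) / Real.cosh (Real.pi * y))) := by
  have hs := VOL.sin_pi_pos h0 h1
  have hc := Real.cosh_pos (Real.pi * y)
  have hre := sin_xy_re x y
  have him := sin_xy_im x y
  unfold thr
  have h2 : 0 < (2 * Complex.sin (Real.pi * (x + y * I))).re := by
    rw [hre]
    positivity
  have h3 : |(2 * Complex.sin (Real.pi * (x + y * I))).arg| < Real.pi / 2 :=
    Complex.abs_arg_lt_pi_div_two_iff.mpr (Or.inl h2)
  rw [abs_lt] at h3
  rw [← Real.arctan_tan h3.1 h3.2, Complex.tan_arg, hre, him]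
  congr 1
  field_simp

theorem tan_half_sub (x : ℝ) : Real.tan (Real.pi / 2 - Real.pi * x) =
    Real.cos (Real.pi * x) / Real.sin (Real.pi * x) := by
  rw [Real.tan_pi_div_two_sub, Real.tan_eq_sin_div_cos, inv_div]

theorem abs_arctan (t : ℝ) : |Real.arctan t| = Real.arctan |t| := by
  rcases le_total 0 t with h | h
  · rw [abs_of_nonneg h, abs_of_nonneg (Real.arctan_nonneg.mpr h)]
  · rw [abs_of_nonpos h, abs_of_nonpos (Real.arctan_le_zero.mpr h), Real.arctan_neg]

theorem abs_thr_le {x : ℝ} (h0 : 0 < x) (h1 : x < 1) (y : ℝ) :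
    |thr (x + y * I)| ≤ Real.pi * |1 / 2 - x| := by
  have hpi := Real.pi_pos
  have hs := VOL.sin_pi_pos h0 h1
  have hc := Real.cosh_pos (Real.pi * y)
  rw [thr_eq_arctan h0 h1]
  have h2 : Real.arctan (Real.cos (Real.pi * x) / Real.sin (Real.pi * x)) =
      Real.pi * (1 / 2 - x) := by
    rw [← tan_half_sub, Real.arctan_tan (by nlinarith only [h1, hpi]) (by nlinarith only [h0, hpi])]
    ring
  have h3 : |Real.arctan (Real.cos (Real.pi * x) / Real.sin (Real.pi * x))| =
      Real.pi * |1 / 2 - x| := by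
    rw [h2, abs_mul, abs_of_pos hpi]
  rw [← h3, abs_arctan, abs_arctan]
  apply Real.arctan_mono
  rw [abs_mul]
  have h4 : |Real.sinh (Real.pi * y) / Real.cosh (Real.pi * y)| ≤ 1 := by
    rw [abs_div, abs_of_pos hc, div_le_one hc, abs_le]
    have := Real.sinh_lt_cosh (Real.pi * y)
    have h5 := Real.sinh_lt_cosh (-(Real.pi * y))
    rw [Real.sinh_neg, Real.cosh_neg] at h5
    constructor <;> linarith only [h5, this]
  calc _ ≤ |Real.cos (Real.pi * x) / Real.sin (Real.pi * x)| * 1 :=
        mul_le_mul_of_nonneg_left h4 (abs_nonneg _)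
    _ = _ := mul_one _

theorem thr_nonneg {x : ℝ} (h0 : 0 < x) (h1 : x ≤ 1 / 2) {y : ℝ} (hy : 0 ≤ y) :
    0 ≤ thr (x + y * I) := by
  have hpi := Real.pi_pos
  rw [thr_eq_arctan h0 (by linarith only [h0, h1])]
  rw [Real.arctan_nonneg]
  have h2 := VOL.sin_pi_pos h0 (by linarith only [h0, h1])
  have h3 : 0 ≤ Real.cos (Real.pi * x) := Real.cos_nonneg_of_neg_pi_div_two_le_of_le
    (by nlinarith only [hpi, h0]) (by nlinarith only [h1, hpi])
  have h4 : 0 ≤ Real.sinh (Real.pi * y) := by
    rw [Real.sinh_nonneg_iff]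
    positivity
  have := Real.cosh_pos (Real.pi * y)
  positivity

/-- **Lipschitz bound in the vertical direction.** -/
theorem abs_phr_sub_le {x : ℝ} (h0 : 0 < x) (h1 : x < 1) (y y' : ℝ) :
    |phr (x + y * I) - phr (x + y' * I)| ≤ Real.pi * |1 / 2 - x| * |y - y'| := by
  have h := Convex.norm_image_sub_le_of_norm_hasDerivWithin_le
    (f := fun y : ℝ => phr (x + y * I)) (f' := fun y : ℝ => thr (x + y * I)) (s := univ)
    (C := Real.pi * |1 / 2 - x|) (x := y') (y := y)
    (fun t _ => (hasDerivAt_phr_im h0 h1 t).hasDerivWithinAt)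
    (fun t _ => abs_thr_le h0 h1 t) convex_univ (mem_univ _) (mem_univ _)
  simpa [Real.norm_eq_abs] using h

/-- `phr` increases with the height, for `x ≤ 1/2` -/
theorem phr_mono {x : ℝ} (h0 : 0 < x) (h1 : x ≤ 1 / 2) {y y' : ℝ} (hy : 0 ≤ y) (hyy : y ≤ y') :
    phr (x + y * I) ≤ phr (x + y' * I) := by
  have h : MonotoneOn (fun y : ℝ => phr (x + y * I)) (Ici 0) := by
    refine monotoneOn_of_hasDerivWithinAt_nonneg (convex_Ici 0) (f' := fun y : ℝ => thr (x + y * I))
      ?_ ?_ ?_
    · exact fun t _ => (hasDerivAt_phr_im h0 (by linarith only [h0, h1]) t).continuousAt.continuousWithinAt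
    · exact fun t _ => (hasDerivAt_phr_im h0 (by linarith only [h0, h1]) t).hasDerivWithinAt
    · intro t ht
      rw [interior_Ici] at ht
      exact thr_nonneg h0 h1 (le_of_lt ht)
  exact h hy (hy.trans hyy) hyy

theorem phr_half_im (y : ℝ) : phr (1 / 2 + y * I) = 0 := by
  have h := abs_phr_sub_le (x := 1 / 2) (by norm_num) (by norm_num) y 0
  simp only [sub_self, abs_zero, mul_zero, zero_mul, ofReal_zero, add_zero] at h
  have h2 := abs_nonpos_iff.mp h
  have e : (((1 / 2 : ℝ)) : ℂ) = 1 / 2 := by push_cast; ring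
  rw [e, phr_half, sub_zero] at h2
  exact h2

/-! ### Large height -/

theorem two_sin_eq (w : ℂ) : 2 * Complex.sin (Real.pi * w) =
    I * (Complex.exp (-(Real.pi * w * I)) * (1 - Complex.exp (2 * Real.pi * I * w))) := by
  have h : Complex.exp (-(Real.pi * w * I)) * Complex.exp (2 * Real.pi * I * w) =
      Complex.exp (Real.pi * w * I) := by
    rw [← Complex.exp_add]
    congr 1
    ring
  rw [mul_sub, mul_one, h, Complex.sin, neg_mul]
  ring

theorem log_norm_two_sin {x y : ℝ} (hy : 0 < y) :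
    Real.log ‖2 * Complex.sin (Real.pi * (x + y * I))‖ =
      Real.pi * y + Real.log ‖1 - Complex.exp (2 * Real.pi * I * (x + y * I))‖ := by
  have hne : 1 - Complex.exp (2 * Real.pi * I * (x + y * I)) ≠ 0 := by
    intro h
    have h1 : Complex.exp (2 * Real.pi * I * (x + y * I)) = 1 := (sub_eq_zero.mp h).symm
    have h2 := congrArg norm h1
    rw [Complex.norm_exp, norm_one] at h2
    simp [Real.pi_ne_zero, hy.ne'] at h2
  rw [two_sin_eq, norm_mul, norm_mul, norm_I, one_mul, Real.log_mul (by simp) (by simpa using hne)]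
  congr 1
  rw [Complex.norm_exp, Real.log_exp]
  simp

theorem norm_exp_xy (x y : ℝ) : ‖Complex.exp (2 * Real.pi * I * (x + y * I))‖ =
    Real.exp (-(2 * Real.pi * y)) := by
  rw [Complex.norm_exp]
  congr 1
  simp

/-- the exponentially small error at height `y` -/
noncomputable def kq (y : ℝ) : ℝ := Real.exp (-(2 * Real.pi * y)) / (1 - Real.exp (-(2 * Real.pi * y)))

theorem exp_lt_one' {y : ℝ} (hy : 0 < y) : Real.exp (-(2 * Real.pi * y)) < 1 := by
  rw [Real.exp_lt_one_iff]
  have := Real.pi_pos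
  have : 0 < 2 * Real.pi * y := by positivity
  linarith only [this]

theorem kq_pos {y : ℝ} (hy : 0 < y) : 0 < kq y := by
  unfold kq
  have h1 := exp_lt_one' hy
  have h2 := Real.exp_pos (-(2 * Real.pi * y))
  apply div_pos h2
  linarith only [h1]

theorem abs_log_norm_one_sub_le {q : ℂ} (hq : ‖q‖ < 1) :
    |Real.log ‖1 - q‖| ≤ ‖q‖ / (1 - ‖q‖) := by
  have h1 : 1 - ‖q‖ ≤ ‖1 - q‖ := by
    have := norm_sub_norm_le (1 : ℂ) q
    rwa [norm_one] at this
  have h2 : ‖1 - q‖ ≤ 1 + ‖q‖ := by
    have := norm_sub_le (1 : ℂ) q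
    rwa [norm_one] at this
  have h0 := norm_nonneg q
  have h3 : 0 < 1 - ‖q‖ := by linarith only [hq]
  have h4 : 0 < ‖1 - q‖ := lt_of_lt_of_le h3 h1
  rw [abs_le]
  constructor
  · have h5 := Real.log_le_log h3 h1
    have h6 := Real.one_sub_inv_le_log_of_pos h3
    have h7 : 1 - (1 - ‖q‖)⁻¹ = -(‖q‖ / (1 - ‖q‖)) := by
      field_simp
      ring
    linarith only [h5, h6, h7]
  · have h5 := Real.log_le_sub_one_of_pos h4
    have h6 : ‖q‖ ≤ ‖q‖ / (1 - ‖q‖) := by
      rw [le_div_iff₀ h3]
      nlinarith only [h1, h2]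
    linarith only [h2, h5, h6]

/-- **Behaviour at large height.** -/
theorem abs_phr_sub_le_kq {x : ℝ} (h0 : 0 < x) (h1 : x < 1) {y : ℝ} (hy : 0 < y) :
    |phr (x + y * I) - Real.pi * (1 / 2 - x) * y| ≤ kq y * |x - 1 / 2| := by
  have h := Convex.norm_image_sub_le_of_norm_hasDerivWithin_le
    (f := fun x : ℝ => phr (x + y * I) - Real.pi * (1 / 2 - x) * y)
    (f' := fun x : ℝ => -Real.log ‖2 * Complex.sin (Real.pi * (x + y * I))‖ + Real.pi * y)
    (s := Ioo 0 1)
    (C := kq y) (x := 1 / 2) (y := x)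
    (by
      intro t ht
      have h2 := hasDerivAt_phr_re ht.1 ht.2 y
      have h3 : HasDerivAt (fun x : ℝ => Real.pi * (1 / 2 - x) * y) (-(Real.pi * y)) t := by
        have := (((hasDerivAt_id t).const_sub (1 / 2)).const_mul Real.pi).mul_const y
        refine this.congr_deriv ?_
        ring
      refine ((h2.sub h3).congr_deriv ?_).hasDerivWithinAt
      ring)
    (by
      intro t ht
      rw [log_norm_two_sin hy, Real.norm_eq_abs]
      have h4 : -(Real.pi * y + Real.log ‖1 - Complex.exp (2 * Real.pi * I * (t + y * I))‖) +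
          Real.pi * y = -Real.log ‖1 - Complex.exp (2 * Real.pi * I * (t + y * I))‖ := by
        ring
      rw [h4, abs_neg]
      have h5 := norm_exp_xy t y
      have h6 := abs_log_norm_one_sub_le (q := Complex.exp (2 * Real.pi * I * (t + y * I)))
        (by rw [h5]; exact exp_lt_one' hy)
      rw [h5] at h6
      exact h6)
    (convex_Ioo 0 1) ⟨by norm_num, by norm_num⟩ ⟨h0, h1⟩
  have h2 : phr (((1 / 2 : ℝ) : ℂ) + y * I) - Real.pi * (1 / 2 - 1 / 2) * y = 0 := by
    have := phr_half_im y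
    have e : (((1 / 2 : ℝ)) : ℂ) = 1 / 2 := by push_cast; ring
    rw [e, this]
    ring
  simp only [h2, sub_zero, Real.norm_eq_abs] at h
  exact h

theorem kq_tendsto : Filter.Tendsto kq Filter.atTop (nhds 0) := by
  have h1 : Filter.Tendsto (fun y : ℝ => Real.exp (-(2 * Real.pi * y))) Filter.atTop (nhds 0) := by
    refine Real.tendsto_exp_atBot.comp ?_
    have : Filter.Tendsto (fun y : ℝ => (-(2 * Real.pi)) * y) Filter.atTop Filter.atBot :=
      Filter.Tendsto.const_mul_atTop_of_neg (by have := Real.pi_pos; linarith only [this]) Filter.tendsto_id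
    refine this.congr fun y => ?_
    ring
  have h2 := h1.div (h1.const_sub 1) (by norm_num)
  rw [zero_div] at h2
  exact h2

/-- `phr` lies above its asymptote for `x ≤ 1/2` -/
theorem asymptote_le_phr {x : ℝ} (h0 : 0 < x) (h1 : x ≤ 1 / 2) (y : ℝ) :
    Real.pi * (1 / 2 - x) * y ≤ phr (x + y * I) := by
  have hpi := Real.pi_pos
  -- the difference is antitone with limit `0`
  have key : ∀ t : ℝ, y ≤ t → 0 < t → -(kq t * |x - 1 / 2|) ≤
      phr (x + y * I) - Real.pi * (1 / 2 - x) * y := by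
    intro t hyt ht
    have h2 := abs_phr_sub_le_kq h0 (by linarith only [h0, h1]) ht
    have h3 := abs_phr_sub_le h0 (by linarith only [h0, h1]) t y
    rw [abs_of_nonneg (show (0 : ℝ) ≤ 1 / 2 - x by linarith only [h1]),
      abs_of_nonneg (show 0 ≤ t - y by linarith only [hyt])] at h3
    have h4 := (abs_le.mp h2).1
    have h5 := (abs_le.mp h3).2
    nlinarith only [h4, h5]
  have h2 : Filter.Tendsto (fun t => -(kq t * |x - 1 / 2|)) Filter.atTop (nhds 0) := by
    simpa using (kq_tendsto.mul_const |x - 1 / 2|).neg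
  have h3 := le_of_tendsto h2 (b := phr (x + y * I) - Real.pi * (1 / 2 - x) * y) (by
    filter_upwards [Filter.eventually_ge_atTop y, Filter.eventually_gt_atTop 0] with t h4 h5
    exact key t h4 h5)
  linarith only [h3]

/-! ### Small height -/

theorem tanh_le {t : ℝ} (ht : 0 ≤ t) : Real.sinh t / Real.cosh t ≤ t := by
  have h1 := Real.cosh_pos t
  rw [div_le_iff₀ h1]
  -- `sinh t ≤ t cosh t`
  have h : MonotoneOn (fun t : ℝ => t * Real.cosh t - Real.sinh t) (Ici 0) := by
    refine monotoneOn_of_hasDerivWithinAt_nonneg (convex_Ici 0)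
      (f' := fun t : ℝ => t * Real.sinh t) ?_ ?_ ?_
    · exact Continuous.continuousOn (by fun_prop)
    · intro u _
      have h2 := ((hasDerivAt_id u).mul (Real.hasDerivAt_cosh u)).sub (Real.hasDerivAt_sinh u)
      refine (h2.congr_deriv ?_).hasDerivWithinAt
      simp
    · intro u hu
      rw [interior_Ici] at hu
      have hu0 : 0 ≤ u := le_of_lt hu
      have := Real.sinh_nonneg_iff.mpr hu0
      positivity
  have h2 := h (mem_Ici.mpr le_rfl) (mem_Ici.mpr ht) ht
  simp only [zero_mul, Real.sinh_zero, sub_zero] at h2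
  linarith only [h2]

theorem abs_tanh_le (t : ℝ) : |Real.sinh t / Real.cosh t| ≤ |t| := by
  rcases le_total 0 t with h | h
  · have h1 := tanh_le h
    have h2 := Real.sinh_nonneg_iff.mpr h
    have h3 := Real.cosh_pos t
    rw [abs_of_nonneg h, abs_of_nonneg (by positivity)]
    exact h1
  · have h0 : 0 ≤ -t := by linarith only [h]
    have h1 := tanh_le h0
    have h2 := Real.sinh_nonneg_iff.mpr h0
    have h3 := Real.cosh_pos (-t)
    have e : Real.sinh t / Real.cosh t = -(Real.sinh (-t) / Real.cosh (-t)) := by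
      rw [Real.sinh_neg, Real.cosh_neg]
      ring
    rw [abs_of_nonpos h, e, abs_neg, abs_of_nonneg (by positivity)]
    exact h1

theorem abs_arctan_le (t : ℝ) : |Real.arctan t| ≤ |t| := by
  rw [abs_arctan]
  have h := Real.le_tan (Real.arctan_nonneg.mpr (abs_nonneg t)) (Real.arctan_lt_pi_div_two |t|)
  rwa [Real.tan_arctan] at h

/-- the slope is `O(height)` -/
theorem abs_thr_le_mul {x : ℝ} (h0 : 0 < x) (h1 : x < 1) (y : ℝ) :
    |thr (x + y * I)| ≤ |Real.cos (Real.pi * x) / Real.sin (Real.pi * x)| * (Real.pi * |y|) := by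
  rw [thr_eq_arctan h0 h1]
  refine (abs_arctan_le _).trans ?_
  rw [abs_mul]
  refine mul_le_mul_of_nonneg_left ?_ (abs_nonneg _)
  refine (abs_tanh_le _).trans ?_
  rw [abs_mul, abs_of_pos Real.pi_pos]

/-- **Quadratic dependence on the height.** -/
theorem abs_phr_sub_real_le {x : ℝ} (h0 : 0 < x) (h1 : x < 1) (y : ℝ) :
    |phr (x + y * I) - phr x| ≤
      |Real.cos (Real.pi * x) / Real.sin (Real.pi * x)| * (Real.pi * y ^ 2 / 2) := by
  -- it is enough to treat `0 ≤ y`
  have key : ∀ y : ℝ, 0 ≤ y → |phr (x + y * I) - phr x| ≤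
      |Real.cos (Real.pi * x) / Real.sin (Real.pi * x)| * (Real.pi * y ^ 2 / 2) := by
    intro y hy
    have h := image_norm_le_of_norm_deriv_right_le_deriv_boundary
      (f := fun t : ℝ => phr (x + t * I) - phr x) (f' := fun t : ℝ => thr (x + t * I))
      (a := 0) (b := y)
      (B := fun t : ℝ => |Real.cos (Real.pi * x) / Real.sin (Real.pi * x)| * (Real.pi * t ^ 2 / 2))
      (B' := fun t : ℝ => |Real.cos (Real.pi * x) / Real.sin (Real.pi * x)| * (Real.pi * t))
      (fun t _ => ((hasDerivAt_phr_im h0 h1 t).sub_const _).continuousAt.continuousWithinAt)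
      (fun t _ => ((hasDerivAt_phr_im h0 h1 t).sub_const _).hasDerivWithinAt)
      (by simp)
      (by
        intro t
        have h3 := (((hasDerivAt_pow 2 t).const_mul Real.pi).div_const 2).const_mul
          |Real.cos (Real.pi * x) / Real.sin (Real.pi * x)|
        refine h3.congr_deriv ?_
        push_cast
        ring)
      (by
        intro t ht
        have h3 := abs_thr_le_mul h0 h1 t
        rw [abs_of_nonneg ht.1] at h3
        exact h3)
    have := h ⟨hy, le_rfl⟩
    simpa [Real.norm_eq_abs] using this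
  rcases le_total 0 y with hy | hy
  · exact key y hy
  · have h2 := key (-y) (by linarith only [hy])
    rw [phr_neg_im h0 h1 y] at h2
    simpa using h2

end Pool.Agent.Work.MP_b30479_gt.VC
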