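import Pool.Agent.Work.MP_b30479_gt.VC.Reso

/-!
# Arbitrary paths in the upper half plane

A function holomorphic in the upper half plane and at the two real points `±b` has the same
integral along all paths from `-b` to `b` in the upper half plane.
-/

namespace Pool.Agent.Work.MP_b30479_gt.VC

open Set Filter Topology
open DT (pathInt)

/-- primitive on a convex set -/
lemma exists_primitive {F : ℂ → ℂ} {S : Set ℂ} (hS : Convex ℝ S)
    (hF : ∀ z ∈ S, DifferentiableAt ℂ F z) :
    ∃ P : ℂ → ℂ, ∀ z ∈ S, HasDerivWithinAt P (F z) S z := by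
  have h1 : ∀ z ∈ S, HasFDerivWithinAt (fun z : ℂ => ContinuousLinearMap.toSpanSingleton ℂ (F z))
      (((ContinuousLinearMap.toSpanSingletonCLE (𝕜 := ℂ) (E := ℂ)).toContinuousLinearMap.comp
        (ContinuousLinearMap.toSpanSingleton ℂ (deriv F z))).restrictScalars ℝ) S z := by
    intro z hz
    have h2 := (hF z hz).hasDerivAt.hasFDerivAt
    have h3 := ((ContinuousLinearMap.toSpanSingletonCLE (𝕜 := ℂ)
      (E := ℂ)).toContinuousLinearMap.hasFDerivAt (x := F z)).comp z h2
    exact (h3.restrictScalars ℝ).hasFDerivWithinAt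
  obtain ⟨P, hP⟩ := hS.exists_forall_hasFDerivWithinAt_of_hasFDerivWithinAt_symmetric h1 (by
    intro a _ x _ y _
    simp [mul_left_comm])
  refine ⟨P, fun z hz => ?_⟩
  have := (hP z hz).hasDerivWithinAt
  simpa using this

/-- the upper half plane with one or two boundary points -/
def UH (b : ℝ) : Set ℂ := {z | 0 < z.im} ∪ {(b : ℂ), ((-b : ℝ) : ℂ)}

lemma convex_one (b : ℝ) : Convex ℝ ({z : ℂ | 0 < z.im} ∪ {(b : ℂ)}) := by
  intro x hx y hy p q hp hq hpq
  have key : ∀ {u v : ℂ} {p q : ℝ}, 0 < u.im → 0 ≤ v.im → 0 ≤ p → 0 ≤ q → p + q = 1 → 0 < p →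
      0 < (p • u + q • v).im := by
    intro u v p q hu hv _ hq _ hp
    simp only [Complex.add_im, Complex.real_smul, Complex.mul_im, Complex.ofReal_re,
      Complex.ofReal_im, zero_mul, add_zero]
    have := mul_pos hp hu
    have := mul_nonneg hq hv
    linarith
  have hx0 : 0 ≤ x.im := by
    rcases hx with hx | hx
    · exact le_of_lt hx
    · rw [mem_singleton_iff] at hx; rw [hx]; simp
  have hy0 : 0 ≤ y.im := by
    rcases hy with hy | hy
    · exact le_of_lt hy
    · rw [mem_singleton_iff] at hy; rw [hy]; simp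
  rcases hp.eq_or_lt with hp0 | hp0
  · rw [← hp0] at hpq ⊢
    rw [zero_add] at hpq
    rw [hpq, zero_smul, one_smul, zero_add]
    exact hy
  rcases hq.eq_or_lt with hq0 | hq0
  · rw [← hq0] at hpq ⊢
    rw [add_zero] at hpq
    rw [hpq, zero_smul, one_smul, add_zero]
    exact hx
  rcases hx with hx | hx
  · left
    exact key hx hy0 hp hq hpq hp0
  · rcases hy with hy | hy
    · left
      rw [add_comm]
      exact key hy hx0 hq hp (by linarith) hq0
    · right
      rw [mem_singleton_iff] at hx hy ⊢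
      rw [hx, hy, ← add_smul, hpq, one_smul]

lemma isOpen_up : IsOpen {z : ℂ | 0 < z.im} := isOpen_lt continuous_const Complex.continuous_im

lemma convex_up : Convex ℝ {z : ℂ | 0 < z.im} := convex_halfSpace_im_gt 0

/-- primitive in the upper half plane, continuous up to the points `±b` -/
theorem exists_prim_UH {F : ℂ → ℂ} {b : ℝ} (hF : ∀ z : ℂ, 0 < z.im → DifferentiableAt ℂ F z)
    (hb : DifferentiableAt ℂ F (b : ℂ)) (hb' : DifferentiableAt ℂ F ((-b : ℝ) : ℂ)) :
    ∃ P : ℂ → ℂ, ContinuousOn P (UH b) ∧ ∀ z : ℂ, 0 < z.im → HasDerivAt P (F z) z := by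
  obtain ⟨P, hP⟩ := exists_primitive (F := F) (convex_one b) (by
    rintro z (hz | hz)
    · exact hF z hz
    · rw [mem_singleton_iff] at hz; rw [hz]; exact hb)
  obtain ⟨Q, hQ⟩ := exists_primitive (F := F) (convex_one (-b)) (by
    rintro z (hz | hz)
    · exact hF z hz
    · rw [mem_singleton_iff] at hz; rw [hz]; exact hb')
  have hP1 : ∀ z : ℂ, 0 < z.im → HasDerivAt P (F z) z := fun z hz =>
    (hP z (Or.inl hz)).hasDerivAt (mem_of_superset (isOpen_up.mem_nhds hz) subset_union_left)
  have hQ1 : ∀ z : ℂ, 0 < z.im → HasDerivAt Q (F z) z := fun z hz =>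
    (hQ z (Or.inl hz)).hasDerivAt (mem_of_superset (isOpen_up.mem_nhds hz) subset_union_left)
  -- the difference is constant
  have hI : 0 < Complex.I.im := by simp
  have hconst : ∀ z : ℂ, 0 < z.im → Q z - P z = Q Complex.I - P Complex.I := by
    intro z hz
    have h1 : ∀ w ∈ {z : ℂ | 0 < z.im}, HasDerivWithinAt (fun z => Q z - P z) 0
        {z : ℂ | 0 < z.im} w := by
      intro w hw
      have := (hQ1 w hw).sub (hP1 w hw)
      rw [sub_self] at this
      exact this.hasDerivWithinAt
    exact convex_up.is_const_of_fderivWithin_eq_zero (𝕜 := ℂ)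
      (fun w hw => (h1 w hw).differentiableWithinAt)
      (fun w hw => by
        have := (h1 w hw).hasFDerivWithinAt.fderivWithin (isOpen_up.uniqueDiffWithinAt hw)
        rw [this]
        ext
        simp) hz hI
  set c := Q Complex.I - P Complex.I with hc
  by_cases hbb : b = 0
  · refine ⟨P, ?_, hP1⟩
    have : UH b = {z : ℂ | 0 < z.im} ∪ {(b : ℂ)} := by
      unfold UH
      rw [hbb]
      simp
    rw [this]
    exact fun z hz => (hP z hz).continuousWithinAt
  have hne : ((-b : ℝ) : ℂ) ≠ (b : ℂ) := by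
    intro h
    have : (-b : ℝ) = b := by exact_mod_cast h
    exact hbb (by linarith)
  refine ⟨Function.update P ((-b : ℝ) : ℂ) (Q ((-b : ℝ) : ℂ) - c), ?_, ?_⟩
  · intro z hz
    by_cases hz' : z = ((-b : ℝ) : ℂ)
    · -- near `-b` the function equals `Q - c`
      have h1 : ContinuousWithinAt (fun z => Q z - c) ({z : ℂ | 0 < z.im} ∪ {((-b : ℝ) : ℂ)})
          ((-b : ℝ) : ℂ) :=
        ((hQ _ (Or.inr rfl)).continuousWithinAt).sub continuousWithinAt_const
      have h2 : ContinuousWithinAt (Function.update P ((-b : ℝ) : ℂ) (Q ((-b : ℝ) : ℂ) - c))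
          ({z : ℂ | 0 < z.im} ∪ {((-b : ℝ) : ℂ)}) ((-b : ℝ) : ℂ) := by
        refine h1.congr ?_ ?_
        · rintro w (hw | hw)
          · have hw1 : w ≠ ((-b : ℝ) : ℂ) := by
              rintro rfl
              simp at hw
            rw [Function.update_of_ne hw1]
            linear_combination -(hconst w hw)
          · rw [mem_singleton_iff] at hw
            rw [hw, Function.update_self]
        · rw [Function.update_self]
      have h3 : UH b = ({z : ℂ | 0 < z.im} ∪ {((-b : ℝ) : ℂ)}) ∪ {(b : ℂ)} := by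
        ext w
        simp only [UH, mem_union, mem_insert_iff, mem_singleton_iff]
        tauto
      rw [hz', h3, continuousWithinAt_union]
      refine ⟨h2, ?_⟩
      have : ((-b : ℝ) : ℂ) ∉ closure {(b : ℂ)} := by
        rw [closure_singleton, mem_singleton_iff]
        exact hne
      exact continuousWithinAt_of_notMem_closure this
    · have hzS : z ∈ {z : ℂ | 0 < z.im} ∪ {(b : ℂ)} := by
        simp only [UH, mem_union, mem_insert_iff, mem_singleton_iff] at hz ⊢
        tauto
      have h1 := (hP z hzS).continuousWithinAt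
      have h2 : ContinuousWithinAt (Function.update P ((-b : ℝ) : ℂ) (Q ((-b : ℝ) : ℂ) - c))
          ({z : ℂ | 0 < z.im} ∪ {(b : ℂ)}) z := by
        refine h1.congr_of_eventuallyEq ?_ ?_
        · have : ∀ᶠ w in 𝓝 z, w ≠ ((-b : ℝ) : ℂ) := isOpen_ne.mem_nhds hz'
          filter_upwards [this.filter_mono nhdsWithin_le_nhds] with w hw
          rw [Function.update_of_ne hw]
        · rw [Function.update_of_ne hz']
      have h3 : UH b = ({z : ℂ | 0 < z.im} ∪ {(b : ℂ)}) ∪ {((-b : ℝ) : ℂ)} := by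
        ext w
        simp only [UH, mem_union, mem_insert_iff, mem_singleton_iff]
        tauto
      rw [h3, continuousWithinAt_union]
      refine ⟨h2, ?_⟩
      have : z ∉ closure {((-b : ℝ) : ℂ)} := by
        rw [closure_singleton, mem_singleton_iff]
        exact hz'
      exact continuousWithinAt_of_notMem_closure this
  · intro z hz
    have hzne : z ≠ ((-b : ℝ) : ℂ) := by
      rintro rfl
      simp at hz
    refine (hP1 z hz).congr_of_eventuallyEq ?_
    filter_upwards [isOpen_ne.mem_nhds hzne] with w hw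
    rw [Function.update_of_ne hw]

/-- the integral along a path in the upper half plane is the increment of the primitive -/
theorem path_prim {F P : ℂ → ℂ} {b : ℝ} (hPc : ContinuousOn P (UH b))
    (hP : ∀ z : ℂ, 0 < z.im → HasDerivAt P (F z) z) {γ γ' : ℝ → ℂ} {u v : ℝ} (huv : u ≤ v)
    (hγ : ContinuousOn γ (Icc u v)) (hγU : ∀ x ∈ Icc u v, γ x ∈ UH b)
    (hγim : ∀ x ∈ Ioo u v, 0 < (γ x).im) {s : Set ℝ} (hs : s.Countable)
    (hγ' : ∀ x ∈ Ioo u v \ s, HasDerivAt γ (γ' x) x)
    (hint : IntervalIntegrable (fun x => F (γ x) * γ' x) MeasureTheory.volume u v) :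
    ∫ x in u..v, F (γ x) * γ' x = P (γ v) - P (γ u) := by
  refine MeasureTheory.integral_eq_of_hasDerivAt_off_countable_of_le (fun x => P (γ x)) _ huv hs
    (hPc.comp hγ hγU) ?_ hint
  intro x hx
  exact (hP (γ x) (hγim x hx.1)).comp x (hγ' x hx)

/-- the two-level path -/
theorem pathInt_prim {F P : ℂ → ℂ} {b : ℝ} (hb : 0 ≤ b) (hPc : ContinuousOn P (UH b))
    (hP : ∀ z : ℂ, 0 < z.im → HasDerivAt P (F z) z) (hF : ContinuousOn F (US b))
    (hFd : ∀ z : ℂ, 0 < z.im → DifferentiableAt ℂ F z) {x₁ h₁ h₂ : ℝ}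
    (hh1 : 0 < h₁) (hh2 : 0 < h₂) :
    pathInt F b x₁ h₁ h₂ = P ((-b : ℝ) : ℂ) - P (b : ℂ) := by
  have hv : ∀ (h : ℝ), 0 < h → ∫ y in (0 : ℝ)..h, F ((b : ℂ) + y * Complex.I) * Complex.I =
      P ((b : ℂ) + h * Complex.I) - P (b : ℂ) := by
    intro h hh
    have := path_prim hPc hP (γ := fun y : ℝ => (b : ℂ) + y * Complex.I)
      (γ' := fun _ => Complex.I) hh.le (by fun_prop) ?_ ?_ countable_empty ?_ ?_
    · simpa using this
    · intro y hy
      rcases hy.1.eq_or_lt with h0 | h0
      · right; left; simp [← h0]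
      · left; simp [h0]
    · intro y hy
      simpa using hy.1
    · intro y _
      have := ((Complex.ofRealCLM.hasDerivAt (x := y)).mul_const Complex.I).const_add (b : ℂ)
      simpa using this
    · exact ((vert_cont hb hF).mul continuous_const).intervalIntegrable _ _
  have hv' : ∀ (h : ℝ), 0 < h →
      ∫ y in (0 : ℝ)..h, F (((-b : ℝ) : ℂ) + y * Complex.I) * Complex.I =
      P (((-b : ℝ) : ℂ) + h * Complex.I) - P ((-b : ℝ) : ℂ) := by
    intro h hh
    have := path_prim hPc hP (γ := fun y : ℝ => ((-b : ℝ) : ℂ) + y * Complex.I)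
      (γ' := fun _ => Complex.I) hh.le (by fun_prop) ?_ ?_ countable_empty ?_ ?_
    · simpa using this
    · intro y hy
      rcases hy.1.eq_or_lt with h0 | h0
      · right; right; simp [← h0]
      · left; simp [h0]
    · intro y hy
      simpa using hy.1
    · intro y _
      have := ((Complex.ofRealCLM.hasDerivAt (x := y)).mul_const Complex.I).const_add
        (((-b : ℝ) : ℂ))
      simpa using this
    · exact ((vert_cont' hb hF).mul continuous_const).intervalIntegrable _ _
  have hrect : pathInt F b x₁ h₁ h₂ = pathInt F b (-b) h₁ h₁ :=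
    (pathInt_deform hb hF hFd hh1 hh2).symm
  · have hh : ∫ x in (-b)..b, F ((x : ℂ) + h₁ * Complex.I) * 1 =
        P ((b : ℂ) + h₁ * Complex.I) - P (((-b : ℝ) : ℂ) + h₁ * Complex.I) := by
      refine path_prim hPc hP (γ := fun x : ℝ => (x : ℂ) + h₁ * Complex.I)
        (γ' := fun _ => 1) (by linarith) (by fun_prop) ?_ ?_ countable_empty ?_ ?_
      · intro y _
        left; simp [hh1]
      · intro y _
        simp [hh1]
      · intro y _
        have := (Complex.ofRealCLM.hasDerivAt (x := y)).add_const (h₁ * Complex.I)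
        simpa using this
      · exact ((hor_cont hh1.ne' hF).mul continuous_const).intervalIntegrable _ _
    have e1 := hv h₁ hh1
    have e2 := hv' h₁ hh1
    rw [intervalIntegral.integral_mul_const] at e1 e2
    simp only [mul_one] at hh
    rw [hrect, pathInt_up]
    linear_combination e1 - hh - e2

/-- **Independence of the path.** The integral along any path `γ` from `-b` to `b` in the upper
half plane is minus the two-level path integral. -/
theorem path_eq {F : ℂ → ℂ} {b : ℝ} (hb : 0 ≤ b)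
    (hF : ∀ z : ℂ, 0 < z.im → DifferentiableAt ℂ F z)
    (hFb : DifferentiableAt ℂ F (b : ℂ)) (hFb' : DifferentiableAt ℂ F ((-b : ℝ) : ℂ))
    (hFc : ContinuousOn F (US b)) {γ γ' : ℝ → ℂ} {u v : ℝ} (huv : u ≤ v)
    (hγ : ContinuousOn γ (Icc u v)) (hγu : γ u = ((-b : ℝ) : ℂ)) (hγv : γ v = (b : ℂ))
    (hγim : ∀ x ∈ Ioo u v, 0 < (γ x).im) {s : Set ℝ} (hs : s.Countable)
    (hγ' : ∀ x ∈ Ioo u v \ s, HasDerivAt γ (γ' x) x)
    (hint : IntervalIntegrable (fun x => F (γ x) * γ' x) MeasureTheory.volume u v)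
    {x₁ h₁ h₂ : ℝ} (hh1 : 0 < h₁) (hh2 : 0 < h₂) :
    ∫ x in u..v, F (γ x) * γ' x = -pathInt F b x₁ h₁ h₂ := by
  obtain ⟨P, hPc, hP⟩ := exists_prim_UH hF hFb hFb'
  rw [pathInt_prim hb hPc hP hFc hF hh1 hh2,
    path_prim hPc hP huv hγ (fun x hx => ?_) hγim hs hγ' hint, hγu, hγv]
  · ring
  · rcases hx.1.eq_or_lt with h1 | h1
    · rw [← h1, hγu]
      exact Or.inr (Or.inr rfl)
    · rcases hx.2.eq_or_lt with h2 | h2
      · rw [h2, hγv]
        exact Or.inr (Or.inl rfl)
      · exact Or.inl (hγim x ⟨h1, h2⟩)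

open DT TB AX in
/-- the exact contour formula along an arbitrary path from `-n/2` to `n/2` in the upper half
plane -/
theorem Gm_path {s a y y' : ℕ} (hy : y ≤ 2 * s) {γ γ' : ℝ → ℂ} {u v : ℝ} (huv : u ≤ v)
    (hγ : ContinuousOn γ (Icc u v)) (hγu : γ u = ((-(hn s) : ℝ) : ℂ)) (hγv : γ v = (hn s : ℂ))
    (hγim : ∀ x ∈ Ioo u v, 0 < (γ x).im) {S : Set ℝ} (hS : S.Countable)
    (hγ' : ∀ x ∈ Ioo u v \ S, HasDerivAt γ (γ' x) x)
    (hint : IntervalIntegrable (fun x => KI a s y y' (γ x) * γ' x) MeasureTheory.volume u v) :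
    Gm s (tt s) 1 a y' (2 * s - y) = -(kap s 0 ^ a / (2 * Complex.I * ((2 * s + 1 : ℕ) : ℂ))) *
      ∫ x in u..v, KI a s y y' (γ x) * γ' x := by
  have hb : 0 ≤ hn s := by unfold hn; positivity
  have e1 : ∀ z ∈ US (hn s), DifferentiableAt ℂ (KI a s y y') z := fun z hz =>
    KI_diff (cont_sin_ne (US_mem hz))
  rw [path_eq hb (fun z hz => e1 z (Or.inl hz.ne')) (e1 _ (by simpa using vert_mem hb 0))
    (e1 _ (by simpa using vert_mem' hb 0)) (KI_cont a s y y') huv hγ hγu hγv hγim hS hγ' hint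
    (x₁ := 0) one_pos one_pos, Gm_sym_path hy 0 one_pos one_pos]
  ring

end Pool.Agent.Work.MP_b30479_gt.VC
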