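import Mathlib

/-!
# The function `F(z) = ∫ log (2 sin π z)` on the strip `0 ≤ Re z ≤ 1`
-/

namespace Pool.Agent.Work.MP_b30479_gt.VC

open Complex Set Filter Topology MeasureTheory

/-- the open strip -/
def St : Set ℂ := {z | 0 < z.re ∧ z.re < 1}

/-- the closed strip -/
def Sc : Set ℂ := {z | 0 ≤ z.re ∧ z.re ≤ 1}

/-- `log (2 sin π z)` -/
noncomputable def Lg (z : ℂ) : ℂ := Complex.log (2 * Complex.sin (Real.pi * z))

/-- the primitive of `Lg` vanishing at `1/2` -/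
noncomputable def Fd (z : ℂ) : ℂ := ∫ t in (0 : ℝ)..1, (z - 1 / 2) * Lg (1 / 2 + t * (z - 1 / 2))

theorem isOpen_St : IsOpen St := by
  have h1 : IsOpen {z : ℂ | 0 < z.re} := isOpen_lt continuous_const Complex.continuous_re
  have h2 : IsOpen {z : ℂ | z.re < 1} := isOpen_lt Complex.continuous_re continuous_const
  exact h1.inter h2

theorem isClosed_Sc : IsClosed Sc := by
  have h1 : IsClosed {z : ℂ | 0 ≤ z.re} := isClosed_le continuous_const Complex.continuous_re
  have h2 : IsClosed {z : ℂ | z.re ≤ 1} := isClosed_le Complex.continuous_re continuous_const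
  exact h1.inter h2

theorem St_sub_Sc : St ⊆ Sc := fun _ h => ⟨h.1.le, h.2.le⟩

theorem sin_pi_eq (z : ℂ) : 2 * Complex.sin (Real.pi * z) =
    ((2 * (Real.sin (Real.pi * z.re) * Real.cosh (Real.pi * z.im)) : ℝ) : ℂ) +
    ((2 * (Real.cos (Real.pi * z.re) * Real.sinh (Real.pi * z.im)) : ℝ) : ℂ) * I := by
  have h1 : (Real.pi : ℂ) * z = ((Real.pi * z.re : ℝ) : ℂ) + ((Real.pi * z.im : ℝ) : ℂ) * I := by
    conv_lhs => rw [← Complex.re_add_im z]
    push_cast
    ring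
  rw [h1, Complex.sin_add_mul_I, ← Complex.ofReal_sin, ← Complex.ofReal_cos, ← Complex.ofReal_cosh,
    ← Complex.ofReal_sinh]
  push_cast
  ring

theorem sin_pi_re (z : ℂ) : (2 * Complex.sin (Real.pi * z)).re =
    2 * (Real.sin (Real.pi * z.re) * Real.cosh (Real.pi * z.im)) := by
  rw [sin_pi_eq, Complex.add_re, Complex.ofReal_re, Complex.re_ofReal_mul, Complex.I_re]
  ring

theorem sin_pi_im (z : ℂ) : (2 * Complex.sin (Real.pi * z)).im =
    2 * (Real.cos (Real.pi * z.re) * Real.sinh (Real.pi * z.im)) := by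
  rw [sin_pi_eq, Complex.add_im, Complex.ofReal_im, Complex.im_ofReal_mul, Complex.I_im]
  ring

theorem sin_pi_re_pos {z : ℂ} (hz : z ∈ St) : 0 < (2 * Complex.sin (Real.pi * z)).re := by
  rw [sin_pi_re]
  have hpi := Real.pi_pos
  have h1 : 0 < Real.sin (Real.pi * z.re) := by
    apply Real.sin_pos_of_pos_of_lt_pi
    · exact mul_pos hpi hz.1
    · nlinarith only [hpi, hz, hz.2]
  have h2 := Real.cosh_pos (Real.pi * z.im)
  positivity

theorem sin_pi_re_nonneg {z : ℂ} (hz : z ∈ Sc) : 0 ≤ (2 * Complex.sin (Real.pi * z)).re := by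
  rw [sin_pi_re]
  have hpi := Real.pi_pos
  have h1 : 0 ≤ Real.sin (Real.pi * z.re) := by
    apply Real.sin_nonneg_of_nonneg_of_le_pi
    · exact mul_nonneg hpi.le hz.1
    · nlinarith only [hpi, hz, hz.2]
  have h2 := Real.cosh_pos (Real.pi * z.im)
  positivity

theorem slit_of_Sc {z : ℂ} (hz : z ∈ Sc) (h0 : z ≠ 0) (h1 : z ≠ 1) :
    2 * Complex.sin (Real.pi * z) ∈ Complex.slitPlane := by
  rw [Complex.mem_slitPlane_iff]
  by_cases h : z ∈ St
  · exact Or.inl (sin_pi_re_pos h)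
  · right
    have hre : z.re = 0 ∨ z.re = 1 := by
      by_contra hcon
      push Not at hcon
      exact h ⟨lt_of_le_of_ne hz.1 (Ne.symm hcon.1), lt_of_le_of_ne hz.2 hcon.2⟩
    have him : z.im ≠ 0 := by
      intro h2
      rcases hre with h3 | h3
      · exact h0 (Complex.ext h3 h2)
      · exact h1 (Complex.ext h3 h2)
    rw [sin_pi_im]
    have h4 : Real.sinh (Real.pi * z.im) ≠ 0 := by
      rw [Ne, Real.sinh_eq_zero]
      exact mul_ne_zero Real.pi_ne_zero him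
    have h5 : Real.cos (Real.pi * z.re) ≠ 0 := by
      rcases hre with h3 | h3
      · rw [h3]; simp
      · rw [h3]; simp
    exact mul_ne_zero two_ne_zero (mul_ne_zero h5 h4)

theorem slit_of_St {z : ℂ} (hz : z ∈ St) : 2 * Complex.sin (Real.pi * z) ∈ Complex.slitPlane :=
  Or.inl (sin_pi_re_pos hz)

theorem exp_Lg {z : ℂ} (hz : z ∈ St) : Complex.exp (Lg z) = 2 * Complex.sin (Real.pi * z) :=
  Complex.exp_log (Complex.slitPlane_ne_zero (slit_of_St hz))

theorem exp_Lg' {z : ℂ} (hz : z ∈ Sc) (h0 : z ≠ 0) (h1 : z ≠ 1) :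
    Complex.exp (Lg z) = 2 * Complex.sin (Real.pi * z) :=
  Complex.exp_log (Complex.slitPlane_ne_zero (slit_of_Sc hz h0 h1))

theorem hasDerivAt_Lg {z : ℂ} (hz : z ∈ St) :
    HasDerivAt Lg (Real.pi * Complex.cot (Real.pi * z)) z := by
  have h1 : HasDerivAt (fun w : ℂ => (Real.pi : ℂ) * w) (Real.pi : ℂ) z := by
    simpa using (hasDerivAt_id z).const_mul (Real.pi : ℂ)
  have h2 : HasDerivAt (fun w : ℂ => 2 * Complex.sin (Real.pi * w))
      (2 * (Complex.cos (Real.pi * z) * Real.pi)) z := (h1.csin).const_mul 2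
  have h3 := h2.clog (slit_of_St hz)
  have h4 : 2 * (Complex.cos (Real.pi * z) * Real.pi) / (2 * Complex.sin (Real.pi * z)) =
      Real.pi * Complex.cot (Real.pi * z) := by
    rw [Complex.cot_eq_cos_div_sin, mul_div_mul_left _ _ two_ne_zero]
    ring
  rw [h4] at h3
  exact h3

theorem continuousAt_Lg {z : ℂ} (hz : z ∈ Sc) (h0 : z ≠ 0) (h1 : z ≠ 1) : ContinuousAt Lg z := by
  refine ContinuousAt.clog ?_ (slit_of_Sc hz h0 h1)
  fun_prop

theorem differentiableOn_Lg : DifferentiableOn ℂ Lg St := fun _ hz =>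
  (hasDerivAt_Lg hz).differentiableAt.differentiableWithinAt

/-! ### Norms -/

theorem norm_sin_pi_sq (z : ℂ) : ‖2 * Complex.sin (Real.pi * z)‖ ^ 2 =
    4 * (Real.sin (Real.pi * z.re) ^ 2 + Real.sinh (Real.pi * z.im) ^ 2) := by
  rw [← Complex.normSq_eq_norm_sq, Complex.normSq_apply, sin_pi_re, sin_pi_im]
  have h1 := Real.sin_sq_add_cos_sq (Real.pi * z.re)
  have h2 := Real.cosh_sq (Real.pi * z.im)
  have h3 : Real.cos (Real.pi * z.re) ^ 2 = 1 - Real.sin (Real.pi * z.re) ^ 2 := by linarith only [h1]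
  calc _ = 4 * (Real.sin (Real.pi * z.re) ^ 2 * Real.cosh (Real.pi * z.im) ^ 2 +
      Real.cos (Real.pi * z.re) ^ 2 * Real.sinh (Real.pi * z.im) ^ 2) := by ring
    _ = _ := by rw [h2, h3]; ring

theorem norm_sin_pi_le (z : ℂ) : ‖2 * Complex.sin (Real.pi * z)‖ ≤
    2 * Real.exp (Real.pi * |z.im|) := by
  have h0 : 0 ≤ 2 * Real.exp (Real.pi * |z.im|) := by positivity
  refine le_of_sq_le_sq ?_ h0
  rw [norm_sin_pi_sq]
  have h1 : Real.sinh (Real.pi * z.im) ^ 2 = Real.cosh (Real.pi * |z.im|) ^ 2 - 1 := by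
    rw [Real.cosh_sq]
    rcases abs_cases z.im with ⟨h, _⟩ | ⟨h, _⟩
    · rw [h]; ring
    · rw [h, show Real.pi * -z.im = -(Real.pi * z.im) by ring, Real.sinh_neg]; ring
  have h2 : Real.cosh (Real.pi * |z.im|) ≤ Real.exp (Real.pi * |z.im|) := by
    rw [Real.cosh_eq]
    have h3 : Real.exp (-(Real.pi * |z.im|)) ≤ Real.exp (Real.pi * |z.im|) := by
      apply Real.exp_le_exp.mpr
      have : 0 ≤ Real.pi * |z.im| := by positivity
      linarith only [this]
    linarith only [h3]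
  have h4 := Real.sin_sq_le_one (Real.pi * z.re)
  have h5 : Real.cosh (Real.pi * |z.im|) ^ 2 ≤ Real.exp (Real.pi * |z.im|) ^ 2 := by
    apply pow_le_pow_left₀ (Real.cosh_pos _).le h2
  rw [h1]
  nlinarith only [h4, h5]

theorem norm_sin_pi_ge (z : ℂ) : 2 * |Real.sin (Real.pi * z.re)| ≤
    ‖2 * Complex.sin (Real.pi * z)‖ := by
  refine le_of_sq_le_sq ?_ (norm_nonneg _)
  rw [norm_sin_pi_sq, mul_pow, sq_abs]
  nlinarith only [sq_nonneg (Real.sinh (Real.pi * z.im))]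

theorem norm_sin_pi_ge' (z : ℂ) : 2 * |Real.sinh (Real.pi * z.im)| ≤
    ‖2 * Complex.sin (Real.pi * z)‖ := by
  refine le_of_sq_le_sq ?_ (norm_nonneg _)
  rw [norm_sin_pi_sq, mul_pow, sq_abs]
  nlinarith only [sq_nonneg (Real.sin (Real.pi * z.re))]

theorem Lg_re (z : ℂ) : (Lg z).re = Real.log ‖2 * Complex.sin (Real.pi * z)‖ := Complex.log_re _

theorem Lg_im_abs {z : ℂ} (hz : z ∈ Sc) : |(Lg z).im| ≤ Real.pi / 2 := by
  rw [Lg, Complex.log_im]
  exact Complex.abs_arg_le_pi_div_two_iff.mpr (sin_pi_re_nonneg hz)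

theorem Lg_re_le (z : ℂ) (h : 2 * Complex.sin (Real.pi * z) ≠ 0) :
    (Lg z).re ≤ 1 + Real.pi * |z.im| := by
  rw [Lg_re]
  have h1 : Real.log ‖2 * Complex.sin (Real.pi * z)‖ ≤
      Real.log (2 * Real.exp (Real.pi * |z.im|)) :=
    Real.log_le_log (norm_pos_iff.mpr h) (norm_sin_pi_le z)
  rw [Real.log_mul (by norm_num) (Real.exp_ne_zero _), Real.log_exp] at h1
  have h2 : Real.log 2 < 1 := by linarith only [Real.log_two_lt_d9]
  linarith only [h1, h2]

theorem Lg_re_ge (z : ℂ) (h : Real.sin (Real.pi * z.re) ≠ 0) :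
    Real.log |Real.sin (Real.pi * z.re)| ≤ (Lg z).re := by
  rw [Lg_re]
  apply Real.log_le_log (abs_pos.mpr h)
  have := norm_sin_pi_ge z
  have h1 := abs_nonneg (Real.sin (Real.pi * z.re))
  linarith only [this, h1]

/-- the norm of `Lg` -/
theorem norm_Lg_le {z : ℂ} (hz : z ∈ Sc) (h : Real.sin (Real.pi * z.re) ≠ 0) :
    ‖Lg z‖ ≤ 3 + Real.pi * |z.im| - Real.log |Real.sin (Real.pi * z.re)| := by
  have h1 : ‖Lg z‖ ≤ |(Lg z).re| + |(Lg z).im| := Complex.norm_le_abs_re_add_abs_im _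
  have h2 := Lg_im_abs hz
  have h3 : 2 * Complex.sin (Real.pi * z) ≠ 0 := by
    intro h4
    have := norm_sin_pi_ge z
    rw [h4, norm_zero] at this
    have h5 := abs_pos.mpr h
    linarith only [this, h5]
  have h4 := Lg_re_le z h3
  have h5 := Lg_re_ge z h
  have h6 : Real.log |Real.sin (Real.pi * z.re)| ≤ 0 :=
    Real.log_nonpos (abs_nonneg _) (Real.abs_sin_le_one _)
  have h7 : |(Lg z).re| ≤ 1 + Real.pi * |z.im| - Real.log |Real.sin (Real.pi * z.re)| := by
    rw [abs_le]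
    have : 0 ≤ Real.pi * |z.im| := by positivity
    constructor <;> linarith only [h5, this, h4, h6]
  have h8 : Real.pi / 2 ≤ 2 := by linarith only [Real.pi_le_four]
  linarith only [h1, h2, h7, h8]

end Pool.Agent.Work.MP_b30479_gt.VC
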