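import Pool.Agent.Work.MP_b30479_gt.DT.Cont
import Pool.Agent.Work.MP_b30479_gt.AX.SinF

/-!
# All entries of the powers of the braiding matrix as contour integrals (exact, with phases)

`n = 2s+1`, `cc n z = 2 cos (2πz/n)`, nodes `l - s`, `l = 0..2s`.
-/

namespace Pool.Agent.Work.MP_b30479_gt.VC

open Finset AX DT
open TB

/-! ### linearity of the path integral -/

/-- the set on which the integrands are continuous -/
def US (b : ℝ) : Set ℂ := {z | z.im ≠ 0 ∨ |z.re| = b}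

lemma vert_mem {b : ℝ} (hb : 0 ≤ b) (y : ℝ) : (b : ℂ) + y * Complex.I ∈ US b := by
  right
  simp [abs_of_nonneg hb]

lemma vert_mem' {b : ℝ} (hb : 0 ≤ b) (y : ℝ) : ((-b : ℝ) : ℂ) + y * Complex.I ∈ US b := by
  right
  simp [abs_of_nonneg hb]

lemma hor_mem {b h : ℝ} (hh : h ≠ 0) (x : ℝ) : (x : ℂ) + h * Complex.I ∈ US b := by
  left
  simp [hh]

lemma vert_cont {F : ℂ → ℂ} {b : ℝ} (hb : 0 ≤ b) (hF : ContinuousOn F (US b)) :
    Continuous fun y : ℝ => F ((b : ℂ) + y * Complex.I) :=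
  hF.comp_continuous (by fun_prop) (vert_mem hb)

lemma vert_cont' {F : ℂ → ℂ} {b : ℝ} (hb : 0 ≤ b) (hF : ContinuousOn F (US b)) :
    Continuous fun y : ℝ => F (((-b : ℝ) : ℂ) + y * Complex.I) :=
  hF.comp_continuous (by fun_prop) (vert_mem' hb)

lemma hor_cont {F : ℂ → ℂ} {b h : ℝ} (hh : h ≠ 0) (hF : ContinuousOn F (US b)) :
    Continuous fun x : ℝ => F ((x : ℂ) + h * Complex.I) :=
  hF.comp_continuous (by fun_prop) (hor_mem hh)

/-- the upper half of the boundary of the rectangle -/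
lemma pathInt_up (F : ℂ → ℂ) (b h : ℝ) : pathInt F b (-b) h h =
    Complex.I * (∫ y in (0 : ℝ)..h, F ((b : ℂ) + y * Complex.I)) -
    (∫ x in (-b)..b, F ((x : ℂ) + h * Complex.I)) -
    Complex.I * (∫ y in (0 : ℝ)..h, F (((-b : ℝ) : ℂ) + y * Complex.I)) := by
  unfold pathInt
  simp only [intervalIntegral.integral_same, mul_zero, sub_zero]

lemma pathInt_congr {F G : ℂ → ℂ} {b h : ℝ} (hb : 0 ≤ b) (hh : h ≠ 0)
    (hFG : ∀ z ∈ US b, F z = G z) : pathInt F b (-b) h h = pathInt G b (-b) h h := by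
  rw [pathInt_up, pathInt_up]
  congr 1
  · congr 1
    · congr 1
      exact intervalIntegral.integral_congr fun y _ => hFG _ (vert_mem hb y)
    · exact intervalIntegral.integral_congr fun y _ => hFG _ (hor_mem hh y)
  · congr 1
    exact intervalIntegral.integral_congr fun y _ => hFG _ (vert_mem' hb y)

lemma pathInt_const_mul (c : ℂ) (F : ℂ → ℂ) (b h : ℝ) :
    pathInt (fun z => c * F z) b (-b) h h = c * pathInt F b (-b) h h := by
  rw [pathInt_up, pathInt_up]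
  simp only [intervalIntegral.integral_const_mul]
  ring

lemma pathInt_sub {F G : ℂ → ℂ} {b h : ℝ} (hb : 0 ≤ b) (hh : h ≠ 0)
    (hF : ContinuousOn F (US b)) (hG : ContinuousOn G (US b)) :
    pathInt (fun z => F z - G z) b (-b) h h =
      pathInt F b (-b) h h - pathInt G b (-b) h h := by
  rw [pathInt_up, pathInt_up, pathInt_up]
  rw [intervalIntegral.integral_sub ((vert_cont hb hF).intervalIntegrable _ _)
      ((vert_cont hb hG).intervalIntegrable _ _),
    intervalIntegral.integral_sub ((hor_cont hh hF).intervalIntegrable _ _)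
      ((hor_cont hh hG).intervalIntegrable _ _),
    intervalIntegral.integral_sub ((vert_cont' hb hF).intervalIntegrable _ _)
      ((vert_cont' hb hG).intervalIntegrable _ _)]
  ring

/-- for an odd function the rectangle is twice its upper half -/
lemma rectInt_odd {F : ℂ → ℂ} {b h : ℝ} (hb : 0 ≤ b) (hF : ContinuousOn F (US b))
    (hodd : ∀ z, F (-z) = -F z) : rectInt F b h = 2 * pathInt F b (-b) h h := by
  rw [pathInt_up]
  unfold rectInt
  have e1 : (∫ x in (-b)..b, F ((x : ℂ) - h * Complex.I)) =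
      -∫ x in (-b)..b, F ((x : ℂ) + h * Complex.I) := by
    have := intervalIntegral.integral_comp_neg (a := -b) (b := b)
      (fun x : ℝ => F ((x : ℂ) - h * Complex.I))
    rw [neg_neg] at this
    rw [← this, ← intervalIntegral.integral_neg]
    refine intervalIntegral.integral_congr fun x _ => ?_
    rw [← hodd]
    congr 1
    push_cast
    ring
  have e2 : (∫ y in (-h)..0, F ((b : ℂ) + y * Complex.I)) =
      -∫ y in (0 : ℝ)..h, F (((-b : ℝ) : ℂ) + y * Complex.I) := by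
    have := intervalIntegral.integral_comp_neg (a := 0) (b := h)
      (fun y : ℝ => F ((b : ℂ) + y * Complex.I))
    rw [neg_zero] at this
    rw [← this, ← intervalIntegral.integral_neg]
    refine intervalIntegral.integral_congr fun x _ => ?_
    rw [← hodd]
    congr 1
    push_cast
    ring
  have e3 : (∫ y in (-h)..0, F (((-b : ℝ) : ℂ) + y * Complex.I)) =
      -∫ y in (0 : ℝ)..h, F ((b : ℂ) + y * Complex.I) := by
    have := intervalIntegral.integral_comp_neg (a := 0) (b := h)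
      (fun y : ℝ => F (((-b : ℝ) : ℂ) + y * Complex.I))
    rw [neg_zero] at this
    rw [← this, ← intervalIntegral.integral_neg]
    refine intervalIntegral.integral_congr fun x _ => ?_
    rw [← hodd]
    congr 1
    push_cast
    ring
  have s1 := intervalIntegral.integral_add_adjacent_intervals (a := -h) (b := 0) (c := h)
    ((vert_cont hb hF).intervalIntegrable _ _) ((vert_cont hb hF).intervalIntegrable _ _)
    (μ := MeasureTheory.volume)
  have s2 := intervalIntegral.integral_add_adjacent_intervals (a := -h) (b := 0) (c := h)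
    ((vert_cont' hb hF).intervalIntegrable _ _) ((vert_cont' hb hF).intervalIntegrable _ _)
    (μ := MeasureTheory.volume)
  rw [e2] at s1
  rw [e3] at s2
  rw [e1, ← s1, ← s2]
  ring

lemma rectInt_congr {F G : ℂ → ℂ} {b h : ℝ} (hb : 0 ≤ b) (hh : h ≠ 0)
    (hFG : ∀ z ∈ US b, F z = G z) : rectInt F b h = rectInt G b h := by
  unfold rectInt
  have h1 : ∀ x : ℝ, (x : ℂ) - h * Complex.I ∈ US b := by
    intro x
    have := hor_mem (b := b) (neg_ne_zero.mpr hh) x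
    rw [show (x : ℂ) - h * Complex.I = x + ((-h : ℝ) : ℂ) * Complex.I by push_cast; ring]
    exact this
  congr 1
  · congr 1
    · congr 1
      · exact intervalIntegral.integral_congr fun x _ => hFG _ (h1 x)
      · congr 1
        exact intervalIntegral.integral_congr fun y _ => hFG _ (vert_mem hb y)
    · exact intervalIntegral.integral_congr fun y _ => hFG _ (hor_mem hh y)
  · congr 1
    exact intervalIntegral.integral_congr fun y _ => hFG _ (vert_mem' hb y)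

lemma rectInt_const_mul (c : ℂ) (F : ℂ → ℂ) (b h : ℝ) :
    rectInt (fun z => c * F z) b h = c * rectInt F b h := by
  unfold rectInt
  simp only [intervalIntegral.integral_const_mul]
  ring

lemma rectInt_add {F G : ℂ → ℂ} {b h : ℝ} (hb : 0 ≤ b) (hh : h ≠ 0)
    (hF : ContinuousOn F (US b)) (hG : ContinuousOn G (US b)) :
    rectInt (fun z => F z + G z) b h = rectInt F b h + rectInt G b h := by
  have h1 : ∀ {F : ℂ → ℂ}, ContinuousOn F (US b) →
      Continuous fun x : ℝ => F ((x : ℂ) - h * Complex.I) := by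
    intro F hF
    have := hor_cont (neg_ne_zero.mpr hh) hF
    refine this.congr fun x => ?_
    congr 1
    push_cast
    ring
  unfold rectInt
  rw [intervalIntegral.integral_add ((vert_cont hb hF).intervalIntegrable _ _)
      ((vert_cont hb hG).intervalIntegrable _ _),
    intervalIntegral.integral_add ((hor_cont hh hF).intervalIntegrable _ _)
      ((hor_cont hh hG).intervalIntegrable _ _),
    intervalIntegral.integral_add ((vert_cont' hb hF).intervalIntegrable _ _)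
      ((vert_cont' hb hG).intervalIntegrable _ _),
    intervalIntegral.integral_add ((h1 hF).intervalIntegrable _ _)
      ((h1 hG).intervalIntegrable _ _)]
  ring

/-! ### one node -/

lemma cc_sub (n : ℕ) (z w : ℂ) : cc n z - cc n w =
    -4 * Complex.sin (Real.pi * (z + w) / n) * Complex.sin (Real.pi * (z - w) / n) := by
  unfold cc
  have := Complex.cos_sub_cos (2 * Real.pi * z / n) (2 * Real.pi * w / n)
  rw [show (2 * Real.pi * z / n + 2 * Real.pi * w / n) / 2 = (Real.pi * (z + w) / n : ℂ) by ring,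
    show (2 * Real.pi * z / n - 2 * Real.pi * w / n) / 2 = (Real.pi * (z - w) / n : ℂ) by ring]
    at this
  linear_combination 2 * this

lemma US_mem {s : ℕ} {z : ℂ} (hz : z ∈ US (hn s)) :
    z.im ≠ 0 ∨ |z.re| = ((2 * s + 1 : ℕ) : ℝ) / 2 := hz

lemma node_one {s : ℕ} {F : ℂ → ℂ} (hF : Differentiable ℂ F) (heven : ∀ z, F (-z) = F z)
    {w h : ℝ} (hh : 0 < h) (hw : |w| < ((2 * s + 1 : ℕ) : ℝ) / 2) :
    pathInt (fun z => F z * Complex.sin (2 * Real.pi * z / ((2 * s + 1 : ℕ) : ℂ)) /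
      (cc (2 * s + 1) z - cc (2 * s + 1) w)) (hn s) (-(hn s)) h h =
      -(((2 * s + 1 : ℕ) : ℂ) * Complex.I / 2) * F w := by
  have hb : 0 ≤ hn s := by unfold hn; positivity
  have hn0 : (((2 * s + 1 : ℕ) : ℕ) : ℂ) ≠ 0 := by exact_mod_cast Nat.succ_ne_zero (2 * s)
  have hpi : (Real.pi : ℂ) ≠ 0 := by exact_mod_cast Real.pi_ne_zero
  have hw' : |(-w)| < ((2 * s + 1 : ℕ) : ℝ) / 2 := by rwa [abs_neg]
  have hb2 : (2 * (hn s : ℂ)) = ((2 * s + 1 : ℕ) : ℂ) := by
    unfold hn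
    push_cast
    ring
  -- denominators
  have hne : ∀ z ∈ US (hn s), cc (2 * s + 1) z - cc (2 * s + 1) w ≠ 0 := fun z hz =>
    cont_cc_ne (by omega) hw (US_mem hz)
  have hne1 : ∀ z ∈ US (hn s), Complex.sin (Real.pi * (z - w) / ((2 * s + 1 : ℕ) : ℂ)) ≠ 0 := by
    intro z hz h0
    have := hne z hz
    rw [cc_sub, h0, mul_zero] at this
    exact this rfl
  have hne2 : ∀ z ∈ US (hn s), Complex.sin (Real.pi * (z + w) / ((2 * s + 1 : ℕ) : ℂ)) ≠ 0 := by
    intro z hz h0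
    have := hne z hz
    rw [cc_sub, h0, mul_zero, zero_mul] at this
    exact this rfl
  set G : ℂ → ℂ := fun z => F z * Complex.sin (2 * Real.pi * z / ((2 * s + 1 : ℕ) : ℂ)) /
      (cc (2 * s + 1) z - cc (2 * s + 1) w) with hG
  have hGc : ContinuousOn G (US (hn s)) := by
    refine ContinuousOn.div ?_ ?_ hne
    · exact (hF.continuous.mul (by fun_prop)).continuousOn
    · unfold cc
      fun_prop
  have hGodd : ∀ z, G (-z) = -G z := by
    intro z
    simp only [hG]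
    rw [heven, show (2 * (Real.pi : ℂ) * -z / ((2 * s + 1 : ℕ) : ℂ)) =
      -(2 * Real.pi * z / ((2 * s + 1 : ℕ) : ℂ)) by ring, Complex.sin_neg]
    have : cc (2 * s + 1) (-z) = cc (2 * s + 1) z := by
      unfold cc
      rw [show (2 * (Real.pi : ℂ) * -z / ((2 * s + 1 : ℕ) : ℂ)) =
        -(2 * Real.pi * z / ((2 * s + 1 : ℕ) : ℂ)) by ring, Complex.cos_neg]
    rw [this]
    ring
  have h2 := rectInt_odd (h := h) hb hGc hGodd
  -- the two cotangents
  have hbw : |w| < hn s := hw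
  have hbw' : |(-w)| < hn s := hw'
  have r1 := rect_cot hF hh hbw
  have r2 := rect_cot hF hh hbw'
  simp only [hb2] at r1 r2
  simp only [Complex.ofReal_neg, sub_neg_eq_add] at r2
  rw [heven] at r2
  have c1 : ContinuousOn (fun z => F z * (Real.pi / ((2 * s + 1 : ℕ) : ℂ) *
      (Complex.cos (Real.pi * (z - w) / ((2 * s + 1 : ℕ) : ℂ)) /
      Complex.sin (Real.pi * (z - w) / ((2 * s + 1 : ℕ) : ℂ))))) (US (hn s)) := by
    refine hF.continuous.continuousOn.mul (ContinuousOn.mul continuousOn_const ?_)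
    exact ContinuousOn.div (by fun_prop) (by fun_prop) hne1
  have c2 : ContinuousOn (fun z => F z * (Real.pi / ((2 * s + 1 : ℕ) : ℂ) *
      (Complex.cos (Real.pi * (z + w) / ((2 * s + 1 : ℕ) : ℂ)) /
      Complex.sin (Real.pi * (z + w) / ((2 * s + 1 : ℕ) : ℂ))))) (US (hn s)) := by
    refine hF.continuous.continuousOn.mul (ContinuousOn.mul continuousOn_const ?_)
    exact ContinuousOn.div (by fun_prop) (by fun_prop) hne2
  have r3 := rectInt_add hb hh.ne' c1 c2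
  have r4 : rectInt G (hn s) h = -(((2 * s + 1 : ℕ) : ℂ) / (4 * Real.pi)) *
      rectInt (fun z => F z * (Real.pi / ((2 * s + 1 : ℕ) : ℂ) *
      (Complex.cos (Real.pi * (z - w) / ((2 * s + 1 : ℕ) : ℂ)) /
      Complex.sin (Real.pi * (z - w) / ((2 * s + 1 : ℕ) : ℂ)))) +
      F z * (Real.pi / ((2 * s + 1 : ℕ) : ℂ) *
      (Complex.cos (Real.pi * (z + w) / ((2 * s + 1 : ℕ) : ℂ)) /
      Complex.sin (Real.pi * (z + w) / ((2 * s + 1 : ℕ) : ℂ))))) (hn s) h := by
    rw [← rectInt_const_mul]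
    refine rectInt_congr hb hh.ne' fun z hz => ?_
    have d0 := hne z hz
    have d1 := hne1 z hz
    have d2 := hne2 z hz
    simp only [hG]
    have e1 : Complex.sin (2 * Real.pi * z / ((2 * s + 1 : ℕ) : ℂ)) =
        Complex.sin (Real.pi * (z + w) / ((2 * s + 1 : ℕ) : ℂ)) *
          Complex.cos (Real.pi * (z - w) / ((2 * s + 1 : ℕ) : ℂ)) +
        Complex.cos (Real.pi * (z + w) / ((2 * s + 1 : ℕ) : ℂ)) *
          Complex.sin (Real.pi * (z - w) / ((2 * s + 1 : ℕ) : ℂ)) := by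
      rw [← Complex.sin_add]
      congr 1
      ring
    rw [e1, cc_sub]
    field_simp
  rw [r4, r3, r1] at h2
  rw [r2] at h2
  have h5 : 2 * pathInt G (hn s) (-(hn s)) h h =
      2 * (-(((2 * s + 1 : ℕ) : ℂ) * Complex.I / 2) * F w) := by
    rw [← h2]
    field_simp
    ring
  exact mul_left_cancel₀ two_ne_zero h5

/-! ### divided differences -/

lemma path_cont {s : ℕ} {F : ℂ → ℂ} (hF : Differentiable ℂ F) (w : ℕ → ℝ) (S : Finset ℕ)
    (hw : ∀ i ∈ S, |w i| < ((2 * s + 1 : ℕ) : ℝ) / 2) :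
    ContinuousOn (fun z => F z * Complex.sin (2 * Real.pi * z / ((2 * s + 1 : ℕ) : ℂ)) /
      ∏ l ∈ S, (cc (2 * s + 1) z - cc (2 * s + 1) (w l))) (US (hn s)) := by
  refine ContinuousOn.div ?_ ?_ ?_
  · exact (hF.continuous.mul (by fun_prop)).continuousOn
  · unfold cc
    fun_prop
  · intro z hz
    rw [Finset.prod_ne_zero_iff]
    intro l hl
    exact cont_cc_ne (by omega) (hw l hl) (US_mem hz)

lemma dd_path {s : ℕ} {F : ℂ → ℂ} (hF : Differentiable ℂ F) (heven : ∀ z, F (-z) = F z)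
    {h : ℝ} (hh : 0 < h) (w : ℕ → ℝ) (d j : ℕ)
    (hw : ∀ i ∈ Icc j (j + d), |w i| < ((2 * s + 1 : ℕ) : ℝ) / 2)
    (hne : ∀ i ∈ Icc j (j + d), ∀ l ∈ Icc j (j + d), i ≠ l →
      cc (2 * s + 1) (w i) ≠ cc (2 * s + 1) (w l)) :
    pathInt (fun z => F z * Complex.sin (2 * Real.pi * z / ((2 * s + 1 : ℕ) : ℂ)) /
      ∏ l ∈ Icc j (j + d), (cc (2 * s + 1) z - cc (2 * s + 1) (w l))) (hn s) (-(hn s)) h h =
      -(((2 * s + 1 : ℕ) : ℂ) * Complex.I / 2) *
        dd (fun i => cc (2 * s + 1) (w i)) (fun i => F (w i)) j (j + d) := by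
  have hb : 0 ≤ hn s := by unfold hn; positivity
  induction d generalizing j with
  | zero =>
    have h1 := node_one hF heven hh (hw j (by simp))
    have h2 := dd_diag (fun i => cc (2 * s + 1) (w i)) (fun i => F (w i)) j
    simp only [add_zero, Finset.Icc_self, Finset.prod_singleton]
    rw [h2]
    exact h1
  | succ d ih =>
    have i1 := ih (j + 1) (fun i hi => hw i (by rw [Finset.mem_Icc] at hi ⊢; omega))
      (fun i hi l hl => hne i (by rw [Finset.mem_Icc] at hi ⊢; omega) l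
        (by rw [Finset.mem_Icc] at hl ⊢; omega))
    have i2 := ih j (fun i hi => hw i (by rw [Finset.mem_Icc] at hi ⊢; omega))
      (fun i hi l hl => hne i (by rw [Finset.mem_Icc] at hi ⊢; omega) l
        (by rw [Finset.mem_Icc] at hl ⊢; omega))
    have hc : cc (2 * s + 1) (w (j + d + 1)) - cc (2 * s + 1) (w j) ≠ 0 :=
      sub_ne_zero.mpr (hne _ (by rw [Finset.mem_Icc]; omega) _ (by rw [Finset.mem_Icc]; omega)
        (by omega))
    have h2 := dd_rec (fun i => cc (2 * s + 1) (w i)) (fun i => F (w i)) (show j ≤ j + d by omega)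
      (fun i hi l hl hil => hne i (by rw [Finset.mem_Icc] at hi ⊢; omega) l
        (by rw [Finset.mem_Icc] at hl ⊢; omega) hil)
    have c1 := path_cont (s := s) hF w (Icc (j + 1) (j + 1 + d))
      (fun i hi => hw i (by rw [Finset.mem_Icc] at hi ⊢; omega))
    have c2 := path_cont (s := s) hF w (Icc j (j + d))
      (fun i hi => hw i (by rw [Finset.mem_Icc] at hi ⊢; omega))
    have h3 := pathInt_sub hb hh.ne' c1 c2
    have h4 : pathInt (fun z => (cc (2 * s + 1) (w (j + d + 1)) - cc (2 * s + 1) (w j)) *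
        (F z * Complex.sin (2 * Real.pi * z / ((2 * s + 1 : ℕ) : ℂ)) /
        ∏ l ∈ Icc j (j + (d + 1)), (cc (2 * s + 1) z - cc (2 * s + 1) (w l))))
        (hn s) (-(hn s)) h h =
        pathInt (fun z => F z * Complex.sin (2 * Real.pi * z / ((2 * s + 1 : ℕ) : ℂ)) /
          ∏ l ∈ Icc (j + 1) (j + 1 + d), (cc (2 * s + 1) z - cc (2 * s + 1) (w l)) -
          F z * Complex.sin (2 * Real.pi * z / ((2 * s + 1 : ℕ) : ℂ)) /
          ∏ l ∈ Icc j (j + d), (cc (2 * s + 1) z - cc (2 * s + 1) (w l)))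
          (hn s) (-(hn s)) h h := by
      refine pathInt_congr hb hh.ne' fun z hz => ?_
      have p1 : ∏ l ∈ Icc j (j + (d + 1)), (cc (2 * s + 1) z - cc (2 * s + 1) (w l)) =
          (cc (2 * s + 1) z - cc (2 * s + 1) (w j)) *
          ∏ l ∈ Icc (j + 1) (j + 1 + d), (cc (2 * s + 1) z - cc (2 * s + 1) (w l)) := by
        rw [← Finset.mul_prod_Ioc_eq_prod_Icc (by omega)]
        congr 1
        refine Finset.prod_congr ?_ fun _ _ => rfl
        ext x
        simp only [Finset.mem_Ioc, Finset.mem_Icc]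
        omega
      have p2 : ∏ l ∈ Icc j (j + (d + 1)), (cc (2 * s + 1) z - cc (2 * s + 1) (w l)) =
          (∏ l ∈ Icc j (j + d), (cc (2 * s + 1) z - cc (2 * s + 1) (w l))) *
          (cc (2 * s + 1) z - cc (2 * s + 1) (w (j + d + 1))) := by
        rw [show j + (d + 1) = j + d + 1 by ring, Finset.prod_Icc_succ_top (by omega)]
      have n1 : cc (2 * s + 1) z - cc (2 * s + 1) (w j) ≠ 0 :=
        cont_cc_ne (by omega) (hw j (by rw [Finset.mem_Icc]; omega)) (US_mem hz)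
      have n2 : cc (2 * s + 1) z - cc (2 * s + 1) (w (j + d + 1)) ≠ 0 :=
        cont_cc_ne (by omega) (hw _ (by rw [Finset.mem_Icc]; omega)) (US_mem hz)
      have n3 : ∏ l ∈ Icc (j + 1) (j + 1 + d), (cc (2 * s + 1) z - cc (2 * s + 1) (w l)) ≠ 0 := by
        rw [Finset.prod_ne_zero_iff]
        intro l hl
        exact cont_cc_ne (by omega) (hw l (by rw [Finset.mem_Icc] at hl ⊢; omega)) (US_mem hz)
      have p3 : ∏ l ∈ Icc j (j + d), (cc (2 * s + 1) z - cc (2 * s + 1) (w l)) =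
          (cc (2 * s + 1) z - cc (2 * s + 1) (w j)) *
          (∏ l ∈ Icc (j + 1) (j + 1 + d), (cc (2 * s + 1) z - cc (2 * s + 1) (w l))) /
          (cc (2 * s + 1) z - cc (2 * s + 1) (w (j + d + 1))) := by
        rw [eq_div_iff n2, ← p2, p1]
      rw [p1, p3]
      field_simp
      ring
    rw [pathInt_const_mul, h3, i1, i2] at h4
    apply mul_left_cancel₀ hc
    rw [h4]
    have e : j + 1 + d = j + d + 1 := by ring
    rw [e, show j + (d + 1) = j + d + 1 by ring]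
    linear_combination (((2 * s + 1 : ℕ) : ℂ) * Complex.I / 2) * h2

/-! ### the deformed matrix, exact constants -/

/-- the constant `κ(ε)` -/
noncomputable def kap (s : ℕ) (ε : ℝ) : ℂ := ee s (((s : ℝ) ^ 2 / 2 + s * ε - ε ^ 2 / 2 : ℝ) : ℂ)

theorem gz_kap (s : ℕ) (ε : ℝ) (i : ℕ) :
    gz s (tt s) (ze s ε) i i = kap s ε * Complex.exp (Real.pi * Complex.I *
      ((i : ℂ) - s + ε) ^ 2 / ((2 * s + 1 : ℕ) : ℂ)) := by
  unfold kap
  have h1 : Complex.exp (Real.pi * Complex.I * ((i : ℂ) - s + ε) ^ 2 / ((2 * s + 1 : ℕ) : ℂ)) =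
      ee s (((i : ℂ) - s + ε) ^ 2 / 2) := by
    rw [ee]
    congr 1
    ring
  have h2 : (-1 : ℂ) ^ i = ee s (-((i : ℂ) * (((2 * s + 1 : ℕ) : ℂ) / 2))) := by
    rw [ee_neg, ← ee_pow, ee_half, ← inv_pow]
    norm_num
  have h3 : ((i + 1).choose 2 : ℂ) = (i : ℂ) * (i + 1) / 2 := by
    rw [Nat.cast_choose_two]
    push_cast
    ring
  have h4 : pz (tt s) (ze s ε) i i = 1 := by simp [pz]
  have h5 : qf (tt s) (i - i) = 1 := by simp [qf]
  rw [h1, gz, if_pos le_rfl, h4, h5, mul_one, div_one, h2, ← pow_mul, tt_pow, tt_pow, tt_pow,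
    ze_eq, ee_pow]
  simp only [← ee_add]
  rw [show ((s * s : ℕ) : ℂ) + -((i : ℂ) * (((2 * s + 1 : ℕ) : ℂ) / 2)) +
      ((s * (i + i) : ℕ) : ℂ) + (i : ℂ) * ε + (((i + 1).choose 2 + i : ℕ) : ℂ) =
      ((((s : ℝ) ^ 2 / 2 + s * ε - ε ^ 2 / 2 : ℝ) : ℂ) + ((i : ℂ) - s + ε) ^ 2 / 2) +
        ((i : ℤ) : ℂ) * ((2 * s + 1 : ℕ) : ℂ) by
    push_cast [h3]
    ring, ee_add _ _ (_ * _), ee_int, mul_one]

lemma kap_zero (s : ℕ) : kap s 0 = Complex.exp (Real.pi * Complex.I * s ^ 2 /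
    ((2 * s + 1 : ℕ) : ℂ)) := by
  unfold kap ee
  congr 1
  push_cast
  ring

/-- the product over all nodes in `[j, k]`, inverted -/
noncomputable def Gjk (a s j k : ℕ) (ε : ℝ) (z : ℂ) : ℂ :=
  Complex.exp (Real.pi * Complex.I * a * z ^ 2 / ((2 * s + 1 : ℕ) : ℂ)) *
    Complex.sin (2 * Real.pi * z / ((2 * s + 1 : ℕ) : ℂ)) /
    ∏ l ∈ Icc j k, (cc (2 * s + 1) z - cc (2 * s + 1) (((l : ℝ) - s + ε : ℝ) : ℂ))

lemma dd_scale2 (c y : ℕ → ℂ) (r q : ℂ) (hr : r ≠ 0) (j k : ℕ) :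
    dd (fun i => r * c i) (fun i => q * y i) j k = (r⁻¹) ^ (k - j) * q * dd c y j k := by
  unfold dd
  rw [Finset.mul_sum]
  refine Finset.sum_congr rfl fun i hi => ?_
  have h1 : ∏ l ∈ (Icc j k).erase i, (r * c i - r * c l) =
      r ^ (k - j) * ∏ l ∈ (Icc j k).erase i, (c i - c l) := by
    have h2 : ∀ l ∈ (Icc j k).erase i, (r * c i - r * c l) = r * (c i - c l) := by
      intro l _
      ring
    rw [Finset.prod_congr rfl h2, Finset.prod_mul_distrib, Finset.prod_const,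
      Finset.card_erase_of_mem hi, Nat.card_Icc]
    congr 2
    rw [Finset.mem_Icc] at hi
    omega
  rw [h1, inv_pow]
  field_simp

theorem Gm_eps {s a j k : ℕ} (hjk : j ≤ k) (hk : k ≤ 2 * s) {ε : ℝ} (h0 : 0 < ε)
    (h1 : ε < 1 / 2) {h : ℝ} (hh : 0 < h) :
    Gm s (tt s) (ze s ε) a j k = ((ze s ε)⁻¹) ^ (k - j) * kap s ε ^ a *
      (2 * Complex.I / ((2 * s + 1 : ℕ) : ℂ)) *
      pathInt (Gjk a s j k ε) (hn s) (-(hn s)) h h := by
  have hn0 := nn_ne s
  have hz0 : ze s ε ≠ 0 := by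
    rw [ze_eq]
    exact ee_ne s _
  obtain ⟨d, rfl⟩ : ∃ d, k = j + d := ⟨k - j, by omega⟩
  have hcz : ∀ i ≤ 2 * s, ∀ l ≤ 2 * s, i ≠ l →
      cz s (tt s) (ze s ε) i ≠ cz s (tt s) (ze s ε) l := by
    intro i hi l hl hil h2
    rw [cz_ze, cz_ze] at h2
    exact cc_ne h0 h1 hi hl hil (mul_left_cancel₀ hz0 h2)
  have h2 := Gm_eq_dd (tt_prim s) (z := ze s ε) (fun l hl hl' => ze_ne h0 h1 hl hl') hcz a d j hk
  rw [h2]
  have h3 : cz s (tt s) (ze s ε) = fun i : ℕ => ze s ε * cc (2 * s + 1) (((i : ℝ) - s + ε : ℝ) : ℂ) := by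
    funext i
    rw [cz_ze]
    push_cast
    rfl
  set F : ℂ → ℂ := fun z => Complex.exp (Real.pi * Complex.I * a * z ^ 2 /
    ((2 * s + 1 : ℕ) : ℂ)) with hF
  have h4 : (fun i => gz s (tt s) (ze s ε) i i ^ a) =
      fun i : ℕ => kap s ε ^ a * F (((i : ℝ) - s + ε : ℝ) : ℂ) := by
    funext i
    rw [gz_kap, mul_pow, hF, ← Complex.exp_nat_mul]
    congr 2
    push_cast
    ring
  rw [h3, h4, dd_scale2 (fun i : ℕ => cc (2 * s + 1) (((i : ℝ) - s + ε : ℝ) : ℂ))
    (fun i : ℕ => F (((i : ℝ) - s + ε : ℝ) : ℂ)) _ _ hz0]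
  have hFd : Differentiable ℂ F := by
    rw [hF]
    fun_prop
  have hFe : ∀ z, F (-z) = F z := by
    intro z
    simp only [hF]
    rw [neg_sq]
  have h5 := dd_path hFd hFe hh (fun i => (i : ℝ) - s + ε) d j
    (fun i hi => by
      rw [Finset.mem_Icc] at hi
      exact cont_node (by omega) (by rw [abs_lt]; constructor <;> linarith))
    (fun i hi l hl hil => by
      rw [Finset.mem_Icc] at hi hl
      have := cc_ne h0 h1 (show i ≤ 2 * s by omega) (show l ≤ 2 * s by omega) hil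
      push_cast
      exact this)
  have h6 : pathInt (Gjk a s j (j + d) ε) (hn s) (-(hn s)) h h =
      -(((2 * s + 1 : ℕ) : ℂ) * Complex.I / 2) *
        dd (fun i : ℕ => cc (2 * s + 1) (((i : ℝ) - s + ε : ℝ) : ℂ))
          (fun i : ℕ => F (((i : ℝ) - s + ε : ℝ) : ℂ)) j (j + d) := by
    rw [← h5]
    rfl
  rw [h6]
  field_simp
  rw [Complex.I_sq]
  ring

/-! ### the limit `ε → 0` -/

lemma pathInt_param {F : ℝ → ℂ → ℂ} {b h : ℝ} (hb : 0 ≤ b) (hh : 0 < h)
    (hF : ContinuousOn (fun p : ℝ × ℂ => F p.1 p.2) {p | |p.1| < 1 / 2 ∧ p.2 ∈ US b}) :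
    ContinuousOn (fun ε : ℝ => pathInt (F ε) b (-b) h h) (Set.Icc (-(1 / 4)) (1 / 4)) := by
  have key : ∀ (φ : ℝ → ℂ) (u v : ℝ), u ≤ v → Continuous φ →
      (∀ y, φ y ∈ US b) →
      ContinuousOn (fun ε : ℝ => ∫ y in u..v, F ε (φ y)) (Set.Icc (-(1 / 4)) (1 / 4)) := by
    intro φ u v huv hφ hφ2
    refine cont_param huv ?_
    rw [Function.uncurry_def]
    have h2 : Continuous fun p : ℝ × ℝ => (p.1, φ p.2) := by fun_prop
    refine ContinuousOn.comp (g := fun p : ℝ × ℂ => F p.1 p.2)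
      (f := fun p : ℝ × ℝ => (p.1, φ p.2)) hF h2.continuousOn ?_
    rintro ⟨e, y⟩ ⟨he, hy⟩
    simp only [Set.mem_Icc] at he
    refine ⟨?_, hφ2 y⟩
    have : |e| < 1 / 2 := by
      rw [abs_lt]
      constructor <;> linarith [he.1, he.2]
    exact this
  simp only [pathInt_up]
  refine ContinuousOn.sub (ContinuousOn.sub (ContinuousOn.mul continuousOn_const ?_) ?_)
    (ContinuousOn.mul continuousOn_const ?_)
  · exact key (fun y => (b : ℂ) + y * Complex.I) 0 h hh.le (by fun_prop) (vert_mem hb)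
  · exact key (fun x => (x : ℂ) + h * Complex.I) (-b) b (by linarith) (by fun_prop)
      (hor_mem hh.ne')
  · exact key (fun y => ((-b : ℝ) : ℂ) + y * Complex.I) 0 h hh.le (by fun_prop) (vert_mem' hb)

lemma Gjk_cont {a s j k : ℕ} (hk : k ≤ 2 * s) :
    ContinuousOn (fun p : ℝ × ℂ => Gjk a s j k p.1 p.2) {p | |p.1| < 1 / 2 ∧ p.2 ∈ US (hn s)} := by
  unfold Gjk cc
  refine ContinuousOn.div (by fun_prop) (by fun_prop) ?_
  intro p hp
  rw [Finset.prod_ne_zero_iff]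
  intro l hl
  rw [Finset.mem_Icc] at hl
  exact cont_cc_ne (n := 2 * s + 1) (by omega) (cont_node (s := s) (l := l) (by omega) hp.1)
    (US_mem hp.2)

theorem Gm_one {s a j k : ℕ} (hjk : j ≤ k) (hk : k ≤ 2 * s) {h : ℝ} (hh : 0 < h) :
    Gm s (tt s) 1 a j k = kap s 0 ^ a * (2 * Complex.I / ((2 * s + 1 : ℕ) : ℂ)) *
      pathInt (Gjk a s j k 0) (hn s) (-(hn s)) h h := by
  have hb : 0 ≤ hn s := by unfold hn; positivity
  have hze0 : ze s 0 = 1 := by simp [ze]
  have hzec : Continuous (ze s) := by unfold ze; fun_prop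
  have hze : Filter.Tendsto (ze s) (nhdsWithin 0 (Set.Ioi 0)) (nhds 1) := by
    have := hzec.tendsto 0
    rw [hze0] at this
    exact this.mono_left nhdsWithin_le_nhds
  have l1 : Filter.Tendsto (fun ε : ℝ => Gm s (tt s) (ze s ε) a j k)
      (nhdsWithin 0 (Set.Ioi 0)) (nhds (Gm s (tt s) 1 a j k)) :=
    (cont_Gm a j k hk).tendsto.comp hze
  have l2 : Filter.Tendsto (fun ε : ℝ => pathInt (Gjk a s j k ε) (hn s) (-(hn s)) h h)
      (nhdsWithin 0 (Set.Ioi 0)) (nhds (pathInt (Gjk a s j k 0) (hn s) (-(hn s)) h h)) := by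
    have h1 := (pathInt_param hb hh (Gjk_cont (a := a) (j := j) hk)).continuousAt
      (Icc_mem_nhds (by norm_num : -(1 / 4 : ℝ) < 0) (by norm_num : (0 : ℝ) < 1 / 4))
    exact h1.tendsto.mono_left nhdsWithin_le_nhds
  have l3 : Filter.Tendsto (fun ε : ℝ => ((ze s ε)⁻¹) ^ (k - j) * kap s ε ^ a *
      (2 * Complex.I / ((2 * s + 1 : ℕ) : ℂ))) (nhdsWithin 0 (Set.Ioi 0))
      (nhds (kap s 0 ^ a * (2 * Complex.I / ((2 * s + 1 : ℕ) : ℂ)))) := by
    have h1 : Continuous fun ε : ℝ => ((ze s ε)⁻¹) ^ (k - j) * kap s ε ^ a *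
      (2 * Complex.I / ((2 * s + 1 : ℕ) : ℂ)) := by
      have h2 : ∀ ε, ze s ε ≠ 0 := fun ε => Complex.exp_ne_zero _
      have h3 : Continuous fun ε => (ze s ε)⁻¹ := hzec.inv₀ h2
      have h4 : Continuous (kap s) := by
        unfold kap ee
        fun_prop
      fun_prop
    have h2 := h1.tendsto 0
    simp only [hze0, inv_one, one_pow, one_mul] at h2
    exact h2.mono_left nhdsWithin_le_nhds
  have heq : (fun ε : ℝ => Gm s (tt s) (ze s ε) a j k) =ᶠ[nhdsWithin 0 (Set.Ioi 0)]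
      (fun ε : ℝ => (((ze s ε)⁻¹) ^ (k - j) * kap s ε ^ a *
      (2 * Complex.I / ((2 * s + 1 : ℕ) : ℂ))) *
      pathInt (Gjk a s j k ε) (hn s) (-(hn s)) h h) := by
    have h1 : Set.Ioo (0 : ℝ) (1 / 2) ∈ nhdsWithin (0 : ℝ) (Set.Ioi 0) :=
      Ioo_mem_nhdsGT (by norm_num)
    filter_upwards [h1] with ε hε
    exact Gm_eps hjk hk hε.1 hε.2 hh
  exact tendsto_nhds_unique l1 ((l3.mul l2).congr' heq.symm)

/-! ### the symmetric form -/

/-- `∏_{l<y} (λ(z) - λ_l)` -/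
noncomputable def pY (s y : ℕ) (z : ℂ) : ℂ :=
  ∏ l ∈ range y, (cc (2 * s + 1) z - cc (2 * s + 1) ((l : ℂ) - s))

/-- the symmetric integrand -/
noncomputable def KI (a s y y' : ℕ) (z : ℂ) : ℂ :=
  Complex.exp (Real.pi * Complex.I * a * z ^ 2 / ((2 * s + 1 : ℕ) : ℂ)) *
    Complex.sin (2 * Real.pi * z / ((2 * s + 1 : ℕ) : ℂ)) * (pY s y z * pY s y' z) /
    Complex.sin (Real.pi * z) ^ 2

lemma cc_neg (n : ℕ) (z : ℂ) : cc n (-z) = cc n z := by
  unfold cc
  rw [show (2 * (Real.pi : ℂ) * -z / (n : ℂ)) = -(2 * Real.pi * z / (n : ℂ)) by ring,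
    Complex.cos_neg]

lemma pY_neg (s y : ℕ) (z : ℂ) : pY s y (-z) = pY s y z := by
  unfold pY
  simp only [cc_neg]

lemma pY_refl {s y : ℕ} (hy : y ≤ 2 * s + 1) (z : ℂ) :
    ∏ l ∈ Ico (2 * s + 1 - y) (2 * s + 1), (cc (2 * s + 1) z - cc (2 * s + 1) ((l : ℂ) - s)) =
      pY s y z := by
  have h1 := Finset.prod_Ico_reflect
    (fun l : ℕ => cc (2 * s + 1) z - cc (2 * s + 1) ((l : ℂ) - s)) 0 (m := y) (n := 2 * s) hy
  rw [Nat.sub_zero] at h1
  rw [← h1, pY, Finset.range_eq_Ico]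
  refine Finset.prod_congr rfl fun l hl => ?_
  rw [Finset.mem_Ico] at hl
  rw [← cc_neg (2 * s + 1) ((l : ℂ) - s)]
  congr 2
  rw [Nat.cast_sub (by omega)]
  push_cast
  ring

lemma pY_full (s : ℕ) (z : ℂ) : pY s (2 * s + 1) z = -4 * Complex.sin (Real.pi * z) ^ 2 :=
  prod_cc s z

lemma Gjk_KI {a s y y' : ℕ} (hyy : y + y' ≤ 2 * s) {z : ℂ} (hz : z ∈ US (hn s)) :
    Gjk a s y' (2 * s - y) 0 z = -(1 / 4) * KI a s y y' z := by
  have hS := cont_sin_ne (US_mem hz)
  have hP : ∏ l ∈ Icc y' (2 * s - y), (cc (2 * s + 1) z - cc (2 * s + 1) ((l : ℂ) - s)) ≠ 0 := by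
    rw [Finset.prod_ne_zero_iff]
    intro l hl
    rw [Finset.mem_Icc] at hl
    have := cont_cc_ne (n := 2 * s + 1) (by omega)
      (cont_node (s := s) (l := l) (ε := 0) (by omega) (by norm_num)) (US_mem hz)
    push_cast at this ⊢
    rw [add_zero] at this
    exact this
  have h1 : pY s y' z * (∏ l ∈ Icc y' (2 * s - y),
      (cc (2 * s + 1) z - cc (2 * s + 1) ((l : ℂ) - s))) * pY s y z =
      -4 * Complex.sin (Real.pi * z) ^ 2 := by
    rw [← pY_full, ← pY_refl (show y ≤ 2 * s + 1 by omega), pY, pY]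
    have : Icc y' (2 * s - y) = Ico y' (2 * s + 1 - y) := by
      ext l
      simp only [Finset.mem_Icc, Finset.mem_Ico]
      omega
    rw [this, Finset.prod_range_mul_prod_Ico _ (by omega), Finset.prod_range_mul_prod_Ico _
      (by omega)]
  unfold Gjk KI
  simp only [add_zero, Complex.ofReal_sub, Complex.ofReal_natCast]
  set P := ∏ l ∈ Icc y' (2 * s - y), (cc (2 * s + 1) z - cc (2 * s + 1) ((l : ℂ) - s)) with hPd
  set S := Complex.sin (Real.pi * z) with hSd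
  set E := Complex.exp (Real.pi * Complex.I * a * z ^ 2 / ((2 * s + 1 : ℕ) : ℂ))
  set T := Complex.sin (2 * Real.pi * z / ((2 * s + 1 : ℕ) : ℂ))
  rw [← sub_eq_zero]
  have h5 : E * T / P - -(1 / 4) * (E * T * (pY s y z * pY s y' z) / S ^ 2) =
      -(E * T) / (4 * P * S ^ 2) * (-4 * S ^ 2 - pY s y' z * P * pY s y z) := by
    field_simp
    ring
  rw [h5, h1, sub_self, mul_zero]

/-- an entire odd function integrates to `0` -/
lemma pathInt_entire {F : ℂ → ℂ} {b h : ℝ} (hb : 0 ≤ b) (hF : Differentiable ℂ F)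
    (hodd : ∀ z, F (-z) = -F z) : pathInt F b (-b) h h = 0 := by
  have h1 := rectInt_odd (h := h) hb hF.continuous.continuousOn hodd
  have h2 := Complex.integral_boundary_rect_eq_zero_of_differentiableOn F
    (⟨-b, -h⟩ : ℂ) (⟨b, h⟩ : ℂ) (fun z _ => (hF z).differentiableWithinAt)
  simp only [smul_eq_mul] at h2
  have h3 : rectInt F b h = 0 := by
    have e : (∫ x in (-b)..b, F ((x : ℂ) - h * Complex.I)) =
        ∫ x in (-b)..b, F ((x : ℂ) + ((-h : ℝ) : ℂ) * Complex.I) := by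
      refine intervalIntegral.integral_congr fun x _ => ?_
      congr 1
      push_cast
      ring
    unfold rectInt
    rw [e]
    linear_combination h2
  rw [h3] at h1
  have : (2 : ℂ) * pathInt F b (-b) h h = 2 * 0 := by rw [← h1, mul_zero]
  exact mul_left_cancel₀ two_ne_zero this

lemma KI_zero {a s y y' : ℕ} (hy : y ≤ 2 * s) (hyy : 2 * s < y + y')
    {h : ℝ} (hh : 0 < h) : pathInt (KI a s y y') (hn s) (-(hn s)) h h = 0 := by
  have hb : 0 ≤ hn s := by unfold hn; positivity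
  set F : ℂ → ℂ := fun z => -4 * (Complex.exp (Real.pi * Complex.I * a * z ^ 2 /
    ((2 * s + 1 : ℕ) : ℂ)) * Complex.sin (2 * Real.pi * z / ((2 * s + 1 : ℕ) : ℂ)) *
    ∏ l ∈ Ico (2 * s + 1 - y) y', (cc (2 * s + 1) z - cc (2 * s + 1) ((l : ℂ) - s))) with hF
  have h1 : pathInt (KI a s y y') (hn s) (-(hn s)) h h = pathInt F (hn s) (-(hn s)) h h := by
    refine pathInt_congr hb hh.ne' fun z hz => ?_
    have hS := cont_sin_ne (US_mem hz)
    have h2 : pY s y z * pY s y' z = (-4 * Complex.sin (Real.pi * z) ^ 2) *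
        ∏ l ∈ Ico (2 * s + 1 - y) y', (cc (2 * s + 1) z - cc (2 * s + 1) ((l : ℂ) - s)) := by
      rw [← pY_full, ← pY_refl (show y ≤ 2 * s + 1 by omega), pY, pY,
        ← Finset.prod_range_mul_prod_Ico _ (show 2 * s + 1 - y ≤ y' by omega),
        ← Finset.prod_range_mul_prod_Ico
          (fun l : ℕ => cc (2 * s + 1) z - cc (2 * s + 1) ((l : ℂ) - s))
          (show 2 * s + 1 - y ≤ 2 * s + 1 by omega)]
      ring
    unfold KI
    rw [h2, hF]
    field_simp
  rw [h1]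
  refine pathInt_entire hb ?_ ?_
  · rw [hF]
    unfold cc
    fun_prop
  · intro z
    simp only [hF, cc_neg]
    rw [show (2 * (Real.pi : ℂ) * -z / ((2 * s + 1 : ℕ) : ℂ)) =
      -(2 * Real.pi * z / ((2 * s + 1 : ℕ) : ℂ)) by ring, Complex.sin_neg, neg_sq]
    ring

/-- **Exact contour formula**, symmetric form, for all `y, y' ≤ 2s`. -/
theorem Gm_sym {s a y y' : ℕ} (hy : y ≤ 2 * s) {h : ℝ} (hh : 0 < h) :
    Gm s (tt s) 1 a y' (2 * s - y) = kap s 0 ^ a / (2 * Complex.I * ((2 * s + 1 : ℕ) : ℂ)) *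
      pathInt (KI a s y y') (hn s) (-(hn s)) h h := by
  have hb : 0 ≤ hn s := by unfold hn; positivity
  have hn0 := nn_ne s
  rcases le_or_gt (y + y') (2 * s) with hyy | hyy
  · rw [Gm_one (by omega) (by omega) hh]
    have h1 : pathInt (Gjk a s y' (2 * s - y) 0) (hn s) (-(hn s)) h h =
        -(1 / 4) * pathInt (KI a s y y') (hn s) (-(hn s)) h h := by
      rw [← pathInt_const_mul]
      exact pathInt_congr hb hh.ne' fun z hz => Gjk_KI hyy hz
    rw [h1]
    field_simp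
    rw [Complex.I_sq]
    ring
  · rw [Gm_lt (by omega), KI_zero hy hyy hh, mul_zero]

lemma KI_diff {a s y y' : ℕ} {z : ℂ} (hz : Complex.sin (Real.pi * z) ≠ 0) :
    DifferentiableAt ℂ (KI a s y y') z := by
  unfold KI pY cc
  refine DifferentiableAt.div (by fun_prop) (by fun_prop) (pow_ne_zero _ hz)

lemma KI_cont (a s y y' : ℕ) : ContinuousOn (KI a s y y') (US (hn s)) := fun _ hz =>
  ((KI_diff (a := a) (y := y) (y' := y')
    (cont_sin_ne (US_mem hz))).continuousAt).continuousWithinAt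

/-- deformation to a two-level path -/
lemma pathInt_deform {F : ℂ → ℂ} {b : ℝ} (hb : 0 ≤ b) (hc : ContinuousOn F (US b))
    (hF : ∀ z : ℂ, 0 < z.im → DifferentiableAt ℂ F z) {x₁ h₁ h₂ : ℝ} (hh1 : 0 < h₁)
    (hh2 : 0 < h₂) : pathInt F b (-b) h₁ h₁ = pathInt F b x₁ h₁ h₂ := by
  have hrect := Complex.integral_boundary_rect_eq_zero_of_differentiableOn F
    (⟨-b, h₂⟩ : ℂ) (⟨x₁, h₁⟩ : ℂ) (by
      intro z hz
      have h1 : z.im ∈ Set.uIcc h₂ h₁ := hz.2
      rw [Set.mem_uIcc] at h1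
      have : 0 < z.im := by
        rcases h1 with h1 | h1
        · exact lt_of_lt_of_le hh2 h1.1
        · exact lt_of_lt_of_le hh1 h1.1
      exact (hF z this).differentiableWithinAt)
  simp only [smul_eq_mul] at hrect
  have c1 := hor_cont hh1.ne' hc
  have c2 := vert_cont' hb hc
  have s1 : (∫ x in (-b)..x₁, F ((x : ℂ) + h₁ * Complex.I)) +
      (∫ x in x₁..b, F ((x : ℂ) + h₁ * Complex.I)) =
      ∫ x in (-b)..b, F ((x : ℂ) + h₁ * Complex.I) :=
    intervalIntegral.integral_add_adjacent_intervals (c1.intervalIntegrable _ _)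
      (c1.intervalIntegrable _ _)
  have s2 : (∫ y in (0 : ℝ)..h₂, F (((-b : ℝ) : ℂ) + y * Complex.I)) +
      (∫ y in h₂..h₁, F (((-b : ℝ) : ℂ) + y * Complex.I)) =
      ∫ y in (0 : ℝ)..h₁, F (((-b : ℝ) : ℂ) + y * Complex.I) :=
    intervalIntegral.integral_add_adjacent_intervals (c2.intervalIntegrable _ _)
      (c2.intervalIntegrable _ _)
  rw [pathInt_up]
  unfold pathInt
  linear_combination s1 + Complex.I * s2 + hrect

/-- the exact contour formula on the two-level path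
`n/2 → n/2 + i h₁ → x₁ + i h₁ → x₁ + i h₂ → -n/2 + i h₂ → -n/2` -/
theorem Gm_sym_path {s a y y' : ℕ} (hy : y ≤ 2 * s) (x₁ : ℝ) {h₁ h₂ : ℝ}
    (hh1 : 0 < h₁) (hh2 : 0 < h₂) :
    Gm s (tt s) 1 a y' (2 * s - y) = kap s 0 ^ a / (2 * Complex.I * ((2 * s + 1 : ℕ) : ℂ)) *
      pathInt (KI a s y y') (hn s) x₁ h₁ h₂ := by
  rw [Gm_sym hy hh1, pathInt_deform (by unfold hn; positivity) (KI_cont a s y y')
    (fun _ hz => KI_diff (cont_sin_ne (s := s) (Or.inl hz.ne'))) hh1 hh2]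

/-! ### first and last rows -/

lemma qf_ee (s m : ℕ) : qf (tt s) m = (fS (2 * s + 1) m : ℂ) *
    ee s (m * (m + 1) / 4 - m * ((2 * s + 1 : ℕ) : ℂ) / 4) := by
  have hn0 := nn_ne s
  induction m with
  | zero => simp [fS, ee_zero]
  | succ m ih =>
    rw [qf_succ, ih, fS_succ, sinF_one_sub_tt]
    have e1 : ee s (((m + 1 : ℕ) : ℂ) * (((m + 1 : ℕ) : ℂ) + 1) / 4 -
        ((m + 1 : ℕ) : ℂ) * ((2 * s + 1 : ℕ) : ℂ) / 4) =
        ee s (m * (m + 1) / 4 - m * ((2 * s + 1 : ℕ) : ℂ) / 4) *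
        (ee s (((m : ℂ) + 1) / 2) * ee s (-(((2 * s + 1 : ℕ) : ℂ) / 4))) := by
      rw [← ee_add, ← ee_add]
      congr 1
      push_cast
      ring
    have e2 : ee s (-(((2 * s + 1 : ℕ) : ℂ) / 4)) = -Complex.I := by
      have h1 : ee s (((2 * s + 1 : ℕ) : ℂ) / 4) = Complex.I := by
        have h0 : 2 * (Real.pi : ℂ) * Complex.I * (((2 * s + 1 : ℕ) : ℂ) / 4) /
            ((2 * s + 1 : ℕ) : ℂ) = Real.pi / 2 * Complex.I := by
          rw [div_eq_iff hn0]
          ring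
        rw [ee, h0, Complex.exp_pi_div_two_mul_I]
      rw [ee_neg, h1, Complex.inv_I]
    have e3 : Complex.exp (((Real.pi * ((m + 1 : ℕ) : ℝ) / ((2 * s + 1 : ℕ) : ℝ) : ℝ) : ℂ) *
        Complex.I) = ee s (((m : ℂ) + 1) / 2) := by
      rw [ee]
      congr 1
      push_cast
      ring
    rw [e1, e2, e3]
    push_cast
    ring

lemma fS_last (s : ℕ) : fS (2 * s + 1) (2 * s) = 2 * s + 1 := by
  have := fS_refl (n := 2 * s + 1) (m := 2 * s) (by omega)
  rw [show 2 * s + 1 - 1 - 2 * s = 0 by omega] at this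
  have h0 : fS (2 * s + 1) 0 = 1 := by simp [fS]
  rw [h0, mul_one] at this
  rw [this]
  push_cast
  ring

lemma qf_last (s : ℕ) : qf (tt s) (2 * s) = ((2 * s + 1 : ℕ) : ℂ) := by
  rw [qf_ee, fS_last]
  rw [show (((2 * s : ℕ) : ℂ) * (((2 * s : ℕ) : ℂ) + 1) / 4 -
    ((2 * s : ℕ) : ℂ) * ((2 * s + 1 : ℕ) : ℂ) / 4) = 0 by push_cast; ring, ee_zero]
  push_cast
  ring

lemma pz_one (s j k : ℕ) (hjk : j ≤ k) (hk : k ≤ 2 * s) :
    pz (tt s) 1 j k = qf (tt s) k / qf (tt s) j := by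
  rw [eq_div_iff (qf_ne_zero (tt_prim s) (by omega)), pz, qf, qf, mul_comm,
    ← Finset.prod_range_mul_prod_Ico _ hjk]
  simp only [one_mul]

/-- the first row -/
theorem gz_first {s j : ℕ} (hj : j ≤ 2 * s) : gz s (tt s) 1 0 j =
    ee s ((s : ℂ) ^ 2 + s * j + j) / (fS (2 * s + 1) j : ℂ) ^ 2 := by
  have h0 : (fS (2 * s + 1) j : ℂ) ≠ 0 := by
    exact_mod_cast (fS_pos (n := 2 * s + 1) (m := j) (by omega)).ne'
  have h2 : (-1 : ℂ) ^ j = ee s (-((j : ℂ) * (((2 * s + 1 : ℕ) : ℂ) / 2))) := by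
    rw [ee_neg, ← ee_pow, ee_half, ← inv_pow]
    norm_num
  have h3 : ((j + 1).choose 2 : ℂ) = (j : ℂ) * (j + 1) / 2 := by
    rw [Nat.cast_choose_two]
    push_cast
    ring
  rw [gz, if_pos (Nat.zero_le j), pz_one s 0 j (Nat.zero_le j) hj, Nat.sub_zero, qf_zero, div_one,
    qf_ee, h2, ← pow_mul, tt_pow, tt_pow, tt_pow, one_pow, mul_one]
  rw [div_eq_div_iff (by
    refine mul_ne_zero (mul_ne_zero h0 (ee_ne _ _)) (mul_ne_zero h0 (ee_ne _ _)))
    (pow_ne_zero _ h0)]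
  have h4 : ee s ((s * s : ℕ) : ℂ) * ee s (-((j : ℂ) * (((2 * s + 1 : ℕ) : ℂ) / 2))) *
      ee s ((s * (j + 0) : ℕ) : ℂ) * ee s (((j + 1).choose 2 + j : ℕ) : ℂ) =
      ee s ((s : ℂ) ^ 2 + s * j + j) *
      (ee s (j * (j + 1) / 4 - j * ((2 * s + 1 : ℕ) : ℂ) / 4) *
        ee s (j * (j + 1) / 4 - j * ((2 * s + 1 : ℕ) : ℂ) / 4)) := by
    simp only [← ee_add]
    congr 1
    push_cast [h3]
    ring
  rw [h4]
  ring

/-- the last row -/
theorem gz_final {s j : ℕ} (hj : j ≤ 2 * s) : gz s (tt s) 1 j (2 * s) =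
    ee s (3 * (s : ℂ) ^ 2 + 2 * s + s * j) * (fS (2 * s + 1) j : ℂ) ^ 2 /
      ((2 * s + 1 : ℕ) : ℂ) ^ 2 := by
  have hn0 := nn_ne s
  have h0 : (fS (2 * s + 1) j : ℂ) ≠ 0 := by
    exact_mod_cast (fS_pos (n := 2 * s + 1) (m := j) (by omega)).ne'
  have h0' : (fS (2 * s + 1) (2 * s - j) : ℂ) ≠ 0 := by
    exact_mod_cast (fS_pos (n := 2 * s + 1) (m := 2 * s - j) (by omega)).ne'
  have hrefl : (fS (2 * s + 1) j : ℂ) * (fS (2 * s + 1) (2 * s - j) : ℂ) =
      ((2 * s + 1 : ℕ) : ℂ) := by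
    have := fS_refl (n := 2 * s + 1) (m := j) (by omega)
    rw [show 2 * s + 1 - 1 - j = 2 * s - j by omega] at this
    exact_mod_cast this
  have h2 : (-1 : ℂ) ^ (2 * s) = 1 := by simp
  have h3 : (2 * s + 1).choose 2 = s * (2 * s + 1) := by
    rw [Nat.choose_two_right, show (2 * s + 1) * (2 * s + 1 - 1) = (s * (2 * s + 1)) * 2 by
      rw [Nat.add_sub_cancel]; ring]
    simp
  have h5 : qf (tt s) j * (fS (2 * s + 1) (2 * s - j) : ℂ) =
      (fS (2 * s + 1) j : ℂ) * qf (tt s) (2 * s - j) := by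
    rw [qf_ee, qf_ee]
    have : ee s (j * (j + 1) / 4 - j * ((2 * s + 1 : ℕ) : ℂ) / 4) =
        ee s (((2 * s - j : ℕ) : ℂ) * (((2 * s - j : ℕ) : ℂ) + 1) / 4 -
          ((2 * s - j : ℕ) : ℂ) * ((2 * s + 1 : ℕ) : ℂ) / 4) := by
      congr 1
      rw [Nat.cast_sub hj]
      push_cast
      ring
    rw [this]
    ring
  have hq : qf (tt s) (2 * s - j) ≠ 0 := qf_ne_zero (tt_prim s) (by omega)
  have hqj : qf (tt s) j ≠ 0 := qf_ne_zero (tt_prim s) (by omega)
  rw [gz, if_pos hj, pz_one s j (2 * s) hj le_rfl, qf_last, h2, h3, ← pow_mul, tt_pow, tt_pow,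
    tt_pow, one_pow, mul_one, mul_one]
  have h6 : ee s ((s * s : ℕ) : ℂ) * ee s ((s * (2 * s + j) : ℕ) : ℂ) *
      ee s ((s * (2 * s + 1) + 2 * s : ℕ) : ℂ) = ee s (3 * (s : ℂ) ^ 2 + 2 * s + s * j) := by
    rw [← ee_add, ← ee_add, show ((s * s : ℕ) : ℂ) + ((s * (2 * s + j) : ℕ) : ℂ) +
      ((s * (2 * s + 1) + 2 * s : ℕ) : ℂ) = (3 * (s : ℂ) ^ 2 + 2 * s + s * j) +
      ((s : ℤ) : ℂ) * ((2 * s + 1 : ℕ) : ℂ) by push_cast; ring, ee_add, ee_int, mul_one]
  rw [h6, div_eq_div_iff (mul_ne_zero (div_ne_zero hn0 hqj) hq) (pow_ne_zero _ hn0)]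
  have h7 : ((2 * s + 1 : ℕ) : ℂ) * qf (tt s) j = (fS (2 * s + 1) j : ℂ) ^ 2 *
      qf (tt s) (2 * s - j) := by
    rw [← hrefl]
    linear_combination (fS (2 * s + 1) j : ℂ) * h5
  set E := ee s (3 * (s : ℂ) ^ 2 + 2 * s + s * j) with hE
  field_simp
  linear_combination E * h7

/-- the last row is the conjugate of the first one (after the change of basis) -/
theorem gz_row {s j : ℕ} (hj : j ≤ 2 * s) :
    ((2 * s + 1 : ℕ) : ℂ) ^ 2 * gz s (tt s) 1 j (2 * s) =
      (starRingEnd ℂ) (gz s (tt s) 1 0 j) * (fS (2 * s + 1) j : ℂ) ^ 4 := by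
  have hn0 := nn_ne s
  have h0 : (fS (2 * s + 1) j : ℂ) ≠ 0 := by
    exact_mod_cast (fS_pos (n := 2 * s + 1) (m := j) (by omega)).ne'
  rw [gz_first hj, gz_final hj, map_div₀, map_pow, Complex.conj_ofReal]
  have h1 : (starRingEnd ℂ) (ee s ((s : ℂ) ^ 2 + s * j + j)) =
      ee s (-((s : ℂ) ^ 2 + s * j + j)) := by
    rw [ee, ee, ← Complex.exp_conj]
    congr 1
    simp only [map_div₀, map_mul, map_add, map_pow, map_natCast, Complex.conj_I,
      Complex.conj_ofReal, map_ofNat]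
    ring
  have h2 : ee s (3 * (s : ℂ) ^ 2 + 2 * s + s * j) = ee s (-((s : ℂ) ^ 2 + s * j + j)) := by
    rw [show (3 * (s : ℂ) ^ 2 + 2 * s + s * j) = -((s : ℂ) ^ 2 + s * j + j) +
      ((2 * s + j : ℤ) : ℂ) * ((2 * s + 1 : ℕ) : ℂ) by push_cast; ring, ee_add, ee_int, mul_one]
  rw [h1, h2]
  field_simp

end Pool.Agent.Work.MP_b30479_gt.VC
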