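import Mathlib

/-!
# Gaussian integrals with a complex symmetric matrix
-/

namespace Pool.Agent.Work.MP_b30479_gt.VC

open MeasureTheory Matrix

variable {ι : Type*} [Fintype ι] [DecidableEq ι]

/-- simultaneous diagonalisation of a positive definite and a symmetric real matrix -/
theorem simul_diag {P Q : Matrix ι ι ℝ} (hP : P.PosDef) (hQ : Q.IsSymm) :
    ∃ (S : Matrix ι ι ℝ) (l : ι → ℝ), S.det ≠ 0 ∧ Sᵀ * P * S = 1 ∧ Sᵀ * Q * S = diagonal l := by
  have hPs := hP.1.spectral_theorem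
  set U : Matrix ι ι ℝ := (hP.1.eigenvectorUnitary : Matrix ι ι ℝ) with hU
  set mu := hP.1.eigenvalues with hmu
  have hmupos : ∀ i, 0 < mu i := fun i => hP.eigenvalues_pos i
  have hUU : Uᵀ * U = 1 := by
    have := Unitary.coe_star_mul_self hP.1.eigenvectorUnitary
    rw [Matrix.star_eq_conjTranspose, conjTranspose_eq_transpose_of_trivial] at this
    exact this
  have hP' : P = U * diagonal mu * Uᵀ := by
    rw [Unitary.conjStarAlgAut_apply] at hPs
    rw [Matrix.star_eq_conjTranspose, conjTranspose_eq_transpose_of_trivial] at hPs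
    exact hPs
  set C : Matrix ι ι ℝ := U * diagonal (fun i => (√(mu i))⁻¹) with hC
  have hCP : Cᵀ * P * C = 1 := by
    rw [hP', hC, transpose_mul, diagonal_transpose]
    have h1 : diagonal (fun i => (√(mu i))⁻¹) * Uᵀ * (U * diagonal mu * Uᵀ) *
        (U * diagonal fun i => (√(mu i))⁻¹) =
        diagonal (fun i => (√(mu i))⁻¹) * (Uᵀ * U) * diagonal mu * (Uᵀ * U) *
          diagonal (fun i => (√(mu i))⁻¹) := by
      simp only [Matrix.mul_assoc]
    rw [h1, hUU, Matrix.mul_one, Matrix.mul_one, diagonal_mul_diagonal, diagonal_mul_diagonal,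
      ← diagonal_one]
    congr 1
    funext i
    have h2 := Real.sq_sqrt (hmupos i).le
    have h3 : √(mu i) ≠ 0 := (Real.sqrt_pos.mpr (hmupos i)).ne'
    field_simp
    rw [h2]
  have hQ' : (Cᵀ * Q * C).IsHermitian := by
    rw [Matrix.IsHermitian, conjTranspose_eq_transpose_of_trivial, transpose_mul (Cᵀ * Q) C,
      transpose_mul Cᵀ Q, transpose_transpose, hQ.eq, Matrix.mul_assoc]
  have hQs := hQ'.spectral_theorem
  set V : Matrix ι ι ℝ := (hQ'.eigenvectorUnitary : Matrix ι ι ℝ) with hV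
  have hVV : Vᵀ * V = 1 := by
    have := Unitary.coe_star_mul_self hQ'.eigenvectorUnitary
    rw [Matrix.star_eq_conjTranspose, conjTranspose_eq_transpose_of_trivial] at this
    exact this
  have hQ2 : Cᵀ * Q * C = V * diagonal hQ'.eigenvalues * Vᵀ := by
    rw [Unitary.conjStarAlgAut_apply] at hQs
    rw [Matrix.star_eq_conjTranspose, conjTranspose_eq_transpose_of_trivial] at hQs
    exact hQs
  have h1 : (C * V)ᵀ * P * (C * V) = 1 := by
    rw [transpose_mul]
    have : Vᵀ * Cᵀ * P * (C * V) = Vᵀ * (Cᵀ * P * C) * V := by simp only [Matrix.mul_assoc]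
    rw [this, hCP, Matrix.mul_one, hVV]
  refine ⟨C * V, hQ'.eigenvalues, ?_, h1, ?_⟩
  · intro h0
    have h2 := congrArg Matrix.det h1
    rw [det_mul, h0, mul_zero, det_one] at h2
    exact zero_ne_one h2
  · rw [transpose_mul]
    have : Vᵀ * Cᵀ * Q * (C * V) = Vᵀ * (Cᵀ * Q * C) * V := by simp only [Matrix.mul_assoc]
    rw [this]
    have h3 : Vᵀ * (V * diagonal hQ'.eigenvalues * Vᵀ) * V =
        (Vᵀ * V) * diagonal hQ'.eigenvalues * (Vᵀ * V) := by simp only [Matrix.mul_assoc]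
    calc Vᵀ * (Cᵀ * Q * C) * V = Vᵀ * (V * diagonal hQ'.eigenvalues * Vᵀ) * V :=
          congrArg (fun Z => Vᵀ * Z * V) hQ2
      _ = diagonal hQ'.eigenvalues := by rw [h3, hVV, Matrix.one_mul, Matrix.mul_one]

/-- the quadratic form -/
def qform (M : Matrix ι ι ℂ) (x : ι → ℝ) : ℂ := ∑ i, ∑ j, M i j * x i * x j

theorem qform_eq (M : Matrix ι ι ℂ) (x : ι → ℝ) :
    qform M x = (fun i => (x i : ℂ)) ⬝ᵥ (M *ᵥ fun i => (x i : ℂ)) := by
  unfold qform
  simp only [dotProduct, mulVec, Finset.mul_sum]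
  refine Finset.sum_congr rfl fun i _ => Finset.sum_congr rfl fun j _ => by ring

theorem qform_comp (M : Matrix ι ι ℂ) (S : Matrix ι ι ℝ) (y : ι → ℝ) :
    qform M (S *ᵥ y) = qform ((S.map Complex.ofReal)ᵀ * M * S.map Complex.ofReal) y := by
  rw [qform_eq, qform_eq]
  have h1 : (fun i => (((S *ᵥ y) i : ℝ) : ℂ)) = S.map Complex.ofReal *ᵥ fun i => (y i : ℂ) := by
    funext i
    simp only [mulVec, dotProduct, Matrix.map_apply]
    push_cast
    rfl
  rw [h1, ← Matrix.mulVec_mulVec, ← Matrix.mulVec_mulVec]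
  conv_rhs => rw [dotProduct_mulVec, vecMul_transpose]

theorem qform_diag (l : ι → ℂ) (y : ι → ℝ) : qform (diagonal l) y = ∑ i, l i * (y i : ℂ) ^ 2 := by
  unfold qform
  refine Finset.sum_congr rfl fun i _ => ?_
  rw [Finset.sum_eq_single i]
  · rw [diagonal_apply_eq]; ring
  · intro j _ hj
    rw [diagonal_apply_ne _ (Ne.symm hj)]; ring
  · intro h
    exact absurd (Finset.mem_univ i) h

/-- a complex symmetric matrix with positive definite real part is diagonalised by a real
invertible congruence -/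
theorem exists_congr_diag {M : Matrix ι ι ℂ} (hs : M.IsSymm) (hM : (M.map Complex.re).PosDef) :
    ∃ (S : Matrix ι ι ℝ) (l : ι → ℝ), S.det ≠ 0 ∧
      (S.map Complex.ofReal)ᵀ * M * S.map Complex.ofReal =
        diagonal fun i => (1 : ℂ) + l i * Complex.I := by
  have hQ : (M.map Complex.im).IsSymm := by
    rw [Matrix.IsSymm, ← transpose_map, hs.eq]
  obtain ⟨S, l, h1, h2, h3⟩ := simul_diag hM hQ
  refine ⟨S, l, h1, ?_⟩
  have hMM : M = (M.map Complex.re).map Complex.ofReal +
      Complex.I • (M.map Complex.im).map Complex.ofReal := by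
    ext i j
    simp only [Matrix.add_apply, Matrix.smul_apply, Matrix.map_apply, smul_eq_mul]
    rw [mul_comm]
    exact (Complex.re_add_im _).symm
  have h4 : ∀ A : Matrix ι ι ℝ, (S.map Complex.ofReal)ᵀ * A.map Complex.ofReal *
      S.map Complex.ofReal = (Sᵀ * A * S).map Complex.ofReal := by
    intro A
    rw [← transpose_map]
    ext i j
    simp only [Matrix.mul_apply, Matrix.map_apply]
    push_cast
    rfl
  rw [hMM, Matrix.mul_add, Matrix.add_mul, Matrix.mul_smul, Matrix.smul_mul, h4, h4, h2, h3]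
  ext i j
  simp only [Matrix.add_apply, Matrix.smul_apply, Matrix.map_apply, smul_eq_mul]
  by_cases hij : i = j
  · subst hij
    simp only [Matrix.one_apply_eq, diagonal_apply_eq, Complex.ofReal_one]
    ring
  · simp only [Matrix.one_apply_ne hij, diagonal_apply_ne _ hij, Complex.ofReal_zero]
    ring

/-- change of variables by an invertible matrix -/
theorem integral_mulVec {S : Matrix ι ι ℝ} (hS : S.det ≠ 0) (f : (ι → ℝ) → ℂ) :
    ∫ x, f x = ((|S.det| : ℝ) : ℂ) * ∫ y, f (S *ᵥ y) := by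
  have h1 := Real.map_matrix_volume_pi_eq_smul_volume_pi hS
  have hme : MeasurableEmbedding (Matrix.toLin' S) := by
    have hinj : Function.Injective (Matrix.toLin' S) := by
      intro x y hxy
      rw [Matrix.toLin'_apply, Matrix.toLin'_apply] at hxy
      exact Matrix.mulVec_injective_iff_isUnit.mpr
        ((Matrix.isUnit_iff_isUnit_det S).mpr (isUnit_iff_ne_zero.mpr hS)) hxy
    exact (Matrix.toLin' S).continuous_of_finiteDimensional.measurableEmbedding hinj
  have h2 : ∫ y, f (Matrix.toLin' S y) = ∫ x, f x ∂(Measure.map (Matrix.toLin' S) volume) :=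
    (hme.integral_map _).symm
  have h3 : (fun y => f (S *ᵥ y)) = fun y => f (Matrix.toLin' S y) := by
    funext y
    rw [Matrix.toLin'_apply]
  rw [h3, h2, h1, integral_smul_measure]
  have h4 : (ENNReal.ofReal |S.det⁻¹|).toReal = |S.det|⁻¹ := by
    rw [ENNReal.toReal_ofReal (abs_nonneg _), abs_inv]
  rw [h4, Complex.real_smul, ← mul_assoc, ← Complex.ofReal_mul, mul_inv_cancel₀ (abs_ne_zero.mpr hS),
    Complex.ofReal_one, one_mul]

theorem integral_gauss_eq {M : Matrix ι ι ℂ} {S : Matrix ι ι ℝ} {l : ι → ℝ} (hS : S.det ≠ 0)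
    (h : (S.map Complex.ofReal)ᵀ * M * S.map Complex.ofReal =
        diagonal fun i => (1 : ℂ) + l i * Complex.I) :
    ∫ x : ι → ℝ, Complex.exp (-qform M x) =
      ((|S.det| : ℝ) : ℂ) * ∏ i, (Real.pi / ((1 : ℂ) + l i * Complex.I)) ^ (1 / 2 : ℂ) := by
  rw [integral_mulVec hS]
  congr 1
  simp_rw [qform_comp, h, qform_diag]
  have h1 := GaussianFourier.integral_cexp_neg_sum_mul_add (b := fun i => (1 : ℂ) + l i * Complex.I)
    (fun i => by simp) (fun _ => 0)
  simpa using h1

theorem one_add_mul_I_ne_zero (r : ℝ) : (1 : ℂ) + r * Complex.I ≠ 0 := by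
  intro h
  have := congrArg Complex.re h
  simp at this

/-- the complex Gaussian integral does not vanish -/
theorem integral_gauss_ne_zero {M : Matrix ι ι ℂ} (hs : M.IsSymm)
    (hM : (M.map Complex.re).PosDef) : ∫ x : ι → ℝ, Complex.exp (-qform M x) ≠ 0 := by
  obtain ⟨S, l, h1, h2⟩ := exists_congr_diag hs hM
  rw [integral_gauss_eq h1 h2]
  refine mul_ne_zero ?_ ?_
  · exact_mod_cast abs_ne_zero.mpr h1
  · rw [Finset.prod_ne_zero_iff]
    intro i _
    rw [Ne, Complex.cpow_eq_zero_iff]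
    intro h3
    have h4 := h3.1
    rw [div_eq_zero_iff] at h4
    rcases h4 with h4 | h4
    · exact Real.pi_ne_zero (by exact_mod_cast h4)
    · exact one_add_mul_I_ne_zero (l i) h4

/-- square of the complex Gaussian integral -/
theorem integral_gauss_sq {M : Matrix ι ι ℂ} (hs : M.IsSymm)
    (hM : (M.map Complex.re).PosDef) : M.det ≠ 0 ∧
      (∫ x : ι → ℝ, Complex.exp (-qform M x)) ^ 2 = (Real.pi : ℂ) ^ Fintype.card ι / M.det := by
  obtain ⟨S, l, h1, h2⟩ := exists_congr_diag hs hM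
  have h3 := congrArg Matrix.det h2
  rw [det_mul, det_mul, det_transpose, det_diagonal] at h3
  have h4 : (S.map Complex.ofReal).det = ((S.det : ℝ) : ℂ) := by
    have := (RingHom.map_det Complex.ofRealHom S).symm
    exact this
  rw [h4] at h3
  have h5 : ∏ i, ((1 : ℂ) + l i * Complex.I) ≠ 0 := by
    rw [Finset.prod_ne_zero_iff]
    exact fun i _ => one_add_mul_I_ne_zero (l i)
  have h6 : M.det ≠ 0 := by
    intro h
    rw [h, mul_zero, zero_mul] at h3
    exact h5 h3.symm
  refine ⟨h6, ?_⟩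
  rw [integral_gauss_eq h1 h2, mul_pow, ← Finset.prod_pow]
  have h7 : ∀ i, ((Real.pi / ((1 : ℂ) + l i * Complex.I)) ^ (1 / 2 : ℂ)) ^ 2 =
      Real.pi / ((1 : ℂ) + l i * Complex.I) := by
    intro i
    rw [← Complex.cpow_nat_mul]
    norm_num
  simp_rw [h7]
  rw [Finset.prod_div_distrib, Finset.prod_const, Finset.card_univ, ← h3]
  have h8 : (((|S.det| : ℝ)) : ℂ) ^ 2 = ((S.det : ℝ) : ℂ) * ((S.det : ℝ) : ℂ) := by
    rw [← Complex.ofReal_pow, sq_abs, sq, Complex.ofReal_mul]
  have h9 : ((S.det : ℝ) : ℂ) ≠ 0 := by exact_mod_cast h1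
  rw [h8]
  field_simp

/-- the real part of the quadratic form is bounded below -/
theorem qform_re_ge {M : Matrix ι ι ℂ} (hs : M.IsSymm) (hM : (M.map Complex.re).PosDef) :
    ∃ c : ℝ, 0 < c ∧ ∀ x : ι → ℝ, c * ∑ i, x i ^ 2 ≤ (qform M x).re := by
  obtain ⟨S, l, h1, h2⟩ := exists_congr_diag hs hM
  set T : ℝ := ∑ i, ∑ j, S i j ^ 2 with hT
  have hT0 : 0 ≤ T := Finset.sum_nonneg fun i _ => Finset.sum_nonneg fun j _ => sq_nonneg _
  refine ⟨(1 + T)⁻¹, by positivity, fun x => ?_⟩
  have hx : S *ᵥ (S⁻¹ *ᵥ x) = x := by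
    rw [Matrix.mulVec_mulVec, Matrix.mul_nonsing_inv _ (isUnit_iff_ne_zero.mpr h1),
      Matrix.one_mulVec]
  set y := S⁻¹ *ᵥ x with hy
  have h3 : (qform M x).re = ∑ i, y i ^ 2 := by
    rw [← hx, qform_comp, h2, qform_diag, Complex.re_sum]
    refine Finset.sum_congr rfl fun i _ => ?_
    rw [← Complex.ofReal_pow, Complex.mul_re, Complex.ofReal_re, Complex.ofReal_im]
    simp
  rw [h3, inv_mul_le_iff₀ (by positivity)]
  have h4 : ∀ i, x i ^ 2 ≤ (∑ j, S i j ^ 2) * ∑ j, y j ^ 2 := by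
    intro i
    have h5 : x i = ∑ j, S i j * y j := by
      conv_lhs => rw [← hx]
      rfl
    rw [h5]
    exact Finset.sum_mul_sq_le_sq_mul_sq _ _ _
  calc ∑ i, x i ^ 2 ≤ ∑ i, (∑ j, S i j ^ 2) * ∑ j, y j ^ 2 := Finset.sum_le_sum fun i _ => h4 i
    _ = T * ∑ j, y j ^ 2 := by rw [← Finset.sum_mul]
    _ ≤ (1 + T) * ∑ j, y j ^ 2 := by
        apply mul_le_mul_of_nonneg_right (by linarith)
        exact Finset.sum_nonneg fun j _ => sq_nonneg _

/-- real Gaussians are integrable -/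
theorem integrable_rexp_neg_sum {κ : Type*} [Fintype κ] {c : ℝ} (hc : 0 < c) :
    Integrable (fun x : κ → ℝ => Real.exp (-c * ∑ i, x i ^ 2)) := by
  have h1 := (GaussianFourier.integrable_cexp_neg_mul_sum_add (ι := κ) (b := (c : ℂ))
    (by simpa using hc) (fun _ => 0)).norm
  refine h1.congr (Filter.Eventually.of_forall fun x => ?_)
  simp only [Complex.norm_exp]
  congr 1
  simp only [zero_mul, Finset.sum_const_zero, add_zero]
  rw [show (-(c : ℂ) * ∑ i, ((x i : ℝ) : ℂ) ^ 2) = ((-c * ∑ i, x i ^ 2 : ℝ) : ℂ) by push_cast; ring,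
    Complex.ofReal_re]

theorem continuous_qform (M : Matrix ι ι ℂ) : Continuous (qform M) := by
  unfold qform
  fun_prop

theorem integrable_gauss {M : Matrix ι ι ℂ} (hs : M.IsSymm) (hM : (M.map Complex.re).PosDef) :
    Integrable fun x : ι → ℝ => Complex.exp (-qform M x) := by
  obtain ⟨c, hc, h⟩ := qform_re_ge hs hM
  refine (integrable_rexp_neg_sum (κ := ι) hc).mono'
    ((Complex.continuous_exp.comp (continuous_qform M).neg).aestronglyMeasurable) ?_
  refine Filter.Eventually.of_forall fun x => ?_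
  rw [Complex.norm_exp, Complex.neg_re]
  apply Real.exp_le_exp.mpr
  have := h x
  linarith

end Pool.Agent.Work.MP_b30479_gt.VC
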