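import Mathlib

/-!
# Laplace method: from strict maxima to quadratic domination; contour shifts

General real-variable and complex-variable lemmas, with no reference to knots.
-/

namespace VC.Lap

open Filter Topology MeasureTheory Set

/-! ## Quadratic domination -/

/-- A concave function with a local quadratic bound has a linear bound away from the maximum. -/
theorem lin_of_concave {E : Type*} [NormedAddCommGroup E] [NormedSpace ℝ E] {K : Set E}
    {h : E → ℝ} (hh : ConcaveOn ℝ K h) {x0 : E} (hx0 : x0 ∈ K) {c r : ℝ} (hr : 0 < r)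
    (hloc : ∀ x ∈ K, ‖x - x0‖ ≤ r → h x ≤ h x0 - c * ‖x - x0‖ ^ 2) {x : E} (hx : x ∈ K)
    (hxr : r ≤ ‖x - x0‖) : h x ≤ h x0 - c * r * ‖x - x0‖ := by
  set t := ‖x - x0‖ with ht
  have ht0 : 0 < t := lt_of_lt_of_le hr hxr
  set a := r / t with ha
  have ha0 : 0 < a := div_pos hr ht0
  have ha1 : a ≤ 1 := (div_le_one ht0).mpr hxr
  have hy := hh.2 hx0 hx (sub_nonneg.mpr ha1) ha0.le (by ring)
  have hmem := hh.1 hx0 hx (sub_nonneg.mpr ha1) ha0.le (by ring)
  have e1 : (1 - a) • x0 + a • x - x0 = a • (x - x0) := by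
    rw [sub_smul, one_smul, smul_sub]
    abel
  have e2 : ‖(1 - a) • x0 + a • x - x0‖ = r := by
    rw [e1, norm_smul, Real.norm_of_nonneg ha0.le, ← ht, ha]
    field_simp
  have h3 := hloc _ hmem e2.le
  rw [e2] at h3
  simp only [smul_eq_mul] at hy
  have h4 : a * (h x0 - h x) ≥ c * r ^ 2 := by nlinarith
  have h5 : h x0 - h x ≥ c * r ^ 2 / a := by
    rw [ge_iff_le, div_le_iff₀ ha0]
    linarith
  have h6 : c * r ^ 2 / a = c * r * t := by
    rw [ha]
    field_simp
  rw [h6] at h5
  linarith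

/-- Concave version of the global quadratic bound. -/
theorem quad_of_concave {E : Type*} [NormedAddCommGroup E] [NormedSpace ℝ E] {K : Set E}
    {h : E → ℝ} (hh : ConcaveOn ℝ K h) {x0 : E} (hx0 : x0 ∈ K) {c r D : ℝ} (hc : 0 ≤ c)
    (hr : 0 < r) (hrD : r ≤ D) (hD : ∀ x ∈ K, ‖x - x0‖ ≤ D)
    (hloc : ∀ x ∈ K, ‖x - x0‖ ≤ r → h x ≤ h x0 - c * ‖x - x0‖ ^ 2) :
    ∀ x ∈ K, h x ≤ h x0 - c * (r / D) * ‖x - x0‖ ^ 2 := by
  intro x hx
  have hD0 : 0 < D := lt_of_lt_of_le hr hrD
  rcases le_total ‖x - x0‖ r with h1 | h1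
  · have h2 := hloc x hx h1
    have h3 : r / D ≤ 1 := (div_le_one hD0).mpr hrD
    have h4 : c * (r / D) * ‖x - x0‖ ^ 2 ≤ c * ‖x - x0‖ ^ 2 := by
      have : c * (r / D) ≤ c := mul_le_of_le_one_right hc h3
      exact mul_le_mul_of_nonneg_right this (sq_nonneg _)
    linarith
  · have h2 := lin_of_concave hh hx0 hr hloc hx h1
    have h3 : c * (r / D) * ‖x - x0‖ ^ 2 ≤ c * r * ‖x - x0‖ := by
      have h4 : ‖x - x0‖ / D ≤ 1 := (div_le_one hD0).mpr (hD x hx)
      calc c * (r / D) * ‖x - x0‖ ^ 2 = (c * r * ‖x - x0‖) * (‖x - x0‖ / D) := by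
            field_simp
        _ ≤ (c * r * ‖x - x0‖) * 1 := by
            refine mul_le_mul_of_nonneg_left h4 ?_
            positivity
        _ = _ := mul_one _
    linarith

/-- Compact version: a unique maximum with a local quadratic bound has a global one. -/
theorem quad_of_compact {E : Type*} [NormedAddCommGroup E] {K : Set E} (hK : IsCompact K)
    {h : E → ℝ} (hh : UpperSemicontinuousOn h K) {x0 : E}
    (hmax : ∀ x ∈ K, x ≠ x0 → h x < h x0) {c r : ℝ} (hc : 0 < c) (hr : 0 < r)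
    (hloc : ∀ x ∈ K, ‖x - x0‖ ≤ r → h x ≤ h x0 - c * ‖x - x0‖ ^ 2) :
    ∃ c' > 0, ∀ x ∈ K, h x ≤ h x0 - c' * ‖x - x0‖ ^ 2 := by
  set K' : Set E := K ∩ {x | r ≤ ‖x - x0‖} with hK'
  have hcl : IsClosed {x : E | r ≤ ‖x - x0‖} :=
    isClosed_le continuous_const (continuous_norm.comp (continuous_id.sub continuous_const))
  have hK'c : IsCompact K' := hK.inter_right hcl
  rcases K'.eq_empty_or_nonempty with he | hne
  · refine ⟨c, hc, fun x hx => hloc x hx ?_⟩
    by_contra h1
    have : x ∈ K' := ⟨hx, (not_le.mp h1).le⟩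
    rw [he] at this
    exact this
  · obtain ⟨y, hy, hymax⟩ := (hh.mono inter_subset_left).exists_isMaxOn hne hK'c
    have hyx : y ≠ x0 := by
      rintro rfl
      have := hy.2
      simp only [mem_ofPred_eq, sub_self, norm_zero] at this
      linarith
    have hlt := hmax y hy.1 hyx
    obtain ⟨B, hB⟩ := hK.isBounded.exists_norm_le
    set D := B + ‖x0‖ + 1 with hD
    have hB0 : 0 ≤ B := le_trans (norm_nonneg _) (hB y hy.1)
    have hD0 : 0 < D := by
      have := norm_nonneg x0
      linarith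
    have hDx : ∀ x ∈ K, ‖x - x0‖ ≤ D := by
      intro x hx
      have h1 := norm_sub_le x x0
      have h2 := hB x hx
      linarith
    set e := (h x0 - h y) / D ^ 2 with he
    have he0 : 0 < e := div_pos (by linarith) (by positivity)
    refine ⟨min c e, lt_min hc he0, fun x hx => ?_⟩
    rcases le_total ‖x - x0‖ r with h1 | h1
    · have h2 := hloc x hx h1
      have h3 : min c e * ‖x - x0‖ ^ 2 ≤ c * ‖x - x0‖ ^ 2 :=
        mul_le_mul_of_nonneg_right (min_le_left _ _) (sq_nonneg _)
      linarith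
    · have h2 : h x ≤ h y := hymax ⟨hx, h1⟩
      have h3 : min c e * ‖x - x0‖ ^ 2 ≤ h x0 - h y := by
        calc min c e * ‖x - x0‖ ^ 2 ≤ e * D ^ 2 := by
              refine mul_le_mul (min_le_right _ _) ?_ (sq_nonneg _) he0.le
              exact pow_le_pow_left₀ (norm_nonneg _) (hDx x hx) 2
          _ = h x0 - h y := by rw [he]; field_simp
      linarith

/-- Second order Taylor bound at a critical point, along `[0,1]`. -/
theorem taylor_le {φ φ' φ'' : ℝ → ℝ} {m : ℝ} (h1 : ∀ t ∈ Icc (0 : ℝ) 1, HasDerivAt φ (φ' t) t)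
    (h2 : ∀ t ∈ Icc (0 : ℝ) 1, HasDerivAt φ' (φ'' t) t) (h3 : φ' 0 ≤ 0)
    (h4 : ∀ t ∈ Icc (0 : ℝ) 1, φ'' t ≤ -m) : φ 1 ≤ φ 0 - m / 2 := by
  -- `φ' t + m t` is antitone, hence `≤ 0`
  have ha : ∀ t ∈ Icc (0 : ℝ) 1, φ' t + m * t ≤ 0 := by
    have hd : ∀ t ∈ Icc (0 : ℝ) 1, HasDerivAt (fun s => φ' s + m * s) (φ'' t + m) t := by
      intro t ht
      have := (h2 t ht).fun_add ((hasDerivAt_id' t).const_mul m)
      simpa using this
    have hanti : AntitoneOn (fun s => φ' s + m * s) (Icc 0 1) := by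
      refine antitoneOn_of_deriv_nonpos (convex_Icc 0 1)
        (fun t ht => (hd t ht).continuousAt.continuousWithinAt)
        (fun t ht => (hd t (interior_subset ht)).differentiableAt.differentiableWithinAt) ?_
      intro t ht
      rw [(hd t (interior_subset ht)).deriv]
      have := h4 t (interior_subset ht)
      linarith
    intro t ht
    have := hanti (left_mem_Icc.mpr zero_le_one) ht ht.1
    simp only [mul_zero, add_zero] at this
    linarith
  have hd : ∀ t ∈ Icc (0 : ℝ) 1, HasDerivAt (fun s => φ s + m / 2 * s ^ 2) (φ' t + m * t) t := by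
    intro t ht
    have := (h1 t ht).fun_add ((hasDerivAt_pow 2 t).const_mul (m / 2))
    refine this.congr_deriv ?_
    simp
    ring
  have hanti : AntitoneOn (fun s => φ s + m / 2 * s ^ 2) (Icc 0 1) := by
    refine antitoneOn_of_deriv_nonpos (convex_Icc 0 1)
      (fun t ht => (hd t ht).continuousAt.continuousWithinAt)
      (fun t ht => (hd t (interior_subset ht)).differentiableAt.differentiableWithinAt) ?_
    intro t ht
    rw [(hd t (interior_subset ht)).deriv]
    exact ha t (interior_subset ht)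
  have := hanti (left_mem_Icc.mpr zero_le_one) (right_mem_Icc.mpr zero_le_one) zero_le_one
  simp only [one_pow, mul_one] at this
  norm_num at this
  linarith

/-! ## Contour shifts -/

/-- Vertical shift of a horizontal segment, with the two side terms. -/
theorem shift {f : ℂ → ℂ} {a b s t : ℝ}
    (hc : ContinuousOn f (uIcc a b ×ℂ uIcc s t))
    (hd : DifferentiableOn ℂ f (Ioo (min a b) (max a b) ×ℂ Ioo (min s t) (max s t))) :
    ∫ x : ℝ in a..b, f (x + s * Complex.I) =
      (∫ x : ℝ in a..b, f (x + t * Complex.I)) +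
        Complex.I * (∫ y : ℝ in s..t, f (a + y * Complex.I)) -
        Complex.I * (∫ y : ℝ in s..t, f (b + y * Complex.I)) := by
  have h := Complex.integral_boundary_rect_eq_zero_of_continuousOn_of_differentiableOn f
    (⟨a, s⟩ : ℂ) (⟨b, t⟩ : ℂ) hc hd
  simp only [smul_eq_mul] at h
  linear_combination h

end VC.Lap
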