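import Pool.Agent.Work.MP_b30479_gt.VC.GaussND

/-!
# Laplace principle for mixed lattice sums and integrals
-/

namespace Pool.Agent.Work.MP_b30479_gt.VC

open MeasureTheory Filter Topology

variable {ι κ : Type*} [Fintype ι] [Fintype κ]

/-- coordinatewise integer part -/
noncomputable def fl (x : ι → ℝ) : ι → ℤ := fun i => ⌊x i⌋

omit [Fintype ι] in
theorem measurable_fl : Measurable (fl (ι := ι)) :=
  measurable_pi_lambda _ fun i => Int.measurable_floor.comp (measurable_pi_apply i)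

theorem map_fl : Measure.map (fl (ι := ι)) volume = Measure.count := by
  apply Measure.ext_of_singleton
  intro k
  rw [Measure.map_apply measurable_fl (measurableSet_singleton k), Measure.count_singleton]
  have h1 : fl (ι := ι) ⁻¹' {k} = Set.univ.pi fun i => Set.Ico (k i : ℝ) (k i + 1) := by
    ext x
    simp only [Set.mem_preimage, Set.mem_singleton_iff, Set.mem_univ_pi, Set.mem_Ico]
    constructor
    · intro h i
      have := congrFun h i
      exact Int.floor_eq_iff.mp this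
    · intro h
      funext i
      exact Int.floor_eq_iff.mpr (h i)
  rw [h1, volume_pi_pi]
  simp

theorem integral_count_eq {α : Type*} [Countable α] [MeasurableSpace α]
    [MeasurableSingletonClass α] (h : α → ℂ) :
    ∫ k, h k ∂Measure.count = ∑' k, h k := by
  by_cases hi : Integrable h Measure.count
  · rw [integral_countable hi]
    refine tsum_congr fun k => ?_
    simp [measureReal_def]
  · rw [integral_undef hi]
    rw [integrable_count_iff, summable_norm_iff] at hi
    rw [tsum_eq_zero_of_not_summable hi]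

theorem integral_fl (h : (ι → ℤ) → ℂ) : ∫ x : ι → ℝ, h (fl x) = ∑' k, h k := by
  rw [← integral_count_eq, ← map_fl, integral_map measurable_fl.aemeasurable]
  exact (Measurable.of_discrete (f := h)).aestronglyMeasurable

theorem integral_affine {R : ℝ} (hR : 0 < R) (c : ι → ℝ) (f : (ι → ℝ) → ℂ) :
    ∫ X : ι → ℝ, f (c + R • X) = ((R : ℂ)⁻¹) ^ Fintype.card ι * ∫ x, f x := by
  have h1 := Measure.integral_comp_smul (volume : Measure (ι → ℝ)) (fun x => f (c + x)) R
  rw [h1, integral_add_left_eq_self (μ := (volume : Measure (ι → ℝ))) f c, Module.finrank_fintype_fun_eq_card,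
    abs_of_pos (inv_pos.mpr (pow_pos hR _)), Complex.real_smul]
  congr 1
  push_cast
  rw [inv_pow]

theorem integral_fl_affine {R : ℝ} (hR : 0 < R) (c : ι → ℝ) (h : (ι → ℤ) → ℂ) :
    ∫ X : ι → ℝ, h (fl (c + R • X)) = ((R : ℂ)⁻¹) ^ Fintype.card ι * ∑' k, h k := by
  rw [integral_affine hR c (fun x => h (fl x)), integral_fl]

theorem floor_sq_ge {R : ℝ} (hR : 1 ≤ R) (c X : ℝ) :
    X ^ 2 / 2 - 1 ≤ ((⌊c + R * X⌋ : ℝ) - c) ^ 2 / R ^ 2 := by
  have hR0 : 0 < R := by linarith
  have h1 := Int.floor_le (c + R * X)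
  have h2 := Int.lt_floor_add_one (c + R * X)
  rw [le_div_iff₀ (by positivity)]
  set d : ℝ := c + R * X - ⌊c + R * X⌋ with hd
  have h3 : 0 ≤ d := by linarith
  have h4 : d < 1 := by linarith
  have h5 : (⌊c + R * X⌋ : ℝ) - c = R * X - d := by rw [hd]; ring
  rw [h5]
  have h6 : d ^ 2 ≤ R ^ 2 := by nlinarith
  nlinarith [sq_nonneg (R * X - 2 * d)]

/-- Laplace principle -/
theorem laplace_sum {S : Type*} {l : Filter S} [l.IsCountablyGenerated] {R : S → ℝ}
    (hR : ∀ᶠ s in l, 1 ≤ R s) {c : S → ι → ℝ} {c' : S → κ → ℝ}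
    {G : S → (ι → ℤ) → (κ → ℝ) → ℂ} {g : (ι → ℝ) → (κ → ℝ) → ℂ} {C a : ℝ} (ha : 0 < a)
    (hmeas : ∀ᶠ s in l, ∀ k, Measurable (G s k))
    (hdom : ∀ᶠ s in l, ∀ k z, ‖G s k z‖ ≤ C * Real.exp (-a * ((∑ i, ((k i : ℝ) - c s i) ^ 2 +
      ∑ j, (z j - c' s j) ^ 2) / R s ^ 2)))
    (hlim : ∀ X Z, Tendsto (fun s => G s (fl (c s + R s • X)) (c' s + R s • Z)) l (𝓝 (g X Z))) :
    Tendsto (fun s => ((R s : ℂ)⁻¹) ^ (Fintype.card ι + Fintype.card κ) *
      ∑' k, ∫ z, G s k z) l (𝓝 (∫ p : (ι → ℝ) × (κ → ℝ), g p.1 p.2)) := by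
  set D : ℝ := |C| * Real.exp (a * Fintype.card ι) with hD
  set bd : (ι → ℝ) × (κ → ℝ) → ℝ := fun p => D * (Real.exp (-(a / 2) * ∑ i, p.1 i ^ 2) *
    Real.exp (-(a / 2) * ∑ j, p.2 j ^ 2)) with hbd
  have hbdi : Integrable bd := by
    have h1 := integrable_rexp_neg_sum (κ := ι) (c := a / 2) (by positivity)
    have h2 := integrable_rexp_neg_sum (κ := κ) (c := a / 2) (by positivity)
    exact (h1.mul_prod h2).const_mul D
  -- domination
  have hdom' : ∀ᶠ s in l, ∀ p : (ι → ℝ) × (κ → ℝ),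
      ‖G s (fl (c s + R s • p.1)) (c' s + R s • p.2)‖ ≤ bd p := by
    filter_upwards [hR, hdom] with s hs hds p
    have hs0 : 0 < R s := by linarith
    refine (hds _ _).trans ?_
    have h1 : C * Real.exp (-a * ((∑ i, (((fl (c s + R s • p.1)) i : ℝ) - c s i) ^ 2 +
        ∑ j, ((c' s + R s • p.2) j - c' s j) ^ 2) / R s ^ 2)) ≤
        |C| * Real.exp (-a * ((∑ i, (((fl (c s + R s • p.1)) i : ℝ) - c s i) ^ 2 +
        ∑ j, ((c' s + R s • p.2) j - c' s j) ^ 2) / R s ^ 2)) :=
      mul_le_mul_of_nonneg_right (le_abs_self C) (Real.exp_pos _).le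
    refine h1.trans ?_
    rw [hbd, hD]
    simp only
    rw [mul_assoc, ← Real.exp_add, ← Real.exp_add]
    apply mul_le_mul_of_nonneg_left _ (abs_nonneg C)
    apply Real.exp_le_exp.mpr
    have h2 : ∀ i, p.1 i ^ 2 / 2 - 1 ≤ (((fl (c s + R s • p.1)) i : ℝ) - c s i) ^ 2 / R s ^ 2 :=
      fun i => floor_sq_ge hs (c s i) (p.1 i)
    have h3 : ∀ j, p.2 j ^ 2 / 2 ≤ ((c' s + R s • p.2) j - c' s j) ^ 2 / R s ^ 2 := by
      intro j
      have : (c' s + R s • p.2) j - c' s j = R s * p.2 j := by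
        simp
      have hR2 : R s ^ 2 ≠ 0 := by positivity
      rw [this, mul_pow, mul_div_cancel_left₀ _ hR2]
      nlinarith [sq_nonneg (p.2 j)]
    have h4 := Finset.sum_le_sum fun i (_ : i ∈ Finset.univ) => h2 i
    have h5 := Finset.sum_le_sum fun j (_ : j ∈ Finset.univ) => h3 j
    rw [add_div, Finset.sum_div, Finset.sum_div]
    rw [Finset.sum_sub_distrib, Finset.sum_const, Finset.card_univ, nsmul_eq_mul, mul_one,
      ← Finset.sum_div] at h4
    rw [← Finset.sum_div] at h5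
    nlinarith
  have hmeas' : ∀ᶠ s in l, Measurable fun p : (ι → ℝ) × (κ → ℝ) =>
      G s (fl (c s + R s • p.1)) (c' s + R s • p.2) := by
    filter_upwards [hmeas] with s hs
    have h1 : Measurable fun q : (ι → ℤ) × (κ → ℝ) => G s q.1 q.2 :=
      measurable_from_prod_countable_right fun k => hs k
    refine h1.comp (Measurable.prodMk ?_ ?_)
    · exact measurable_fl.comp ((measurable_fst.const_smul (R s)).const_add (c s))
    · exact (measurable_snd.const_smul (R s)).const_add (c' s)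
  have key : ∀ᶠ s in l, ∫ p : (ι → ℝ) × (κ → ℝ), G s (fl (c s + R s • p.1)) (c' s + R s • p.2) =
      ((R s : ℂ)⁻¹) ^ (Fintype.card ι + Fintype.card κ) * ∑' k, ∫ z, G s k z := by
    filter_upwards [hR, hdom', hmeas'] with s hs hds hms
    have hs0 : 0 < R s := by linarith
    have hint : Integrable fun p : (ι → ℝ) × (κ → ℝ) =>
        G s (fl (c s + R s • p.1)) (c' s + R s • p.2) :=
      hbdi.mono' hms.aestronglyMeasurable (Eventually.of_forall hds)
    rw [Measure.volume_eq_prod, integral_prod _ (by rw [← Measure.volume_eq_prod]; exact hint)]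
    have h1 : ∀ X : ι → ℝ, ∫ Z : κ → ℝ, G s (fl (c s + R s • X)) (c' s + R s • Z) =
        ((R s : ℂ)⁻¹) ^ Fintype.card κ * ∫ z, G s (fl (c s + R s • X)) z := fun X =>
      integral_affine hs0 (c' s) (fun z => G s (fl (c s + R s • X)) z)
    simp_rw [h1]
    rw [integral_const_mul, integral_fl_affine hs0 (c s) (fun k => ∫ z, G s k z), ← mul_assoc,
      pow_add, mul_comm (((R s : ℂ)⁻¹) ^ Fintype.card ι)]
  refine Tendsto.congr' key ?_
  refine tendsto_integral_filter_of_dominated_convergence bd ?_ ?_ hbdi ?_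
  · filter_upwards [hmeas'] with s hs
    exact hs.aestronglyMeasurable
  · filter_upwards [hdom'] with s hs
    exact Eventually.of_forall hs
  · exact Eventually.of_forall fun p => hlim p.1 p.2

end Pool.Agent.Work.MP_b30479_gt.VC
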