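import Pool.Agent.Work.MP_b30479_gt.VC.AbelPlana

/-!
# Sums and integrals: the finite height form of the midpoint Abel-Plana formula
-/

namespace Pool.Agent.Work.MP_b30479_gt.VC

open MeasureTheory Complex Set Filter Topology

/-- the kernel `e^{2πiz}/(1 - e^{2πiz})` -/
noncomputable def wk (z : ℂ) : ℂ := e1 z / (1 - e1 z)

theorem e1_lt_one {z : ℂ} (hz : 0 < z.im) : ‖e1 z‖ < 1 := by
  rw [norm_e1, Real.exp_lt_one_iff]
  have := Real.pi_pos
  have : 0 < 2 * Real.pi * z.im := by positivity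
  linarith

theorem one_sub_e1_slit {z : ℂ} (hz : 0 < z.im) : 1 - e1 z ∈ slitPlane := by
  left
  have h1 := e1_lt_one hz
  have h2 := (abs_le.mp (Complex.abs_re_le_norm (e1 z))).2
  rw [sub_re, one_re]
  linarith

theorem one_sub_e1_ne {z : ℂ} (hz : 0 < z.im) : 1 - e1 z ≠ 0 :=
  slitPlane_ne_zero (one_sub_e1_slit hz)

theorem hasDerivAt_log_e1 {z : ℂ} (hz : 0 < z.im) :
    HasDerivAt (fun u => -(Complex.log (1 - e1 u)) / (2 * Real.pi * I)) (wk z) z := by
  have h1 : HasDerivAt (fun u => 1 - e1 u) (-(e1 z * (2 * Real.pi * I))) z :=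
    (hasDerivAt_e1 z).const_sub 1
  have h2 := ((h1.clog (one_sub_e1_slit hz)).neg).div_const (2 * Real.pi * I)
  have h3 : -(-(e1 z * (2 * Real.pi * I)) / (1 - e1 z)) / (2 * Real.pi * I) = wk z := by
    have h4 : (2 * Real.pi * I : ℂ) ≠ 0 := two_pi_I_ne_zero
    have h5 := one_sub_e1_ne hz
    unfold wk
    field_simp
  rw [h3] at h2
  exact h2

theorem continuousAt_wk {z : ℂ} (hz : 0 < z.im) : ContinuousAt wk z := by
  have h1 : ContinuousAt e1 z := differentiable_e1.continuous.continuousAt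
  exact h1.div (continuousAt_const.sub h1) (one_sub_e1_ne hz)

theorem cont_wk_line {h : ℝ} (hh : 0 < h) : Continuous fun x : ℝ => wk (x + h * I) := by
  rw [continuous_iff_continuousAt]
  intro x
  have h1 : 0 < ((x : ℂ) + h * I).im := by simpa using hh
  exact ContinuousAt.comp (f := fun x : ℝ => (x : ℂ) + h * I) (continuousAt_wk h1) (by fun_prop)

theorem norm_wk_le {z : ℂ} (hz : 0 < z.im) : ‖wk z‖ ≤ Real.exp (-(2 * Real.pi) * z.im) /
    (1 - Real.exp (-(2 * Real.pi) * z.im)) := by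
  have h1 := e1_lt_one hz
  rw [wk, norm_div, ← norm_e1]
  apply div_le_div_of_nonneg_left (norm_nonneg _) (by linarith)
  have h2 := norm_sub_norm_le (1 : ℂ) (e1 z)
  rw [norm_one] at h2
  exact h2

theorem wk_add_int (z : ℂ) (k : ℤ) : wk (z + k) = wk z := by
  unfold wk
  rw [e1_add_int]

/-- the mean value of `wk` vanishes -/
theorem integral_wk {h : ℝ} (hh : 0 < h) (a : ℝ) : ∫ x in a..(a + 1), wk (x + h * I) = 0 := by
  have h1 : ∀ x ∈ uIcc a (a + 1), HasDerivAt
      (fun x : ℝ => -(Complex.log (1 - e1 (x + h * I))) / (2 * Real.pi * I)) (wk (x + h * I)) x := by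
    intro x _
    have h2 : 0 < ((x : ℂ) + h * I).im := by simpa using hh
    have h3 := hasDerivAt_log_e1 h2
    have h4 : HasDerivAt (fun x : ℂ => x + (h : ℂ) * I) 1 (x : ℂ) := by
      simpa using (hasDerivAt_id (x : ℂ)).add_const ((h : ℂ) * I)
    have h5 := (HasDerivAt.comp (x : ℂ) h3 h4).comp_ofReal
    simpa using h5
  rw [intervalIntegral.integral_eq_sub_of_hasDerivAt h1
    ((cont_wk_line hh).intervalIntegrable _ _)]
  have h2 : e1 (((a + 1 : ℝ) : ℂ) + h * I) = e1 ((a : ℂ) + h * I) := by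
    have := e1_add_int ((a : ℂ) + h * I) 1
    rw [← this]
    congr 1
    push_cast
    ring
  rw [h2, sub_self]

/-- the closed rectangle -/
def crect (a b h : ℝ) : Set ℂ := {z | a ≤ z.re ∧ z.re ≤ b ∧ |z.im| ≤ h}

theorem contOn_of_diff {g : ℂ → ℂ} {S : Set ℂ} (hg : ∀ z ∈ S, DifferentiableAt ℂ g z) :
    ContinuousOn g S := fun z hz => (hg z hz).continuousAt.continuousWithinAt

/-- upper half of one cell -/
theorem cell_up' {g : ℂ → ℂ} {h : ℝ} (hh : 0 < h)
    (hg : ∀ z ∈ crect (-(1 / 2)) (1 / 2) h, DifferentiableAt ℂ g z) :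
    (∫ x : ℝ in (-(1 / 2) : ℝ)..(1 / 2), auxF g x) =
      (∫ x : ℝ in (-(1 / 2) : ℝ)..(1 / 2), wk (x + h * I) * g (x + h * I)) +
      I * ((∫ y : ℝ in (0 : ℝ)..h, (rho y : ℂ) * g ((1 / 2 : ℝ) + y * I)) -
        ∫ y : ℝ in (0 : ℝ)..h, (rho y : ℂ) * g ((-(1 / 2) : ℝ) + y * I)) := by
  have h0 : (0 : ℂ) ∈ crect (-(1 / 2)) (1 / 2) h := by
    refine ⟨by norm_num, by norm_num, ?_⟩
    simpa using hh.le
  have hd0 := hg 0 h0
  have hcell : ∀ z ∈ crect (-(1 / 2)) (1 / 2) h, z ∈ strip (-(1 / 2)) (1 / 2) :=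
    fun z hz => ⟨hz.1, hz.2.1⟩
  have hds : ∀ z ∈ crect (-(1 / 2)) (1 / 2) h, ContinuousAt (auxF g) z := by
    intro z hz
    unfold auxF
    have h1 : ContinuousAt (dslope g 0) z := by
      by_cases hz0 : z = 0
      · rw [hz0]
        exact continuousAt_dslope_same.mpr hd0
      · exact ((differentiableAt_dslope_of_ne hz0).mpr (hg z hz)).continuousAt
    have h2 : ContinuousAt (dslope e1 0) z := by
      by_cases hz0 : z = 0
      · rw [hz0]
        exact continuousAt_dslope_same.mpr (differentiable_e1 0)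
      · exact ((differentiableAt_dslope_of_ne hz0).mpr (differentiable_e1 z)).continuousAt
    exact ContinuousAt.smul (differentiable_e1.continuous.continuousAt.mul
      (h2.neg.inv₀ (neg_ne_zero.mpr (dslope_e1_ne (hcell z hz))))) h1
  have hdd : ∀ z ∈ crect (-(1 / 2)) (1 / 2) h, z ≠ 0 → DifferentiableAt ℂ (auxF g) z := by
    intro z hz hz0
    unfold auxF
    have h1 : DifferentiableAt ℂ (dslope g 0) z := (differentiableAt_dslope_of_ne hz0).mpr (hg z hz)
    have h2 : DifferentiableAt ℂ (dslope e1 0) z :=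
      (differentiableAt_dslope_of_ne hz0).mpr (differentiable_e1 z)
    exact ((differentiable_e1 z).mul (h2.neg.inv
      (neg_ne_zero.mpr (dslope_e1_ne (hcell z hz))))).smul h1
  have hR := Complex.integral_boundary_rect_eq_zero_of_continuousOn_of_differentiableOn (auxF g)
    (⟨-(1 / 2), 0⟩ : ℂ) (⟨1 / 2, h⟩ : ℂ) (by
      rintro z ⟨hz1, hz2⟩
      simp only [mem_preimage, uIcc_of_le (by norm_num : (-(1 / 2) : ℝ) ≤ 1 / 2), mem_Icc,
        uIcc_of_le hh.le] at hz1 hz2
      refine (hds z ⟨hz1.1, hz1.2, ?_⟩).continuousWithinAt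
      rw [abs_of_nonneg hz2.1]
      exact hz2.2) (by
      rintro z ⟨hz1, hz2⟩
      simp only [mem_preimage, min_eq_left (by norm_num : (-(1 / 2) : ℝ) ≤ 1 / 2),
        max_eq_right (by norm_num : (-(1 / 2) : ℝ) ≤ 1 / 2), mem_Ioo, min_eq_left hh.le,
        max_eq_right hh.le] at hz1 hz2
      refine (hdd z ⟨hz1.1.le, hz1.2.le, ?_⟩ ?_).differentiableWithinAt
      · rw [abs_of_pos hz2.1]
        exact hz2.2.le
      · rintro rfl
        simp at hz2)
  simp only [ofReal_zero, zero_mul, add_zero, smul_eq_mul] at hR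
  have hvert : ∀ ξ : ℝ, -(1 / 2) ≤ ξ → ξ ≤ 1 / 2 →
      (∀ y : ℝ, auxF g (ξ + y * I) = -(rho y • (g (ξ + y * I) - g 0))) →
      (∫ y : ℝ in (0 : ℝ)..h, auxF g (ξ + y * I)) =
        (∫ y : ℝ in (0 : ℝ)..h, (rho y : ℂ) * g 0) -
          ∫ y : ℝ in (0 : ℝ)..h, (rho y : ℂ) * g (ξ + y * I) := by
    intro ξ hξ1 hξ2 hξ
    have i1 : IntervalIntegrable (fun y : ℝ => (rho y : ℂ) * g 0) volume 0 h :=
      ((Complex.continuous_ofReal.comp continuous_rho).mul continuous_const).intervalIntegrable _ _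
    have i2 : IntervalIntegrable (fun y : ℝ => (rho y : ℂ) * g (ξ + y * I)) volume 0 h := by
      apply ContinuousOn.intervalIntegrable
      refine ((Complex.continuous_ofReal.comp continuous_rho).continuousOn).mul ?_
      intro y hy
      rw [uIcc_of_le hh.le] at hy
      have hm : (ξ : ℂ) + y * I ∈ crect (-(1 / 2)) (1 / 2) h := by
        refine ⟨by simpa using hξ1, by simpa using hξ2, ?_⟩
        simp only [add_im, ofReal_im, mul_im, ofReal_re, I_im, mul_one, I_re, mul_zero, add_zero,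
          zero_add]
        rw [abs_of_nonneg hy.1]
        exact hy.2
      have := (hg _ hm).continuousAt
      exact (this.comp (f := fun y : ℝ => (ξ : ℂ) + y * I) (by fun_prop)).continuousWithinAt
    rw [← intervalIntegral.integral_sub i1 i2]
    refine intervalIntegral.integral_congr fun y _ => ?_
    simp only [hξ y, real_smul]
    ring
  have hv1 := hvert (1 / 2) (by norm_num) le_rfl (auxF_half g)
  have hv2 := hvert (-(1 / 2)) le_rfl (by norm_num) (auxF_neg_half g)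
  have htop : (∫ x : ℝ in (-(1 / 2) : ℝ)..(1 / 2), auxF g (x + h * I)) =
      ∫ x : ℝ in (-(1 / 2) : ℝ)..(1 / 2), wk (x + h * I) * g (x + h * I) := by
    have hcw := cont_wk_line hh
    have i2 : IntervalIntegrable (fun x : ℝ => wk (x + h * I) * g (x + h * I)) volume
        (-(1 / 2)) (1 / 2) := by
      apply ContinuousOn.intervalIntegrable
      refine hcw.continuousOn.mul ?_
      intro x hx
      rw [uIcc_of_le (by norm_num : (-(1 / 2) : ℝ) ≤ 1 / 2)] at hx
      have hm : (x : ℂ) + h * I ∈ crect (-(1 / 2)) (1 / 2) h := by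
        refine ⟨by simpa using hx.1, by simpa using hx.2, ?_⟩
        simp [abs_of_pos hh]
      have := (hg _ hm).continuousAt
      exact (this.comp (f := fun x : ℝ => (x : ℂ) + h * I) (by fun_prop)).continuousWithinAt
    have i1 : IntervalIntegrable (fun x : ℝ => wk (x + h * I) * g 0) volume
        (-(1 / 2)) (1 / 2) := (hcw.mul continuous_const).intervalIntegrable _ _
    have e1' : (∫ x : ℝ in (-(1 / 2) : ℝ)..(1 / 2), auxF g (x + h * I)) =
        (∫ x : ℝ in (-(1 / 2) : ℝ)..(1 / 2), (wk (x + h * I) * g (x + h * I) -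
          wk (x + h * I) * g 0)) := by
      refine intervalIntegral.integral_congr fun x _ => ?_
      have hne : (x : ℂ) + h * I ≠ 0 := by
        intro hz
        have := congrArg Complex.im hz
        simp at this
        exact hh.ne' this
      simp only [auxF_of_ne g hne, smul_eq_mul, wk]
      ring
    rw [e1', intervalIntegral.integral_sub i2 i1, intervalIntegral.integral_mul_const]
    have := integral_wk hh (-(1 / 2))
    rw [show (-(1 / 2) : ℝ) + 1 = 1 / 2 by norm_num] at this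
    rw [this, zero_mul, sub_zero]
  rw [htop] at hR
  have hv1' : (∫ y : ℝ in (0 : ℝ)..h, auxF g (((1 / 2 : ℝ) : ℂ) + y * I)) = _ := hv1
  have hv2' : (∫ y : ℝ in (0 : ℝ)..h, auxF g (((-(1 / 2) : ℝ) : ℂ) + y * I)) = _ := hv2
  rw [hv1', hv2'] at hR
  linear_combination hR

/-- `auxF g x + auxF (g ∘ neg) (-x) = -(g x - g 0)` -/
theorem auxF_add_neg {g : ℂ → ℂ} {x : ℂ} (hx : x ∈ strip (-(1 / 2)) (1 / 2)) (hx0 : x ≠ 0) :
    auxF g x + auxF (fun z => g (-z)) (-x) = -(g x - g 0) := by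
  have h1 : e1 x ≠ 1 := fun h => hx0 (e1_eq_one hx h)
  have h2 : 1 - e1 x ≠ 0 := sub_ne_zero.mpr (Ne.symm h1)
  have h3 := e1_ne_zero x
  rw [auxF_of_ne g hx0, auxF_of_ne _ (neg_ne_zero.mpr hx0), e1_neg, neg_neg, neg_zero, smul_eq_mul,
    smul_eq_mul]
  have h4 : (e1 x)⁻¹ / (1 - (e1 x)⁻¹) = -(1 / (1 - e1 x)) := by
    have h5 : 1 - (e1 x)⁻¹ ≠ 0 := by
      intro h
      apply h1
      have : (e1 x)⁻¹ = 1 := (sub_eq_zero.mp h).symm
      rwa [inv_eq_one] at this
    have h6 : e1 x - 1 ≠ 0 := sub_ne_zero.mpr h1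
    field_simp
    ring
  rw [h4]
  field_simp
  ring

theorem crect_neg {a h : ℝ} {z : ℂ} (hz : z ∈ crect (-a) a h) : -z ∈ crect (-a) a h := by
  refine ⟨?_, ?_, ?_⟩
  · rw [neg_re]; linarith [hz.2.1]
  · rw [neg_re]; linarith [hz.1]
  · rw [neg_im, abs_neg]; exact hz.2.2

/-- one cell, centre `0` -/
theorem cell_fin {g : ℂ → ℂ} {h : ℝ} (hh : 0 < h)
    (hg : ∀ z ∈ crect (-(1 / 2)) (1 / 2) h, DifferentiableAt ℂ g z) :
    g 0 = (∫ x : ℝ in (-(1 / 2) : ℝ)..(1 / 2), g x) +
      (∫ x : ℝ in (-(1 / 2) : ℝ)..(1 / 2), wk (x + h * I) * g (x + h * I)) +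
      (∫ x : ℝ in (-(1 / 2) : ℝ)..(1 / 2), wk (-x + h * I) * g (x - h * I)) +
      I * ((∫ y : ℝ in (0 : ℝ)..h, (rho y : ℂ) * (g ((1 / 2 : ℝ) + y * I) -
          g ((1 / 2 : ℝ) - y * I))) -
        ∫ y : ℝ in (0 : ℝ)..h, (rho y : ℂ) * (g ((-(1 / 2) : ℝ) + y * I) -
          g ((-(1 / 2) : ℝ) - y * I))) := by
  have hgn : ∀ z ∈ crect (-(1 / 2)) (1 / 2) h, DifferentiableAt ℂ (fun z => g (-z)) z := by
    intro z hz
    exact (hg (-z) (crect_neg hz)).comp z differentiableAt_id.neg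
  have hU := cell_up' hh hg
  have hD := cell_up' hh hgn
  have hcont : ∀ {F : ℂ → ℂ}, (∀ z ∈ crect (-(1 / 2)) (1 / 2) h, DifferentiableAt ℂ F z) →
      IntervalIntegrable (fun x : ℝ => auxF F x) volume (-(1 / 2)) (1 / 2) := by
    intro F hF
    apply ContinuousOn.intervalIntegrable
    intro x hx
    rw [uIcc_of_le (by norm_num : (-(1 / 2) : ℝ) ≤ 1 / 2)] at hx
    have hm : (x : ℂ) ∈ crect (-(1 / 2)) (1 / 2) h := by
      refine ⟨by simpa using hx.1, by simpa using hx.2, ?_⟩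
      simpa using hh.le
    have h0 : (0 : ℂ) ∈ crect (-(1 / 2)) (1 / 2) h := by
      refine ⟨by norm_num, by norm_num, ?_⟩
      simpa using hh.le
    have hds : ContinuousAt (auxF F) (x : ℂ) := by
      unfold auxF
      have h1 : ContinuousAt (dslope F 0) (x : ℂ) := by
        by_cases hz0 : (x : ℂ) = 0
        · rw [hz0]
          exact continuousAt_dslope_same.mpr (hF 0 h0)
        · exact ((differentiableAt_dslope_of_ne hz0).mpr (hF x hm)).continuousAt
      have h2 : ContinuousAt (dslope e1 0) (x : ℂ) := by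
        by_cases hz0 : (x : ℂ) = 0
        · rw [hz0]
          exact continuousAt_dslope_same.mpr (differentiable_e1 0)
        · exact ((differentiableAt_dslope_of_ne hz0).mpr (differentiable_e1 x)).continuousAt
      exact ContinuousAt.smul (differentiable_e1.continuous.continuousAt.mul
        (h2.neg.inv₀ (neg_ne_zero.mpr (dslope_e1_ne ⟨hm.1, hm.2.1⟩)))) h1
    exact (hds.comp (f := fun x : ℝ => (x : ℂ)) (by fun_prop)).continuousWithinAt
  -- sum of the two bottoms
  have hsum : (∫ x : ℝ in (-(1 / 2) : ℝ)..(1 / 2), auxF g x) +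
      (∫ x : ℝ in (-(1 / 2) : ℝ)..(1 / 2), auxF (fun z => g (-z)) x) =
      g 0 - ∫ x : ℝ in (-(1 / 2) : ℝ)..(1 / 2), g x := by
    have e1' : (∫ x : ℝ in (-(1 / 2) : ℝ)..(1 / 2), auxF (fun z => g (-z)) x) =
        ∫ x : ℝ in (-(1 / 2) : ℝ)..(1 / 2), auxF (fun z => g (-z)) (-x) := by
      have := intervalIntegral.integral_comp_neg (a := -(1 / 2 : ℝ)) (b := 1 / 2)
        (fun x : ℝ => auxF (fun z => g (-z)) x)
      rw [neg_neg] at this
      rw [← this]
      refine intervalIntegral.integral_congr fun x _ => ?_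
      simp only [ofReal_neg]
    have i3 : IntervalIntegrable (fun x : ℝ => auxF (fun z => g (-z)) (-x)) volume
        (-(1 / 2)) (1 / 2) := by
      have := (hcont hgn).comp_mul_left (c := -1)
      rw [show (-(1 / 2) : ℝ) / -1 = 1 / 2 by norm_num, show (1 / 2 : ℝ) / -1 = -(1 / 2) by norm_num]
        at this
      refine this.symm.congr ?_
      intro x _
      simp only [neg_one_mul, ofReal_neg]
    have hgc : IntervalIntegrable (fun x : ℝ => g x) volume (-(1 / 2)) (1 / 2) := by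
      apply ContinuousOn.intervalIntegrable
      intro x hx
      rw [uIcc_of_le (by norm_num : (-(1 / 2) : ℝ) ≤ 1 / 2)] at hx
      have hm : (x : ℂ) ∈ crect (-(1 / 2)) (1 / 2) h := by
        refine ⟨by simpa using hx.1, by simpa using hx.2, ?_⟩
        simpa using hh.le
      exact ((hg x hm).continuousAt.comp (f := fun x : ℝ => (x : ℂ)) (by fun_prop)).continuousWithinAt
    rw [e1', ← intervalIntegral.integral_add (hcont hg) i3]
    have e2 : (∫ x : ℝ in (-(1 / 2) : ℝ)..(1 / 2), (auxF g x + auxF (fun z => g (-z)) (-x))) =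
        ∫ x : ℝ in (-(1 / 2) : ℝ)..(1 / 2), (g 0 - g x) := by
      apply intervalIntegral.integral_congr_ae
      have h3 : ∀ᵐ x : ℝ, x ≠ 0 := by
        have := (Set.countable_singleton (0 : ℝ)).ae_notMem volume
        filter_upwards [this] with x hx
        simpa using hx
      filter_upwards [h3] with x hx hx2
      rw [uIoc_of_le (by norm_num : (-(1 / 2) : ℝ) ≤ 1 / 2)] at hx2
      rw [auxF_add_neg ⟨by simpa using hx2.1.le, by simpa using hx2.2⟩ (by exact_mod_cast hx)]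
      ring
    rw [e2, intervalIntegral.integral_sub intervalIntegrable_const hgc,
      intervalIntegral.integral_const]
    norm_num
  rw [hU, hD] at hsum
  have e3 : (∫ x : ℝ in (-(1 / 2) : ℝ)..(1 / 2), wk (x + h * I) * g (-(x + h * I))) =
      ∫ x : ℝ in (-(1 / 2) : ℝ)..(1 / 2), wk (-x + h * I) * g (x - h * I) := by
    have := intervalIntegral.integral_comp_neg (a := -(1 / 2 : ℝ)) (b := 1 / 2)
      (fun x : ℝ => wk (x + h * I) * g (-(x + h * I)))
    rw [neg_neg] at this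
    rw [← this]
    refine intervalIntegral.integral_congr fun x _ => ?_
    simp only [ofReal_neg]
    congr 2
    ring
  rw [e3] at hsum
  have hii : ∀ ξ : ℝ, -(1 / 2) ≤ ξ → ξ ≤ 1 / 2 → ∀ σ : ℝ, |σ| = 1 →
      IntervalIntegrable (fun y : ℝ => (rho y : ℂ) * g (ξ + σ * (y * I))) volume 0 h := by
    intro ξ h1 h2 σ hσ
    apply ContinuousOn.intervalIntegrable
    refine ((Complex.continuous_ofReal.comp continuous_rho).continuousOn).mul ?_
    intro y hy
    rw [uIcc_of_le hh.le] at hy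
    have hm : (ξ : ℂ) + σ * (y * I) ∈ crect (-(1 / 2)) (1 / 2) h := by
      have e4 : (ξ : ℂ) + σ * (y * I) = ξ + ((σ * y : ℝ) : ℂ) * I := by push_cast; ring
      rw [e4]
      refine ⟨by simpa using h1, by simpa using h2, ?_⟩
      simp only [add_im, ofReal_im, mul_im, ofReal_re, I_im, mul_one, I_re, mul_zero, add_zero,
        zero_add]
      rw [abs_mul, hσ, one_mul, abs_of_nonneg hy.1]
      exact hy.2
    exact ((hg _ hm).continuousAt.comp (f := fun y : ℝ => (ξ : ℂ) + σ * (y * I))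
      (by fun_prop)).continuousWithinAt
  have hsp : ∀ ξ : ℝ, -(1 / 2) ≤ ξ → ξ ≤ 1 / 2 →
      (∫ y : ℝ in (0 : ℝ)..h, (rho y : ℂ) * (g (ξ + y * I) - g (ξ - y * I))) =
      (∫ y : ℝ in (0 : ℝ)..h, (rho y : ℂ) * g (ξ + y * I)) -
        ∫ y : ℝ in (0 : ℝ)..h, (rho y : ℂ) * g (ξ - y * I) := by
    intro ξ h1 h2
    have j1 := hii ξ h1 h2 1 (by norm_num)
    have j2 := hii ξ h1 h2 (-1) (by norm_num)
    rw [← intervalIntegral.integral_sub]
    · refine intervalIntegral.integral_congr fun y _ => ?_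
      ring
    · refine j1.congr ?_
      intro y _
      simp
    · refine j2.congr ?_
      intro y _
      simp only [ofReal_neg, ofReal_one, neg_one_mul]
      rw [← sub_eq_add_neg]
  rw [hsp (1 / 2) (by norm_num) le_rfl, hsp (-(1 / 2)) le_rfl (by norm_num)]
  have e5 : (∫ y : ℝ in (0 : ℝ)..h, (rho y : ℂ) * g (-(((1 / 2 : ℝ) : ℂ) + y * I))) =
      ∫ y : ℝ in (0 : ℝ)..h, (rho y : ℂ) * g (((-(1 / 2) : ℝ) : ℂ) - y * I) := by
    refine intervalIntegral.integral_congr fun y _ => ?_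
    congr 2
    push_cast
    ring
  have e6 : (∫ y : ℝ in (0 : ℝ)..h, (rho y : ℂ) * g (-(((-(1 / 2) : ℝ) : ℂ) + y * I))) =
      ∫ y : ℝ in (0 : ℝ)..h, (rho y : ℂ) * g (((1 / 2 : ℝ) : ℂ) - y * I) := by
    refine intervalIntegral.integral_congr fun y _ => ?_
    congr 2
    push_cast
    ring
  rw [e5, e6] at hsum
  linear_combination -hsum

/-- the contribution of a vertical side -/
noncomputable def Vs (g : ℂ → ℂ) (h ξ : ℝ) : ℂ :=
  ∫ y : ℝ in (0 : ℝ)..h, (rho y : ℂ) * (g ((ξ : ℂ) + y * I) - g ((ξ : ℂ) - y * I))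

/-- one cell, centre `k` -/
theorem cell_fin_int {g : ℂ → ℂ} {h : ℝ} (hh : 0 < h) (k : ℤ)
    (hg : ∀ z ∈ crect (k - 1 / 2) (k + 1 / 2) h, DifferentiableAt ℂ g z) :
    g k = (∫ x : ℝ in ((k : ℝ) - 1 / 2)..(k + 1 / 2), g x) +
      (∫ x : ℝ in ((k : ℝ) - 1 / 2)..(k + 1 / 2), wk (x + h * I) * g (x + h * I)) +
      (∫ x : ℝ in ((k : ℝ) - 1 / 2)..(k + 1 / 2), wk (-x + h * I) * g (x - h * I)) +
      I * (Vs g h (k + 1 / 2) - Vs g h (k - 1 / 2)) := by
  have hg' : ∀ z ∈ crect (-(1 / 2)) (1 / 2) h, DifferentiableAt ℂ (fun z => g (k + z)) z := by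
    intro z hz
    have hm : (k : ℂ) + z ∈ crect (k - 1 / 2) (k + 1 / 2) h := by
      refine ⟨?_, ?_, ?_⟩
      · rw [add_re, intCast_re]; linarith [hz.1]
      · rw [add_re, intCast_re]; linarith [hz.2.1]
      · rw [add_im, intCast_im, zero_add]; exact hz.2.2
    exact (hg _ hm).comp z (differentiableAt_id.const_add _)
  have h1 := cell_fin hh hg'
  rw [add_zero] at h1
  have a1 : (-(1 / 2) : ℝ) + k = k - 1 / 2 := by ring
  have a2 : (1 / 2 : ℝ) + k = k + 1 / 2 := by ring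
  have t1 : (∫ x : ℝ in (-(1 / 2) : ℝ)..(1 / 2), g (k + x)) =
      ∫ x : ℝ in ((k : ℝ) - 1 / 2)..(k + 1 / 2), g x := by
    have := intervalIntegral.integral_comp_add_right (a := -(1 / 2 : ℝ)) (b := 1 / 2)
      (fun x : ℝ => g x) (k : ℝ)
    rw [a1, a2] at this
    rw [← this]
    refine intervalIntegral.integral_congr fun x _ => ?_
    simp only [ofReal_add, ofReal_intCast]
    rw [add_comm]
  have t2 : (∫ x : ℝ in (-(1 / 2) : ℝ)..(1 / 2), wk (x + h * I) * g (k + (x + h * I))) =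
      ∫ x : ℝ in ((k : ℝ) - 1 / 2)..(k + 1 / 2), wk (x + h * I) * g (x + h * I) := by
    have := intervalIntegral.integral_comp_add_right (a := -(1 / 2 : ℝ)) (b := 1 / 2)
      (fun x : ℝ => wk (x + h * I) * g (x + h * I)) (k : ℝ)
    rw [a1, a2] at this
    rw [← this]
    refine intervalIntegral.integral_congr fun x _ => ?_
    simp only [ofReal_add, ofReal_intCast]
    rw [← wk_add_int (x + h * I) k]
    congr 2 <;> ring
  have t3 : (∫ x : ℝ in (-(1 / 2) : ℝ)..(1 / 2), wk (-x + h * I) * g (k + (x - h * I))) =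
      ∫ x : ℝ in ((k : ℝ) - 1 / 2)..(k + 1 / 2), wk (-x + h * I) * g (x - h * I) := by
    have := intervalIntegral.integral_comp_add_right (a := -(1 / 2 : ℝ)) (b := 1 / 2)
      (fun x : ℝ => wk (-x + h * I) * g (x - h * I)) (k : ℝ)
    rw [a1, a2] at this
    rw [← this]
    refine intervalIntegral.integral_congr fun x _ => ?_
    simp only [ofReal_add, ofReal_intCast]
    rw [← wk_add_int (-(x + k) + h * I) k]
    congr 2 <;> ring
  have t4 : ∀ ξ : ℝ, (∫ y : ℝ in (0 : ℝ)..h, (rho y : ℂ) * (g (k + (ξ + y * I)) -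
      g (k + (ξ - y * I)))) = Vs g h (k + ξ) := by
    intro ξ
    unfold Vs
    refine intervalIntegral.integral_congr fun y _ => ?_
    simp only [ofReal_add, ofReal_intCast]
    congr 3 <;> ring
  have t5 := t4 (1 / 2)
  have t6 := t4 (-(1 / 2))
  rw [t1, t2, t3, t5, t6] at h1
  rw [h1]
  congr 3

theorem crect_mono {a b a' b' h : ℝ} (h1 : a' ≤ a) (h2 : b ≤ b') {z : ℂ} (hz : z ∈ crect a b h) :
    z ∈ crect a' b' h := ⟨h1.trans hz.1, hz.2.1.trans h2, hz.2.2⟩

/-- **Finite sums**, finite height -/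
theorem rect_sum {g : ℂ → ℂ} {h : ℝ} (hh : 0 < h) (a : ℤ) (N : ℕ)
    (hg : ∀ z ∈ crect (a - 1 / 2) (a + N - 1 / 2) h, DifferentiableAt ℂ g z) :
    ∑ j ∈ Finset.range N, g (a + j) = (∫ x : ℝ in ((a : ℝ) - 1 / 2)..(a + N - 1 / 2), g x) +
      (∫ x : ℝ in ((a : ℝ) - 1 / 2)..(a + N - 1 / 2), wk (x + h * I) * g (x + h * I)) +
      (∫ x : ℝ in ((a : ℝ) - 1 / 2)..(a + N - 1 / 2), wk (-x + h * I) * g (x - h * I)) +
      I * (Vs g h (a + N - 1 / 2) - Vs g h (a - 1 / 2)) := by
  induction N with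
  | zero => simp
  | succ N ih =>
    have hN : (0 : ℝ) ≤ N := Nat.cast_nonneg N
    have e1' : (a : ℝ) + ((N + 1 : ℕ) : ℝ) - 1 / 2 = a + N + 1 / 2 := by push_cast; ring
    rw [e1'] at hg
    have ih' := ih fun z hz => hg z (crect_mono le_rfl (by linarith) hz)
    have hk : (((a + (N : ℤ) : ℤ)) : ℝ) = a + N := by push_cast; ring
    have hc := cell_fin_int (g := g) hh (a + (N : ℤ)) fun z hz => by
      rw [hk] at hz
      exact hg z (crect_mono (by linarith) le_rfl hz)
    rw [hk] at hc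
    have hkc : (((a + (N : ℤ) : ℤ)) : ℂ) = a + N := by push_cast; ring
    rw [hkc] at hc
    rw [Finset.sum_range_succ, ih', hc, e1']
    have cont : ∀ {F : ℝ → ℂ}, (∀ x : ℝ, (a : ℝ) - 1 / 2 ≤ x → x ≤ a + N + 1 / 2 →
        ContinuousAt F x) → ∀ {u v : ℝ}, (a : ℝ) - 1 / 2 ≤ u → u ≤ v → v ≤ a + N + 1 / 2 →
        IntervalIntegrable F volume u v := by
      intro F hF u v h1 h2 h3
      apply ContinuousOn.intervalIntegrable
      intro x hx
      rw [uIcc_of_le h2] at hx
      exact (hF x (h1.trans hx.1) (hx.2.trans h3)).continuousWithinAt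
    have c1 : ∀ x : ℝ, (a : ℝ) - 1 / 2 ≤ x → x ≤ a + N + 1 / 2 →
        ContinuousAt (fun x : ℝ => g x) x := by
      intro x h1 h2
      have hm : (x : ℂ) ∈ crect (a - 1 / 2) (a + N + 1 / 2) h :=
        ⟨by simpa using h1, by simpa using h2, by simpa using hh.le⟩
      exact (hg _ hm).continuousAt.comp (f := fun x : ℝ => (x : ℂ)) (by fun_prop)
    have c2 : ∀ x : ℝ, (a : ℝ) - 1 / 2 ≤ x → x ≤ a + N + 1 / 2 →
        ContinuousAt (fun x : ℝ => wk (x + h * I) * g (x + h * I)) x := by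
      intro x h1 h2
      have hm : (x : ℂ) + h * I ∈ crect (a - 1 / 2) (a + N + 1 / 2) h :=
        ⟨by simpa using h1, by simpa using h2, by simp [abs_of_pos hh]⟩
      exact (cont_wk_line hh).continuousAt.mul ((hg _ hm).continuousAt.comp
        (f := fun x : ℝ => (x : ℂ) + h * I) (by fun_prop))
    have c3 : ∀ x : ℝ, (a : ℝ) - 1 / 2 ≤ x → x ≤ a + N + 1 / 2 →
        ContinuousAt (fun x : ℝ => wk (-x + h * I) * g (x - h * I)) x := by
      intro x h1 h2
      have hm : (x : ℂ) - h * I ∈ crect (a - 1 / 2) (a + N + 1 / 2) h :=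
        ⟨by simpa using h1, by simpa using h2, by simp [abs_of_pos hh]⟩
      have h3 : ContinuousAt (fun x : ℝ => wk (-x + h * I)) x := by
        have h4 := (cont_wk_line hh).comp continuous_neg
        have h5 : (fun x : ℝ => wk (-x + h * I)) = (fun x : ℝ => wk (x + h * I)) ∘ fun x => -x := by
          funext x
          simp
        rw [h5]
        exact h4.continuousAt
      exact h3.mul ((hg _ hm).continuousAt.comp
        (f := fun x : ℝ => (x : ℂ) - h * I) (by fun_prop))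
    have m1 : (a : ℝ) - 1 / 2 ≤ a + N - 1 / 2 := by linarith
    have m2 : (a : ℝ) + N - 1 / 2 ≤ a + N + 1 / 2 := by linarith
    rw [← intervalIntegral.integral_add_adjacent_intervals (cont c1 le_rfl m1 m2) (cont c1 m1 m2 le_rfl),
      ← intervalIntegral.integral_add_adjacent_intervals (cont c2 le_rfl m1 m2) (cont c2 m1 m2 le_rfl),
      ← intervalIntegral.integral_add_adjacent_intervals (cont c3 le_rfl m1 m2) (cont c3 m1 m2 le_rfl)]
    ring

/-- the error term: sum minus integral at height `τ` -/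
theorem rect_sum_err {g : ℂ → ℂ} {h : ℝ} (hh : 0 < h) {τ : ℝ} (hτ : |τ| ≤ h) (a : ℤ) (N : ℕ)
    (hg : ∀ z ∈ crect (a - 1 / 2) (a + N - 1 / 2) h, DifferentiableAt ℂ g z) {A B : ℝ}
    (hA : ∀ x : ℝ, (a : ℝ) - 1 / 2 ≤ x → x ≤ a + N - 1 / 2 →
      ‖g (x + h * I)‖ ≤ A ∧ ‖g (x - h * I)‖ ≤ A)
    (hB : ∀ y : ℝ, |y| ≤ h → ‖g (((a : ℝ) - 1 / 2 : ℝ) + y * I)‖ ≤ B * Real.exp (2 * Real.pi * |y|) ∧
      ‖g (((a : ℝ) + N - 1 / 2 : ℝ) + y * I)‖ ≤ B * Real.exp (2 * Real.pi * |y|))
    (hB' : ∀ y ∈ uIcc 0 τ, ‖g (((a : ℝ) - 1 / 2 : ℝ) + y * I)‖ ≤ B ∧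
      ‖g (((a : ℝ) + N - 1 / 2 : ℝ) + y * I)‖ ≤ B) :
    ‖∑ j ∈ Finset.range N, g (a + j) -
      ∫ x : ℝ in ((a : ℝ) - 1 / 2)..(a + N - 1 / 2), g (x + τ * I)‖ ≤
      2 * N * A * (Real.exp (-(2 * Real.pi) * h) / (1 - Real.exp (-(2 * Real.pi) * h))) +
        6 * h * B := by
  have hN : (0 : ℝ) ≤ N := Nat.cast_nonneg N
  set α : ℝ := (a : ℝ) - 1 / 2 with hα
  set β : ℝ := (a : ℝ) + N - 1 / 2 with hβ
  have hαβ : α ≤ β := by rw [hα, hβ]; linarith
  have hlen : β - α = N := by rw [hα, hβ]; ring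
  have hB0 : 0 ≤ B := (norm_nonneg _).trans (hB' 0 left_mem_uIcc).1
  set W : ℝ := Real.exp (-(2 * Real.pi) * h) / (1 - Real.exp (-(2 * Real.pi) * h)) with hW
  have hW0 : 0 ≤ W := by
    have h1 : Real.exp (-(2 * Real.pi) * h) ≤ 1 := by
      apply Real.exp_le_one_iff.mpr
      have := Real.pi_pos
      have : 0 < 2 * Real.pi * h := by positivity
      linarith
    exact div_nonneg (Real.exp_pos _).le (by linarith)
  have hsum := rect_sum hh a N hg
  rw [← hα, ← hβ] at hsum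
  -- shift
  have hshift : (∫ x : ℝ in α..β, g x) = (∫ x : ℝ in α..β, g (x + τ * I)) +
      I * (∫ y : ℝ in (0 : ℝ)..τ, g ((α : ℂ) + y * I)) -
      I * (∫ y : ℝ in (0 : ℝ)..τ, g ((β : ℂ) + y * I)) := by
    have hR := Complex.integral_boundary_rect_eq_zero_of_differentiableOn g
      (⟨α, 0⟩ : ℂ) (⟨β, τ⟩ : ℂ) (by
        rintro z ⟨hz1, hz2⟩
        simp only [mem_preimage, uIcc_of_le hαβ, mem_Icc] at hz1 hz2
        refine (hg z ⟨hz1.1, hz1.2, ?_⟩).differentiableWithinAt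
        refine le_trans ?_ hτ
        rcases le_total 0 τ with h0 | h0
        · rw [uIcc_of_le h0] at hz2
          rw [abs_of_nonneg hz2.1, abs_of_nonneg h0]
          exact hz2.2
        · rw [uIcc_of_ge h0] at hz2
          rw [abs_of_nonpos hz2.2, abs_of_nonpos h0]
          linarith [hz2.1])
    simp only [ofReal_zero, zero_mul, add_zero, smul_eq_mul] at hR
    linear_combination hR
  have hwk : ‖∫ x : ℝ in α..β, wk (x + h * I) * g (x + h * I)‖ ≤ W * A * N := by
    have := intervalIntegral.norm_integral_le_of_norm_le_const (a := α) (b := β)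
      (f := fun x : ℝ => wk (x + h * I) * g (x + h * I)) (C := W * A) (by
        intro x hx
        rw [uIoc_of_le hαβ] at hx
        rw [norm_mul]
        have h1 : 0 < ((x : ℂ) + h * I).im := by simpa using hh
        have h2 := norm_wk_le h1
        have h3 : ((x : ℂ) + h * I).im = h := by simp
        rw [h3] at h2
        exact mul_le_mul h2 (hA x hx.1.le hx.2).1 (norm_nonneg _) hW0)
    rwa [hlen, abs_of_nonneg hN] at this
  have hwk' : ‖∫ x : ℝ in α..β, wk (-x + h * I) * g (x - h * I)‖ ≤ W * A * N := by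
    have := intervalIntegral.norm_integral_le_of_norm_le_const (a := α) (b := β)
      (f := fun x : ℝ => wk (-x + h * I) * g (x - h * I)) (C := W * A) (by
        intro x hx
        rw [uIoc_of_le hαβ] at hx
        rw [norm_mul]
        have h1 : 0 < (-(x : ℂ) + h * I).im := by simpa using hh
        have h2 := norm_wk_le h1
        have h3 : (-(x : ℂ) + h * I).im = h := by simp
        rw [h3] at h2
        exact mul_le_mul h2 (hA x hx.1.le hx.2).2 (norm_nonneg _) hW0)
    rwa [hlen, abs_of_nonneg hN] at this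
  have hVs : ∀ ξ : ℝ, (∀ y : ℝ, |y| ≤ h → ‖g ((ξ : ℂ) + y * I)‖ ≤
      B * Real.exp (2 * Real.pi * |y|)) → ‖Vs g h ξ‖ ≤ 2 * B * h := by
    intro ξ hξ
    have := intervalIntegral.norm_integral_le_of_norm_le_const (a := 0) (b := h)
      (f := fun y : ℝ => (rho y : ℂ) * (g ((ξ : ℂ) + y * I) - g ((ξ : ℂ) - y * I)))
      (C := 2 * B) (by
        intro y hy
        rw [uIoc_of_le hh.le] at hy
        have hya : |y| ≤ h := by rw [abs_of_pos hy.1]; exact hy.2
        have hyb : |(-y)| ≤ h := by rw [abs_neg]; exact hya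
        have h1 := hξ y hya
        have h2 := hξ (-y) hyb
        rw [abs_neg] at h2
        rw [abs_of_pos hy.1] at h1 h2
        have e : (ξ : ℂ) - y * I = ξ + ((-y : ℝ) : ℂ) * I := by push_cast; ring
        rw [norm_mul, Complex.norm_real, Real.norm_eq_abs, abs_of_pos (rho_pos y), e]
        have h3 : ‖g ((ξ : ℂ) + y * I) - g ((ξ : ℂ) + ((-y : ℝ) : ℂ) * I)‖ ≤
            B * Real.exp (2 * Real.pi * y) + B * Real.exp (2 * Real.pi * y) :=
          (norm_sub_le _ _).trans (add_le_add h1 h2)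
        have h4 := rho_le y
        have h5 : Real.exp (-(2 * Real.pi) * y) * Real.exp (2 * Real.pi * y) = 1 := by
          rw [← Real.exp_add, show -(2 * Real.pi) * y + 2 * Real.pi * y = 0 by ring, Real.exp_zero]
        calc rho y * ‖g ((ξ : ℂ) + y * I) - g ((ξ : ℂ) + ((-y : ℝ) : ℂ) * I)‖
            ≤ Real.exp (-(2 * Real.pi) * y) *
              (B * Real.exp (2 * Real.pi * y) + B * Real.exp (2 * Real.pi * y)) :=
              mul_le_mul h4 h3 (norm_nonneg _) (Real.exp_pos _).le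
          _ = 2 * B * (Real.exp (-(2 * Real.pi) * y) * Real.exp (2 * Real.pi * y)) := by ring
          _ = 2 * B := by rw [h5, mul_one])
    rw [sub_zero, abs_of_pos hh] at this
    exact this
  have hτB : ∀ ξ : ℝ, (∀ y ∈ uIcc 0 τ, ‖g ((ξ : ℂ) + y * I)‖ ≤ B) →
      ‖∫ y : ℝ in (0 : ℝ)..τ, g ((ξ : ℂ) + y * I)‖ ≤ B * h := by
    intro ξ hξ
    have := intervalIntegral.norm_integral_le_of_norm_le_const (a := 0) (b := τ)
      (f := fun y : ℝ => g ((ξ : ℂ) + y * I)) (C := B) (fun y hy => hξ y (uIoc_subset_uIcc hy))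
    rw [sub_zero] at this
    exact this.trans (mul_le_mul_of_nonneg_left hτ hB0)
  have v1 := hVs α fun y hy => (hB y hy).1
  have v2 := hVs β fun y hy => (hB y hy).2
  have u1 := hτB α fun y hy => (hB' y hy).1
  have u2 := hτB β fun y hy => (hB' y hy).2
  have hfin : ∑ j ∈ Finset.range N, g (a + j) - ∫ x : ℝ in α..β, g (x + τ * I) =
      (∫ x : ℝ in α..β, wk (x + h * I) * g (x + h * I)) +
      (∫ x : ℝ in α..β, wk (-x + h * I) * g (x - h * I)) +
      I * (Vs g h β - Vs g h α) + I * ((∫ y : ℝ in (0 : ℝ)..τ, g ((α : ℂ) + y * I)) -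
        (∫ y : ℝ in (0 : ℝ)..τ, g ((β : ℂ) + y * I))) := by
    rw [hsum, hshift]
    ring
  rw [hfin]
  have n1 : ‖I * (Vs g h β - Vs g h α)‖ ≤ 2 * B * h + 2 * B * h := by
    rw [norm_mul, Complex.norm_I, one_mul]
    exact (norm_sub_le _ _).trans (add_le_add v2 v1)
  have n2 : ‖I * ((∫ y : ℝ in (0 : ℝ)..τ, g ((α : ℂ) + y * I)) -
        (∫ y : ℝ in (0 : ℝ)..τ, g ((β : ℂ) + y * I)))‖ ≤ B * h + B * h := by
    rw [norm_mul, Complex.norm_I, one_mul]
    exact (norm_sub_le _ _).trans (add_le_add u1 u2)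
  calc _ ≤ W * A * N + W * A * N + (2 * B * h + 2 * B * h) + (B * h + B * h) := by
        refine (norm_add_le _ _).trans (add_le_add ?_ n2)
        refine (norm_add_le _ _).trans (add_le_add ?_ n1)
        exact (norm_add_le _ _).trans (add_le_add hwk hwk')
    _ = 2 * N * A * W + 6 * h * B := by ring

end Pool.Agent.Work.MP_b30479_gt.VC
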